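import Pool.Agent.Helper29.NU.LL

/-! Antiderivatives of polynomial sequences, orbits of endomorphisms, functoriality. -/

set_option autoImplicit false
set_option linter.style.haveILetI false
set_option linter.unusedSectionVars false
set_option linter.unusedVariables false

open Subgroup
open scoped commutatorElement

namespace Pool.Agent.Helper29.NU

variable {K : Type*} [Group K]

/-- antiderivatives -/
theorem PP_antideriv {F : NS K} {w : ℕ} {f g : ℤ → K} (hg : g ∈ PP F (w + 1))
    (hf : ∀ n, f n ∈ F.A w) (h : ∀ n : ℤ, f (n + 1) = f n * g n) : f ∈ PP F w := by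
  have hpos : ∀ j : ℕ, (fun n : ℤ => (f n)⁻¹ * f (n + j)) ∈ PP F (w + 1) := by
    intro j
    induction j with
    | zero =>
      have e : (fun n : ℤ => (f n)⁻¹ * f (n + (0 : ℕ))) = 1 := by
        funext n
        show (f n)⁻¹ * f (n + (0 : ℕ)) = 1
        rw [Nat.cast_zero, add_zero, inv_mul_cancel]
      rw [e]
      exact one_mem _
    | succ j ih =>
      have e : (fun n : ℤ => (f n)⁻¹ * f (n + (j + 1 : ℕ))) =
          (fun n : ℤ => (f n)⁻¹ * f (n + j)) * sh j g := by
        funext n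
        show (f n)⁻¹ * f (n + (j + 1 : ℕ)) = (f n)⁻¹ * f (n + j) * g (n + j)
        rw [mul_assoc, ← h]
        congr 2
        push_cast
        ring
      rw [e]
      exact mul_mem ih (PP_sh hg _)
  have hall : ∀ l : ℤ, f⁻¹ * sh l f ∈ PP F (w + 1) := by
    intro l
    rcases le_total 0 l with hl | hl
    · obtain ⟨j, rfl⟩ := Int.eq_ofNat_of_zero_le hl
      exact hpos j
    · obtain ⟨j, hj⟩ := Int.eq_ofNat_of_zero_le (neg_nonneg.2 hl)
      have e : f⁻¹ * sh l f = sh l (fun n : ℤ => (f n)⁻¹ * f (n + j))⁻¹ := by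
        funext n
        show (f n)⁻¹ * f (n + l) = ((f (n + l))⁻¹ * f (n + l + j))⁻¹
        have e2 : n + l + j = n := by omega
        rw [e2, mul_inv_rev, inv_inv]
      rw [e]
      exact PP_sh (inv_mem (hpos j)) l
  refine PP_intro (fun w' p => p ∈ PP F w' ∨ (w' = w ∧ p = f)) ?_ ?_ (Or.inr ⟨rfl, rfl⟩)
  · rintro w' p (hp | ⟨rfl, rfl⟩) n
    · exact PP_val hp n
    · exact hf n
  · rintro w' p (hp | ⟨rfl, rfl⟩) l
    · exact Or.inl (PP_diff hp l)
    · exact Or.inl (hall l)

/-- the positive part of an antiderivative -/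
def up (x : K) (g : ℤ → K) : ℕ → K
  | 0 => x
  | n + 1 => up x g n * g n

/-- the negative part of an antiderivative -/
def dn (x : K) (g : ℤ → K) : ℕ → K
  | 0 => x
  | n + 1 => dn x g n * (g (-((n : ℤ) + 1)))⁻¹

/-- the antiderivative -/
def ad (x : K) (g : ℤ → K) (n : ℤ) : K := if 0 ≤ n then up x g n.toNat else dn x g (-n).toNat

theorem ad_nat (x : K) (g : ℤ → K) (n : ℕ) : ad x g n = up x g n := by
  rw [ad, if_pos (by omega), Int.toNat_natCast]

theorem ad_neg (x : K) (g : ℤ → K) (n : ℕ) : ad x g (-(n : ℤ)) = dn x g n := by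
  rcases n with _ | n
  · rw [Nat.cast_zero, neg_zero]
    rfl
  · rw [ad, if_neg (by omega), neg_neg, Int.toNat_natCast]

theorem ad_succ (x : K) (g : ℤ → K) (n : ℤ) : ad x g (n + 1) = ad x g n * g n := by
  rcases le_or_gt 0 n with h | h
  · obtain ⟨j, rfl⟩ := Int.eq_ofNat_of_zero_le h
    have h1 := ad_nat x g (j + 1)
    push_cast at h1
    rw [h1, ad_nat, up]
  · obtain ⟨j, hj⟩ := Int.eq_ofNat_of_zero_le (show 0 ≤ -(n + 1) by omega)
    have e : n = -((j + 1 : ℕ) : ℤ) := by
      push_cast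
      omega
    have e2 : n + 1 = -(j : ℤ) := by omega
    rw [e2, e, ad_neg, ad_neg, dn]
    have e3 : (-((j : ℤ) + 1)) = -((j + 1 : ℕ) : ℤ) := by
      push_cast
      rfl
    rw [e3, inv_mul_cancel_right]

theorem ad_zero (x : K) (g : ℤ → K) : ad x g 0 = x := ad_nat x g 0

/-- functoriality -/
theorem PP_map {L : Type*} [Group L] (φ : K →* L) {C : ℕ} (hC : 0 < C) {w : ℕ} {p : ℤ → K}
    (hp : p ∈ PP (slow K C hC) w) : (fun n => φ (p n)) ∈ PP (slow L C hC) w := by
  refine PP_intro (fun w q => ∃ p ∈ PP (slow K C hC) w, q = fun n => φ (p n)) ?_ ?_ ⟨p, hp, rfl⟩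
  · rintro w _ ⟨p, hp, rfl⟩ n
    have h1 := mem_map_of_mem φ (PP_val hp n)
    have h2 : ((slow K C hC).A w).map φ ≤ (slow L C hC).A w := by
      show ((⊤ : Subgroup K).lowerCentralSeries ((w - 1) / C)).map φ ≤
        (⊤ : Subgroup L).lowerCentralSeries ((w - 1) / C)
      rw [Subgroup.map_lowerCentralSeries]
      exact Subgroup.lowerCentralSeries_mono _ le_top
    exact h2 h1
  · rintro w _ ⟨p, hp, rfl⟩ h
    refine ⟨_, PP_diff hp h, ?_⟩
    funext n
    show (φ (p n))⁻¹ * φ (p (n + h)) = φ ((p n)⁻¹ * p (n + h))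
    rw [map_mul, map_inv]

section Orbit

variable {U : Type*} [Group U] (τ : U →* U)

/-- the difference map of an endomorphism -/
def DM (x : U) : U := x⁻¹ * τ x

theorem tau_DM (x : U) : τ x = x * DM τ x := by rw [DM, mul_inv_cancel_left]

theorem iter_tau_mul (n : ℕ) (x y : U) : (τ^[n]) (x * y) = (τ^[n]) x * (τ^[n]) y := by
  induction n generalizing x y with
  | zero => rfl
  | succ n ih => rw [Function.iterate_succ_apply, Function.iterate_succ_apply,
      Function.iterate_succ_apply, map_mul, ih]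

theorem iter_tau_one (n : ℕ) : (τ^[n]) (1 : U) = 1 := by
  induction n with
  | zero => rfl
  | succ n ih => rw [Function.iterate_succ_apply, map_one, ih]

theorem iter_tau_inv (n : ℕ) (x : U) : (τ^[n]) x⁻¹ = ((τ^[n]) x)⁻¹ := by
  rw [eq_inv_iff_mul_eq_one, ← iter_tau_mul, inv_mul_cancel, iter_tau_one]

/-- the orbit under an endomorphism -/
theorem orbit_succ (n : ℕ) (x : U) : (τ^[n + 1]) x = (τ^[n]) x * (τ^[n]) (DM τ x) := by
  rw [Function.iterate_succ_apply, tau_DM, iter_tau_mul]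

variable {τ} {u : U} {V : Subgroup U}

theorem orbit_mem (h : ∀ n : ℕ, (τ^[n]) (DM τ u) ∈ V) (i : ℕ) :
    ∀ n : ℕ, (τ^[n]) ((DM τ)^[i + 1] u) ∈ V := by
  induction i with
  | zero => exact h
  | succ i ih =>
    intro n
    rw [Function.iterate_succ_apply', DM, iter_tau_mul, iter_tau_inv]
    refine mul_mem (inv_mem (ih n)) ?_
    rw [← Function.iterate_succ_apply]
    exact ih (n + 1)

/-- **Orbits are polynomial.** -/
theorem orbit_poly {k : ℕ} (hk : (DM τ)^[k + 1] u = 1) (h : ∀ n : ℕ, (τ^[n]) (DM τ u) ∈ V) {C : ℕ}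
    (hC : k + 1 ≤ C) : ∃ p : ℤ → V, p ∈ PP (slow V C (by omega)) 1 ∧
    ∀ n : ℕ, (τ^[n]) u = u * (p n : U) := by
  have hC0 : 0 < C := by omega
  -- the orbits of the differences
  have key : ∀ j i : ℕ, i + j = k → ∀ w : ℕ, w + j ≤ C + 1 →
      ∃ p : ℤ → V, p ∈ PP (slow V C hC0) w ∧ ∀ n : ℕ, (τ^[n]) ((DM τ)^[i + 1] u) = p n := by
    intro j
    induction j with
    | zero =>
      intro i hi w _
      refine ⟨1, one_mem _, fun n => ?_⟩
      have e : i = k := by omega
      rw [e, hk, iter_tau_one]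
      rfl
    | succ j ih =>
      intro i hi w hw
      obtain ⟨g, hg, hgn⟩ := ih (i + 1) (by omega) (w + 1) (by omega)
      set x : V := ⟨(DM τ)^[i + 1] u, orbit_mem h i 0⟩ with hx
      refine ⟨ad x g, PP_antideriv hg (fun n => slow_top hC0 (by omega) _) (ad_succ x g), ?_⟩
      intro n
      rw [ad_nat]
      induction n with
      | zero => rfl
      | succ n ihn =>
        rw [orbit_succ, ihn, up]
        show _ = ((up x g n : V) : U) * (g n : U)
        rw [← hgn, Function.iterate_succ_apply' (DM τ) (i + 1)]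
  obtain ⟨g, hg, hgn⟩ := key k 0 (by omega) 2 (by omega)
  refine ⟨ad 1 g, PP_antideriv hg (fun n => slow_top hC0 (by omega) _) (ad_succ 1 g), ?_⟩
  intro n
  rw [ad_nat]
  induction n with
  | zero =>
    show u = u * 1
    rw [mul_one]
  | succ n ihn =>
    rw [orbit_succ, ihn, up]
    show u * ((up 1 g n : V) : U) * _ = u * (((up 1 g n : V) : U) * (g n : U))
    rw [← hgn, mul_assoc]
    rfl

end Orbit

end Pool.Agent.Helper29.NU
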