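import Mathlib

/-! Averages along residue classes. -/

set_option autoImplicit false

open Filter Topology Finset

namespace Pool.Agent.Helper29.NU

theorem block_sum {E : Type*} [AddCommMonoid E] (f : ℕ → E) (m M : ℕ) :
    ∑ n ∈ range (m * M), f n = ∑ r ∈ range m, ∑ n ∈ range M, f (m * n + r) := by
  induction M with
  | zero => simp
  | succ M ih =>
    rw [Nat.mul_succ, Finset.sum_range_add, ih, ← Finset.sum_add_distrib]
    refine Finset.sum_congr rfl fun r _ => ?_
    rw [Finset.sum_range_succ]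

theorem avg_res {a : ℕ → ℂ} {C : ℝ} (ha : ∀ n, ‖a n‖ ≤ C) {m : ℕ} (hm : 0 < m)
    (h : ∀ r < m, Tendsto (fun N : ℕ => (N : ℂ)⁻¹ * ∑ n ∈ range N, a (m * n + r)) atTop (𝓝 0)) :
    Tendsto (fun N : ℕ => (N : ℂ)⁻¹ * ∑ n ∈ range N, a n) atTop (𝓝 0) := by
  have hC : 0 ≤ C := (norm_nonneg _).trans (ha 0)
  have hdiv : Tendsto (fun N : ℕ => N / m) atTop atTop := Nat.tendsto_div_const_atTop hm.ne'
  have h1 : Tendsto (fun N : ℕ => ∑ r ∈ range m,
      ‖((N / m : ℕ) : ℂ)⁻¹ * ∑ n ∈ range (N / m), a (m * n + r)‖ + (m * C) / N)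
      atTop (𝓝 (∑ _r ∈ range m, 0 + 0)) := by
    refine Tendsto.add (tendsto_finsetSum _ fun r hr => ?_)
      (tendsto_const_div_atTop_nhds_zero_nat _)
    rw [← tendsto_zero_iff_norm_tendsto_zero]
    exact (h r (Finset.mem_range.1 hr)).comp hdiv
  rw [Finset.sum_const_zero, add_zero] at h1
  rw [tendsto_zero_iff_norm_tendsto_zero]
  refine squeeze_zero' (Eventually.of_forall fun N => norm_nonneg _) ?_ h1
  filter_upwards [eventually_ge_atTop m] with N hN
  have hN0 : (0 : ℝ) < N := by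
    have : 0 < N := by omega
    exact_mod_cast this
  have hM0 : (0 : ℝ) < ((N / m : ℕ) : ℝ) := by
    have : 0 < N / m := Nat.div_pos hN hm
    exact_mod_cast this
  have e1 : N = m * (N / m) + N % m := (Nat.div_add_mod N m).symm
  have e2 : ∑ n ∈ range N, a n = ∑ r ∈ range m, ∑ n ∈ range (N / m), a (m * n + r) +
      ∑ n ∈ range (N % m), a (m * (N / m) + n) := by
    conv_lhs => rw [e1, Finset.sum_range_add, block_sum]
  have e3 : ‖∑ n ∈ range (N % m), a (m * (N / m) + n)‖ ≤ m * C := by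
    refine (norm_sum_le _ _).trans ?_
    calc ∑ n ∈ range (N % m), ‖a (m * (N / m) + n)‖ ≤ ∑ _n ∈ range (N % m), C :=
          Finset.sum_le_sum fun n _ => ha _
      _ = ((N % m : ℕ) : ℝ) * C := by rw [Finset.sum_const, card_range, nsmul_eq_mul]
      _ ≤ m * C := by
          refine mul_le_mul_of_nonneg_right ?_ hC
          exact_mod_cast (Nat.mod_lt N hm).le
  have hMN : ((N / m : ℕ) : ℝ) ≤ N := by exact_mod_cast Nat.div_le_self N m
  rw [norm_mul, norm_inv, Complex.norm_natCast, e2, inv_mul_eq_div]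
  calc ‖∑ r ∈ range m, ∑ n ∈ range (N / m), a (m * n + r) +
        ∑ n ∈ range (N % m), a (m * (N / m) + n)‖ / N
      ≤ (∑ r ∈ range m, ‖∑ n ∈ range (N / m), a (m * n + r)‖ + m * C) / N := by
        refine div_le_div_of_nonneg_right ?_ hN0.le
        exact (norm_add_le _ _).trans (add_le_add (norm_sum_le _ _) e3)
    _ = (∑ r ∈ range m, ‖∑ n ∈ range (N / m), a (m * n + r)‖) / N + m * C / N := add_div _ _ _
    _ ≤ ∑ r ∈ range m, ‖((N / m : ℕ) : ℂ)⁻¹ * ∑ n ∈ range (N / m), a (m * n + r)‖ +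
        m * C / N := by
        gcongr
        rw [Finset.sum_div]
        refine Finset.sum_le_sum fun r _ => ?_
        rw [norm_mul, norm_inv, Complex.norm_natCast, inv_mul_eq_div]
        exact div_le_div_of_nonneg_left (norm_nonneg _) hM0 hMN

end Pool.Agent.Helper29.NU
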