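import Pool.Agent.Helper29.NU.HL

/-! Baer's theorem: in a group whose subgroups are all finitely generated, the conjugates of a left
Engel element generate a nilpotent group. -/

set_option autoImplicit false
set_option linter.style.haveILetI false
set_option linter.unusedSectionVars false
set_option linter.unusedVariables false

open Subgroup
open scoped commutatorElement

namespace Pool.Agent.Helper29.NU

section

variable {Q : Type*} [Group Q]

theorem wf_of_fg (hN : ∀ K : Subgroup Q, K.FG) : WellFoundedGT (Subgroup Q) := by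
  classical
  rw [wellFoundedGT_iff_monotone_chain_condition]
  intro a
  obtain ⟨T, hT⟩ := hN (⨆ n, a n)
  have hmem : ∀ x, x ∈ (⨆ n, a n) ↔ ∃ n, x ∈ a n := fun x =>
    Subgroup.mem_iSup_of_directed (a.monotone.directed_le)
  have h1 : ∀ t ∈ T, ∃ n, t ∈ a n := by
    intro t ht
    rw [← hmem, ← hT]
    exact subset_closure ht
  choose! f hf using h1
  refine ⟨T.sup f, fun m hm => le_antisymm (a.monotone hm) ?_⟩
  have h2 : (⨆ n, a n) ≤ a (T.sup f) := by
    rw [← hT, closure_le]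
    intro t ht
    exact a.monotone (Finset.le_sup ht) (hf t ht)
  exact (le_iSup (fun n => a n) m).trans h2

/-- the normalizer condition for subgroups -/
theorem norm_cond {U H : Subgroup Q} (hU : Group.IsNilpotent U) (hH : H ≤ U) (hne : H ≠ U) :
    ∃ g ∈ U, g ∉ H ∧ ∀ x, x ∈ H ↔ g * x * g⁻¹ ∈ H := by
  have h1 : H.subgroupOf U < ⊤ := by
    rw [lt_top_iff_ne_top]
    intro h
    rw [subgroupOf_eq_top] at h
    exact hne (le_antisymm hH h)
  have h2 := (Group.normalizerCondition_of_isNilpotent (h := hU)) (H.subgroupOf U) h1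
  obtain ⟨g, hg1, hg2⟩ := SetLike.exists_of_lt h2
  rw [Subgroup.mem_normalizer_iff] at hg1
  refine ⟨g, g.2, fun h => hg2 h, ?_⟩
  have key : ∀ x ∈ U, (x ∈ H ↔ g * x * (g : Q)⁻¹ ∈ H) := fun x hx => hg1 ⟨x, hx⟩
  intro x
  constructor
  · intro hx
    exact (key x (hH hx)).1 hx
  · intro hx
    have hxU : x ∈ U := by
      have h3 : (g : Q)⁻¹ * (g * x * (g : Q)⁻¹) * g ∈ U :=
        mul_mem (mul_mem (inv_mem g.2) (hH hx)) g.2
      have e : (g : Q)⁻¹ * (g * x * (g : Q)⁻¹) * g = x := by group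
      rwa [e] at h3
    exact (key x hxU).2 hx

/-- conjugation invariant sets -/
def CInv (S : Set Q) : Prop := ∀ s ∈ S, ∀ g : Q, g * s * g⁻¹ ∈ S

/-- nilpotent subgroups which are generated by elements of `S` -/
def TT (S : Set Q) : Set (Subgroup Q) := {U | closure (S ∩ U) = U ∧ Group.IsNilpotent U}

theorem TT_conj {S : Set Q} (hS : CInv S) {U : Subgroup Q} (hU : U ∈ TT S) (g : Q) :
    U.map (MulAut.conj g).toMonoidHom ∈ TT S := by
  refine ⟨?_, ?_⟩
  · refine le_antisymm ?_ ?_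
    · rw [closure_le]
      exact fun x hx => hx.2
    · conv_lhs => rw [← hU.1]
      rw [MonoidHom.map_closure, closure_le]
      rintro _ ⟨x, ⟨hxS, hxU⟩, rfl⟩
      exact subset_closure ⟨hS x hxS g, ⟨x, hxU, rfl⟩⟩
  · haveI := hU.2
    exact Group.nilpotent_of_surjective ((MulAut.conj g).toMonoidHom.subgroupMap U)
      ((MulAut.conj g).toMonoidHom.subgroupMap_surjective U)

/-- maximal elements -/
def MM (S : Set Q) : Set (Subgroup Q) := {U | U ∈ TT S ∧ ∀ V ∈ TT S, U ≤ V → V = U}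

theorem MM_conj {S : Set Q} (hS : CInv S) {U : Subgroup Q} (hU : U ∈ MM S) (g : Q) :
    U.map (MulAut.conj g).toMonoidHom ∈ MM S := by
  refine ⟨TT_conj hS hU.1 g, fun V hV hle => ?_⟩
  have h1 : U ≤ V.map (MulAut.conj g⁻¹).toMonoidHom := by
    intro x hx
    refine ⟨g * x * g⁻¹, hle ⟨x, hx, rfl⟩, ?_⟩
    show g⁻¹ * (g * x * g⁻¹) * g⁻¹⁻¹ = x
    group
  have h2 := hU.2 _ (TT_conj hS hV g⁻¹) h1
  rw [← h2]
  ext x
  constructor
  · intro hx
    refine ⟨g⁻¹ * x * g, ⟨x, hx, ?_⟩, ?_⟩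
    · show g⁻¹ * x * g⁻¹⁻¹ = g⁻¹ * x * g
      rw [inv_inv]
    · show g * (g⁻¹ * x * g) * g⁻¹ = x
      group
  · rintro ⟨_, ⟨y, hy, rfl⟩, rfl⟩
    have e : (MulAut.conj g).toMonoidHom ((MulAut.conj g⁻¹).toMonoidHom y) = y := by
      show g * (g⁻¹ * y * g⁻¹⁻¹) * g⁻¹ = y
      group
    rwa [e]

theorem MM_exists (hN : ∀ K : Subgroup Q, K.FG) {S : Set Q} {U : Subgroup Q} (hU : U ∈ TT S) :
    ∃ M ∈ MM S, U ≤ M := by
  haveI := wf_of_fg hN
  obtain ⟨M, ⟨hM, hUM⟩, hmax⟩ := (wellFounded_gt (α := Subgroup Q)).has_min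
    {V | V ∈ TT S ∧ U ≤ V} ⟨U, hU, le_rfl⟩
  refine ⟨M, ⟨hM, fun V hV hMV => ?_⟩, hUM⟩
  by_contra hne
  exact hmax V ⟨hV, hUM.trans hMV⟩ (lt_of_le_of_ne hMV (Ne.symm hne))

/-- the one-sided step -/
theorem side {S : Set Q} (hS : CInv S) {U V : Subgroup Q} (hU : U ∈ MM S) (hV : V ∈ MM S)
    (hne : U ≠ V) : ∃ u ∈ S, u ∈ U ∧ u ∉ V ∧
      ∀ x, x ∈ closure (S ∩ U ∩ V) ↔ u * x * u⁻¹ ∈ closure (S ∩ U ∩ V) := by
  set W := closure (S ∩ U ∩ V) with hW
  have hWU : W ≤ U := by
    rw [hW, closure_le]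
    exact fun x hx => hx.1.2
  have hWV : W ≤ V := by
    rw [hW, closure_le]
    exact fun x hx => hx.2
  set N : Subgroup Q := U ⊓ normalizer (W : Set Q) with hN
  have hmemN : ∀ x, x ∈ N ↔ x ∈ U ∧ ∀ y, y ∈ W ↔ x * y * x⁻¹ ∈ W := by
    intro x
    rw [hN, mem_inf, Subgroup.mem_normalizer_iff]
  have hWN : W ≤ N := by
    rw [hN, le_inf_iff]
    exact ⟨hWU, Subgroup.le_normalizer⟩
  by_contra hcon
  push Not at hcon
  have hSN : ∀ x ∈ S, x ∈ N → x ∈ W := by
    intro x hxS hxN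
    by_contra hxW
    obtain ⟨hxU, hx⟩ := (hmemN x).1 hxN
    have hxV : x ∉ V := fun h => hxW (subset_closure ⟨⟨hxS, hxU⟩, h⟩)
    obtain ⟨y, hy⟩ := hcon x hxS hxU hxV
    rcases hy with ⟨h1, h2⟩ | ⟨h1, h2⟩
    · exact h2 ((hx y).1 h1)
    · exact h1 ((hx y).2 h2)
  have hNU : N = U := by
    by_contra hne'
    obtain ⟨g, hgU, hgN, hg⟩ := norm_cond hU.1.2 inf_le_left hne'
    refine hgN ((hmemN g).2 ⟨hgU, ?_⟩)
    have h1 : ∀ g : Q, (∀ x, x ∈ N ↔ g * x * g⁻¹ ∈ N) → ∀ y ∈ W, g * y * g⁻¹ ∈ W := by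
      intro g hg y hy
      have h2 : W ≤ W.comap (MulAut.conj g).toMonoidHom := by
        conv_lhs => rw [hW]
        rw [closure_le]
        rintro z ⟨⟨hzS, hzU⟩, hzV⟩
        have h3 : z ∈ N := hWN (subset_closure ⟨⟨hzS, hzU⟩, hzV⟩)
        exact hSN _ (hS z hzS g) ((hg z).1 h3)
      exact h2 hy
    intro y
    constructor
    · exact h1 g hg y
    · intro hy
      have h3 : ∀ x, x ∈ N ↔ g⁻¹ * x * g⁻¹⁻¹ ∈ N := by
        intro x
        rw [hg (g⁻¹ * x * g⁻¹⁻¹)]
        have e : g * (g⁻¹ * x * g⁻¹⁻¹) * g⁻¹ = x := by group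
        rw [e]
      have h4 := h1 g⁻¹ h3 _ hy
      have e : g⁻¹ * (g * y * g⁻¹) * g⁻¹⁻¹ = y := by group
      rwa [e] at h4
  have hUW : U ≤ W := by
    rw [← hU.1.1, closure_le]
    rintro x ⟨hxS, hxU⟩
    exact hSN x hxS (by rw [hNU]; exact hxU)
  exact hne (hU.2 V hV.1 (hUW.trans hWV)).symm

/-- left Engel elements -/
def LEng (s : Q) : Prop := ∀ x : Q, ∃ k : ℕ, (En s)^[k] x = 1

theorem LEng.conj {s : Q} (h : LEng s) (g : Q) : LEng (g * s * g⁻¹) := by
  intro x
  obtain ⟨k, hk⟩ := h (g⁻¹ * x * g)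
  refine ⟨k, ?_⟩
  have e : x = g * (g⁻¹ * x * g) * g⁻¹ := by group
  rw [e, En_conj_iter, hk]
  group

/-- adding a normalizing Engel element of `S` to a maximal group -/
theorem absorb (hN : ∀ K : Subgroup Q, K.FG) {S : Set Q} (hE : ∀ s ∈ S, LEng s) {V : Subgroup Q}
    (hV : V ∈ MM S) {s : Q} (hs : s ∈ S) (hsV : ∀ x, x ∈ V ↔ s * x * s⁻¹ ∈ V) : s ∈ V := by
  have h1 := nil_ext hV.1.2 (fun A _ => hN A) hsV fun x _ => hE s hs x
  have h2 : closure ((V : Set Q) ∪ {s}) ∈ TT S := by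
    refine ⟨?_, h1⟩
    refine le_antisymm ?_ ?_
    · rw [closure_le]
      exact fun x hx => hx.2
    · rw [closure_le]
      rintro x (hx | rfl)
      · have h3 : V ≤ closure (S ∩ (closure ((V : Set Q) ∪ {s}) : Subgroup Q)) := by
          conv_lhs => rw [← hV.1.1]
          refine Subgroup.closure_mono ?_
          rintro y ⟨hyS, hyV⟩
          exact ⟨hyS, subset_closure (Or.inl hyV)⟩
        exact h3 hx
      · exact subset_closure ⟨hs, subset_closure (Or.inr rfl)⟩
  have h3 := hV.2 _ h2 (fun x hx => subset_closure (Or.inl hx))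
  rw [← h3]
  exact subset_closure (Or.inr rfl)

theorem unique_max (hN : ∀ K : Subgroup Q, K.FG) {S : Set Q} (hS : CInv S)
    (hE : ∀ s ∈ S, LEng s) {U V : Subgroup Q} (hU : U ∈ MM S) (hV : V ∈ MM S) : U = V := by
  haveI := wf_of_fg hN
  by_contra hne0
  -- a pair with maximal intersection
  obtain ⟨W, ⟨U, V, hU, hV, hne, rfl⟩, hmax⟩ := (wellFounded_gt (α := Subgroup Q)).has_min
    {W | ∃ U V : Subgroup Q, U ∈ MM S ∧ V ∈ MM S ∧ U ≠ V ∧ W = closure (S ∩ U ∩ V)}
    ⟨_, U, V, hU, hV, hne0, rfl⟩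
  obtain ⟨u, huS, huU, huV, hu⟩ := side hS hU hV hne
  obtain ⟨v, hvS, hvV, hvU, hv'⟩ := side hS hV hU (Ne.symm hne)
  have hcomm : S ∩ (V : Set Q) ∩ U = S ∩ U ∩ V := by
    rw [Set.inter_assoc, Set.inter_assoc, Set.inter_comm (V : Set Q)]
  rw [hcomm] at hv'
  set W := closure (S ∩ U ∩ V) with hW
  have hv : ∀ x, x ∈ W ↔ v * x * v⁻¹ ∈ W := hv'
  have hvW : v ∉ W := by
    intro h
    have h1 : W ≤ U := by
      rw [hW, closure_le]
      exact fun x hx => hx.1.2
    exact hvU (h1 h)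
  have hunorm : u ∈ normalizer (W : Set Q) := Subgroup.mem_normalizer_iff.2 hu
  have hvnorm : v ∈ normalizer (W : Set Q) := Subgroup.mem_normalizer_iff.2 hv
  have hwnorm : ∀ i, (En v)^[i] u ∈ normalizer (W : Set Q) := by
    intro i
    induction i with
    | zero => exact hunorm
    | succ i ih =>
      rw [Function.iterate_succ_apply', En]
      exact mul_mem (mul_mem (mul_mem (inv_mem ih) hvnorm) ih) (inv_mem hvnorm)
  obtain ⟨n, hn⟩ := hE v hvS u
  -- all the commutators normalize `V`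
  have key : ∀ j i : ℕ, i + j = n → (En v)^[i] u ∈ normalizer (V : Set Q) := by
    intro j
    induction j with
    | zero =>
      intro i hi
      rw [show i = n by omega, hn]
      exact one_mem _
    | succ j ih =>
      intro i hi
      have h1 := ih (i + 1) (by omega)
      set w := (En v)^[i] u with hw
      rw [Function.iterate_succ_apply', ← hw] at h1
      have hwW := hwnorm i
      rw [← hw] at hwW
      -- `w⁻¹ v w` is in `V`
      have h2 : w⁻¹ * v * w = En v w * v := by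
        rw [En, inv_mul_cancel_right]
      have h3 : w⁻¹ * v * w ∈ S := by
        have h4 := hS v hvS w⁻¹
        rwa [inv_inv] at h4
      have h4 : w⁻¹ * v * w ∈ normalizer (V : Set Q) := by
        rw [h2]
        exact mul_mem h1 (Subgroup.le_normalizer hvV)
      have h5 : w⁻¹ * v * w ∈ V := absorb hN hE hV h3 (Subgroup.mem_normalizer_iff.1 h4)
      -- the conjugate of `V`
      set V' := V.map (MulAut.conj w⁻¹).toMonoidHom with hV'
      have hV'M : V' ∈ MM S := MM_conj hS hV w⁻¹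
      have h6 : V = V' := by
        by_contra hne'
        refine hmax (closure (S ∩ V ∩ V')) ⟨V, V', hV, hV'M, hne', rfl⟩ ?_
        refine lt_of_le_of_ne ?_ ?_
        · rw [hW]
          refine Subgroup.closure_mono ?_
          rintro x ⟨⟨hxS, hxU⟩, hxV⟩
          refine ⟨⟨hxS, hxV⟩, w * x * w⁻¹, ?_, ?_⟩
          · have h7 : x ∈ W := subset_closure ⟨⟨hxS, hxU⟩, hxV⟩
            have h8 : w * x * w⁻¹ ∈ W := (Subgroup.mem_normalizer_iff.1 hwW x).1 h7
            have h9 : W ≤ V := by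
              rw [hW, closure_le]
              exact fun x hx => hx.2
            exact h9 h8
          · show w⁻¹ * (w * x * w⁻¹) * w⁻¹⁻¹ = x
            group
        · intro he
          have h7 : w⁻¹ * v * w ∈ W := by
            rw [he]
            refine subset_closure ⟨⟨h3, h5⟩, v, hvV, ?_⟩
            show w⁻¹ * v * w⁻¹⁻¹ = w⁻¹ * v * w
            rw [inv_inv]
          have h8 := (Subgroup.mem_normalizer_iff.1 hwW _).1 h7
          have e : w * (w⁻¹ * v * w) * w⁻¹ = v := by group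
          rw [e] at h8
          exact hvW h8
      rw [Subgroup.mem_normalizer_iff]
      intro x
      constructor
      · intro hx
        rw [h6] at hx
        obtain ⟨y, hy, rfl⟩ := hx
        show w * (w⁻¹ * y * w⁻¹⁻¹) * w⁻¹ ∈ V
        have e : w * (w⁻¹ * y * w⁻¹⁻¹) * w⁻¹ = y := by group
        rwa [e]
      · intro hx
        rw [h6]
        refine ⟨w * x * w⁻¹, hx, ?_⟩
        show w⁻¹ * (w * x * w⁻¹) * w⁻¹⁻¹ = x
        group
  have h1 := key n 0 (by omega)
  exact huV (absorb hN hE hV huS (Subgroup.mem_normalizer_iff.1 h1))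

/-- **Baer's theorem.** -/
theorem baer (hN : ∀ K : Subgroup Q, K.FG) {a : Q} (ha : LEng a) :
    Group.IsNilpotent (normalClosure {a} : Subgroup Q) := by
  set S : Set Q := {s | ∃ g : Q, s = g * a * g⁻¹} with hSdef
  have hS : CInv S := by
    rintro _ ⟨h, rfl⟩ g
    exact ⟨g * h, by group⟩
  have hE : ∀ s ∈ S, LEng s := by
    rintro _ ⟨g, rfl⟩
    exact ha.conj g
  have haS : a ∈ S := ⟨1, by group⟩
  have hcyc : ∀ s ∈ S, closure {s} ∈ TT S := by
    intro s hs
    refine ⟨?_, ?_⟩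
    · refine le_antisymm ?_ ?_
      · rw [closure_le]
        exact fun x hx => hx.2
      · rw [closure_le]
        rintro _ rfl
        exact subset_closure ⟨hs, subset_closure rfl⟩
    · refine (Subgroup.isNilpotent_iff_lowerCentralSeries _).2 ⟨1, ?_⟩
      rw [Subgroup.lowerCentralSeries_succ, Subgroup.lowerCentralSeries_zero, eq_bot_iff,
        commutator_le]
      intro x hx y hy
      rw [mem_closure_singleton] at hx hy
      obtain ⟨n, rfl⟩ := hx
      obtain ⟨m, rfl⟩ := hy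
      rw [mem_bot, commutatorElement_eq_one_iff_commute]
      exact Commute.zpow_zpow_self s n m
  obtain ⟨M, hM, haM⟩ := MM_exists hN (hcyc a haS)
  have hall : normalClosure {a} ≤ M := by
    rw [normalClosure, closure_le]
    intro s hs
    rw [Group.mem_conjugatesOfSet_iff] at hs
    obtain ⟨b, hb, hbs⟩ := hs
    rw [Set.mem_singleton_iff] at hb
    subst hb
    obtain ⟨g, hg⟩ := isConj_iff.1 hbs
    have hsS : s ∈ S := ⟨g, hg.symm⟩
    obtain ⟨M', hM', hsM'⟩ := MM_exists hN (hcyc s hsS)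
    rw [unique_max hN hS hE hM hM']
    exact hsM' (subset_closure rfl)
  haveI := hM.1.2
  exact Group.nilpotent_of_mulEquiv (Subgroup.subgroupOfEquivOfLe hall)

end

end Pool.Agent.Helper29.NU
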