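import Mathlib

/-! Bounded sequences in a Hilbert space with the mean inner product along an ultrafilter. -/

set_option autoImplicit false
set_option linter.style.haveILetI false

open Filter Topology Finset

namespace Pool.Agent.Helper29.NU

universe u

/-- limit along an ultrafilter -/
noncomputable def ul (U : Ultrafilter ℕ) (f : ℕ → ℂ) : ℂ := limUnder (U : Filter ℕ) f

theorem ul_eq {U : Ultrafilter ℕ} {f : ℕ → ℂ} {a : ℂ} (h : Tendsto f U (𝓝 a)) : ul U f = a :=
  h.limUnder_eq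

theorem ul_tendsto {U : Ultrafilter ℕ} {f : ℕ → ℂ} {C : ℝ} (h : ∀ n, ‖f n‖ ≤ C) :
    Tendsto f U (𝓝 (ul U f)) := by
  have h1 : ∃ a : ℂ, Tendsto f U (𝓝 a) := by
    obtain ⟨a, -, ha⟩ := (isCompact_closedBall (0 : ℂ) C).ultrafilter_le_nhds (U.map f) (by
      rw [Ultrafilter.coe_map, le_principal_iff, Filter.mem_map]
      exact Filter.univ_mem' fun n => by simpa using h n)
    exact ⟨a, ha⟩
  obtain ⟨a, ha⟩ := h1
  rwa [ul_eq ha]

variable {H : Type u} [NormedAddCommGroup H] [InnerProductSpace ℂ H]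

/-- the mean inner products -/
noncomputable def pa (u v : ℤ → H) (N : ℕ) : ℂ :=
  (N : ℂ)⁻¹ * ∑ n ∈ range N, inner ℂ (u n) (v n)

theorem pa_bound {u v : ℤ → H} {C D : ℝ} (hu : ∀ n, ‖u n‖ ≤ C) (hv : ∀ n, ‖v n‖ ≤ D) (N : ℕ) :
    ‖pa u v N‖ ≤ C * D := by
  have hC : 0 ≤ C := (norm_nonneg _).trans (hu 0)
  have hD : 0 ≤ D := (norm_nonneg _).trans (hv 0)
  rw [pa, norm_mul, norm_inv, Complex.norm_natCast]
  rcases Nat.eq_zero_or_pos N with rfl | hN
  · simp only [CharP.cast_eq_zero, inv_zero, zero_mul]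
    positivity
  · have hN' : (0 : ℝ) < N := by exact_mod_cast hN
    rw [inv_mul_le_iff₀ hN']
    refine (norm_sum_le _ _).trans ?_
    calc ∑ n ∈ range N, ‖inner ℂ (u n) (v n)‖ ≤ ∑ _n ∈ range N, C * D := by
          refine Finset.sum_le_sum fun n _ => ?_
          exact (norm_inner_le_norm _ _).trans (mul_le_mul (hu _) (hv _) (norm_nonneg _) hC)
      _ = N * (C * D) := by rw [Finset.sum_const, card_range, nsmul_eq_mul]

variable (H) in
/-- bounded sequences -/
def BD : Submodule ℂ (ℤ → H) where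
  carrier := {f | ∃ C : ℝ, ∀ n, ‖f n‖ ≤ C}
  zero_mem' := ⟨0, fun n => by simp⟩
  add_mem' := by
    rintro a b ⟨C, hC⟩ ⟨D, hD⟩
    exact ⟨C + D, fun n => (norm_add_le _ _).trans (add_le_add (hC n) (hD n))⟩
  smul_mem' := by
    rintro c a ⟨C, hC⟩
    refine ⟨‖c‖ * C, fun n => ?_⟩
    rw [Pi.smul_apply, norm_smul]
    exact mul_le_mul_of_nonneg_left (hC n) (norm_nonneg _)

/-- bounded sequences, with the inner product along the ultrafilter -/
def Pre (_U : Ultrafilter ℕ) (H : Type u) [NormedAddCommGroup H] [InnerProductSpace ℂ H] :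
    Type u := BD H

instance (U : Ultrafilter ℕ) : AddCommGroup (Pre U H) := inferInstanceAs (AddCommGroup (BD H))

instance (U : Ultrafilter ℕ) : Module ℂ (Pre U H) := inferInstanceAs (Module ℂ (BD H))

/-- the underlying sequence -/
def Pre.seq {U : Ultrafilter ℕ} (x : Pre U H) : ℤ → H := Subtype.val (p := fun f => f ∈ BD H) x

theorem Pre.bdd {U : Ultrafilter ℕ} (x : Pre U H) : ∃ C : ℝ, ∀ n, ‖x.seq n‖ ≤ C :=
  Subtype.property (p := fun f => f ∈ BD H) x

/-- a bounded sequence as an element -/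
def Pre.mk {U : Ultrafilter ℕ} (f : ℤ → H) (hf : ∃ C : ℝ, ∀ n, ‖f n‖ ≤ C) : Pre U H :=
  (⟨f, hf⟩ : BD H)

theorem Pre.ext {U : Ultrafilter ℕ} {x y : Pre U H} (h : ∀ n, x.seq n = y.seq n) : x = y :=
  Subtype.ext (funext h)

theorem pa_tendsto {U : Ultrafilter ℕ} (x y : Pre U H) :
    Tendsto (pa x.seq y.seq) U (𝓝 (ul U (pa x.seq y.seq))) := by
  obtain ⟨C, hC⟩ := x.bdd
  obtain ⟨D, hD⟩ := y.bdd
  exact ul_tendsto fun N => pa_bound hC hD N

/-- the inner product -/
@[instance_reducible]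
noncomputable def preCore (U : Ultrafilter ℕ) : PreInnerProductSpace.Core ℂ (Pre U H) where
  inner x y := ul U (pa x.seq y.seq)
  conj_inner_symm x y := by
    symm
    apply ul_eq
    have h1 := (Complex.continuous_conj.tendsto _).comp (pa_tendsto y x)
    refine h1.congr fun N => ?_
    simp only [Function.comp_apply, pa, map_mul, map_inv₀, map_sum, Complex.conj_natCast]
    congr 1
    exact Finset.sum_congr rfl fun n _ => inner_conj_symm _ _
  re_inner_nonneg x := by
    have h1 := (Complex.continuous_re.tendsto _).comp (pa_tendsto x x)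
    refine ge_of_tendsto' h1 fun N => ?_
    simp only [Function.comp_apply, pa]
    have h2 : ∑ n ∈ range N, inner ℂ (x.seq n) (x.seq n) =
        ((∑ n ∈ range N, ‖x.seq n‖ ^ 2 : ℝ) : ℂ) := by
      push_cast
      exact Finset.sum_congr rfl fun n _ => inner_self_eq_norm_sq_to_K _
    rw [h2]
    have h3 : (N : ℂ)⁻¹ * ((∑ n ∈ range N, ‖x.seq n‖ ^ 2 : ℝ) : ℂ) =
        (((N : ℝ)⁻¹ * ∑ n ∈ range N, ‖x.seq n‖ ^ 2 : ℝ) : ℂ) := by
      push_cast
      rfl
    rw [h3, Complex.ofReal_re]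
    positivity
  add_left x y z := by
    apply ul_eq
    refine ((pa_tendsto x z).add (pa_tendsto y z)).congr fun N => ?_
    simp only [pa]
    rw [← mul_add, ← Finset.sum_add_distrib]
    congr 1
    exact Finset.sum_congr rfl fun n _ => (inner_add_left _ _ _).symm
  smul_left x y r := by
    apply ul_eq
    refine ((pa_tendsto x y).const_mul ((starRingEnd ℂ) r)).congr fun N => ?_
    simp only [pa]
    rw [mul_left_comm, Finset.mul_sum]
    congr 1
    exact Finset.sum_congr rfl fun n _ => (inner_smul_left _ _ _).symm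

noncomputable instance (U : Ultrafilter ℕ) : SeminormedAddCommGroup (Pre U H) :=
  @InnerProductSpace.Core.toSeminormedAddCommGroup ℂ (Pre U H) _ _ _ (preCore U)

noncomputable instance (U : Ultrafilter ℕ) : InnerProductSpace ℂ (Pre U H) :=
  InnerProductSpace.ofCore (preCore U)

theorem pre_inner {U : Ultrafilter ℕ} (x y : Pre U H) : inner ℂ x y = ul U (pa x.seq y.seq) := rfl

/-- The mean inner product is invariant under shifts. -/
theorem ul_shift {U : Ultrafilter ℕ} (hU : (U : Filter ℕ) ≤ atTop) (a : ℤ → ℂ) {C : ℝ}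
    (ha : ∀ n, ‖a n‖ ≤ C) (k : ℤ) :
    ul U (fun N => (N : ℂ)⁻¹ * ∑ n ∈ range N, a (n + k)) =
      ul U (fun N => (N : ℂ)⁻¹ * ∑ n ∈ range N, a n) := by
  have hC : 0 ≤ C := (norm_nonneg _).trans (ha 0)
  have hb : ∀ (b : ℤ → ℂ), (∀ n, ‖b n‖ ≤ C) → ∀ N : ℕ,
      ‖(N : ℂ)⁻¹ * ∑ n ∈ range N, b n‖ ≤ C := by
    intro b hb N
    rw [norm_mul, norm_inv, Complex.norm_natCast]
    rcases Nat.eq_zero_or_pos N with rfl | hN
    · simpa using hC
    · have hN' : (0 : ℝ) < N := by exact_mod_cast hN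
      rw [inv_mul_le_iff₀ hN']
      refine (norm_sum_le _ _).trans ?_
      calc ∑ n ∈ range N, ‖b n‖ ≤ ∑ _n ∈ range N, C := Finset.sum_le_sum fun n _ => hb _
        _ = N * C := by rw [Finset.sum_const, card_range, nsmul_eq_mul]
  have h1 : ∀ (b : ℤ → ℂ), (∀ n, ‖b n‖ ≤ C) →
      ul U (fun N => (N : ℂ)⁻¹ * ∑ n ∈ range N, b (n + 1)) =
      ul U (fun N => (N : ℂ)⁻¹ * ∑ n ∈ range N, b n) := by
    intro b hb'
    apply ul_eq
    have h2 : Tendsto (fun N : ℕ => (N : ℂ)⁻¹ * (b N - b 0)) U (𝓝 0) := by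
      refine Tendsto.mono_left ?_ hU
      rw [tendsto_zero_iff_norm_tendsto_zero]
      have h3 : Tendsto (fun N : ℕ => (2 * C) / (N : ℝ)) atTop (𝓝 0) :=
        tendsto_const_div_atTop_nhds_zero_nat _
      refine squeeze_zero (fun _ => norm_nonneg _) (fun N => ?_) h3
      rw [norm_mul, norm_inv, Complex.norm_natCast, inv_mul_eq_div]
      refine div_le_div_of_nonneg_right ?_ (Nat.cast_nonneg N)
      exact (norm_sub_le _ _).trans (by linarith [hb' N, hb' 0])
    have h3 := (ul_tendsto (U := U) (hb b hb')).add h2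
    rw [add_zero] at h3
    refine h3.congr fun N => ?_
    rw [← mul_add]
    congr 1
    have h4 := Finset.sum_range_succ (fun n : ℕ => b n) N
    have h5 := Finset.sum_range_succ' (fun n : ℕ => b n) N
    rw [h5] at h4
    push_cast at h4
    linear_combination -h4
  have h2 : ∀ (m : ℕ) (b : ℤ → ℂ), (∀ n, ‖b n‖ ≤ C) →
      ul U (fun N => (N : ℂ)⁻¹ * ∑ n ∈ range N, b (n + m)) =
      ul U (fun N => (N : ℂ)⁻¹ * ∑ n ∈ range N, b n) := by
    intro m
    induction m with
    | zero => intro b _; simp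
    | succ m ih =>
      intro b hb'
      rw [← h1 b hb']
      have h3 := ih (fun n => b (n + 1)) fun n => hb' _
      rw [← h3]
      refine congrArg (ul U) (funext fun N => ?_)
      refine congrArg ((N : ℂ)⁻¹ * ·) (Finset.sum_congr rfl fun n _ => ?_)
      show b _ = b _
      have e : (n : ℤ) + ((m + 1 : ℕ) : ℤ) = n + m + 1 := by
        push_cast
        ring
      rw [e]
  rcases le_total 0 k with hk | hk
  · obtain ⟨m, rfl⟩ := Int.eq_ofNat_of_zero_le hk
    exact h2 m a ha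
  · obtain ⟨m, hm⟩ := Int.eq_ofNat_of_zero_le (neg_nonneg.2 hk)
    have h3 := h2 m (fun n => a (n + k)) fun n => ha _
    rw [← h3]
    refine congrArg (ul U) (funext fun N => ?_)
    refine congrArg ((N : ℂ)⁻¹ * ·) (Finset.sum_congr rfl fun n _ => ?_)
    show a _ = a _
    have e : (n : ℤ) = n + m + k := by omega
    rw [← e]

end Pool.Agent.Helper29.NU
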