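import Pool.Agent.Helper29.NU.Restr

/-! The rational projections of a nilpotent group of unitaries commute. -/

set_option autoImplicit false
set_option linter.style.haveILetI false
set_option linter.unusedSectionVars false

open Submodule
open scoped commutatorElement

namespace Pool.Agent.Helper29.NU

universe u

theorem commute_of_lcs_one {U : Type*} [Group U] {G : Subgroup U} (h : G.lowerCentralSeries 1 = ⊥)
    {a b : U} (ha : a ∈ G) (hb : b ∈ G) : Commute a b :=
  central_rel (k := 0) h (by simpa using ha) hb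

theorem mem_V_of_approx {E : Type u} [NormedAddCommGroup E] [InnerProductSpace ℂ E]
    {g : E ≃ₗᵢ[ℂ] E} {v : E} (h : ∀ ε : ℝ, 0 < ε → ∃ w ∈ V g, ‖v - w‖ < ε) : v ∈ V g := by
  have h1 : v ∈ closure ((V g : Submodule ℂ E) : Set E) := by
    rw [Metric.mem_closure_iff]
    intro ε hε
    obtain ⟨w, hw, h2⟩ := h ε hε
    exact ⟨w, hw, by rwa [dist_eq_norm]⟩
  rwa [(V_closed g).closure_eq] at h1

theorem fprop_one : FProp.{u} 1 := by
  classical
  intro E _ _ _ G hG g hg h hh
  have hc := commute_of_lcs_one hG hg hh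
  refine ⟨commute_R hc, ?_⟩
  rintro v ⟨hv1, hv2⟩
  refine mem_V_of_approx fun ε hε => ?_
  obtain ⟨m, hm, w, hw, hvw, -⟩ := approx {g, h} {g, h} (by
    intro z hz
    rw [Finset.mem_insert, Finset.mem_singleton] at hz
    refine ⟨hz, ?_⟩
    rintro w (rfl | rfl)
    · rcases hz with rfl | rfl
      · exact Commute.refl _
      · exact hc.symm
    · rcases hz with rfl | rfl
      · exact hc
      · exact Commute.refl _) v (by
    intro z hz
    rw [Finset.mem_insert, Finset.mem_singleton] at hz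
    rcases hz with rfl | rfl
    · exact hv1
    · exact hv2) hε
  refine ⟨w, subset_closure ⟨m, hm, ?_⟩, hvw⟩
  rw [hc.mul_pow, mul_ap, hw h (by simp), hw g (by simp)]

theorem fprop_zero : FProp.{u} 0 := by
  intro E _ _ _ G hG
  refine fprop_one E G ?_
  rw [eq_bot_iff, ← hG]
  exact G.lowerCentralSeries_antitone (Nat.zero_le 1)

section Step

variable {E : Type u} [NormedAddCommGroup E] [InnerProductSpace ℂ E] [CompleteSpace E]

/-- the vectors fixed by the `m`-th powers of the elements of `Z` -/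
def Em (Z : Subgroup (E ≃ₗᵢ[ℂ] E)) (m : ℕ) : Submodule ℂ E where
  carrier := {v | ∀ z ∈ Z, (z ^ m) v = v}
  zero_mem' := fun z _ => map_zero _
  add_mem' := by
    intro a b ha hb z hz
    rw [map_add, ha z hz, hb z hz]
  smul_mem' := by
    intro c a ha z hz
    rw [map_smul, ha z hz]

theorem Em_closed (Z : Subgroup (E ≃ₗᵢ[ℂ] E)) (m : ℕ) : IsClosed (Em Z m : Set E) := by
  have h1 : (Em Z m : Set E) = ⋂ z ∈ Z, {v | (z ^ m) v = v} := by
    ext v
    simp only [Set.mem_iInter]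
    rfl
  rw [h1]
  exact isClosed_biInter fun z _ => isClosed_eq (z ^ m).continuous continuous_id

theorem Em_st {Z : Subgroup (E ≃ₗᵢ[ℂ] E)} {m : ℕ} {T : E ≃ₗᵢ[ℂ] E}
    (h : ∀ z ∈ Z, Commute z T) : T ∈ St (Em Z m) := by
  constructor
  · intro v hv z hz
    rw [← mul_ap, ((h z hz).pow_left m).eq, mul_ap, hv z hz]
  · intro v hv z hz
    rw [← mul_ap, ((h z hz).inv_right.pow_left m).eq, mul_ap, hv z hz]

/-- the statement on the vectors fixed by the `m`-th powers of the last commutators -/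
theorem stepA {k : ℕ} (ih : FProp.{u} (k + 1)) {g h : E ≃ₗᵢ[ℂ] E}
    (hc : (Subgroup.closure {g, h}).lowerCentralSeries (k + 2) = ⊥) {m : ℕ} (hm : 0 < m) {v : E}
    (hv : v ∈ Em ((Subgroup.closure {g, h}).lowerCentralSeries (k + 1)) m) :
    R g (R h v) = R h (R g v) ∧ (v ∈ V g → v ∈ V h → v ∈ V (g * h)) := by
  set Γ := Subgroup.closure {g, h} with hΓ
  set K := Em (Γ.lowerCentralSeries (k + 1)) m with hK
  have hKc : IsClosed (K : Set E) := Em_closed _ _
  haveI : CompleteSpace K := hKc.completeSpace_coe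
  have hg : g ∈ Γ := Subgroup.subset_closure (Or.inl rfl)
  have hh : h ∈ Γ := Subgroup.subset_closure (Or.inr rfl)
  have hst : Γ ≤ St K := fun T hT => Em_st fun z hz => central_rel hc hz hT
  let g' : St K := ⟨g, hst hg⟩
  let h' : St K := ⟨h, hst hh⟩
  set Γ' := (Γ.subgroupOf (St K)).map (rs K) with hΓ'
  have hmem : ∀ n, ∀ z ∈ Γ'.lowerCentralSeries n, ∃ z' : St K, rs K z' = z ∧
      (z' : E ≃ₗᵢ[ℂ] E) ∈ Γ.lowerCentralSeries n := by
    intro n z hz
    rw [hΓ', ← Subgroup.map_lowerCentralSeries] at hz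
    obtain ⟨z', hz', rfl⟩ := hz
    refine ⟨z', rfl, ?_⟩
    have h1 := Subgroup.mem_map_of_mem (St K).subtype hz'
    rw [subgroupOf_lcs hst] at h1
    exact h1
  have hΓ'c : Γ'.lowerCentralSeries (k + 2) = ⊥ := by
    rw [eq_bot_iff]
    intro z hz
    obtain ⟨z', rfl, h1⟩ := hmem _ z hz
    rw [hc, Subgroup.mem_bot] at h1
    have h2 : z' = 1 := Subtype.ext h1
    rw [h2, map_one]
    exact one_mem _
  have hΓ'm : ∀ z ∈ Γ'.lowerCentralSeries (k + 1), z ^ m = 1 := by
    intro z hz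
    obtain ⟨z', rfl, h1⟩ := hmem _ z hz
    ext w
    rw [rs_pow_apply]
    exact w.2 _ h1
  have hgΓ' : rs K g' ∈ Γ' := Subgroup.mem_map_of_mem _ (by
    rw [Subgroup.mem_subgroupOf]
    exact hg)
  have hhΓ' : rs K h' ∈ Γ' := Subgroup.mem_map_of_mem _ (by
    rw [Subgroup.mem_subgroupOf]
    exact hh)
  set P := Subgroup.closure {rs K g' ^ m, rs K h' ^ m} with hP
  have hPc : P.lowerCentralSeries (k + 1) = ⊥ := by
    refine lcs_pow_rel k hΓ'c m hΓ'm P ?_
    rw [hP, Subgroup.closure_le]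
    rintro _ (rfl | rfl)
    · exact Subgroup.subset_closure ⟨_, hgΓ', rfl⟩
    · exact Subgroup.subset_closure ⟨_, hhΓ', rfl⟩
  have hgP : rs K g' ^ m ∈ P := Subgroup.subset_closure (Or.inl rfl)
  have hhP : rs K h' ^ m ∈ P := Subgroup.subset_closure (Or.inr rfl)
  have h1 := ih K P hPc _ hgP _ hhP
  have h2 : Commute (R (rs K g')) (R (rs K h')) := by
    rw [← R_pow _ hm, ← R_pow (rs K h') hm]
    exact h1.1
  refine ⟨?_, ?_⟩
  · have h3 := DFunLike.congr_fun h2.eq (⟨v, hv⟩ : K)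
    have h4 : ((R (rs K g') (R (rs K h') ⟨v, hv⟩) : K) : E) = R g (R h v) := by
      rw [R_rs hKc, R_rs hKc]
    have h5 : ((R (rs K h') (R (rs K g') ⟨v, hv⟩) : K) : E) = R h (R g v) := by
      rw [R_rs hKc, R_rs hKc]
    rw [← h4, ← h5]
    exact congrArg Subtype.val h3
  · intro hvg hvh
    have hvg' : (⟨v, hv⟩ : K) ∈ V (rs K g') := (V_rs hKc g' ⟨v, hv⟩).2 hvg
    have hvh' : (⟨v, hv⟩ : K) ∈ V (rs K h') := (V_rs hKc h' ⟨v, hv⟩).2 hvh
    have h3 : P ≤ ratl ih P hPc (⟨v, hv⟩ : K) := by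
      refine (Subgroup.closure_le _).2 ?_
      rintro _ (rfl | rfl)
      · exact ⟨hgP, by rw [V_pow _ hm]; exact hvg'⟩
      · exact ⟨hhP, by rw [V_pow _ hm]; exact hvh'⟩
    have h4 : (Subgroup.closure {rs K g', rs K h'}).lowerCentralSeries (k + 2) = ⊥ := by
      rw [eq_bot_iff, ← hΓ'c]
      refine Subgroup.lowerCentralSeries_mono _ ?_
      rw [Subgroup.closure_le]
      rintro _ (rfl | rfl)
      · exact hgΓ'
      · exact hhΓ'
    have h5 : HasPow P (rs K g' * rs K h') := by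
      refine hasPow_gen_rel h4 P ?_ (mul_mem (Subgroup.subset_closure (Or.inl rfl))
        (Subgroup.subset_closure (Or.inr rfl)))
      rintro _ (rfl | rfl)
      · exact ⟨m, hm, hgP⟩
      · exact ⟨m, hm, hhP⟩
    obtain ⟨n, hn, h6⟩ := h5
    have h7 := (h3 h6).2
    rw [V_pow _ hn, ← map_mul] at h7
    exact (V_rs hKc (g' * h') ⟨v, hv⟩).1 h7

theorem fprop_step {k : ℕ} (ih : FProp.{u} (k + 1)) : FProp.{u} (k + 2) := by
  intro E _ _ _ G hG g hgG h hhG
  set Γ := Subgroup.closure {g, h} with hΓ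
  have hΓG : Γ ≤ G := by
    rw [hΓ, Subgroup.closure_le]
    rintro _ (rfl | rfl)
    · exact hgG
    · exact hhG
  have hc : Γ.lowerCentralSeries (k + 2) = ⊥ := by
    rw [eq_bot_iff, ← hG]
    exact Subgroup.lowerCentralSeries_mono _ hΓG
  have hg : g ∈ Γ := Subgroup.subset_closure (Or.inl rfl)
  have hh : h ∈ Γ := Subgroup.subset_closure (Or.inr rfl)
  obtain ⟨T, hT, hTZ⟩ := last_gen_rel g h k hc
  have hTmem : ∀ z ∈ T, z ∈ Γ.lowerCentralSeries (k + 1) := by
    intro z hz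
    rw [hTZ]
    exact Subgroup.subset_closure hz
  have hTΓ : ∀ z ∈ T, z ∈ Γ ∧ ∀ w ∈ (Γ : Set (E ≃ₗᵢ[ℂ] E)), Commute z w := fun z hz =>
    ⟨Γ.lowerCentralSeries_le_self _ (hTmem z hz), fun w hw => central_rel hc (hTmem z hz) hw⟩
  -- the common rational vectors
  let N : Submodule ℂ E := ⨅ z ∈ T, V z
  have hN : ∀ v : E, v ∈ N ↔ ∀ z ∈ T, v ∈ V z := by
    intro v
    simp only [N, mem_iInf]
  have hNc : IsClosed (N : Set E) := by
    have h1 : (N : Set E) = ⋂ z ∈ T, (V z : Set E) := by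
      ext v
      simp only [Set.mem_iInter]
      exact hN v
    rw [h1]
    exact isClosed_biInter fun z _ => V_closed z
  have hNst : ∀ w ∈ Γ, w ∈ St N := by
    have h1 : ∀ w ∈ Γ, ∀ v ∈ N, w v ∈ N := by
      intro w hw v hv
      rw [hN] at hv ⊢
      intro z hz
      exact map_closure_mem' w (fun v hv => Rt_comm ((hTΓ z hz).2 w hw) hv) (hv z hz)
    exact fun w hw => ⟨h1 w hw, h1 _ (inv_mem hw)⟩
  -- the orthogonal part
  have hort : ∀ a ∈ V h, a ∈ Nᗮ → ∀ c ∈ V g, inner ℂ a c = 0 := by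
    intro a ha haN c hcg
    have h1 : ∀ T' ⊆ T, ∃ a' ∈ V h, a' ∈ Nᗮ ∧ (∀ z ∈ T', a' ∈ V z) ∧
        inner ℂ a' c = inner ℂ a c := by
      classical
      intro T'
      induction T' using Finset.induction_on with
      | empty =>
        intro _
        exact ⟨a, ha, haN, fun z hz => absurd hz (Finset.notMem_empty z), rfl⟩
      | insert z T' _ ih' =>
        intro hsub
        have hzT : z ∈ T := hsub (Finset.mem_insert_self z T')
        obtain ⟨a', ha1, ha2, ha3, ha4⟩ := ih' fun z' hz' => hsub (Finset.mem_insert_of_mem hz')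
        have hRz : ∀ w ∈ Γ, ∀ v, Pj (Rt z) (w v) = w (Pj (Rt z) v) := fun w hw v =>
          R_comm_apply ((hTΓ z hzT).2 w hw) v
        refine ⟨R z a', V_of_pj_comm (hRz h hh) ha1, ?_, ?_, ?_⟩
        · rw [mem_orthogonal'] at ha2 ⊢
          intro w hw
          have h2 : R z w = w := R_self.2 ((hN w).1 hw z hzT)
          have h3 : inner ℂ (R z a') w = inner ℂ a' (R z w) := pj_symm _ _ _
          rw [h3, h2]
          exact ha2 w hw
        · intro z' hz'
          rcases Finset.mem_insert.1 hz' with rfl | hz'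
          · exact R_mem _ _
          · exact V_of_pj_comm (hRz z' (hTΓ z' (hsub (Finset.mem_insert_of_mem hz'))).1)
              (ha3 z' hz')
        · obtain ⟨x, hx, y, hy, e⟩ := hT z hzT
          have h2 := stepB' ih hc hx hy ha1 hcg
          rw [← e, inner_sub_left, sub_eq_zero] at h2
          rw [← h2, ha4]
    obtain ⟨a', -, ha2, ha3, ha4⟩ := h1 T (Finset.Subset.refl T)
    have h2 : a' = 0 := inner_self_eq_zero.1 ((mem_orthogonal _ _).1 ha2 a' ((hN a').2 ha3))
    rw [← ha4, h2, inner_zero_left]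
  have hQh : ∀ w, w - Pj N w ∈ Nᗮ := by
    intro w
    rw [mem_orthogonal']
    intro x hx
    exact pj_inner N w (subset_closure hx)
  -- the key identity
  have hkey : ∀ w, w ∈ V h → R g (w - Pj N w) = 0 := by
    intro w hw
    have h1 : w - Pj N w ∈ V h := sub_mem hw (V_of_pj_comm (pj_st N (hNst h hh)) hw)
    refine ext_inner_right ℂ fun d => ?_
    have h2 : inner ℂ (R g (w - Pj N w)) d = inner ℂ (w - Pj N w) (R g d) := pj_symm _ _ _
    rw [h2, inner_zero_left]
    exact hort _ h1 (hQh w) _ (R_mem g d)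
  have hEm : ∀ v ∈ N, ∀ ε : ℝ, 0 < ε → ∃ m : ℕ, 0 < m ∧
      ∃ w ∈ Em (Γ.lowerCentralSeries (k + 1)) m, ‖v - w‖ < ε ∧
      (v ∈ V g → w ∈ V g) ∧ (v ∈ V h → w ∈ V h) := by
    intro v hv ε hε
    obtain ⟨m, hm, w, hw, hvw, hwΓ⟩ := approx T (Γ : Set (E ≃ₗᵢ[ℂ] E)) hTΓ v ((hN v).1 hv) hε
    refine ⟨m, hm, w, ?_, hvw, hwΓ g hg, hwΓ h hh⟩
    intro z hz
    rw [hTZ] at hz
    have h2 : z ∈ Γ.lowerCentralSeries (k + 1) ∧ (z ^ m) w = w := by
      induction hz using Subgroup.closure_induction with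
      | mem z hz => exact ⟨hTmem z hz, hw z hz⟩
      | one => exact ⟨one_mem _, by simp⟩
      | mul a b _ _ ha hb =>
        refine ⟨mul_mem ha.1 hb.1, ?_⟩
        have hab : Commute a b := central_rel hc ha.1 (Γ.lowerCentralSeries_le_self _ hb.1)
        rw [hab.mul_pow, mul_ap, hb.2, ha.2]
      | inv a _ ha =>
        refine ⟨inv_mem ha.1, ?_⟩
        rw [inv_pow]
        exact inv_fix ha.2
    exact h2.2
  have hcommN : ∀ v ∈ N, R g (R h v) = R h (R g v) := by
    intro v hv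
    rw [← sub_eq_zero, ← norm_le_zero_iff]
    refine le_of_forall_pos_le_add fun ε hε => ?_
    rw [zero_add]
    obtain ⟨m, hm, w, hw, hvw, -, -⟩ := hEm v hv (ε / 2) (half_pos hε)
    have h1 := (stepA ih hc hm hw).1
    have h2 : R g (R h v) - R h (R g v) = R g (R h (v - w)) - R h (R g (v - w)) := by
      rw [map_sub, map_sub, map_sub, map_sub, h1]
      abel
    have h3 : ∀ a b : E ≃ₗᵢ[ℂ] E, ‖R a (R b (v - w))‖ ≤ ε / 2 := fun a b =>
      ((pj_norm _ _).trans (pj_norm _ _)).trans hvw.le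
    rw [h2]
    refine (norm_sub_le _ _).trans ?_
    linarith [h3 g h, h3 h g]
  have hgQ : ∀ w, R g (Pj N w) = Pj N (R g w) := fun w =>
    Commute.pj_apply (commute_pj_R (pj_st N (hNst g hg))) w
  have hhQ : ∀ w, R h (Pj N w) = Pj N (R h w) := fun w =>
    Commute.pj_apply (commute_pj_R (pj_st N (hNst h hh))) w
  have hred : ∀ w, R g (R h w) = R g (R h (Pj N w)) := by
    intro w
    have h1 := hkey (R h w) (R_mem h w)
    rw [map_sub, sub_eq_zero] at h1
    rw [h1, hhQ]
  refine ⟨?_, ?_⟩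
  · have hcomm : ∀ w, R g (R h w) = R h (R g (Pj N w)) := by
      intro w
      rw [hred w, hcommN _ (pj_mem' hNc w)]
    -- the operator `R g R h` is symmetric
    have hsymm : ∀ a b : E, inner ℂ (R g (R h a)) b = inner ℂ a (R g (R h b)) := by
      intro a b
      have e1 : inner ℂ (R g (R h a)) b = inner ℂ a (R h (R g b)) := by
        have h1 : inner ℂ (R g (R h a)) b = inner ℂ (R h a) (R g b) := pj_symm _ _ _
        have h2 : inner ℂ (R h a) (R g b) = inner ℂ a (R h (R g b)) := pj_symm _ _ _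
        rw [h1, h2]
      have e2 : inner ℂ (R g (R h a)) b = inner ℂ (R g (R h (Pj N a))) b := by rw [← hred]
      have e3 : inner ℂ (R g (R h (Pj N a))) b = inner ℂ (Pj N a) (R h (R g b)) := by
        have h1 : inner ℂ (R g (R h (Pj N a))) b = inner ℂ (R h (Pj N a)) (R g b) := pj_symm _ _ _
        have h2 : inner ℂ (R h (Pj N a)) (R g b) = inner ℂ (Pj N a) (R h (R g b)) :=
          pj_symm _ _ _
        rw [h1, h2]
      have e4 : inner ℂ (Pj N a) (R h (R g b)) = inner ℂ a (R h (R g (Pj N b))) := by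
        rw [pj_symm, ← hhQ, ← hgQ]
      rw [e2, e3, e4, ← hcommN _ (pj_mem' hNc b), ← hred]
    ext w
    refine ext_inner_left ℂ fun a => ?_
    have h1 : inner ℂ a (R h (R g w)) = inner ℂ (R g (R h a)) w := by
      have h1 : inner ℂ (R g (R h a)) w = inner ℂ (R h a) (R g w) := pj_symm _ _ _
      have h2 : inner ℂ (R h a) (R g w) = inner ℂ a (R h (R g w)) := pj_symm _ _ _
      rw [h1, h2]
    show inner ℂ a (R g (R h w)) = inner ℂ a (R h (R g w))
    rw [h1, hsymm]
  · rintro v ⟨hvg, hvh⟩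
    have h1 := hkey v hvh
    rw [map_sub, R_self.2 hvg, hgQ, R_self.2 hvg, sub_eq_zero] at h1
    have hvN : v ∈ N := by
      rw [h1]
      exact pj_mem' hNc v
    refine mem_V_of_approx fun ε hε => ?_
    obtain ⟨m, hm, w, hw, hvw, hwg, hwh⟩ := hEm v hvN ε hε
    exact ⟨w, (stepA ih hc hm hw).2 (hwg hvg) (hwh hvh), hvw⟩

end Step

/-- **The rational projections of a nilpotent group of unitaries commute.** -/
theorem fprop (c : ℕ) : FProp.{u} c := by
  induction c with
  | zero => exact fprop_zero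
  | succ c ih =>
    rcases c with _ | k
    · exact fprop_one
    · exact fprop_step ih

end Pool.Agent.Helper29.NU
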