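import Pool.Agent.Helper29.NU.SqG
import Pool.Agent.Helper29.NU.FP

/-! The averages of a sequence of unitaries do not see the vectors which are not rational for the
last commutators. -/

set_option autoImplicit false
set_option linter.style.haveILetI false
set_option linter.unusedSectionVars false
set_option linter.unusedVariables false

open Submodule Filter Topology
open scoped commutatorElement

namespace Pool.Agent.Helper29.NU

universe u

variable {H : Type u} [NormedAddCommGroup H] [InnerProductSpace ℂ H] [CompleteSpace H]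

theorem pow_const (U : Ultrafilter ℕ) (hU : (U : Filter ℕ) ≤ atTop) {z : Sq (H ≃ₗᵢ[ℂ] H)}
    (hk : z.k = 0) (hz : ∀ n, z.f n = z.f 0) (m : ℕ) (v : H) :
    (actE U hU z ^ m) (cst U v) = cst U ((z.f 0 ^ m) v) := by
  have h1 : ∀ v : H, actE U hU z (cst U v) = cst U (z.f 0 v) := by
    intro v
    rw [cst, actE_bs U hU z _ _ ⟨‖v‖, fun n => by rw [LinearIsometryEquiv.norm_map]⟩]
    rw [cst]
    congr 1
    funext n
    rw [hz]
  induction m generalizing v with
  | zero => rfl
  | succ m ih => rw [pow_succ, mul_ap, h1, ih, pow_succ, mul_ap]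

theorem R_cst (U : Ultrafilter ℕ) (hU : (U : Filter ℕ) ≤ atTop) {z : Sq (H ≃ₗᵢ[ℂ] H)}
    (hk : z.k = 0) (hz : ∀ n, z.f n = z.f 0) (v : H) :
    R (actE U hU z) (cst U v) = cst U (R (z.f 0) v) := by
  refine pj_unique ?_ ?_
  · have h1 : Set.MapsTo (cstL hU) (closure ((Rt (z.f 0) : Submodule ℂ H) : Set H))
        (closure ((Rt (actE U hU z) : Submodule ℂ (Bes U H)) : Set (Bes U H))) := by
      refine Set.MapsTo.closure ?_ (cstL hU).continuous
      rintro w ⟨m, hm, hw⟩
      refine ⟨m, hm, ?_⟩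
      rw [cstL_apply, pow_const U hU hk hz, hw]
    exact h1 (R_mem (z.f 0) v)
  · rintro x ⟨m, hm, hx⟩
    set w := ContinuousLinearMap.adjoint (cstL hU).toContinuousLinearMap x with hw
    have hwi : ∀ e : H, inner ℂ e w = inner ℂ (cst U e) x := by
      intro e
      rw [hw, ContinuousLinearMap.adjoint_inner_right]
      rfl
    have hwf : (z.f 0 ^ m) w = w := by
      refine ext_inner_left ℂ fun e => ?_
      obtain ⟨e', rfl⟩ := (z.f 0 ^ m).surjective e
      rw [LinearIsometryEquiv.inner_map_map, hwi, hwi, ← pow_const U hU hk hz]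
      conv_rhs => rw [← hx]
      rw [LinearIsometryEquiv.inner_map_map]
    have h1 : inner ℂ (v - R (z.f 0) v) w = 0 := pj_inner _ v (subset_closure ⟨m, hm, hwf⟩)
    rw [hwi] at h1
    have h2 : cst U (v - R (z.f 0) v) = cst U v - cst U (R (z.f 0) v) := (cstL hU).map_sub _ _
    rwa [h2] at h1

/-- the averages of a sequence of unitaries vanish on the vectors which have no rational part with
respect to the last commutators -/
theorem claim1 {q : ℤ → (H ≃ₗᵢ[ℂ] H)} {k : ℕ} (hc : (Lam q).lowerCentralSeries (k + 2) = ⊥)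
    {z : Sq (H ≃ₗᵢ[ℂ] H)} (hz : z ∈ (Lam q).lowerCentralSeries (k + 1)) (ξ η : H) :
    Tendsto (pa (fun n => q n ξ) (fun _ => η - R (z.f 0) η)) atTop (𝓝 0) := by
  obtain ⟨hk, hconst, -⟩ := last_const hc hz
  rw [tendsto_iff_ultrafilter]
  intro U hU
  have hU' : (U : Filter ℕ) ≤ atTop := hU
  have hbx : ∃ C : ℝ, ∀ n : ℤ, ‖q n ξ‖ ≤ C := ⟨‖ξ‖, fun n => by rw [LinearIsometryEquiv.norm_map]⟩
  set x := bs U (fun n => q n ξ) hbx with hx
  set y := cst U (η - R (z.f 0) η) with hy
  set A := actE U hU' (Sq.W : Sq (H ≃ₗᵢ[ℂ] H)) with hA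
  set B := actE U hU' (Sq.W' q) with hB
  set C := actE U hU' z with hC
  set G := (Lam q).map (actE U hU') with hG
  have hGc : G.lowerCentralSeries (k + 2) = ⊥ := by
    rw [hG, ← Subgroup.map_lowerCentralSeries, hc, Subgroup.map_bot]
  have hAG : A ∈ G := Subgroup.mem_map_of_mem _ (W_mem q)
  have hBG : B ∈ G := Subgroup.mem_map_of_mem _ (W'_mem q)
  have hzΛ : z ∈ Lam q := (Lam q).lowerCentralSeries_le_self _ hz
  have hCG : C ∈ G := Subgroup.mem_map_of_mem _ hzΛ
  have hCA : Commute C A := (central_rel hc hz (W_mem q)).map _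
  have hCB : Commute C B := (central_rel hc hz (W'_mem q)).map _
  have hxB : x ∈ V B := by
    refine subset_closure ⟨1, one_pos, ?_⟩
    have hf : (fun n => (Sq.W' q).f n ((fun n => q n ξ) (n + (Sq.W' q).k))) = fun n => q n ξ := by
      funext n
      show (q n * (q (n + 1))⁻¹) (q (n + 1) ξ) = q n ξ
      rw [← mul_ap, inv_mul_cancel_right]
    rw [pow_one, hx, hB, actE_bs U hU' (Sq.W' q) _ _ (by
      obtain ⟨D, hD⟩ := hbx
      exact ⟨D, fun n => by rw [LinearIsometryEquiv.norm_map]; exact hD _⟩)]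
    congr 1
  have hcA : ∀ v : H, cst U v ∈ V A := by
    intro v
    refine subset_closure ⟨1, one_pos, ?_⟩
    rw [pow_one, hA, actE_W_cst]
  have hyC : y = cst U η - R C (cst U η) := by
    rw [hC, R_cst U hU' hk hconst, hy]
    exact (cstL hU').map_sub _ _
  have hRC : R C y = 0 := by
    rw [hyC, map_sub]
    have h1 : R C (R C (cst U η)) = R C (cst U η) := R_self.2 (R_mem _ _)
    rw [h1, sub_self]
  have hcomm1 : Commute (R B) (R C) := commute_R hCB.symm
  have hcomm2 : Commute (R A) (R B) := (fprop (k + 2) (Bes U H) G hGc A hAG B hBG).1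
  have h1 : R B y ∈ V A := by
    rw [← R_self]
    have h2 : R A (R B y) = R B (R A y) := DFunLike.congr_fun hcomm2.eq y
    have h3 : R A y = y := R_self.2 (hcA _)
    rw [h2, h3]
  have h2 : R B y ∈ V C := by
    have h3 : Subgroup.closure {A, B} ≤ ratl (fprop (k + 2)) G hGc (R B y) := by
      refine (Subgroup.closure_le _).2 ?_
      rintro _ (rfl | rfl)
      · exact ⟨hAG, h1⟩
      · exact ⟨hBG, R_mem _ _⟩
    have h4 : (Lam q).map (actE U hU') ≤ Subgroup.closure {A, B} := by
      rw [Lam, MonoidHom.map_closure, Set.image_pair]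
    exact (h3 (h4 hCG)).2
  have h3 : R B y = 0 := by
    have h4 : R C (R B y) = R B (R C y) := (DFunLike.congr_fun hcomm1.eq y).symm
    rw [← R_self.2 h2, h4, hRC, map_zero]
  have h4 : inner ℂ x y = 0 := by
    have h5 : inner ℂ (R B x) y = inner ℂ x (R B y) := pj_symm _ _ _
    rw [← R_self.2 hxB, h5, h3, inner_zero_right]
  have h5 : ul U (pa (fun n => q n ξ) (fun _ => η - R (z.f 0) η)) = 0 := by
    rw [← h4, hx, hy, cst, inner_bs]
  rw [← h5]
  exact ul_tendsto fun N => pa_bound (C := ‖ξ‖) (D := ‖η - R (z.f 0) η‖)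
    (fun n => by rw [LinearIsometryEquiv.norm_map]) (fun _ => le_rfl) N

end Pool.Agent.Helper29.NU
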