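import Pool.Agent.Helper29.NU.Hilb

/-! Commuting projections such that all products of `d + 1` of them vanish. -/

set_option autoImplicit false

open Submodule Finset

namespace Pool.Agent.Helper29.NU

variable {E : Type*} [NormedAddCommGroup E] [InnerProductSpace ℂ E] [CompleteSpace E]

theorem pj_idem (K : Submodule ℂ E) (v : E) : Pj K (Pj K v) = Pj K v := pj_self.2 (pj_mem K v)

theorem pj_inner_self (K : Submodule ℂ E) (v : E) : inner ℂ (Pj K v) v = ((‖Pj K v‖ ^ 2 : ℝ) : ℂ) := by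
  have h1 : inner ℂ (Pj K v) v = inner ℂ (Pj K v) (Pj K v) := by
    rw [← pj_symm, pj_idem]
  rw [h1, inner_self_eq_norm_sq_to_K]
  push_cast
  rfl

theorem pj_inner_pj {K L : Submodule ℂ E} (h : Commute (Pj K) (Pj L)) (v : E) :
    inner ℂ (Pj K v) (Pj L v) = ((‖Pj L (Pj K v)‖ ^ 2 : ℝ) : ℂ) := by
  have h1 : inner ℂ (Pj L (Pj K v)) (Pj K v) = inner ℂ (Pj K (Pj L (Pj K v))) v :=
    (pj_symm K _ _).symm
  have h2 : inner ℂ (Pj K v) (Pj L v) = inner ℂ (Pj L (Pj K v)) v := (pj_symm L _ _).symm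
  rw [← pj_inner_self L (Pj K v), h1, h2, Commute.pj_apply h, pj_idem]

theorem count {K : ℤ → Submodule ℂ E} (hcomm : ∀ i j, Commute (Pj (K i)) (Pj (K j))) (d : ℕ) :
    ∀ (I : Finset ℤ) (W : Submodule ℂ E), (∀ j, ∀ v ∈ W, Pj (K j) v ∈ W) →
    (∀ S ⊆ I, S.card = d + 1 → ∀ v ∈ W, (∀ j ∈ S, v ∈ (K j).topologicalClosure) → v = 0) →
    ∀ u ∈ W, ∑ j ∈ I, ‖Pj (K j) u‖ ^ 2 ≤ d * ‖u‖ ^ 2 := by
  induction d with
  | zero =>
    intro I W hW h u hu
    have h1 : ∀ j ∈ I, ‖Pj (K j) u‖ ^ 2 = 0 := by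
      intro j hj
      have h2 := h {j} (Finset.singleton_subset_iff.2 hj) (Finset.card_singleton j) (Pj (K j) u)
        (hW j u hu) (by
          intro i hi
          rw [Finset.mem_singleton.1 hi]
          exact pj_mem _ _)
      rw [h2, norm_zero]
      norm_num
    rw [Finset.sum_eq_zero h1]
    simp
  | succ d ih =>
    intro I W hW h u hu
    set S := ∑ j ∈ I, ‖Pj (K j) u‖ ^ 2 with hS
    set T := ∑ j ∈ I, Pj (K j) u with hT
    have hS0 : 0 ≤ S := Finset.sum_nonneg fun j _ => by positivity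
    have e1 : inner ℂ T u = ((S : ℝ) : ℂ) := by
      rw [hT, hS, sum_inner]
      push_cast
      exact Finset.sum_congr rfl fun j _ => by
        rw [pj_inner_self]
        push_cast
        rfl
    have e2 : S ≤ ‖T‖ * ‖u‖ := by
      have h1 := norm_inner_le_norm (𝕜 := ℂ) T u
      rw [e1, Complex.norm_real, Real.norm_of_nonneg hS0] at h1
      exact h1
    have e3 : ‖T‖ ^ 2 = ∑ i ∈ I, ∑ j ∈ I, ‖Pj (K j) (Pj (K i) u)‖ ^ 2 := by
      have h1 : ((‖T‖ ^ 2 : ℝ) : ℂ) = inner ℂ T T := by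
        rw [inner_self_eq_norm_sq_to_K]
        push_cast
        rfl
      have h2 : inner ℂ T T = ((∑ i ∈ I, ∑ j ∈ I, ‖Pj (K j) (Pj (K i) u)‖ ^ 2 : ℝ) : ℂ) := by
        rw [hT, sum_inner]
        push_cast
        refine Finset.sum_congr rfl fun i _ => ?_
        rw [inner_sum]
        refine Finset.sum_congr rfl fun j _ => ?_
        rw [pj_inner_pj (hcomm i j)]
        push_cast
        rfl
      rw [h2] at h1
      exact_mod_cast h1
    have e4 : ∀ i ∈ I, ∑ j ∈ I, ‖Pj (K j) (Pj (K i) u)‖ ^ 2 ≤ (d + 1) * ‖Pj (K i) u‖ ^ 2 := by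
      intro i hi
      have h1 := ih (I.erase i) (W ⊓ (K i).topologicalClosure) (by
        rintro j v ⟨hv1, hv2⟩
        refine ⟨hW j v hv1, ?_⟩
        have h2 : Pj (K i) v = v := pj_self.2 hv2
        rw [SetLike.mem_coe, ← pj_self, Commute.pj_apply (hcomm i j), h2]) (by
        rintro S' hS' hcard v ⟨hv1, hv2⟩ hv3
        have hi' : i ∉ S' := fun hi' => (Finset.notMem_erase i I) (hS' hi')
        refine h (insert i S') ?_ ?_ v hv1 ?_
        · intro j hj
          rcases Finset.mem_insert.1 hj with rfl | hj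
          · exact hi
          · exact Finset.mem_of_mem_erase (hS' hj)
        · rw [Finset.card_insert_of_notMem hi', hcard]
        · intro j hj
          rcases Finset.mem_insert.1 hj with rfl | hj
          · exact hv2
          · exact hv3 j hj) (Pj (K i) u) ⟨hW i u hu, pj_mem _ _⟩
      rw [← Finset.add_sum_erase I _ hi, pj_idem]
      linarith
    have e5 : ‖T‖ ^ 2 ≤ (d + 1) * S := by
      rw [e3, hS, Finset.mul_sum]
      exact Finset.sum_le_sum e4
    have hu0 := norm_nonneg u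
    have hT0 := norm_nonneg T
    push_cast
    rcases eq_or_lt_of_le hS0 with h0 | h0
    · rw [← h0]
      positivity
    · have h1 : S * S ≤ (‖T‖ * ‖u‖) * (‖T‖ * ‖u‖) := mul_le_mul e2 e2 hS0 (by positivity)
      have h2 : S * S ≤ ((d + 1) * ‖u‖ ^ 2) * S := by nlinarith
      exact le_of_mul_le_mul_right h2 h0

end Pool.Agent.Helper29.NU
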