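import Mathlib

/-! Polynomial sequences in torsion-free abelian groups. -/

set_option autoImplicit false

open Finset Matrix Function

namespace Pool.Agent.Helper29.NU

theorem choose_det_ne_zero {n : ℕ} (v : Fin n → ℕ) (hv : Function.Injective v) :
    (Matrix.of fun i j : Fin n => (Nat.choose (v i) j : ℤ)).det ≠ 0 := by
  have h1 : (Matrix.of fun i j : Fin n => (descPochhammer ℤ j).eval (v i : ℤ)).det =
      (∏ i : Fin n, Nat.factorial i) *
        (Matrix.of fun i j : Fin n => (Nat.choose (v i) j : ℤ)).det := by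
    convert! det_mul_row (fun (i : Fin n) => ((Nat.factorial (i : ℕ)) : ℤ)) _
    · rw [of_apply, descPochhammer_eval_eq_descFactorial ℤ _ _]
      congr
      exact Nat.descFactorial_eq_factorial_mul_choose _ _
    · rw [Nat.cast_prod]
  have h2 := det_eval_matrixOfPolynomials_eq_det_vandermonde (fun i => ((v i : ℕ) : ℤ))
    (fun i => descPochhammer ℤ i) (fun i => descPochhammer_natDegree ℤ i)
    (fun i => monic_descPochhammer ℤ i)
  have h3 : (vandermonde fun i => ((v i : ℕ) : ℤ)).det ≠ 0 := by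
    rw [det_vandermonde_ne_zero_iff]
    intro i j e
    have e' : ((v i : ℕ) : ℤ) = (v j : ℕ) := e
    exact hv (by exact_mod_cast e')
  intro h
  rw [h, mul_zero] at h1
  exact h3 (h2.trans h1)

theorem eq_zero_of_mat {B : Type*} [AddCommGroup B] (htf : ∀ b : B, ∀ n : ℤ, n ≠ 0 → n • b = 0 → b = 0)
    {d : ℕ} (M : Matrix (Fin d) (Fin d) ℤ) (hM : M.det ≠ 0) (β : Fin d → B)
    (h : ∀ i, ∑ j, M i j • β j = 0) (j : Fin d) : β j = 0 := by
  have h1 : ∑ i, M.adjugate j i • ∑ l, M i l • β l = 0 := by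
    simp [h]
  have h2 : ∑ i, M.adjugate j i • ∑ l, M i l • β l = ∑ l, (M.adjugate * M) j l • β l := by
    simp_rw [Finset.smul_sum, Matrix.mul_apply, Finset.sum_smul, smul_smul]
    rw [Finset.sum_comm]
  rw [h2, Matrix.adjugate_mul] at h1
  have h3 : ∑ l, (M.det • (1 : Matrix (Fin d) (Fin d) ℤ)) j l • β l = M.det • β j := by
    rw [Finset.sum_eq_single j]
    · simp
    · intro l _ hl
      simp [hl.symm]
    · simp
  rw [h3] at h1
  exact htf _ _ hM h1

open fwdDiff in
/-- a polynomial sequence of degree less than `d` which vanishes at `d` points vanishes -/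
theorem poly_eq_zero {B : Type*} [AddCommGroup B]
    (htf : ∀ b : B, ∀ n : ℤ, n ≠ 0 → n • b = 0 → b = 0) (d : ℕ) (f : ℤ → B)
    (hf : (fwdDiff 1)^[d] f = 0) (S : Finset ℤ) (hS : d ≤ S.card) (h0 : ∀ s ∈ S, f s = 0)
    (t : ℤ) : f t = 0 := by
  have hT : (insert t S).Nonempty := Finset.insert_nonempty _ _
  set y := (insert t S).min' hT with hy
  have hyt : y ≤ t := Finset.min'_le _ _ (Finset.mem_insert_self _ _)
  have hys : ∀ s ∈ S, y ≤ s := fun s hs => Finset.min'_le _ _ (Finset.mem_insert_of_mem hs)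
  have hf' : ∀ k, d ≤ k → (fwdDiff 1)^[k] f = 0 := by
    intro k hk
    obtain ⟨m, rfl⟩ := Nat.exists_eq_add_of_le hk
    rw [add_comm, Function.iterate_add_apply, hf]
    clear hk
    induction m with
    | zero => rfl
    | succ m ih =>
      rw [Function.iterate_succ_apply', ih]
      funext x
      simp [fwdDiff]
  have hN : ∀ n : ℕ, f (y + n) = ∑ k : Fin d, (Nat.choose n k : ℤ) • (fwdDiff 1)^[(k : ℕ)] f y := by
    intro n
    have h1 := shift_eq_sum_fwdDiff_iter (1 : ℤ) f n y
    rw [nsmul_one] at h1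
    rw [h1, Fin.sum_univ_eq_sum_range (fun k => (Nat.choose n k : ℤ) • (fwdDiff 1)^[k] f y) d]
    rcases le_total (n + 1) d with h | h
    · rw [← Finset.sum_range_add_sum_Ico _ h]
      have h2 : ∑ k ∈ Finset.Ico (n + 1) d, (Nat.choose n k : ℤ) • (fwdDiff 1)^[k] f y = 0 := by
        refine Finset.sum_eq_zero fun k hk => ?_
        rw [Finset.mem_Ico] at hk
        rw [Nat.choose_eq_zero_of_lt (by omega)]
        simp
      rw [h2, add_zero]
      exact Finset.sum_congr rfl fun k _ => by rw [natCast_zsmul]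
    · rw [← Finset.sum_range_add_sum_Ico _ h]
      have h2 : ∑ k ∈ Finset.Ico d (n + 1), (Nat.choose n k) • (fwdDiff 1)^[k] f y = 0 := by
        refine Finset.sum_eq_zero fun k hk => ?_
        rw [Finset.mem_Ico] at hk
        rw [hf' k hk.1]
        simp
      rw [h2, add_zero]
      exact Finset.sum_congr rfl fun k _ => by rw [natCast_zsmul]
  obtain ⟨S', hS'S, hS'⟩ := Finset.exists_subset_card_eq hS
  let e := (S'.equivFinOfCardEq hS').symm
  have hv : Function.Injective fun i : Fin d => ((e i : ℤ) - y).toNat := by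
    intro i j hij
    have h1 := hys _ (hS'S (e i).2)
    have h2 := hys _ (hS'S (e j).2)
    have h3 : ((e i : ℤ)) = (e j : ℤ) := by
      have h4 : ((e i : ℤ) - y).toNat = ((e j : ℤ) - y).toNat := hij
      omega
    exact e.injective (Subtype.ext h3)
  have h1 := eq_zero_of_mat htf _ (choose_det_ne_zero _ hv)
    (fun k : Fin d => (fwdDiff 1)^[(k : ℕ)] f y) (by
      intro i
      have h2 := hN ((e i : ℤ) - y).toNat
      have h3 : y + (((e i : ℤ) - y).toNat : ℤ) = e i := by
        have := hys _ (hS'S (e i).2)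
        omega
      rw [h3, h0 _ (hS'S (e i).2)] at h2
      exact h2.symm)
  have h4 : t = y + ((t - y).toNat : ℤ) := by omega
  rw [h4, hN]
  exact Finset.sum_eq_zero fun k _ => by rw [h1 k, smul_zero]

end Pool.Agent.Helper29.NU
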