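import Pool.Agent.Helper29.NU.Grp2
import Pool.Agent.Helper29.NU.Poly

/-! Conjugates by powers of an element in nilpotent groups, and polynomial sequences in torsion-free
abelian quotients. -/

set_option autoImplicit false
set_option linter.style.haveILetI false

open Subgroup
open scoped commutatorElement

namespace Pool.Agent.Helper29.NU

/-- the largest torsion-free abelian quotient which kills `J` -/
abbrev TF {G : Type*} [Group G] (J : Subgroup G) : Type _ :=
  ((Abelianization G) ⧸ (J.map Abelianization.of)) ⧸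
    CommGroup.torsion ((Abelianization G) ⧸ (J.map Abelianization.of))

/-- the projection -/
def tf {G : Type*} [Group G] (J : Subgroup G) : G →* TF J :=
  (QuotientGroup.mk' _).comp ((QuotientGroup.mk' _).comp Abelianization.of)

theorem tf_eq_one {G : Type*} [Group G] (J : Subgroup G) (x : G) :
    tf J x = 1 ↔ HasPow (J ⊔ commutator G) x := by
  let f : G →* (Abelianization G) ⧸ (J.map Abelianization.of) :=
    (QuotientGroup.mk' _).comp Abelianization.of
  have hf : ∀ x : G, f x = 1 ↔ x ∈ J ⊔ commutator G := by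
    intro x
    show (QuotientGroup.mk' (J.map Abelianization.of)) (Abelianization.of x) = 1 ↔ _
    rw [QuotientGroup.mk'_apply, QuotientGroup.eq_one_iff]
    constructor
    · rintro ⟨y, hy, e⟩
      have h1 : Abelianization.of (y⁻¹ * x) = 1 := by rw [map_mul, map_inv, e, inv_mul_cancel]
      rw [← MonoidHom.mem_ker, Abelianization.ker_of] at h1
      have h2 : x = y * (y⁻¹ * x) := by group
      rw [h2]
      exact mul_mem (mem_sup_left hy) (mem_sup_right h1)
    · intro hx
      have h1 : J ⊔ commutator G ≤ (J.map Abelianization.of).comap Abelianization.of := by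
        rw [sup_le_iff]
        refine ⟨le_comap_map _ _, ?_⟩
        intro y hy
        rw [mem_comap]
        have h2 : (Abelianization.of y : Abelianization G) = 1 := by
          rw [← MonoidHom.mem_ker, Abelianization.ker_of]
          exact hy
        rw [h2]
        exact one_mem _
      exact h1 hx
  show (QuotientGroup.mk' (CommGroup.torsion _)) (f x) = 1 ↔ _
  rw [QuotientGroup.mk'_apply, QuotientGroup.eq_one_iff, CommGroup.mem_torsion,
    isOfFinOrder_iff_pow_eq_one]
  constructor
  · rintro ⟨n, hn, e⟩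
    rw [← map_pow, hf] at e
    exact ⟨n, hn, e⟩
  · rintro ⟨n, hn, e⟩
    rw [← hf, map_pow] at e
    exact ⟨n, hn, e⟩

theorem tf_torsion_free {G : Type*} [Group G] (J : Subgroup G) (b : Additive (TF J)) (n : ℤ)
    (hn : n ≠ 0) (h : n • b = 0) : b = 0 := by
  have h1 : (b.toMul : TF J) ^ n = 1 := by
    have := congrArg Additive.toMul h
    simpa using this
  have h2 := (IsMulTorsionFree.zpow_eq_one_iff_left hn).1 h1
  exact Additive.toMul.injective (by simpa using h2)

/-- the criterion for all elements of a nilpotent group to have a power in `J` -/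
theorem hasPow_of_tf {G : Type*} [Group G] {c : ℕ}
    (hc : (⊤ : Subgroup G).lowerCentralSeries c = ⊥) (J : Subgroup G)
    (h : ∀ g : G, tf J g = 1) (g : G) : HasPow J g :=
  hasPow_of_comm c G hc J (fun g => (tf_eq_one J g).1 (h g)) g

theorem tf_of_mem {G : Type*} [Group G] {J : Subgroup G} {x : G} (h : x ∈ J) : tf J x = 1 :=
  (tf_eq_one J x).2 (HasPow.of_mem (mem_sup_left h))

section Conj

variable {U : Type*} [Group U]

/-- the conjugates `g⁻ᵏ x gᵏ` -/
def cj (x g : U) (k : ℤ) : U := g ^ (-k) * x * g ^ k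

/-- the group generated by the conjugates -/
def CJ (x g : U) : Subgroup U := closure (Set.range (cj x g))

theorem cj_mem (x g : U) (k : ℤ) : cj x g k ∈ CJ x g := subset_closure ⟨k, rfl⟩

theorem cj_zero (x g : U) : cj x g 0 = x := by simp [cj]

theorem conj_CJ (x g : U) (j : ℤ) {y : U} (hy : y ∈ CJ x g) : g ^ (-j) * y * g ^ j ∈ CJ x g := by
  have h1 : CJ x g ≤ (CJ x g).comap (MulAut.conj (g ^ (-j))).toMonoidHom := by
    rw [CJ, closure_le]
    rintro _ ⟨k, rfl⟩
    rw [SetLike.mem_coe, mem_comap]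
    have h2 : (MulAut.conj (g ^ (-j))).toMonoidHom (cj x g k) = cj x g (k + j) := by
      show g ^ (-j) * (g ^ (-k) * x * g ^ k) * (g ^ (-j))⁻¹ = g ^ (-(k + j)) * x * g ^ (k + j)
      group
    rw [h2]
    exact cj_mem x g _
  have h3 := h1 hy
  rw [mem_comap] at h3
  have h4 : (MulAut.conj (g ^ (-j))).toMonoidHom y = g ^ (-j) * y * g ^ j := by
    show g ^ (-j) * y * (g ^ (-j))⁻¹ = _
    group
  rwa [h4] at h3

theorem CJ_le (x g : U) : CJ x g ≤ closure {x, g} := by
  rw [CJ, closure_le]
  rintro _ ⟨k, rfl⟩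
  have hx : x ∈ closure {x, g} := subset_closure (Or.inl rfl)
  have hg : g ∈ closure {x, g} := subset_closure (Or.inr rfl)
  exact mul_mem (mul_mem (zpow_mem hg _) hx) (zpow_mem hg _)

theorem form_of_mem (x g : U) {γ : U} (hγ : γ ∈ closure {x, g}) :
    ∃ m ∈ CJ x g, ∃ j : ℤ, γ = m * g ^ j := by
  induction hγ using closure_induction with
  | mem y hy =>
    rcases hy with rfl | rfl
    · exact ⟨_, cj_mem _ g 0, 0, by simp [cj_zero]⟩
    · exact ⟨1, one_mem _, 1, by simp⟩
  | one => exact ⟨1, one_mem _, 0, by simp⟩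
  | mul a b _ _ ha hb =>
    obtain ⟨m, hm, j, rfl⟩ := ha
    obtain ⟨m', hm', l, rfl⟩ := hb
    refine ⟨m * (g ^ (-(-j)) * m' * g ^ (-j)), mul_mem hm (conj_CJ x g (-j) hm'), j + l, ?_⟩
    group
  | inv a _ ha =>
    obtain ⟨m, hm, j, rfl⟩ := ha
    refine ⟨g ^ (-j) * m⁻¹ * g ^ j, conj_CJ x g j (inv_mem hm), -j, ?_⟩
    group

/-- the commutators of the group generated by `x` and `g` are in the group generated by the
conjugates of `x` -/
theorem comm_le_CJ (x g : U) : (closure {x, g}).lowerCentralSeries 1 ≤ CJ x g := by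
  rw [Subgroup.lowerCentralSeries_succ, Subgroup.lowerCentralSeries_zero, commutator_le]
  intro a ha b hb
  obtain ⟨m, hm, j, rfl⟩ := form_of_mem x g ha
  obtain ⟨m', hm', l, rfl⟩ := form_of_mem x g hb
  have e : ⁅m * g ^ j, m' * g ^ l⁆ =
      m * (g ^ (-(-j)) * m' * g ^ (-j)) * (g ^ (-(-l)) * m⁻¹ * g ^ (-l)) * m'⁻¹ := by
    rw [commutatorElement_def]
    group
  rw [e]
  exact mul_mem (mul_mem (mul_mem hm (conj_CJ x g _ hm')) (conj_CJ x g _ (inv_mem hm)))
    (inv_mem hm')

/-- conjugation of the group of the conjugates -/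
def cjHom (x g : U) (k : ℤ) : CJ x g →* CJ x g where
  toFun y := ⟨g ^ (-k) * y * g ^ k, conj_CJ x g k y.2⟩
  map_one' := by
    apply Subtype.ext
    simp
  map_mul' a b := by
    apply Subtype.ext
    show g ^ (-k) * (a * b : U) * g ^ k = g ^ (-k) * a * g ^ k * (g ^ (-k) * b * g ^ k)
    group

/-- the difference operator -/
def dl (x g : U) (y : CJ x g) : CJ x g := cjHom x g 1 y * y⁻¹

theorem dl_mem (x g : U) (n : ℕ) (y : CJ x g)
    (hy : (y : U) ∈ (closure {x, g}).lowerCentralSeries n) :
    ((dl x g y : CJ x g) : U) ∈ (closure {x, g}).lowerCentralSeries (n + 1) := by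
  have hg : g ∈ closure {x, g} := subset_closure (Or.inr rfl)
  have e : ((dl x g y : CJ x g) : U) = ⁅(y : U), g⁻¹⁆⁻¹ := by
    show g ^ (-1 : ℤ) * y * g ^ (1 : ℤ) * (y : U)⁻¹ = _
    rw [commutatorElement_def]
    group
  rw [e]
  exact inv_mem (commutator_mem_commutator hy (inv_mem hg))

theorem dl_iter_mem (x g : U) (n : ℕ) (y : CJ x g) :
    (((dl x g)^[n] y : CJ x g) : U) ∈ (closure {x, g}).lowerCentralSeries n := by
  induction n with
  | zero => exact CJ_le x g y.2
  | succ n ih =>
    rw [Function.iterate_succ_apply']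
    exact dl_mem x g n _ ih

theorem iter_fwd {B : Type*} [CommGroup B] (x g : U) (φ : CJ x g →* B) (n : ℕ) (y : CJ x g) :
    (fwdDiff 1)^[n] (fun k : ℤ => Additive.ofMul (φ (cjHom x g k y))) =
      fun k : ℤ => Additive.ofMul (φ (cjHom x g k ((dl x g)^[n] y))) := by
  induction n generalizing y with
  | zero => rfl
  | succ n ih =>
    rw [Function.iterate_succ_apply, Function.iterate_succ_apply]
    rw [← ih (dl x g y)]
    congr 1
    funext k
    have h1 : cjHom x g (k + 1) y = cjHom x g k (dl x g y) * cjHom x g k y := by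
      rw [← map_mul]
      apply Subtype.ext
      show g ^ (-(k + 1)) * (y : U) * g ^ (k + 1) =
        g ^ (-k) * (g ^ (-1 : ℤ) * (y : U) * g ^ (1 : ℤ) * (y : U)⁻¹ * y) * g ^ k
      group
    show Additive.ofMul (φ (cjHom x g (k + 1) y)) - Additive.ofMul (φ (cjHom x g k y)) = _
    rw [h1, map_mul, ofMul_mul, add_sub_cancel_right]

/-- if a subgroup contains enough conjugates `g⁻ᵏ x gᵏ`, then all elements of the group generated
by all conjugates have a power in it -/
theorem hasPow_CJ (x g : U) (c : ℕ) (hc : (closure {x, g}).lowerCentralSeries c = ⊥)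
    (J : Subgroup U) (S : Finset ℤ) (hS : c ≤ S.card) (h : ∀ k ∈ S, cj x g k ∈ J)
    {y : U} (hy : y ∈ CJ x g) : HasPow J y := by
  set J' : Subgroup (CJ x g) := J.subgroupOf (CJ x g) with hJ'
  have hc' : (⊤ : Subgroup (CJ x g)).lowerCentralSeries c = ⊥ := by
    rw [← map_subtype_inj, Subgroup.map_bot, top_subtype_lowerCentralSeries, eq_bot_iff, ← hc]
    exact Subgroup.lowerCentralSeries_mono c (CJ_le x g)
  have hx : x ∈ CJ x g := by
    have := cj_mem x g 0
    rwa [cj_zero] at this
  have h1 : ∀ t : ℤ, Additive.ofMul (tf J' (cjHom x g t ⟨x, hx⟩)) = 0 := by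
    intro t
    refine poly_eq_zero (tf_torsion_free J') c
      (fun k : ℤ => Additive.ofMul (tf J' (cjHom x g k ⟨x, hx⟩))) ?_ S hS ?_ t
    · rw [iter_fwd]
      funext k
      have h2 := dl_iter_mem x g c ⟨x, hx⟩
      rw [hc, mem_bot] at h2
      have h3 : (dl x g)^[c] (⟨x, hx⟩ : CJ x g) = 1 := Subtype.ext h2
      rw [h3, map_one, map_one]
      rfl
    · intro k hk
      have h2 : tf J' (cjHom x g k ⟨x, hx⟩) = 1 := by
        apply tf_of_mem
        rw [hJ', mem_subgroupOf]
        exact h k hk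
      show Additive.ofMul (tf J' (cjHom x g k ⟨x, hx⟩)) = 0
      rw [h2]
      rfl
  have h2 : ∀ z : CJ x g, tf J' z = 1 := by
    rintro ⟨z, hz⟩
    induction hz using closure_induction with
    | mem z hz =>
      obtain ⟨k, rfl⟩ := hz
      exact Additive.ofMul.injective (h1 k)
    | one => exact map_one _
    | mul a b ha hb h3 h4 =>
      have e : (⟨a * b, mul_mem ha hb⟩ : CJ x g) = ⟨a, ha⟩ * ⟨b, hb⟩ := rfl
      have h5 := congrArg₂ (· * ·) h3 h4
      simp only [mul_one] at h5
      rw [← map_mul] at h5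
      exact h5
    | inv a ha h3 =>
      have h5 := congrArg (·⁻¹) h3
      simp only [inv_one] at h5
      rw [← map_inv] at h5
      exact h5
  obtain ⟨n, hn, h3⟩ := hasPow_of_tf hc' J' h2 ⟨y, hy⟩
  rw [hJ', mem_subgroupOf] at h3
  exact ⟨n, hn, h3⟩

end Conj

end Pool.Agent.Helper29.NU
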