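import Pool.Agent.Helper29.NU.Kat
import Pool.Agent.Helper29.NU.Anti
import Pool.Graph.R_seed8.TH261.NP.Sys

/-! The application to endomorphisms of C*-algebras. -/

set_option autoImplicit false
set_option linter.style.haveILetI false
set_option linter.unusedSectionVars false
set_option linter.unusedVariables false

open Filter Topology Finset

namespace Pool.Agent.Helper29.NU

open Pool.Agent.TH261.AB (vav vav_le vav_of_residues Good term_le)
open Pool.Agent.Helper188.NCM
open Pool.Agent.TH261.NP (Eig Prods)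

section

variable {A : Type} [CStarAlgebra A]

/-- the iterates as homomorphisms -/
def itH (α : A →⋆ₐ[ℂ] A) : ℕ → (A →⋆ₐ[ℂ] A)
  | 0 => StarAlgHom.id ℂ A
  | n + 1 => (itH α n).comp α

theorem itH_apply (α : A →⋆ₐ[ℂ] A) (n : ℕ) (x : A) : itH α n x = (α^[n]) x := by
  induction n generalizing x with
  | zero => rfl
  | succ n ih =>
    rw [Function.iterate_succ_apply, ← ih]
    rfl

/-- the action on unitaries -/
def un {B : Type} [CStarAlgebra B] (f : A →⋆ₐ[ℂ] B) : unitary A →* unitary B where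
  toFun x := ⟨f x, Unitary.map_mem f x.2⟩
  map_one' := Subtype.ext (map_one f)
  map_mul' x y := Subtype.ext (map_mul f _ _)

theorem un_coe {B : Type} [CStarAlgebra B] (f : A →⋆ₐ[ℂ] B) (x : unitary A) :
    ((un f x : unitary B) : B) = f x := rfl

theorem iter_un (α : A →⋆ₐ[ℂ] A) (m n : ℕ) (x : unitary A) :
    ((((un (itH α m))^[n]) x : unitary A) : A) = (α^[m * n]) (x : A) := by
  induction n generalizing x with
  | zero => rfl
  | succ n ih =>
    rw [Function.iterate_succ_apply, ih, un_coe, itH_apply, ← Function.iterate_add_apply]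
    rfl

theorem DM_un (α : A →⋆ₐ[ℂ] A) (m : ℕ) (x : unitary A) :
    ((DM (un (itH α m)) x : unitary A) : A) = star (x : A) * (α^[m]) x := by
  rw [DM, Submonoid.coe_mul, un_coe, itH_apply]
  rfl

theorem iter_DM_un (α : A →⋆ₐ[ℂ] A) (m k : ℕ) (x : unitary A) :
    ((((DM (un (itH α m)))^[k]) x : unitary A) : A) = (fun y : A => star y * (α^[m]) y)^[k] x := by
  induction k generalizing x with
  | zero => rfl
  | succ k ih => rw [Function.iterate_succ_apply, Function.iterate_succ_apply, ih, DM_un]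

/-- the representation on unitaries -/
noncomputable def opHom {K : Type} [NormedAddCommGroup K] [InnerProductSpace ℂ K] [CompleteSpace K]
    (π : A →⋆ₐ[ℂ] (K →L[ℂ] K)) : unitary A →* (K ≃ₗᵢ[ℂ] K) where
  toFun x := Unitary.linearIsometryEquiv ⟨π x, Unitary.map_mem π x.2⟩
  map_one' := by
    ext v
    show π ((1 : unitary A) : A) v = v
    rw [Submonoid.coe_one, map_one]
    rfl
  map_mul' x y := by
    ext v
    show π ((x * y : unitary A) : A) v = π x (π y v)
    rw [Submonoid.coe_mul, map_mul]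
    rfl

theorem opHom_apply {K : Type} [NormedAddCommGroup K] [InnerProductSpace ℂ K] [CompleteSpace K]
    (π : A →⋆ₐ[ℂ] (K →L[ℂ] K)) (x : unitary A) (v : K) : opHom π x v = π (x : A) v := rfl

theorem eig_pow {γ : A →⋆ₐ[ℂ] A} {w : A} {l : ℂ} (hw : γ w = l • w) (n : ℕ) :
    (γ^[n]) w = l ^ n • w := by
  induction n with
  | zero => simp
  | succ n ih =>
    rw [Function.iterate_succ_apply', ih, map_smul, hw, smul_smul, pow_succ]

/-- the scalars as unitaries -/
noncomputable def scU (A : Type) [CStarAlgebra A] (l : ℂ) (hl : ‖l‖ = 1) : unitary A :=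
  ⟨l • 1, by
    have h1 : star l * l = 1 := by
      rw [Complex.star_def, Complex.conj_mul', hl]
      simp
    rw [Unitary.mem_iff]
    constructor
    · rw [star_smul, star_one, smul_mul_smul_comm, one_mul, h1, one_smul]
    · rw [star_smul, star_one, smul_mul_smul_comm, one_mul, mul_comm, h1, one_smul]⟩

theorem scU_pow {l : ℂ} (hl : ‖l‖ = 1) (n : ℕ) : ((scU A l hl ^ n : unitary A) : A) = l ^ n • 1 := by
  rw [SubmonoidClass.coe_pow]
  show (l • (1 : A)) ^ n = _
  rw [smul_pow, one_pow]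

/-- **Orbits of unitaries which are polynomial in nilpotent groups.** -/
theorem good_nil {α : A →⋆ₐ[ℂ] A} (u : unitary A) {m : ℕ} (hm : 0 < m) {k : ℕ}
    (hk : (fun x : A => star x * (α^[m]) x)^[k] u = 1) {V : Subgroup (unitary A)}
    (hVn : Group.IsNilpotent V)
    (hV : ∀ n : ℕ, ∃ v ∈ V, (v : A) = (α^[m * n]) (star (u : A) * (α^[m]) u))
    {W : Type} [CStarAlgebra W] (γ : W →⋆ₐ[ℂ] W) (ι : A →⋆ₐ[ℂ] W) (hι : ∀ a, γ (ι a) = ι (α a))
    {v w : W} (hv : Eig γ v) (hw : Eig γ w) : Good γ (v * ι u * w) := by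
  obtain ⟨l1, hl1, hv⟩ := hv
  obtain ⟨l2, hl2, hw⟩ := hw
  set τ : unitary A →* unitary A := un (itH α m) with hτ
  have hk' : (DM τ)^[k + 1] u = 1 := by
    have h1 : (DM τ)^[k] u = 1 := by
      apply Subtype.ext
      rw [hτ, iter_DM_un, hk]
      rfl
    rw [Function.iterate_succ_apply', h1, DM, map_one, inv_one, mul_one]
  have hV' : ∀ n : ℕ, (τ^[n]) (DM τ u) ∈ V := by
    intro n
    obtain ⟨x, hx, hx'⟩ := hV n
    have h1 : (τ^[n]) (DM τ u) = x := by
      apply Subtype.ext
      rw [hτ, iter_un, DM_un, hx']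
    rw [h1]
    exact hx
  obtain ⟨p, hp, hpn⟩ := orbit_poly hk' hV' (C := k + 2) (by omega)
  intro K _ _ _ π ξ
  refine vav_of_residues (by positivity) (term_le γ (v * ι u * w) π ξ) hm fun r hr => ?_
  -- the group and its representation
  have hl : ‖(l1 * l2) ^ m‖ = 1 := by rw [norm_pow, norm_mul, hl1, hl2, one_mul, one_pow]
  set z : unitary W := scU W ((l1 * l2) ^ m) hl with hz
  set fV : V →* (K ≃ₗᵢ[ℂ] K) := ((opHom π).comp (un (ι.comp (itH α r)))).comp V.subtype with hfV
  set fZ : Multiplicative ℤ →* (K ≃ₗᵢ[ℂ] K) := (opHom π).comp (zpowersHom _ z) with hfZ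
  have hzc : ∀ x : unitary W, Commute x z := by
    intro x
    apply Subtype.ext
    show (x : W) * (((l1 * l2) ^ m) • 1) = (((l1 * l2) ^ m) • 1) * (x : W)
    rw [mul_smul_comm, smul_mul_assoc, mul_one, one_mul]
  have hcomm : ∀ x y, Commute (fV x) (fZ y) := by
    intro x y
    refine Commute.map ?_ (opHom π)
    rw [zpowersHom_apply]
    exact (hzc _).zpow_right _
  set φ : V × Multiplicative ℤ →* (K ≃ₗᵢ[ℂ] K) := MonoidHom.noncommCoprod fV fZ hcomm with hφ
  haveI := hVn
  obtain ⟨c, hc⟩ := Subgroup.nilpotent_iff_lowerCentralSeries.1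
    (inferInstance : Group.IsNilpotent (V × Multiplicative ℤ))
  have hp' : (fun j : ℤ => ((p j, Multiplicative.ofAdd j) : V × Multiplicative ℤ)) ∈
      PP (slow (V × Multiplicative ℤ) (k + 2) (by omega)) 1 := by
    have e : (fun j : ℤ => ((p j, Multiplicative.ofAdd j) : V × Multiplicative ℤ)) =
        (fun j : ℤ => MonoidHom.inl V (Multiplicative ℤ) (p j)) *
        (fun j : ℤ => ((1, Multiplicative.ofAdd 1) : V × Multiplicative ℤ) ^ j) := by
      funext j
      refine Prod.ext ?_ ?_
      · show p j = p j * (((1, Multiplicative.ofAdd 1) : V × Multiplicative ℤ) ^ j).1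
        rw [Prod.pow_fst, one_zpow, mul_one]
      · show Multiplicative.ofAdd j =
          1 * (((1, Multiplicative.ofAdd 1) : V × Multiplicative ℤ) ^ j).2
        rw [Prod.pow_snd, one_mul, ← ofAdd_zsmul, smul_eq_mul, mul_one]
    rw [e]
    exact mul_mem (PP_map _ _ hp) (PP_of_isPoly _ (by omega) (isPoly_zpow _))
  have h1 := mob_seq hc φ (by omega) hp' hm hr (π w ξ)
  -- the terms
  have hφp : ∀ (j : ℕ) (x : K), φ (p j, Multiplicative.ofAdd (j : ℤ)) x =
      ((l1 * l2) ^ (m * j)) • π (ι ((α^[r]) (p j : A))) x := by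
    intro j x
    rw [hφ, MonoidHom.noncommCoprod_apply, mul_ap]
    have e1 : fZ (Multiplicative.ofAdd (j : ℤ)) x = ((l1 * l2) ^ (m * j)) • x := by
      rw [hfZ, MonoidHom.comp_apply, zpowersHom_apply, toAdd_ofAdd, zpow_natCast, opHom_apply, hz,
        scU_pow, ← pow_mul, map_smul, map_one]
      rfl
    have e2 : ∀ y : K, fV (p j) y = π (ι ((α^[r]) (p j : A))) y := by
      intro y
      rw [hfV, MonoidHom.comp_apply, MonoidHom.comp_apply, opHom_apply, un_coe]
      show π (ι (itH α r (p j : A))) y = _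
      rw [itH_apply]
    rw [e1, e2, map_smul]
  have hιn : ∀ (n : ℕ) (x : A), (γ^[n]) (ι x) = ι ((α^[n]) x) := by
    intro n
    induction n with
    | zero => intro x; rfl
    | succ n ih => intro x; rw [Function.iterate_succ_apply, Function.iterate_succ_apply, hι, ih]
  set T : K →L[ℂ] K := ((l1 * l2) ^ r) • π (v * ι ((α^[r]) (u : A))) with hT
  have h2 := (T.continuous.tendsto 0).comp h1
  rw [map_zero] at h2
  refine h2.congr fun N => ?_
  rw [Function.comp_apply, vav, vav, map_smul, map_sum]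
  congr 1
  refine Finset.sum_congr rfl fun j _ => ?_
  rw [map_smul]
  congr 1
  rw [hφp, map_smul, hT]
  have e1 : (α^[m * j + r]) (u : A) = (α^[r]) (u : A) * (α^[r]) (p j : A) := by
    have h3 := hpn j
    have h4 := congrArg (Subtype.val) h3
    rw [hτ, iter_un] at h4
    rw [add_comm, Function.iterate_add_apply, h4]
    exact Pool.Agent.TH261.AB.iter_mul α r _ _
  rw [Pool.Agent.TH261.AB.iter_mul, Pool.Agent.TH261.AB.iter_mul, eig_pow hv, eig_pow hw, hιn, e1,
    map_mul, map_mul, map_mul, map_smul, map_smul, map_mul, map_mul]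
  show ((l1 * l2) ^ (m * j)) • (((l1 * l2) ^ r) • (π v) (π (ι ((α^[r]) (u : A)))
    (π (ι ((α^[r]) (p j : A))) (π w ξ)))) =
    (l1 ^ (m * j + r) • π v) ((π (ι ((α^[r]) (u : A))) * π (ι ((α^[r]) (p j : A))))
      ((l2 ^ (m * j + r) • π w) ξ))
  show _ = (l1 ^ (m * j + r)) • (π v) ((π (ι ((α^[r]) (u : A)))) (π (ι ((α^[r]) (p j : A)))
      ((l2 ^ (m * j + r)) • (π w ξ))))
  rw [map_smul, map_smul, map_smul, smul_smul, smul_smul, ← pow_add, mul_pow]

/-- the unitaries with polynomial orbits in nilpotent groups -/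
def NilU (α : A →⋆ₐ[ℂ] A) : Set A := {u | u ∈ unitary A ∧ ∃ m : ℕ, 0 < m ∧
  (∃ k : ℕ, (fun x : A => star x * (α^[m]) x)^[k] u = 1) ∧
  ∃ V : Subgroup (unitary A), Group.IsNilpotent V ∧
    ∀ n : ℕ, ∃ v ∈ V, (v : A) = (α^[m * n]) (star u * (α^[m]) u)}

/-- all elements of the generated algebra -/
theorem good_all' {α : A →⋆ₐ[ℂ] A}
    (hd : (Submodule.span ℂ (Prods α (NilU α))).topologicalClosure = ⊤)
    {W : Type} [CStarAlgebra W] (γ : W →⋆ₐ[ℂ] W) (ι : A →⋆ₐ[ℂ] W)
    (hι : ∀ a, γ (ι a) = ι (α a))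
    (hgen : (Submodule.span ℂ (Prods γ (Set.range ι))).topologicalClosure = ⊤) :
    ∀ x, Good γ x := by
  have hS : ∀ x ∈ Prods γ (Set.range ι), Good γ x := by
    rintro x ⟨_, ⟨a, rfl⟩, v, w, hv, hw, rfl⟩
    have hcont : Continuous fun a : A => v * ι a * w :=
      (continuous_const.mul (AddMonoidHomClass.continuous_of_bound ι 1 fun x => by
        rw [one_mul]; exact NonUnitalStarAlgHom.norm_apply_le ι x)).mul continuous_const
    have h1 : ∀ a ∈ Submodule.span ℂ (Prods α (NilU α)), Good γ (v * ι a * w) := by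
      intro a ha
      induction ha using Submodule.span_induction with
      | mem x hx =>
        obtain ⟨u, ⟨hu, m, hm, ⟨k, hk⟩, V, hVn, hV⟩, v', w', hv', hw', rfl⟩ := hx
        have h2 := good_nil ⟨u, hu⟩ hm hk hVn hV γ ι hι (hv.mul (hv'.map hι)) ((hw'.map hι).mul hw)
        have e : v * ι (v' * u * w') * w = v * ι v' * ι u * (ι w' * w) := by
          rw [map_mul, map_mul]; simp only [mul_assoc]
        rw [e]
        exact h2
      | zero => rw [map_zero, mul_zero, zero_mul]; exact Good.zero γ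
      | add x y _ _ hx hy => rw [map_add, mul_add, add_mul]; exact hx.add hy
      | smul c x _ hx => rw [map_smul, mul_smul_comm, smul_mul_assoc]; exact hx.smul c
    have h2 : a ∈ closure (Submodule.span ℂ (Prods α (NilU α)) : Set A) := by
      have : a ∈ (Submodule.span ℂ (Prods α (NilU α))).topologicalClosure := by
        rw [hd]; trivial
      exact this
    refine Good.closed (S := (fun a : A => v * ι a * w) ''
      (Submodule.span ℂ (Prods α (NilU α)) : Set A))
      ?_ _ (image_closure_subset_closure_image hcont ⟨a, h2, rfl⟩)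
    rintro _ ⟨a, ha, rfl⟩
    exact h1 a ha
  intro x
  refine Good.of_span hS x ?_
  rw [hgen]; trivial

end

end Pool.Agent.Helper29.NU
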