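import Pool.Agent.Helper29.NU.Cl1
import Pool.Agent.Helper29.NU.Avg

/-! The mean ergodic theorem for polynomial sequences in nilpotent groups of unitaries. -/

set_option autoImplicit false
set_option linter.style.haveILetI false
set_option linter.unusedSectionVars false
set_option linter.unusedVariables false

open Submodule Filter Topology
open scoped commutatorElement

namespace Pool.Agent.Helper29.NU

universe u

/-- the vectors which are rational for all quotients of the values of `q` -/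
def NQ {H : Type u} [NormedAddCommGroup H] [InnerProductSpace ℂ H] (q : ℤ → (H ≃ₗᵢ[ℂ] H)) :
    Submodule ℂ H := ⨅ n : ℤ, ⨅ l : ℤ, V (q n * (q l)⁻¹)

theorem mem_NQ {H : Type u} [NormedAddCommGroup H] [InnerProductSpace ℂ H]
    {q : ℤ → (H ≃ₗᵢ[ℂ] H)} {v : H} : v ∈ NQ q ↔ ∀ n l : ℤ, v ∈ V (q n * (q l)⁻¹) := by
  simp only [NQ, Submodule.mem_iInf]

/-- the ergodic theorem: the averages of `q n ξ` have no component orthogonal to the rational
vectors -/
def EProp (c : ℕ) : Prop := ∀ (H : Type u) [NormedAddCommGroup H] [InnerProductSpace ℂ H]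
  [CompleteSpace H] (q : ℤ → (H ≃ₗᵢ[ℂ] H)), (Lam q).lowerCentralSeries c = ⊥ →
  ∀ ξ η : H, η ∈ (NQ q)ᗮ → Tendsto (pa (fun n => q n ξ) (fun _ => η)) atTop (𝓝 0)

theorem iter_eq_pow {H : Type u} [NormedAddCommGroup H] [InnerProductSpace ℂ H]
    (f : H ≃ₗᵢ[ℂ] H) (n : ℕ) (v : H) : (f : H → H)^[n] v = (f ^ n) v := by
  induction n with
  | zero => rfl
  | succ n ih =>
    rw [Function.iterate_succ_apply', ih, pow_succ']
    rfl

theorem eprop_one : EProp.{u} 1 := by
  intro H _ _ _ q hc ξ η hη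
  have h1 := commute_of_lcs_one hc (W_mem q) (W'_mem q)
  have h2 : ∀ n : ℤ, q n * (q (n + 1))⁻¹ = q (n + 1) * (q (n + 1 + 1))⁻¹ := by
    intro n
    have h3 := congrFun (congrArg Sq.f h1.eq) n
    rw [Sq.mul_f, Sq.mul_f] at h3
    have h4 : 1 * (q (n + 1) * (q (n + 1 + 1))⁻¹) = q n * (q (n + 1))⁻¹ * 1 := h3
    rw [one_mul, mul_one] at h4
    exact h4.symm
  set g : H ≃ₗᵢ[ℂ] H := q 1 * (q 0)⁻¹ with hg
  have h3 : ∀ n : ℤ, q n * (q (n + 1))⁻¹ = g⁻¹ := by
    intro n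
    induction n using Int.induction_on with
    | zero =>
      rw [zero_add, hg, mul_inv_rev, inv_inv]
    | succ i ih => rw [← h2, ih]
    | pred i ih =>
      have h4 := h2 (-(i : ℤ) - 1)
      rw [sub_add_cancel] at h4
      rw [sub_add_cancel, h4, ih]
  have h4 : ∀ n : ℤ, q (n + 1) = g * q n := by
    intro n
    have h5 := h3 n
    have h6 : q (n + 1) = (q n * (q (n + 1))⁻¹)⁻¹ * q n := by group
    rw [h6, h5, inv_inv]
  have h5 : ∀ n : ℕ, q n = g ^ n * q 0 := by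
    intro n
    induction n with
    | zero => simp
    | succ n ih =>
      push_cast
      rw [h4, ih, ← mul_assoc, ← pow_succ']
  have h6 : ∀ n l : ℤ, ∃ j : ℤ, q n * (q l)⁻¹ = g ^ j := by
    have h7 : ∀ n : ℤ, q n = g ^ n * q 0 := by
      intro n
      induction n using Int.induction_on with
      | zero => simp
      | succ i ih => rw [h4, ih, zpow_add, zpow_one, ← mul_assoc, ← zpow_one_add, ← zpow_add_one,
          add_comm]
      | pred i ih =>
        have h8 := h4 (-(i : ℤ) - 1)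
        rw [sub_add_cancel, ih] at h8
        have h9 : q (-(i : ℤ) - 1) = g⁻¹ * (g ^ (-(i : ℤ)) * q 0) := by
          rw [h8]
          group
        rw [h9]
        group
    intro n l
    refine ⟨n - l, ?_⟩
    rw [h7 n, h7 l, zpow_sub]
    group
  -- the mean ergodic theorem
  have h7 := (g.toContinuousLinearEquiv : H →L[ℂ] H).tendsto_birkhoffAverage_orthogonalProjection
    (by
      refine ContinuousLinearMap.opNorm_le_bound _ zero_le_one fun v => ?_
      rw [one_mul]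
      exact le_of_eq (g.norm_map v)) (q 0 ξ)
  set P := ((((g.toContinuousLinearEquiv : H →L[ℂ] H).eqLocus
    (1 : H →L[ℂ] H)).orthogonalProjectionOnto (q 0 ξ) : _) : H) with hP
  have hgP : g P = P := (((g.toContinuousLinearEquiv : H →L[ℂ] H).eqLocus
    (1 : H →L[ℂ] H)).orthogonalProjectionOnto (q 0 ξ)).2
  have hPN : P ∈ NQ q := by
    rw [mem_NQ]
    intro n l
    obtain ⟨j, hj⟩ := h6 n l
    rw [hj]
    refine subset_closure ⟨1, one_pos, ?_⟩
    rw [pow_one]
    exact zpow_fix hgP j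
  have h8 := Filter.Tendsto.inner (𝕜 := ℂ) h7
    (tendsto_const_nhds (x := η) (f := (atTop : Filter ℕ)))
  rw [(mem_orthogonal _ _).1 hη P hPN] at h8
  refine h8.congr fun N => ?_
  rw [pa, birkhoffAverage, birkhoffSum, inner_smul_left, map_inv₀, map_natCast, sum_inner]
  congr 1
  refine Finset.sum_congr rfl fun n _ => ?_
  congr 1
  rw [h5 n, mul_ap]
  exact iter_eq_pow g n (q 0 ξ)

theorem eprop_zero : EProp.{u} 0 := by
  intro H _ _ _ q hc
  refine eprop_one H q ?_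
  rw [eq_bot_iff, ← hc]
  exact (Lam q).lowerCentralSeries_antitone (Nat.zero_le 1)

section Step

variable {H : Type u} [NormedAddCommGroup H] [InnerProductSpace ℂ H] [CompleteSpace H]

/-- the values of the last commutators -/
def Zc (q : ℤ → (H ≃ₗᵢ[ℂ] H)) (k : ℕ) : Subgroup (H ≃ₗᵢ[ℂ] H) :=
  (((Lam q).lowerCentralSeries (k + 1)).subgroupOf (S0 (H ≃ₗᵢ[ℂ] H))).map ev0

theorem mem_Zc {q : ℤ → (H ≃ₗᵢ[ℂ] H)} {k : ℕ} {c : H ≃ₗᵢ[ℂ] H} :
    c ∈ Zc q k ↔ ∃ z ∈ (Lam q).lowerCentralSeries (k + 1), z.f 0 = c := by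
  constructor
  · rintro ⟨a, ha, rfl⟩
    exact ⟨a, ha, rfl⟩
  · rintro ⟨z, hz, rfl⟩
    have hk : z.k = 0 :=
      lcs_one_k q ((Lam q).lowerCentralSeries_antitone (by omega) hz)
    exact ⟨⟨z, mem_S0.2 hk⟩, hz, rfl⟩

theorem Zc_comm {q : ℤ → (H ≃ₗᵢ[ℂ] H)} {k : ℕ} (hc : (Lam q).lowerCentralSeries (k + 2) = ⊥)
    {c : H ≃ₗᵢ[ℂ] H} (hcz : c ∈ Zc q k) {a : H ≃ₗᵢ[ℂ] H} (ha : a ∈ KQ q) : Commute c a := by
  obtain ⟨z, hz, rfl⟩ := mem_Zc.1 hcz
  exact (last_const hc hz).2.2 a ha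

/-- the sequences of unitaries which leave `K` invariant -/
def SK (K : Submodule ℂ H) : Subgroup (Sq (H ≃ₗᵢ[ℂ] H)) where
  carrier := {a | ∀ n, a.f n ∈ St K}
  mul_mem' := fun ha hb n => mul_mem (ha n) (hb _)
  one_mem' := fun n => one_mem _
  inv_mem' := fun ha n => inv_mem (ha _)

/-- restriction of sequences of unitaries -/
def psi (K : Submodule ℂ H) : SK K →* Sq (K ≃ₗᵢ[ℂ] K) where
  toFun a := ⟨fun n => rs K ⟨(a : Sq (H ≃ₗᵢ[ℂ] H)).f n, a.2 n⟩, (a : Sq (H ≃ₗᵢ[ℂ] H)).k⟩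
  map_one' := by
    refine Sq.ext (funext fun n => ?_) rfl
    exact map_one (rs K)
  map_mul' a b := by
    refine Sq.ext (funext fun n => ?_) rfl
    exact map_mul (rs K) ⟨_, a.2 n⟩ ⟨_, b.2 _⟩

/-- the statement on the vectors fixed by the `m`-th powers of the last commutators -/
theorem eprop_Em {k : ℕ} (ih : EProp.{u} (k + 1)) {q : ℤ → (H ≃ₗᵢ[ℂ] H)} (hq0 : q 0 = 1)
    (hc : (Lam q).lowerCentralSeries (k + 2) = ⊥) {m : ℕ} (hm : 0 < m) (ξ : H) {w : H}
    (hw : w ∈ Em (Zc q k) m) (hwN : w ∈ (NQ q)ᗮ) :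
    Tendsto (pa (fun n => q n ξ) (fun _ => w)) atTop (𝓝 0) := by
  set K := Em (Zc q k) m with hK
  have hKc : IsClosed (K : Set H) := Em_closed _ _
  haveI : CompleteSpace K := hKc.completeSpace_coe
  have hqKQ : ∀ n, q n ∈ KQ q := by
    intro n
    have h1 := quot_mem_KQ q n 0
    rwa [hq0, inv_one, mul_one] at h1
  have hst : ∀ a ∈ KQ q, a ∈ St K := fun a ha => Em_st fun z hz => Zc_comm hc hz ha
  have hqst : ∀ n, q n ∈ St K := fun n => hst _ (hqKQ n)
  let q' : ℤ → (K ≃ₗᵢ[ℂ] K) := fun n => rs K ⟨q n, hqst n⟩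
  -- the class of the group of the restricted sequence
  have hΛ : Lam q ≤ SK K := by
    rw [Lam, Subgroup.closure_le]
    rintro _ (rfl | rfl)
    · intro n
      exact one_mem _
    · intro n
      exact mul_mem (hqst n) (inv_mem (hqst _))
  set Λ' := ((Lam q).subgroupOf (SK K)).map (psi K) with hΛ'
  have hΛ'c : Λ'.lowerCentralSeries (k + 2) = ⊥ := map_subgroupOf_bot _ _ _ hc
  have hΛ'm : ∀ z ∈ Λ'.lowerCentralSeries (k + 1), z ^ m = 1 := by
    intro z hz
    obtain ⟨a, rfl, ha⟩ := map_subgroupOf_lcs (SK K) (psi K) (Lam q) (k + 1) hz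
    obtain ⟨hk, hconst, -⟩ := last_const hc ha
    have h1 : ∀ j : ℕ, (psi K a) ^ j = ⟨fun n => rs K ⟨(a : Sq (H ≃ₗᵢ[ℂ] H)).f 0, a.2 0⟩ ^ j, 0⟩ := by
      intro j
      induction j with
      | zero => rfl
      | succ j ihj =>
        rw [pow_succ, ihj]
        refine Sq.ext (funext fun n => ?_) ?_
        · rw [Sq.mul_f, pow_succ]
          congr 1
          show rs K ⟨(a : Sq (H ≃ₗᵢ[ℂ] H)).f (n + 0), _⟩ = _
          congr 1
          exact Subtype.ext (hconst _)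
        · rw [Sq.mul_k]
          show 0 + (a : Sq (H ≃ₗᵢ[ℂ] H)).k = 0
          rw [hk, add_zero]
    rw [h1]
    refine Sq.ext (funext fun n => ?_) rfl
    show rs K ⟨(a : Sq (H ≃ₗᵢ[ℂ] H)).f 0, a.2 0⟩ ^ m = 1
    ext v
    rw [rs_pow_apply]
    exact v.2 _ (mem_Zc.2 ⟨a, ha, rfl⟩)
  have hWΛ' : (Sq.W : Sq (K ≃ₗᵢ[ℂ] K)) ∈ Λ' := by
    refine ⟨⟨Sq.W, hΛ (W_mem q)⟩, W_mem q, ?_⟩
    refine Sq.ext (funext fun n => ?_) rfl
    exact map_one (rs K)
  have hW'Λ' : Sq.W' q' ∈ Λ' := by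
    refine ⟨⟨Sq.W' q, hΛ (W'_mem q)⟩, W'_mem q, ?_⟩
    refine Sq.ext (funext fun n => ?_) rfl
    show rs K (⟨q n, hqst n⟩ * ⟨q (n + 1), hqst (n + 1)⟩⁻¹) = _
    rw [map_mul, map_inv]
    rfl
  have hP : (Subgroup.closure {(Sq.W : Sq (K ≃ₗᵢ[ℂ] K)) ^ m, Sq.W' q' ^ m}).lowerCentralSeries
      (k + 1) = ⊥ := by
    refine lcs_pow_rel k hΛ'c m hΛ'm _ ?_
    rw [Subgroup.closure_le]
    rintro _ (rfl | rfl)
    · exact Subgroup.subset_closure ⟨_, hWΛ', rfl⟩
    · exact Subgroup.subset_closure ⟨_, hW'Λ', rfl⟩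
  -- the averages along the residue classes
  have hres : ∀ r : ℕ, r < m → Tendsto (fun N : ℕ => (N : ℂ)⁻¹ * ∑ n ∈ Finset.range N,
      inner ℂ (q ((m * n + r : ℕ) : ℤ) ξ) w) atTop (𝓝 0) := by
    intro r _
    have h1 : (⟨w, hw⟩ : K) ∈ (NQ fun i => q' (m * i + r))ᗮ := by
      rw [mem_orthogonal]
      intro v hv
      have h2 : (v : H) ∈ NQ q := by
        rw [mem_NQ]
        intro n l
        set J := ratl (fprop (k + 2)) (KQ q) (KQ_lcs hc) (v : H) with hJ
        have h3 : HasPow J (q n * (q l)⁻¹) := by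
          refine hasPow_AP hc hm r J ?_ (quot_mem_KQ q n l)
          intro i
          refine ⟨quot_mem_KQ q _ _, ?_⟩
          have h4 := (mem_NQ.1 hv) i 0
          have h5 : q' (m * i + r) * (q' (m * 0 + r))⁻¹ =
              rs K (⟨q (m * i + r), hqst _⟩ * ⟨q r, hqst _⟩⁻¹) := by
            rw [map_mul, map_inv, mul_zero, zero_add]
          rw [h5, V_rs hKc] at h4
          exact h4
        obtain ⟨j, hj, h4⟩ := h3
        rw [← V_pow _ hj]
        exact h4.2
      exact (mem_orthogonal _ _).1 hwN _ h2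
    have h3 := ih K (fun i => q' (m * i + r)) (Lam_res hm r hP) ⟨Pj K ξ, pj_mem' hKc ξ⟩
      ⟨w, hw⟩ h1
    refine h3.congr fun N => ?_
    rw [pa]
    congr 1
    refine Finset.sum_congr rfl fun n _ => ?_
    show inner ℂ (q (m * n + r) (Pj K ξ)) w = inner ℂ (q ((m * n + r : ℕ) : ℤ) ξ) w
    rw [← pj_st K (hqst _), pj_symm, pj_self.2 (subset_closure hw)]
    push_cast
    rfl
  exact avg_res (a := fun n => inner ℂ (q ((n : ℕ) : ℤ) ξ) w) (C := ‖ξ‖ * ‖w‖) (fun n => by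
    refine (norm_inner_le_norm _ _).trans ?_
    rw [LinearIsometryEquiv.norm_map]) hm hres

theorem pa_add (u : ℤ → H) (v w : H) (N : ℕ) :
    pa u (fun _ => v + w) N = pa u (fun _ => v) N + pa u (fun _ => w) N := by
  simp only [pa]
  rw [← mul_add, ← Finset.sum_add_distrib]
  congr 1
  exact Finset.sum_congr rfl fun n _ => inner_add_right _ _ _

/-- closedness of the statement in the second vector -/
theorem tendsto_of_approx {q : ℤ → (H ≃ₗᵢ[ℂ] H)} {ξ η : H}
    (h : ∀ ε : ℝ, 0 < ε → ∃ w : H, ‖η - w‖ < ε ∧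
      Tendsto (pa (fun n => q n ξ) (fun _ => w)) atTop (𝓝 0)) :
    Tendsto (pa (fun n => q n ξ) (fun _ => η)) atTop (𝓝 0) := by
  rw [Metric.tendsto_atTop]
  intro ε hε
  obtain ⟨w, hw, h1⟩ := h (ε / 2 / (‖ξ‖ + 1)) (by positivity)
  rw [Metric.tendsto_atTop] at h1
  obtain ⟨N0, hN0⟩ := h1 (ε / 2) (by positivity)
  refine ⟨N0, fun N hN => ?_⟩
  have h2 := hN0 N hN
  rw [dist_zero_right] at h2 ⊢
  have h3 : pa (fun n => q n ξ) (fun _ => η) N =
      pa (fun n => q n ξ) (fun _ => w) N + pa (fun n => q n ξ) (fun _ => η - w) N := by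
    rw [← pa_add]
    simp
  have h4 : ‖pa (fun n => q n ξ) (fun _ => η - w) N‖ ≤ ‖ξ‖ * ‖η - w‖ :=
    pa_bound (fun n => by rw [LinearIsometryEquiv.norm_map]) (fun _ => le_rfl) N
  have h5 : ‖ξ‖ * ‖η - w‖ ≤ ε / 2 := by
    have h6 : ‖ξ‖ * ‖η - w‖ ≤ (‖ξ‖ + 1) * (ε / 2 / (‖ξ‖ + 1)) := by
      have := norm_nonneg ξ
      exact mul_le_mul (by linarith) hw.le (norm_nonneg _) (by positivity)
    have h7 : (‖ξ‖ + 1) * (ε / 2 / (‖ξ‖ + 1)) = ε / 2 := by
      have : ‖ξ‖ + 1 ≠ 0 := by positivity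
      field_simp
    linarith
  rw [h3]
  refine (norm_add_le _ _).trans_lt ?_
  linarith

/-- the step for sequences with `q 0 = 1` -/
theorem eprop_step' {k : ℕ} (ih : EProp.{u} (k + 1)) {q : ℤ → (H ≃ₗᵢ[ℂ] H)} (hq0 : q 0 = 1)
    (hc : (Lam q).lowerCentralSeries (k + 2) = ⊥) (ξ : H) {η : H} (hη : η ∈ (NQ q)ᗮ) :
    Tendsto (pa (fun n => q n ξ) (fun _ => η)) atTop (𝓝 0) := by
  classical
  obtain ⟨T, hT, hTZ⟩ := last_gen_rel (Sq.W : Sq (H ≃ₗᵢ[ℂ] H)) (Sq.W' q) k hc
  have hTmem : ∀ z ∈ T, z ∈ (Lam q).lowerCentralSeries (k + 1) := by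
    intro z hz
    have h1 : (Lam q).lowerCentralSeries (k + 1) = Subgroup.closure (T : Set (Sq (H ≃ₗᵢ[ℂ] H))) :=
      hTZ
    rw [h1]
    exact Subgroup.subset_closure hz
  have hNcomm : ∀ {P : Submodule ℂ H}, (∀ a ∈ KQ q, ∀ v, Pj P (a v) = a (Pj P v)) →
      ∀ v ∈ NQ q, Pj P v ∈ NQ q := by
    intro P hP v hv
    rw [mem_NQ] at hv ⊢
    intro n l
    exact V_of_pj_comm (hP _ (quot_mem_KQ q n l)) (hv n l)
  have hNort : ∀ {P : Submodule ℂ H}, (∀ a ∈ KQ q, ∀ v, Pj P (a v) = a (Pj P v)) →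
      ∀ v ∈ (NQ q)ᗮ, Pj P v ∈ (NQ q)ᗮ := by
    intro P hP v hv
    rw [mem_orthogonal'] at hv ⊢
    intro w hw
    rw [pj_symm]
    exact hv _ (hNcomm hP w hw)
  -- reduction to the rational vectors of the last commutators
  have hred : ∀ T' ⊆ T, ∃ η' ∈ (NQ q)ᗮ, (∀ z ∈ T', η' ∈ V (z.f 0)) ∧
      Tendsto (pa (fun n => q n ξ) (fun _ => η - η')) atTop (𝓝 0) := by
    intro T'
    induction T' using Finset.induction_on with
    | empty =>
      intro _
      refine ⟨η, hη, fun z hz => absurd hz (Finset.notMem_empty z), ?_⟩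
      refine tendsto_const_nhds.congr fun N => ?_
      rw [pa]
      simp
    | insert z T' _ ih' =>
      intro hsub
      have hzT : z ∈ T := hsub (Finset.mem_insert_self z T')
      obtain ⟨η', h1, h2, h3⟩ := ih' fun z' hz' => hsub (Finset.mem_insert_of_mem hz')
      have hzc := last_const hc (hTmem z hzT)
      have hRz : ∀ a ∈ KQ q, ∀ v, Pj (Rt (z.f 0)) (a v) = a (Pj (Rt (z.f 0)) v) :=
        fun a ha v => R_comm_apply (hzc.2.2 a ha) v
      refine ⟨R (z.f 0) η', hNort hRz _ h1, ?_, ?_⟩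
      · intro z' hz'
        rcases Finset.mem_insert.1 hz' with rfl | hz'
        · exact R_mem _ _
        · have hz'T := hsub (Finset.mem_insert_of_mem hz')
          have hcomm : Commute (z.f 0) (z'.f 0) := by
            have h4 := (central_rel hc (hTmem z hzT)
              ((Lam q).lowerCentralSeries_le_self _ (hTmem z' hz'T))).eq
            have h5 := congrFun (congrArg Sq.f h4) 0
            rw [Sq.mul_f, Sq.mul_f, hzc.1, (last_const hc (hTmem z' hz'T)).1] at h5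
            exact h5
          exact V_of_pj_comm (fun v => R_comm_apply hcomm v) (h2 z' hz')
      · have h4 := h3.add (claim1 hc (hTmem z hzT) ξ η')
        rw [add_zero] at h4
        refine h4.congr fun N => ?_
        rw [← pa_add]
        congr 1
        funext _
        abel
  obtain ⟨η', h1, h2, h3⟩ := hred T (Finset.Subset.refl T)
  -- approximation by vectors fixed by powers of the last commutators
  have h4 : Tendsto (pa (fun n => q n ξ) (fun _ => η')) atTop (𝓝 0) := by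
    refine tendsto_of_approx fun ε hε => ?_
    obtain ⟨m, hm, w0, hw0, hηw, -⟩ := approx (T.image fun z => z.f 0)
      (Zc q k : Set (H ≃ₗᵢ[ℂ] H)) (by
        intro c hcT
        obtain ⟨z, hz, rfl⟩ := Finset.mem_image.1 hcT
        refine ⟨mem_Zc.2 ⟨z, hTmem z hz, rfl⟩, ?_⟩
        intro w hw
        obtain ⟨z', hz', rfl⟩ := mem_Zc.1 hw
        have h4 := (central_rel hc (hTmem z hz)
          ((Lam q).lowerCentralSeries_le_self _ hz')).eq
        have h5 := congrFun (congrArg Sq.f h4) 0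
        rw [Sq.mul_f, Sq.mul_f, (last_const hc (hTmem z hz)).1, (last_const hc hz').1] at h5
        exact h5) η' (by
        intro c hcT
        obtain ⟨z, hz, rfl⟩ := Finset.mem_image.1 hcT
        exact h2 z hz) hε
    have hw0E : w0 ∈ Em (Zc q k) m := by
      intro c hcZ
      obtain ⟨z, hz, rfl⟩ := mem_Zc.1 hcZ
      have hz' : z ∈ Subgroup.closure (T : Set (Sq (H ≃ₗᵢ[ℂ] H))) := by
        have h1 : (Lam q).lowerCentralSeries (k + 1) =
          Subgroup.closure (T : Set (Sq (H ≃ₗᵢ[ℂ] H))) := hTZ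
        rwa [h1] at hz
      have h5 : z ∈ (Lam q).lowerCentralSeries (k + 1) ∧ (z.f 0 ^ m) w0 = w0 := by
        clear hz hcZ
        induction hz' using Subgroup.closure_induction with
        | mem z hz => exact ⟨hTmem z hz, hw0 _ (Finset.mem_image_of_mem _ hz)⟩
        | one => exact ⟨one_mem _, by rw [Sq.one_f, one_pow]; rfl⟩
        | mul a b _ _ ha hb =>
          refine ⟨mul_mem ha.1 hb.1, ?_⟩
          have hak := (last_const hc ha.1).1
          have hbk := (last_const hc hb.1).1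
          have hab : Commute (a.f 0) (b.f 0) := by
            have h4 := (central_rel hc ha.1 ((Lam q).lowerCentralSeries_le_self _ hb.1)).eq
            have h5 := congrFun (congrArg Sq.f h4) 0
            rw [Sq.mul_f, Sq.mul_f, hak, hbk] at h5
            exact h5
          have h6 : (a * b).f 0 = a.f 0 * b.f 0 := by
            rw [Sq.mul_f, hak]
            rfl
          rw [h6, hab.mul_pow, mul_ap, hb.2, ha.2]
        | inv a _ ha =>
          refine ⟨inv_mem ha.1, ?_⟩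
          have h6 : (a⁻¹).f 0 = (a.f 0)⁻¹ := by
            rw [Sq.inv_f, (last_const hc ha.1).1]
            rfl
          rw [h6, inv_pow]
          exact inv_fix ha.2
      exact h5.2
    have hPE : ∀ a ∈ KQ q, ∀ v, Pj (Em (Zc q k) m) (a v) = a (Pj (Em (Zc q k) m) v) := by
      intro a ha v
      exact pj_st _ (Em_st fun z hz => Zc_comm hc hz ha) v
    refine ⟨Pj (Em (Zc q k) m) η', ?_, ?_⟩
    · exact (pj_min η' (subset_closure hw0E)).trans_lt hηw
    · exact eprop_Em ih hq0 hc hm ξ (pj_mem' (Em_closed _ _) η') (hNort hPE _ h1)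
  have h5 := h3.add h4
  rw [add_zero] at h5
  refine h5.congr fun N => ?_
  rw [← pa_add]
  simp

theorem eprop_step {k : ℕ} (ih : EProp.{u} (k + 1)) : EProp.{u} (k + 2) := by
  intro H _ _ _ q hc ξ η hη
  set q' : ℤ → (H ≃ₗᵢ[ℂ] H) := fun n => q n * (q 0)⁻¹ with hq'
  have h0 : q' 0 = 1 := mul_inv_cancel _
  have h1 : Sq.W' q' = Sq.W' q := by
    refine Sq.ext (funext fun n => ?_) rfl
    show q n * (q 0)⁻¹ * (q (n + 1) * (q 0)⁻¹)⁻¹ = q n * (q (n + 1))⁻¹
    group
  have h2 : Lam q' = Lam q := by rw [Lam, Lam, h1]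
  have h3 : NQ q' = NQ q := by
    ext v
    rw [mem_NQ, mem_NQ]
    have h4 : ∀ n l : ℤ, q' n * (q' l)⁻¹ = q n * (q l)⁻¹ := by
      intro n l
      show q n * (q 0)⁻¹ * (q l * (q 0)⁻¹)⁻¹ = q n * (q l)⁻¹
      group
    simp only [h4]
  rw [← h2] at hc
  rw [← h3] at hη
  refine (eprop_step' ih h0 hc (q 0 ξ) hη).congr fun N => ?_
  rw [pa, pa]
  congr 1
  refine Finset.sum_congr rfl fun n _ => ?_
  show inner ℂ ((q n * (q 0)⁻¹) (q 0 ξ)) η = _
  rw [← mul_ap, inv_mul_cancel_right]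

end Step

/-- **The ergodic theorem.** -/
theorem eprop (c : ℕ) : EProp.{u} c := by
  induction c with
  | zero => exact eprop_zero
  | succ c ih =>
    rcases c with _ | k
    · exact eprop_one
    · exact eprop_step ih

end Pool.Agent.Helper29.NU
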