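import Pool.Agent.Helper29.NU.LL
import Pool.Agent.Helper29.NU.Erg

/-! Differences of dilations of a polynomial sequence have the same rational vectors. -/

set_option autoImplicit false
set_option linter.style.haveILetI false
set_option linter.unusedSectionVars false
set_option linter.unusedVariables false

open Subgroup
open scoped commutatorElement

namespace Pool.Agent.Helper29.NU

universe u

section Poly

variable {B : Type*} [AddCommGroup B]

theorem const_of_diff {f : ℤ → B} (hf : fwdDiff 1 f = 0) (n : ℤ) : f n = f 0 := by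
  have h1 : ∀ n, f (n + 1) = f n := fun n => by
    have := congrFun hf n
    rw [fwdDiff, Pi.zero_apply, sub_eq_zero] at this
    exact this
  induction n using Int.induction_on with
  | zero => rfl
  | succ i ih => rw [h1, ih]
  | pred i ih =>
    have h2 := h1 (-(i : ℤ) - 1)
    rw [sub_add_cancel] at h2
    rw [← h2, ih]

/-- the top difference of a dilation -/
theorem top_dil (m : ℕ) (e : ℕ) : ∀ (f : ℤ → B), (fwdDiff 1)^[e + 1] f = 0 → ∀ s : ℤ,
    (fwdDiff 1)^[e] (fun n : ℤ => f (m * n + s)) = fun _ => (m ^ e) • (fwdDiff 1)^[e] f 0 := by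
  induction e with
  | zero =>
    intro f hf s
    funext n
    show f (m * n + s) = 1 • f 0
    rw [one_smul]
    exact const_of_diff hf _
  | succ e ih =>
    intro f hf s
    have h1 : fwdDiff 1 (fun n : ℤ => f (m * n + s)) =
        ∑ i ∈ Finset.range m, fun n : ℤ => (fwdDiff 1 f) (m * n + (s + i)) := by
      funext n
      rw [Finset.sum_apply]
      have h2 : ∀ j : ℕ, f (m * n + s + j) - f (m * n + s) =
          ∑ i ∈ Finset.range j, (fwdDiff 1 f) (m * n + (s + i)) := by
        intro j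
        induction j with
        | zero => simp
        | succ j ihj =>
          rw [Finset.sum_range_succ, ← ihj]
          show _ = f (m * n + s + j) - f (m * n + s) + (f (m * n + (s + j) + 1) - f (m * n + (s + j)))
          have e1 : (m : ℤ) * n + (s + j) = m * n + s + j := by ring
          have e2 : (m : ℤ) * n + s + (j + 1 : ℕ) = m * n + s + j + 1 := by
            push_cast
            ring
          rw [e1, e2]
          abel
      show f (m * (n + 1) + s) - f (m * n + s) = _
      rw [← h2 m]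
      congr 2
      ring
    rw [Function.iterate_succ_apply, h1, fwdDiff_iter_finsetSum]
    have hg : (fwdDiff 1)^[e + 1] (fwdDiff 1 f) = 0 := by
      rw [← Function.iterate_succ_apply]
      exact hf
    funext n
    rw [Finset.sum_apply]
    have h3 : ∀ i ∈ Finset.range m, (fwdDiff 1)^[e]
        (fun n : ℤ => (fwdDiff 1 f) (m * n + (s + i))) n = (m ^ e) • (fwdDiff 1)^[e] (fwdDiff 1 f) 0 :=
      fun i _ => congrFun (ih _ hg _) n
    rw [Finset.sum_congr rfl h3, Finset.sum_const, Finset.card_range, smul_smul,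
      Function.iterate_succ_apply, pow_succ, mul_comm m]

/-- a polynomial sequence whose dilations by two different factors differ by a constant is
constant -/
theorem poly_const (htf : ∀ b : B, ∀ n : ℤ, n ≠ 0 → n • b = 0 → b = 0) {a b : ℕ}
    (hab : a ≠ b) (s t : ℤ) (d : ℕ) : ∀ (f : ℤ → B), (fwdDiff 1)^[d + 1] f = 0 → ∀ c : B,
    (∀ n : ℤ, f (b * n + t) - f (a * n + s) = c) → ∀ n, f n = f 0 := by
  induction d with
  | zero =>
    intro f hf c _ n
    exact const_of_diff hf n
  | succ d ih =>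
    intro f hf c h n
    refine ih f ?_ c h n
    have h1 : (fwdDiff 1)^[d + 1] (fun n : ℤ => f (b * n + t)) =
        (fwdDiff 1)^[d + 1] (fun n : ℤ => f (a * n + s)) := by
      have h2 : (fun n : ℤ => f (b * n + t)) = (fun n : ℤ => f (a * n + s)) + fun _ => c := by
        funext n
        rw [Pi.add_apply, ← h n]
        abel
      rw [h2, fwdDiff_iter_add]
      have h3 : ∀ e : ℕ, (fwdDiff 1)^[e + 1] (fun _ : ℤ => c) = 0 := by
        intro e
        induction e with
        | zero =>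
          funext x
          simp [fwdDiff]
        | succ e ihe =>
          rw [Function.iterate_succ_apply', ihe]
          funext x
          simp [fwdDiff]
      rw [h3, add_zero]
    rw [top_dil b (d + 1) f hf, top_dil a (d + 1) f hf] at h1
    have h4 := congrFun h1 0
    have h5 : (fwdDiff 1)^[d + 1] f 0 = 0 := by
      refine htf _ ((b : ℤ) ^ (d + 1) - (a : ℤ) ^ (d + 1)) ?_ ?_
      · intro h6
        have h7 : (b : ℤ) ^ (d + 1) = (a : ℤ) ^ (d + 1) := by linarith
        have h8 : b ^ (d + 1) = a ^ (d + 1) := by exact_mod_cast h7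
        exact hab (Nat.pow_left_injective (by omega : d + 1 ≠ 0) h8).symm
      · rw [sub_smul, sub_eq_zero, ← Nat.cast_pow, ← Nat.cast_pow, natCast_zsmul, natCast_zsmul]
        exact h4
    funext n
    have h6 : fwdDiff 1 ((fwdDiff 1)^[d + 1] f) = 0 := by
      have h7 := hf
      rw [Function.iterate_succ_apply'] at h7
      exact h7
    rw [const_of_diff h6, h5]
    rfl

end Poly

section Grp

variable {K : Type*} [Group K]

theorem mem_KQ {q : ℤ → K} (hq0 : q 0 = 1) (n : ℤ) : q n ∈ KQ q := by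
  have h1 := quot_mem_KQ q n 0
  rwa [hq0, inv_one, mul_one] at h1

/-- if a subgroup contains the quotients of the values of the difference of two dilations of `q`,
then it contains powers of all elements of the group generated by the quotients of the values of
`q` -/
theorem hasPow_dil {q : ℤ → K} (hq0 : q 0 = 1) {c : ℕ} (hc : (Lam q).lowerCentralSeries c = ⊥)
    {a b : ℕ} (hab : a ≠ b) (s t : ℤ) (J : Subgroup K)
    (h : ∀ n : ℤ, (q (a * n + s))⁻¹ * q (b * n + t) * ((q s)⁻¹ * q t)⁻¹ ∈ J) {x : K}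
    (hx : x ∈ KQ q) : HasPow J x := by
  set J' := J.subgroupOf (KQ q) with hJ'
  have hc' : (⊤ : Subgroup (KQ q)).lowerCentralSeries c = ⊥ := top_lcs_bot (KQ_lcs hc)
  let f : ℤ → Additive (TF J') := fun n => Additive.ofMul (tf J' ⟨q n, mem_KQ hq0 n⟩)
  have hΔ : ∀ j : ℕ, (fwdDiff 1)^[j + 1] f =
      fun n => Additive.ofMul (tf J' ⟨(itc q j).f n, itc_mem_KQ q j n⟩) := by
    intro j
    induction j with
    | zero =>
      funext n
      show Additive.ofMul (tf J' ⟨q (n + 1), mem_KQ hq0 (n + 1)⟩) -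
        Additive.ofMul (tf J' ⟨q n, mem_KQ hq0 n⟩) = _
      rw [← ofMul_div, ← map_div]
      congr 2
      apply Subtype.ext
      show q (n + 1) / q n = ((Df q)⁻¹).f n
      rw [Sq.inv_f]
      show q (n + 1) / q n = (q (n - 0) * (q (n - 0 + 1))⁻¹)⁻¹
      rw [sub_zero, div_eq_mul_inv]
      group
    | succ j ih =>
      rw [Function.iterate_succ_apply', ih]
      funext n
      show Additive.ofMul (tf J' ⟨(itc q j).f (n + 1), itc_mem_KQ q j (n + 1)⟩) -
        Additive.ofMul (tf J' ⟨(itc q j).f n, itc_mem_KQ q j n⟩) = _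
      rw [← ofMul_div, ← map_div]
      congr 2
      apply Subtype.ext
      show (itc q j).f (n + 1) / (itc q j).f n = (itc q (j + 1)).f n
      rw [itc_f, div_eq_mul_inv]
  have hΔc : (fwdDiff 1)^[c + 1] f = 0 := by
    rw [hΔ]
    funext n
    have h1 := itc_mem q c
    rw [hc, mem_bot] at h1
    have h2 : (⟨(itc q c).f n, itc_mem_KQ q c n⟩ : KQ q) = 1 := by
      apply Subtype.ext
      show (itc q c).f n = 1
      rw [h1]
      rfl
    rw [h2, map_one]
    rfl
  have hf0 : f 0 = 0 := by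
    have h2 : (⟨q 0, mem_KQ hq0 0⟩ : KQ q) = 1 := Subtype.ext hq0
    show Additive.ofMul (tf J' ⟨q 0, mem_KQ hq0 0⟩) = 0
    rw [h2, map_one]
    rfl
  have hf : ∀ n : ℤ, f n = 0 := by
    intro n
    rw [← hf0]
    refine poly_const (tf_torsion_free J') hab s t c f hΔc (f t - f s) (fun n => ?_) n
    have h1 : tf J' ⟨(q (a * n + s))⁻¹ * q (b * n + t) * ((q s)⁻¹ * q t)⁻¹,
        mul_mem (mul_mem (inv_mem (mem_KQ hq0 _)) (mem_KQ hq0 _))
          (inv_mem (mul_mem (inv_mem (mem_KQ hq0 _)) (mem_KQ hq0 _)))⟩ = 1 := by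
      apply tf_of_mem
      rw [hJ', mem_subgroupOf]
      exact h n
    have e : (⟨(q (a * n + s))⁻¹ * q (b * n + t) * ((q s)⁻¹ * q t)⁻¹,
        mul_mem (mul_mem (inv_mem (mem_KQ hq0 _)) (mem_KQ hq0 _))
          (inv_mem (mul_mem (inv_mem (mem_KQ hq0 _)) (mem_KQ hq0 _)))⟩ : KQ q) =
        (⟨q (a * n + s), mem_KQ hq0 _⟩)⁻¹ * ⟨q (b * n + t), mem_KQ hq0 _⟩ *
        ((⟨q s, mem_KQ hq0 _⟩)⁻¹ * ⟨q t, mem_KQ hq0 _⟩)⁻¹ := rfl
    rw [e, map_mul, map_mul, map_inv, map_inv, map_mul, map_inv] at h1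
    have h2 := congrArg Additive.ofMul h1
    rw [ofMul_mul, ofMul_mul, ofMul_inv, ofMul_inv, ofMul_mul, ofMul_inv, ofMul_one] at h2
    show f (b * n + t) - f (a * n + s) = f t - f s
    have h3 : -f (a * n + s) + f (b * n + t) + -(-f s + f t) = 0 := h2
    rw [sub_eq_sub_iff_add_eq_add]
    have h4 : f (b * n + t) + f s - (f t + f (a * n + s)) =
      -f (a * n + s) + f (b * n + t) + -(-f s + f t) := by abel
    rw [← sub_eq_zero, h4, h3]
  have hf' : ∀ n : ℤ, tf J' ⟨q n, mem_KQ hq0 n⟩ = 1 := fun n => Additive.ofMul.injective (hf n)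
  have h2 : ∀ z : KQ q, tf J' z = 1 := by
    rintro ⟨z, hz⟩
    induction hz using closure_induction with
    | mem z hz =>
      obtain ⟨n, rfl⟩ := hz
      have e : (⟨q n * (q (n + 1))⁻¹, subset_closure ⟨n, rfl⟩⟩ : KQ q) =
          ⟨q n, mem_KQ hq0 n⟩ * ⟨q (n + 1), mem_KQ hq0 _⟩⁻¹ := rfl
      have h3 := congrArg (tf J') e
      rw [map_mul, map_inv, hf', hf', inv_one, mul_one] at h3
      exact h3
    | one => exact map_one _
    | mul a b ha hb h3 h4 =>
      have h5 := congrArg₂ (· * ·) h3 h4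
      simp only [mul_one] at h5
      rw [← map_mul] at h5
      exact h5
    | inv a ha h3 =>
      have h5 := congrArg (·⁻¹) h3
      simp only [inv_one] at h5
      rw [← map_inv] at h5
      exact h5
  obtain ⟨n, hn, h3⟩ := hasPow_of_tf hc' J' h2 ⟨x, hx⟩
  rw [hJ', mem_subgroupOf] at h3
  exact ⟨n, hn, h3⟩

end Grp

section Hilb

variable {H : Type u} [NormedAddCommGroup H] [InnerProductSpace ℂ H] [CompleteSpace H]

theorem mem_NQ_of_KQ {q : ℤ → (H ≃ₗᵢ[ℂ] H)} {v : H} (h : ∀ a ∈ KQ q, v ∈ V a) : v ∈ NQ q := by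
  rw [mem_NQ]
  exact fun n l => h _ (quot_mem_KQ q n l)

/-- a vector which is rational for the quotients of the values of `q` is rational for all elements
of the generated group -/
theorem V_of_NQ {q : ℤ → (H ≃ₗᵢ[ℂ] H)} {c : ℕ} (hc : (Lam q).lowerCentralSeries c = ⊥) {v : H}
    (hv : v ∈ NQ q) {a : H ≃ₗᵢ[ℂ] H} (ha : a ∈ KQ q) : v ∈ V a := by
  have h1 : KQ q ≤ ratl (fprop c) (KQ q) (KQ_lcs hc) v := by
    conv_lhs => rw [KQ]
    rw [closure_le]
    rintro _ ⟨n, rfl⟩
    exact ⟨quot_mem_KQ q n (n + 1), mem_NQ.1 hv n (n + 1)⟩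
  exact (h1 ha).2

/-- the rational vectors of the difference of two dilations of a sequence -/
theorem NQ_dil {q : ℤ → (H ≃ₗᵢ[ℂ] H)} (hq0 : q 0 = 1) {c : ℕ}
    (hc : (Lam q).lowerCentralSeries c = ⊥) {a b : ℕ} (hab : a ≠ b) (s t : ℤ) :
    NQ (fun n : ℤ => (q (a * n + s))⁻¹ * q (b * n + t)) ≤ NQ q := by
  intro v hv
  refine mem_NQ_of_KQ fun x hx => ?_
  set J := ratl (fprop c) (KQ q) (KQ_lcs hc) v with hJ
  have h3 : HasPow J x := by
    refine hasPow_dil hq0 hc hab s t J ?_ hx
    intro n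
    refine ⟨mul_mem (mul_mem (inv_mem (mem_KQ hq0 _)) (mem_KQ hq0 _))
          (inv_mem (mul_mem (inv_mem (mem_KQ hq0 _)) (mem_KQ hq0 _))), ?_⟩
    have h4 := (mem_NQ.1 hv) n 0
    simp only [mul_zero, zero_add] at h4
    exact h4
  obtain ⟨j, hj, h4⟩ := h3
  rw [← V_pow _ hj]
  exact h4.2

end Hilb

end Pool.Agent.Helper29.NU
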