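import Pool.Agent.Helper29.NU.Baer
import Pool.Agent.Helper29.SM.NF

/-! Automorphisms which act unipotently on a group with the maximal condition. -/

set_option autoImplicit false
set_option linter.style.haveILetI false
set_option linter.unusedSectionVars false
set_option linter.unusedVariables false

open Subgroup
open scoped commutatorElement

namespace Pool.Agent.Helper29.NU

open Pool.Agent.Helper29.SM (NG)

theorem NG.surj {G B : Type} [Group G] [Group B] (f : G →* B) (hf : Function.Surjective f)
    (h : NG G) : NG B := by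
  classical
  intro K
  obtain ⟨T, hT⟩ := h (K.comap f)
  refine ⟨T.image f, ?_⟩
  rw [Finset.coe_image, ← MonoidHom.map_closure, hT,
    Subgroup.map_comap_eq_self_of_surjective hf]

theorem NG.int : NG (Multiplicative ℤ) := by
  haveI : Group.FG (Multiplicative ℤ) := by
    rw [Group.fg_def]
    refine ⟨{Multiplicative.ofAdd 1}, ?_⟩
    rw [eq_top_iff]
    intro x _
    rw [Finset.coe_singleton, mem_closure_singleton]
    exact ⟨x.toAdd, by rw [← ofAdd_zsmul, smul_eq_mul, mul_one, ofAdd_toAdd]⟩
  exact NG.of_comm fun a b => mul_comm a b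

section Semi

variable {G : Type} [Group G] (τ : MulAut G)

/-- the powers of `τ` -/
def pw : Multiplicative ℤ →* MulAut G := zpowersHom _ τ

/-- the semidirect product with the infinite cyclic group -/
abbrev SP : Type := G ⋊[pw τ] Multiplicative ℤ

theorem NG.semi (h : NG G) : NG (SP τ) := by
  refine NG.ext (SemidirectProduct.rightHom : SP τ →* Multiplicative ℤ) NG.int ?_
  refine NG.surj (({
    toFun := fun g => ⟨SemidirectProduct.inl g, by
      rw [MonoidHom.mem_ker]
      exact SemidirectProduct.rightHom_inl g⟩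
    map_one' := Subtype.ext (map_one _)
    map_mul' := fun x y => Subtype.ext (map_mul _ _ _) } :
      G →* (SemidirectProduct.rightHom : SP τ →* Multiplicative ℤ).ker)) ?_ h
  rintro ⟨x, hx⟩
  rw [← SemidirectProduct.range_inl_eq_ker_rightHom] at hx
  obtain ⟨g, rfl⟩ := hx
  exact ⟨g, rfl⟩

/-- the stable letter -/
def aa : SP τ := SemidirectProduct.inr (Multiplicative.ofAdd 1)

theorem aa_conj (g : G) : aa τ * SemidirectProduct.inl g * (aa τ)⁻¹ = SemidirectProduct.inl (τ g) := by
  have h1 := SemidirectProduct.inl_aut (φ := pw τ) (Multiplicative.ofAdd 1) g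
  have h2 : pw τ (Multiplicative.ofAdd 1) = τ := by
    rw [pw, zpowersHom_apply, toAdd_ofAdd, zpow_one]
  rw [h2, map_inv] at h1
  exact h1.symm

/-- the difference map -/
def Dg (x : G) : G := x⁻¹ * τ x

theorem En_inl (g : G) : En (aa τ) (SemidirectProduct.inl g) = SemidirectProduct.inl (Dg τ g) := by
  rw [En, Dg, map_mul, map_inv, ← aa_conj]
  group

theorem En_iter_inl (k : ℕ) (g : G) :
    (En (aa τ))^[k] (SemidirectProduct.inl g) = SemidirectProduct.inl ((Dg τ)^[k] g) := by
  induction k generalizing g with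
  | zero => rfl
  | succ k ih => rw [Function.iterate_succ_apply, En_inl, ih, Function.iterate_succ_apply]

theorem leng_aa (h : ∀ x, ∃ k : ℕ, (Dg τ)^[k] x = 1) : LEng (aa τ) := by
  intro x
  obtain ⟨g, n⟩ := x
  rw [SemidirectProduct.mk_eq_inl_mul_inr]
  obtain ⟨k, hk⟩ := h (pw τ n⁻¹ (Dg τ g))
  refine ⟨k + 1, ?_⟩
  rw [Function.iterate_succ_apply]
  have e : En (aa τ) (SemidirectProduct.inl g * SemidirectProduct.inr n) =
      SemidirectProduct.inl (pw τ n⁻¹ (Dg τ g)) := by
    rw [SemidirectProduct.inl_aut, ← En_inl, En, En]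
    have hc : (SemidirectProduct.inr n : SP τ) * (aa τ)⁻¹ = (aa τ)⁻¹ * SemidirectProduct.inr n := by
      rw [aa, ← map_inv, ← map_mul, ← map_mul, mul_comm]
    rw [map_inv, mul_inv_rev, inv_inv]
    calc _ = (SemidirectProduct.inr n)⁻¹ * (SemidirectProduct.inl g)⁻¹ * aa τ *
          SemidirectProduct.inl g * (SemidirectProduct.inr n * (aa τ)⁻¹) := by group
      _ = _ := by
        rw [hc]
        group
  rw [e, En_iter_inl, hk, map_one]

/-- **The group generated by the differences is nilpotent.** -/
theorem exists_nil (hN : NG G) (h : ∀ x, ∃ k : ℕ, (Dg τ)^[k] x = 1) :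
    ∃ V : Subgroup G, Group.IsNilpotent V ∧ ∀ (g : G) (n : ℕ), (τ^[n]) (Dg τ g) ∈ V := by
  have h1 := baer (NG.semi τ hN) (leng_aa τ h)
  set N : Subgroup (SP τ) := normalClosure {aa τ} with hNdef
  have hNn : N.Normal := normalClosure_normal
  have haN : aa τ ∈ N := subset_normalClosure rfl
  refine ⟨N.comap SemidirectProduct.inl, ?_, ?_⟩
  · obtain ⟨c, hc⟩ := (Subgroup.isNilpotent_iff_lowerCentralSeries N).1 h1
    refine (Subgroup.isNilpotent_iff_lowerCentralSeries _).2 ⟨c, ?_⟩
    have h2 : ((N.comap SemidirectProduct.inl).lowerCentralSeries c).map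
        (SemidirectProduct.inl : G →* SP τ) = ⊥ := by
      rw [Subgroup.map_lowerCentralSeries, eq_bot_iff, ← hc]
      exact Subgroup.lowerCentralSeries_mono c (Subgroup.map_comap_le _ _)
    rw [Subgroup.map_eq_bot_iff] at h2
    rw [eq_bot_iff]
    intro x hx
    have h3 := h2 hx
    rw [MonoidHom.mem_ker] at h3
    rw [mem_bot]
    exact SemidirectProduct.inl_injective (h3.trans (map_one _).symm)
  · intro g n
    induction n with
    | zero =>
      show SemidirectProduct.inl (Dg τ g) ∈ N
      rw [← En_inl, En]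
      have h2 := hNn.conj_mem _ haN (SemidirectProduct.inl g)⁻¹
      rw [inv_inv] at h2
      exact mul_mem h2 (inv_mem haN)
    | succ n ih =>
      rw [Function.iterate_succ_apply']
      show SemidirectProduct.inl (τ ((τ^[n]) (Dg τ g))) ∈ N
      rw [← aa_conj]
      exact hNn.conj_mem _ ih _

end Semi

/-- the local version -/
theorem exists_nil_local {G : Type} [Group G] (τ : MulAut G)
    (hN : ∀ K : Subgroup G, K.FG → ∀ K' ≤ K, K'.FG) (g : G)
    (h : ∀ x ∈ closure (Set.range fun n : ℕ => (τ^[n]) g), ∃ k : ℕ, (Dg τ)^[k] x = 1) :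
    ∃ V : Subgroup G, Group.IsNilpotent V ∧ ∀ n : ℕ, (τ^[n]) (Dg τ g) ∈ V := by
  classical
  set H := closure (Set.range fun n : ℕ => (τ^[n]) g) with hH
  have hgH : g ∈ H := subset_closure ⟨0, rfl⟩
  have hτH : ∀ x ∈ H, τ x ∈ H := by
    intro x hx
    have h1 : H ≤ H.comap τ.toMonoidHom := by
      conv_lhs => rw [hH]
      rw [closure_le]
      rintro _ ⟨n, rfl⟩
      refine subset_closure ⟨n + 1, ?_⟩
      exact Function.iterate_succ_apply' _ _ _
    exact h1 hx
  have hDH : ∀ x ∈ H, Dg τ x ∈ H := fun x hx => mul_mem (inv_mem hx) (hτH x hx)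
  obtain ⟨k, hk⟩ := h g hgH
  -- generators
  have hDi : ∀ i, (Dg τ)^[i] g ∈ H := by
    intro i
    induction i with
    | zero => exact hgH
    | succ i ih =>
      rw [Function.iterate_succ_apply']
      exact hDH _ ih
  have hτD : ∀ x, τ x = x * Dg τ x := fun x => by rw [Dg, mul_inv_cancel_left]
  set E : Subgroup G := closure ((Finset.range k).image fun i => (Dg τ)^[i] g : Finset G) with hE
  have hEi : ∀ i, (Dg τ)^[i] g ∈ E := by
    intro i
    rcases lt_or_ge i k with hi | hi
    · exact subset_closure (Finset.mem_coe.2 (Finset.mem_image_of_mem _ (Finset.mem_range.2 hi)))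
    · obtain ⟨j, rfl⟩ := Nat.exists_eq_add_of_le hi
      have h1 : (Dg τ)^[k + j] g = 1 := by
        rw [add_comm, Function.iterate_add_apply, hk]
        clear hi
        induction j with
        | zero => rfl
        | succ j ih => rw [Function.iterate_succ_apply', ih, Dg, map_one, inv_one, mul_one]
      rw [h1]
      exact one_mem _
  have hEτ : ∀ x ∈ E, τ x ∈ E := by
    intro x hx
    have h1 : E ≤ E.comap τ.toMonoidHom := by
      conv_lhs => rw [hE]
      rw [closure_le]
      intro y hy
      obtain ⟨i, -, rfl⟩ := Finset.mem_image.1 (Finset.mem_coe.1 hy)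
      show τ ((Dg τ)^[i] g) ∈ E
      rw [hτD]
      refine mul_mem (hEi i) ?_
      rw [← Function.iterate_succ_apply' (Dg τ)]
      exact hEi (i + 1)
    exact h1 hx
  have hHE : H ≤ E := by
    rw [hH, closure_le]
    rintro _ ⟨n, rfl⟩
    induction n with
    | zero => exact hEi 0
    | succ n ih =>
      show (τ^[n + 1]) g ∈ E
      rw [Function.iterate_succ_apply']
      exact hEτ _ ih
  have hEH : E ≤ H := by
    rw [hE, closure_le]
    intro y hy
    obtain ⟨i, -, rfl⟩ := Finset.mem_image.1 (Finset.mem_coe.1 hy)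
    exact hDi i
  have hEfg : E.FG := ⟨_, hE.symm⟩
  -- the inverse
  have hinv : ∀ x ∈ E, τ⁻¹ x ∈ E := by
    intro x hx
    have h0 : ∀ i, τ⁻¹ ((Dg τ)^[i] g) ∈ E := by
      have h2 : ∀ j i, i + j = k → τ⁻¹ ((Dg τ)^[i] g) ∈ E := by
        intro j
        induction j with
        | zero =>
          intro i hi
          rw [show i = k by omega, hk, map_one]
          exact one_mem _
        | succ j ih =>
          intro i hi
          have h3 := ih (i + 1) (by omega)
          have h4 : τ⁻¹ ((Dg τ)^[i] g) = (Dg τ)^[i] g * (τ⁻¹ ((Dg τ)^[i + 1] g))⁻¹ := by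
            rw [eq_mul_inv_iff_mul_eq, Function.iterate_succ_apply', ← map_mul, ← hτD,
              MulAut.inv_apply_self]
          rw [h4]
          exact mul_mem (hEi i) (inv_mem h3)
      intro i
      rcases le_total i k with hi | hi
      · exact h2 (k - i) i (by omega)
      · obtain ⟨j, rfl⟩ := Nat.exists_eq_add_of_le hi
        have h1 : (Dg τ)^[k + j] g = 1 := by
          rw [add_comm, Function.iterate_add_apply, hk]
          clear hi
          induction j with
          | zero => rfl
          | succ j ih => rw [Function.iterate_succ_apply', ih, Dg, map_one, inv_one, mul_one]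
        rw [h1, map_one]
        exact one_mem _
    have h1 : E ≤ E.comap (τ⁻¹ : MulAut G).toMonoidHom := by
      conv_lhs => rw [hE]
      rw [closure_le]
      intro y hy
      obtain ⟨i, -, rfl⟩ := Finset.mem_image.1 (Finset.mem_coe.1 hy)
      exact h0 i
    exact h1 hx
  let τE : MulAut E :=
    { toFun := fun x => ⟨τ x, hEτ x x.2⟩
      invFun := fun x => ⟨τ⁻¹ x, hinv x x.2⟩
      left_inv := fun x => Subtype.ext (MulAut.inv_apply_self _ τ x)
      right_inv := fun x => Subtype.ext (MulAut.apply_inv_self _ τ x)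
      map_mul' := fun x y => Subtype.ext (map_mul τ _ _) }
  have hτE : ∀ x : E, ((τE x : E) : G) = τ x := fun x => rfl
  have hDE : ∀ x : E, ((Dg τE x : E) : G) = Dg τ x := fun x => rfl
  have hDEi : ∀ (k : ℕ) (x : E), (((Dg τE)^[k] x : E) : G) = (Dg τ)^[k] x := by
    intro k
    induction k with
    | zero => intro x; rfl
    | succ k ih => intro x; rw [Function.iterate_succ_apply, ih, hDE, Function.iterate_succ_apply]
  have hτEi : ∀ (k : ℕ) (x : E), (((τE)^[k] x : E) : G) = (τ)^[k] x := by
    intro k
    induction k with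
    | zero => intro x; rfl
    | succ k ih => intro x; rw [Function.iterate_succ_apply, ih, hτE, Function.iterate_succ_apply]
  have hNE : NG E := by
    intro K
    have h1 := hN E hEfg (K.map E.subtype) (Subgroup.map_subtype_le K)
    have h2 : Group.FG (K.map E.subtype) := (Group.fg_iff_subgroup_fg _).2 h1
    rw [← Group.fg_iff_subgroup_fg]
    exact Group.fg_of_surjective (f := (K.equivMapOfInjective E.subtype
      E.subtype_injective).symm.toMonoidHom) (K.equivMapOfInjective E.subtype
      E.subtype_injective).symm.surjective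
  obtain ⟨V, hV, hVm⟩ := exists_nil τE hNE fun x => by
    obtain ⟨j, hj⟩ := h x (hEH x.2)
    exact ⟨j, Subtype.ext ((hDEi j x).trans hj)⟩
  refine ⟨V.map E.subtype, ?_, fun n => ?_⟩
  · haveI := hV
    exact Group.nilpotent_of_surjective (E.subtype.subgroupMap V)
      (E.subtype.subgroupMap_surjective V)
  · refine ⟨_, hVm ⟨g, hHE hgH⟩ n, ?_⟩
    show (((τE)^[n] (Dg τE ⟨g, hHE hgH⟩) : E) : G) = _
    rw [hτEi, hDE]

end Pool.Agent.Helper29.NU
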