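import Mathlib

/-! Roots of elements of subgroups of nilpotent groups. -/

set_option autoImplicit false

set_option linter.style.haveILetI false

open Subgroup
open scoped commutatorElement

namespace Pool.Agent.Helper29.NU

section Comm

variable {G : Type*} [Group G]

theorem comm_pow_left {x y : G} (h : ∀ w : G, Commute ⁅x, y⁆ w) (a : ℕ) :
    ⁅x ^ a, y⁆ = ⁅x, y⁆ ^ a := by
  induction a with
  | zero => simp
  | succ a ih =>
    have e : ⁅x ^ (a + 1), y⁆ = x * ⁅x ^ a, y⁆ * x⁻¹ * ⁅x, y⁆ := by
      simp only [commutatorElement_def, pow_succ']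
      group
    have h1 : x * ⁅x, y⁆ ^ a = ⁅x, y⁆ ^ a * x := ((h x).symm.pow_right a).eq
    rw [e, ih, h1, mul_assoc, mul_assoc, mul_inv_cancel_left, pow_succ]

theorem comm_pow_right {x y : G} (h : ∀ w : G, Commute ⁅x, y⁆ w) (b : ℕ) :
    ⁅x, y ^ b⁆ = ⁅x, y⁆ ^ b := by
  have h1 : ∀ w : G, Commute ⁅y, x⁆ w := by
    intro w
    rw [← commutatorElement_inv]
    exact (h w).inv_left
  rw [← commutatorElement_inv, comm_pow_left h1, ← inv_pow, commutatorElement_inv]

theorem comm_pow_pow {x y : G} (h : ∀ w : G, Commute ⁅x, y⁆ w) (a b : ℕ) :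
    ⁅x ^ a, y ^ b⁆ = ⁅x, y⁆ ^ (a * b) := by
  have h1 : ∀ w : G, Commute ⁅x ^ a, y⁆ w := by
    intro w
    rw [comm_pow_left h]
    exact (h w).pow_left a
  rw [comm_pow_right h1, comm_pow_left h, ← pow_mul]

end Comm

/-- an element with a power in `H` -/
def HasPow {G : Type*} [Group G] (H : Subgroup G) (g : G) : Prop := ∃ n : ℕ, 0 < n ∧ g ^ n ∈ H

theorem HasPow.of_mem {G : Type*} [Group G] {H : Subgroup G} {g : G} (h : g ∈ H) : HasPow H g :=
  ⟨1, one_pos, by rwa [pow_one]⟩

theorem HasPow.mono {G : Type*} [Group G] {H K : Subgroup G} (hHK : H ≤ K) {g : G}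
    (h : HasPow H g) : HasPow K g := by
  obtain ⟨n, hn, h⟩ := h
  exact ⟨n, hn, hHK h⟩

/-- modulo the commutator subgroup the elements with a power in `H` form a subgroup -/
theorem hasPow_sup_comm {G : Type*} [Group G] (H : Subgroup G) (S : Set G)
    (hS : closure S = ⊤) (h : ∀ s ∈ S, HasPow (H ⊔ commutator G) s) (g : G) :
    HasPow (H ⊔ commutator G) g := by
  let f : G →* (Abelianization G) ⧸ (H.map Abelianization.of) :=
    (QuotientGroup.mk' _).comp Abelianization.of
  have hf : ∀ x : G, f x = 1 ↔ x ∈ H ⊔ commutator G := by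
    intro x
    show (QuotientGroup.mk' (H.map Abelianization.of)) (Abelianization.of x) = 1 ↔ _
    rw [QuotientGroup.mk'_apply, QuotientGroup.eq_one_iff]
    constructor
    · rintro ⟨y, hy, e⟩
      have h1 : Abelianization.of (y⁻¹ * x) = 1 := by rw [map_mul, map_inv, e, inv_mul_cancel]
      rw [← MonoidHom.mem_ker, Abelianization.ker_of] at h1
      have h2 : x = y * (y⁻¹ * x) := by group
      rw [h2]
      exact mul_mem (mem_sup_left hy) (mem_sup_right h1)
    · intro hx
      have h1 : H ⊔ commutator G ≤ (H.map Abelianization.of).comap Abelianization.of := by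
        rw [sup_le_iff]
        refine ⟨le_comap_map _ _, ?_⟩
        intro y hy
        rw [mem_comap]
        have h2 : (Abelianization.of y : Abelianization G) = 1 := by
          rw [← MonoidHom.mem_ker, Abelianization.ker_of]
          exact hy
        rw [h2]
        exact one_mem _
      exact h1 hx
  have h1 : ∀ x : G, f x ∈ CommGroup.torsion _ ↔ HasPow (H ⊔ commutator G) x := by
    intro x
    rw [CommGroup.mem_torsion, isOfFinOrder_iff_pow_eq_one]
    constructor
    · rintro ⟨n, hn, e⟩
      rw [← map_pow, hf] at e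
      exact ⟨n, hn, e⟩
    · rintro ⟨n, hn, e⟩
      rw [← hf, map_pow] at e
      exact ⟨n, hn, e⟩
  have h2 : closure S ≤ (CommGroup.torsion _).comap f := by
    rw [closure_le]
    intro s hs
    exact (h1 s).2 (h s hs)
  rw [hS] at h2
  exact (h1 g).1 (h2 (mem_top g))

/-- **Isolators.** In a nilpotent group, a subgroup which has powers of all elements modulo
commutators has powers of all elements. -/
theorem hasPow_of_comm (c : ℕ) : ∀ (G : Type*) [Group G],
    (⊤ : Subgroup G).lowerCentralSeries c = ⊥ → ∀ H : Subgroup G,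
    (∀ g : G, HasPow (H ⊔ commutator G) g) → ∀ g : G, HasPow H g := by
  induction c with
  | zero =>
    intro G _ hc H _ g
    have h1 : g ∈ (⊥ : Subgroup G) := by
      rw [← hc]
      exact mem_top g
    rw [mem_bot] at h1
    rw [h1]
    exact HasPow.of_mem (one_mem H)
  | succ c ih =>
    intro G _ hc H hH g
    rcases c with _ | k
    · have h1 : commutator G = ⊥ := hc
      have h2 := hH g
      rwa [h1, sup_bot_eq] at h2
    · set Z : Subgroup G := (⊤ : Subgroup G).lowerCentralSeries (k + 1) with hZ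
      haveI : Z.Normal := by
        rw [hZ]
        infer_instance
      have hcen : ∀ z ∈ Z, ∀ w : G, Commute z w := by
        intro z hz w
        have h1 : ⁅z, w⁆ ∈ (⊥ : Subgroup G) := by
          rw [← hc]
          exact commutator_mem_commutator hz (mem_top w)
        rw [mem_bot, commutatorElement_eq_one_iff_commute] at h1
        exact h1
      have hq : (⊤ : Subgroup (G ⧸ Z)).lowerCentralSeries (k + 1) = ⊥ := by
        have h1 := map_lowerCentralSeries (⊤ : Subgroup G) (QuotientGroup.mk' Z) (k + 1)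
        rw [map_top_of_surjective _ (QuotientGroup.mk'_surjective Z), ← hZ,
          QuotientGroup.map_mk'_self] at h1
        exact h1.symm
      have h1 := ih (G ⧸ Z) hq (H.map (QuotientGroup.mk' Z)) (by
        intro g'
        obtain ⟨g, rfl⟩ := QuotientGroup.mk'_surjective Z g'
        obtain ⟨n, hn, h2⟩ := hH g
        refine ⟨n, hn, ?_⟩
        have h3 : (H ⊔ commutator G).map (QuotientGroup.mk' Z) ≤
            H.map (QuotientGroup.mk' Z) ⊔ commutator (G ⧸ Z) := by
          rw [Subgroup.map_sup]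
          refine sup_le_sup_left ?_ _
          rw [_root_.commutator_def, _root_.commutator_def, Subgroup.map_commutator]
          exact commutator_mono le_top le_top
        rw [← map_pow]
        exact h3 (mem_map_of_mem _ h2))
      have h2 : ∀ x : G, ∃ n : ℕ, 0 < n ∧ ∃ z ∈ Z, x ^ n * z ∈ H := by
        intro x
        obtain ⟨n, hn, y, hy, e⟩ := h1 (QuotientGroup.mk' Z x)
        refine ⟨n, hn, (x ^ n)⁻¹ * y, ?_, by rwa [mul_inv_cancel_left]⟩
        rw [← map_pow] at e
        exact QuotientGroup.eq.1 e.symm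
      have h3 : ∀ z ∈ Z, (∀ w : G, Commute z w) ∧ HasPow H z := by
        intro z hz
        rw [hZ, Subgroup.mem_lowerCentralSeries_succ_iff] at hz
        induction hz using closure_induction with
        | mem z hz =>
          obtain ⟨x, hx, y, -, rfl⟩ := hz
          have h4 : ⁅x, y⁆ ∈ Z := commutator_mem_commutator hx (mem_top y)
          refine ⟨hcen _ h4, ?_⟩
          obtain ⟨a, ha, z1, hz1, e1⟩ := h2 x
          obtain ⟨b, hb, z2, hz2, e2⟩ := h2 y
          refine ⟨a * b, Nat.mul_pos ha hb, ?_⟩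
          have h5 : ⁅x ^ a * z1, y ^ b * z2⁆ = ⁅x ^ a, y ^ b⁆ := by
            have c1 := hcen z1 hz1
            have c2 := hcen z2 hz2
            rw [commutatorElement_def, commutatorElement_def, mul_inv_rev, mul_inv_rev]
            have e3 : x ^ a * z1 * (y ^ b * z2) * (z1⁻¹ * (x ^ a)⁻¹) * (z2⁻¹ * (y ^ b)⁻¹) =
                x ^ a * (z1 * ((y ^ b * z2) * z1⁻¹)) * (x ^ a)⁻¹ * (z2⁻¹ * (y ^ b)⁻¹) := by
              group
            have e4 : z1 * ((y ^ b * z2) * z1⁻¹) = y ^ b * z2 := by
              rw [← mul_assoc, (c1 (y ^ b * z2)).eq, mul_inv_cancel_right]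
            have e5 : x ^ a * (y ^ b * z2) * (x ^ a)⁻¹ * (z2⁻¹ * (y ^ b)⁻¹) =
                x ^ a * y ^ b * (z2 * ((x ^ a)⁻¹ * z2⁻¹)) * (y ^ b)⁻¹ := by
              group
            have e6 : z2 * ((x ^ a)⁻¹ * z2⁻¹) = (x ^ a)⁻¹ := by
              rw [← mul_assoc, (c2 ((x ^ a)⁻¹)).eq, mul_inv_cancel_right]
            rw [e3, e4, e5, e6]
          rw [← comm_pow_pow (hcen _ h4), ← h5, commutatorElement_def]
          exact mul_mem (mul_mem (mul_mem e1 e2) (inv_mem e1)) (inv_mem e2)
        | one => exact ⟨fun w => Commute.one_left w, HasPow.of_mem (one_mem H)⟩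
        | mul x y _ _ hx hy =>
          obtain ⟨n, hn, e1⟩ := hx.2
          obtain ⟨m, hm, e2⟩ := hy.2
          refine ⟨fun w => (hx.1 w).mul_left (hy.1 w), n * m, Nat.mul_pos hn hm, ?_⟩
          rw [(hx.1 y).mul_pow, pow_mul, mul_comm n m, pow_mul]
          exact mul_mem (pow_mem e1 _) (pow_mem e2 _)
        | inv x _ hx =>
          obtain ⟨n, hn, e1⟩ := hx.2
          refine ⟨fun w => (hx.1 w).inv_left, n, hn, ?_⟩
          rw [inv_pow]
          exact inv_mem e1
      obtain ⟨n, hn, z, hz, e⟩ := h2 g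
      obtain ⟨hc1, m, hm, e1⟩ := h3 z hz
      refine ⟨n * m, Nat.mul_pos hn hm, ?_⟩
      have e2 : (g ^ n * z) ^ m = g ^ (n * m) * z ^ m := by
        rw [(hc1 (g ^ n)).symm.mul_pow, pow_mul]
      have e3 : g ^ (n * m) = (g ^ n * z) ^ m * (z ^ m)⁻¹ := by rw [e2, mul_inv_cancel_right]
      rw [e3]
      exact mul_mem (pow_mem e m) (inv_mem e1)

/-- in a nilpotent group the elements with a power in a subgroup form a subgroup -/
theorem hasPow_of_gen {G : Type*} [Group G] {c : ℕ}
    (hc : (⊤ : Subgroup G).lowerCentralSeries c = ⊥) (H : Subgroup G) (S : Set G)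
    (hS : closure S = ⊤) (h : ∀ s ∈ S, HasPow H s) (g : G) : HasPow H g :=
  hasPow_of_comm c G hc H (hasPow_sup_comm H S hS fun s hs => (h s hs).mono le_sup_left) g

end Pool.Agent.Helper29.NU
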