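import Pool.Agent.Helper29.NU.Grp

/-! Lower central series: generators, cyclic extensions of the commutator subgroup, powers. -/

set_option autoImplicit false
set_option linter.style.haveILetI false

open Subgroup
open scoped commutatorElement

namespace Pool.Agent.Helper29.NU

variable {G : Type*} [Group G]

theorem normal_of_between {n : ℕ} {N : Subgroup G}
    (h1 : (⊤ : Subgroup G).lowerCentralSeries (n + 1) ≤ N)
    (h2 : N ≤ (⊤ : Subgroup G).lowerCentralSeries n) : N.Normal := by
  refine ⟨fun x hx g => ?_⟩
  have e : g * x * g⁻¹ = ⁅x, g⁆⁻¹ * x := by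
    rw [commutatorElement_def]
    group
  rw [e]
  exact mul_mem (inv_mem (h1 (commutator_mem_commutator (h2 hx) (mem_top g)))) hx

theorem step_gen (S : Finset G) (hS : closure (S : Set G) = ⊤) (n : ℕ) (T : Finset G)
    (h : (⊤ : Subgroup G).lowerCentralSeries n ≤
      closure (T : Set G) ⊔ (⊤ : Subgroup G).lowerCentralSeries (n + 1))
    (hT : ∀ t ∈ T, t ∈ (⊤ : Subgroup G).lowerCentralSeries n) :
    (⊤ : Subgroup G).lowerCentralSeries (n + 1) ≤
      closure {x | ∃ t ∈ T, ∃ s ∈ S, x = ⁅t, s⁆} ⊔ (⊤ : Subgroup G).lowerCentralSeries (n + 2) := by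
  set N := closure {x | ∃ t ∈ T, ∃ s ∈ S, x = ⁅t, s⁆} ⊔
    (⊤ : Subgroup G).lowerCentralSeries (n + 2) with hN
  have hN1 : N ≤ (⊤ : Subgroup G).lowerCentralSeries (n + 1) := by
    rw [hN, sup_le_iff]
    refine ⟨?_, (⊤ : Subgroup G).lowerCentralSeries_antitone (Nat.le_succ _)⟩
    rw [closure_le]
    rintro x ⟨t, ht, s, hs, rfl⟩
    exact commutator_mem_commutator (hT t ht) (mem_top s)
  haveI : N.Normal := normal_of_between (n := n + 1) le_sup_right hN1
  have hcomm : ∀ x y : G, ⁅x, y⁆ ∈ N ↔
      Commute (QuotientGroup.mk' N x) (QuotientGroup.mk' N y) := by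
    intro x y
    rw [← commutatorElement_eq_one_iff_commute, ← map_commutatorElement,
      QuotientGroup.mk'_apply, QuotientGroup.eq_one_iff]
  have h1 : ∀ x ∈ (⊤ : Subgroup G).lowerCentralSeries n,
      QuotientGroup.mk' N x ∈ center (G ⧸ N) := by
    intro x hx
    have h2 : closure (T : Set G) ⊔ (⊤ : Subgroup G).lowerCentralSeries (n + 1) ≤
        (center (G ⧸ N)).comap (QuotientGroup.mk' N) := by
      rw [sup_le_iff, closure_le]
      refine ⟨?_, ?_⟩
      · intro t ht
        rw [SetLike.mem_coe, mem_comap, mem_center_iff]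
        intro q
        obtain ⟨y, rfl⟩ := QuotientGroup.mk'_surjective N q
        have h3 : closure (S : Set G) ≤
            (centralizer {QuotientGroup.mk' N t}).comap (QuotientGroup.mk' N) := by
          rw [closure_le]
          intro s hs
          rw [SetLike.mem_coe, mem_comap, mem_centralizer_singleton_iff]
          have h4 : ⁅t, s⁆ ∈ N := by
            rw [hN]
            exact mem_sup_left (subset_closure ⟨t, ht, s, hs, rfl⟩)
          exact ((hcomm t s).1 h4).symm.eq
        rw [hS] at h3
        have h4 := h3 (mem_top y)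
        rw [mem_comap, mem_centralizer_singleton_iff] at h4
        exact h4
      · intro l hl
        rw [mem_comap, mem_center_iff]
        intro q
        obtain ⟨y, rfl⟩ := QuotientGroup.mk'_surjective N q
        have h4 : ⁅l, y⁆ ∈ N := by
          rw [hN]
          exact mem_sup_right (commutator_mem_commutator hl (mem_top y))
        exact ((hcomm l y).1 h4).symm.eq
    exact h2 (h hx)
  rw [Subgroup.lowerCentralSeries_succ, commutator_le]
  intro x hx y _
  rw [hcomm]
  exact (mem_center_iff.1 (h1 x hx) _).symm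

theorem gen_series [DecidableEq G] (S : Finset G) (hS : closure (S : Set G) = ⊤) (n : ℕ) :
    ∃ T : Finset G, (∀ t ∈ T, t ∈ (⊤ : Subgroup G).lowerCentralSeries n) ∧
      (⊤ : Subgroup G).lowerCentralSeries n ≤
        closure (T : Set G) ⊔ (⊤ : Subgroup G).lowerCentralSeries (n + 1) := by
  induction n with
  | zero =>
    refine ⟨S, fun t _ => mem_top t, ?_⟩
    rw [hS]
    exact le_sup_left.trans' le_top
  | succ n ih =>
    obtain ⟨T, hT, h⟩ := ih
    refine ⟨(T ×ˢ S).image fun p => ⁅p.1, p.2⁆, ?_, ?_⟩
    · intro x hx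
      obtain ⟨p, hp, rfl⟩ := Finset.mem_image.1 hx
      rw [Finset.mem_product] at hp
      exact commutator_mem_commutator (hT _ hp.1) (mem_top _)
    · have h1 := step_gen S hS n T h hT
      refine h1.trans (sup_le_sup_right (Subgroup.closure_mono ?_) _)
      rintro x ⟨t, ht, s, hs, rfl⟩
      rw [Finset.mem_coe, Finset.mem_image]
      exact ⟨(t, s), Finset.mem_product.2 ⟨ht, hs⟩, rfl⟩

/-- the last term of the lower central series of a finitely generated nilpotent group is generated
by finitely many commutators -/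
theorem last_gen (S : Finset G) (hS : closure (S : Set G) = ⊤) (k : ℕ)
    (hc : (⊤ : Subgroup G).lowerCentralSeries (k + 2) = ⊥) :
    ∃ T : Finset G, (∀ z ∈ T, ∃ x ∈ (⊤ : Subgroup G).lowerCentralSeries k, ∃ y : G, z = ⁅x, y⁆) ∧
      (⊤ : Subgroup G).lowerCentralSeries (k + 1) = closure (T : Set G) := by
  classical
  obtain ⟨T, hT, h⟩ := gen_series S hS k
  refine ⟨(T ×ˢ S).image fun p => ⁅p.1, p.2⁆, ?_, le_antisymm ?_ ?_⟩
  · intro x hx
    obtain ⟨p, hp, rfl⟩ := Finset.mem_image.1 hx
    rw [Finset.mem_product] at hp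
    exact ⟨p.1, hT _ hp.1, p.2, rfl⟩
  · have h1 := step_gen S hS k T h hT
    rw [hc, sup_bot_eq] at h1
    refine h1.trans (Subgroup.closure_mono ?_)
    rintro x ⟨t, ht, s, hs, rfl⟩
    rw [Finset.mem_coe, Finset.mem_image]
    exact ⟨(t, s), Finset.mem_product.2 ⟨ht, hs⟩, rfl⟩
  · rw [closure_le]
    intro x hx
    obtain ⟨p, hp, rfl⟩ := Finset.mem_image.1 (Finset.mem_coe.1 hx)
    rw [Finset.mem_product] at hp
    exact commutator_mem_commutator (hT _ hp.1) (mem_top _)

/-- the subgroup generated by `g` and the commutators has smaller class -/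
theorem lcs_cyc (g : G) (n : ℕ) :
    (closure {g} ⊔ (⊤ : Subgroup G).lowerCentralSeries 1).lowerCentralSeries (n + 1) ≤
      (⊤ : Subgroup G).lowerCentralSeries (n + 2) := by
  induction n with
  | zero =>
    rw [zero_add, Subgroup.lowerCentralSeries_succ, Subgroup.lowerCentralSeries_zero, zero_add,
      commutator_le]
    set N := (⊤ : Subgroup G).lowerCentralSeries 2 with hN
    haveI : N.Normal := by
      rw [hN]
      infer_instance
    have hcomm : ∀ x y : G, ⁅x, y⁆ ∈ N ↔
        Commute (QuotientGroup.mk' N x) (QuotientGroup.mk' N y) := by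
      intro x y
      rw [← commutatorElement_eq_one_iff_commute, ← map_commutatorElement,
        QuotientGroup.mk'_apply, QuotientGroup.eq_one_iff]
    have h1 : closure {g} ⊔ (⊤ : Subgroup G).lowerCentralSeries 1 ≤
        (centralizer {QuotientGroup.mk' N g}).comap (QuotientGroup.mk' N) := by
      rw [sup_le_iff, closure_le]
      constructor
      · rintro x rfl
        rw [SetLike.mem_coe, mem_comap, mem_centralizer_singleton_iff]
      · intro l hl
        rw [mem_comap, mem_centralizer_singleton_iff]
        exact ((hcomm l g).1 (commutator_mem_commutator hl (mem_top g))).eq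
    have h2 : ∀ x ∈ closure {g} ⊔ (⊤ : Subgroup G).lowerCentralSeries 1,
        closure {g} ⊔ (⊤ : Subgroup G).lowerCentralSeries 1 ≤
        (centralizer {QuotientGroup.mk' N x}).comap (QuotientGroup.mk' N) := by
      intro x hx
      rw [sup_le_iff, closure_le]
      constructor
      · rintro y rfl
        rw [SetLike.mem_coe, mem_comap, mem_centralizer_singleton_iff]
        have h3 := h1 hx
        rw [mem_comap, mem_centralizer_singleton_iff] at h3
        exact h3.symm
      · intro l hl
        rw [mem_comap, mem_centralizer_singleton_iff]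
        exact ((hcomm l x).1 (commutator_mem_commutator hl (mem_top x))).eq
    intro x hx y hy
    rw [hcomm]
    have h3 := h2 x hx hy
    rw [mem_comap, mem_centralizer_singleton_iff] at h3
    exact h3.symm
  | succ n ih =>
    rw [Subgroup.lowerCentralSeries_succ]
    exact commutator_mono ih le_top

/-- if the last term of the lower central series has exponent `m`, then the `m`-th powers generate
a group of smaller class -/
theorem lcs_pow (k : ℕ) (hc : (⊤ : Subgroup G).lowerCentralSeries (k + 2) = ⊥) (m : ℕ)
    (hz : ∀ z ∈ (⊤ : Subgroup G).lowerCentralSeries (k + 1), z ^ m = 1) (P : Subgroup G)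
    (hP : P ≤ closure {x | ∃ y : G, x = y ^ m}) : P.lowerCentralSeries (k + 1) = ⊥ := by
  have hcen : ∀ z ∈ (⊤ : Subgroup G).lowerCentralSeries (k + 1), ∀ w : G, Commute z w := by
    intro z hz w
    have h1 : ⁅z, w⁆ ∈ (⊥ : Subgroup G) := by
      rw [← hc]
      exact commutator_mem_commutator hz (mem_top w)
    rw [mem_bot, commutatorElement_eq_one_iff_commute] at h1
    exact h1
  rw [Subgroup.lowerCentralSeries_succ, eq_bot_iff, commutator_le]
  intro x hx p hp
  have hx' : x ∈ (⊤ : Subgroup G).lowerCentralSeries k := P.lowerCentralSeries_mono k le_top hx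
  rw [mem_bot, commutatorElement_eq_one_iff_commute]
  have h1 : closure {x | ∃ y : G, x = y ^ m} ≤ centralizer {x} := by
    rw [closure_le]
    rintro _ ⟨y, rfl⟩
    rw [SetLike.mem_coe, mem_centralizer_singleton_iff]
    have h2 : ⁅x, y⁆ ∈ (⊤ : Subgroup G).lowerCentralSeries (k + 1) :=
      commutator_mem_commutator hx' (mem_top y)
    have h3 : ⁅x, y ^ m⁆ = 1 := by rw [comm_pow_right (hcen _ h2), hz _ h2]
    rw [commutatorElement_eq_one_iff_commute] at h3
    exact h3.symm.eq
  have h2 := h1 (hP hp)
  rw [mem_centralizer_singleton_iff] at h2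
  exact h2.symm

end Pool.Agent.Helper29.NU
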