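import Pool.Agent.Helper29.NU.Kro

/-! Automorphisms of virtually polycyclic groups without expanding eigenvectors. -/

set_option autoImplicit false
set_option linter.style.haveILetI false
set_option linter.unusedSectionVars false
set_option linter.unusedVariables false

open Subgroup
open scoped commutatorElement

namespace Pool.Agent.Helper29.NU

open Pool.Agent.Helper29.SM (NG)

variable {G : Type} [Group G]

theorem solv_sup (H K : Subgroup G) [H.Normal] [K.Normal] (hH : Group.IsSolvable H)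
    (hK : Group.IsSolvable K) : Group.IsSolvable (H ⊔ K : Subgroup G) := by
  set P : Subgroup G := H ⊔ K with hP
  have h1 : P.map (QuotientGroup.mk' K) = H.map (QuotientGroup.mk' K) := by
    rw [hP, Subgroup.map_sup, QuotientGroup.map_mk'_self, sup_bot_eq]
  haveI h2 : Group.IsSolvable (P.map (QuotientGroup.mk' K)) := by
    rw [h1]
    exact Group.isSolvable_of_surjective ((QuotientGroup.mk' K).subgroupMap_surjective H)
  refine Group.isSolvable_of_ker_le_range (Subgroup.inclusion (le_sup_right : K ≤ P))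
    ((QuotientGroup.mk' K).subgroupMap P) ?_
  intro x hx
  rw [MonoidHom.mem_ker] at hx
  have h3 : QuotientGroup.mk' K (x : G) = 1 := congrArg Subtype.val hx
  rw [QuotientGroup.mk'_apply, QuotientGroup.eq_one_iff] at h3
  exact ⟨⟨x, h3⟩, rfl⟩

theorem exists_rad (hN : ∀ K : Subgroup G, K.FG) : ∃ R : Subgroup G, R.Normal ∧ Group.IsSolvable R ∧
    ∀ K : Subgroup G, K.Normal → Group.IsSolvable K → K ≤ R := by
  haveI := wf_of_fg hN
  obtain ⟨R, ⟨hR, hRs⟩, hmax⟩ := (wellFounded_gt (α := Subgroup G)).has_min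
    {R : Subgroup G | R.Normal ∧ Group.IsSolvable R} ⟨⊥, inferInstance, inferInstance⟩
  refine ⟨R, hR, hRs, fun K hK hKs => ?_⟩
  have h1 : R ⊔ K ∈ {R : Subgroup G | R.Normal ∧ Group.IsSolvable R} :=
    ⟨inferInstance, solv_sup R K hRs hKs⟩
  by_contra hle
  refine hmax _ h1 (lt_of_le_of_ne le_sup_left fun h => hle ?_)
  rw [h]
  exact le_sup_right

/-- the derived series of a subgroup in the ambient group -/
def RR (R : Subgroup G) : ℕ → Subgroup G
  | 0 => R
  | i + 1 => ⁅RR R i, RR R i⁆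

theorem RR_normal (R : Subgroup G) [hR : R.Normal] (i : ℕ) : (RR R i).Normal := by
  induction i with
  | zero => exact hR
  | succ i ih =>
    show (⁅RR R i, RR R i⁆ : Subgroup G).Normal
    infer_instance

theorem RR_map {R : Subgroup G} {τ : MulAut G} (hR : R.map τ.toMonoidHom = R) (i : ℕ) :
    (RR R i).map τ.toMonoidHom = RR R i := by
  induction i with
  | zero => exact hR
  | succ i ih =>
    show (⁅RR R i, RR R i⁆ : Subgroup G).map τ.toMonoidHom = ⁅RR R i, RR R i⁆
    rw [Subgroup.map_commutator, ih]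

theorem mem_iff_of_map {R : Subgroup G} {τ : MulAut G} (hR : R.map τ.toMonoidHom = R) (x : G) :
    x ∈ R ↔ τ x ∈ R := by
  constructor
  · intro hx
    rw [← hR]
    exact ⟨x, hx, rfl⟩
  · intro hx
    rw [← hR] at hx
    obtain ⟨y, hy, e⟩ := hx
    rwa [← τ.injective e]

theorem RR_bot {R : Subgroup G} (hR : Group.IsSolvable R) : ∃ d, RR R d = ⊥ := by
  obtain ⟨d, hd⟩ := (Group.isSolvable_def R).mp hR
  have h1 : ∀ i, (derivedSeries R i).map R.subtype = RR R i := by
    intro i
    induction i with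
    | zero =>
      rw [derivedSeries_zero, ← MonoidHom.range_eq_map, Subgroup.range_subtype]
      rfl
    | succ i ih =>
      rw [derivedSeries_succ, Subgroup.map_commutator, ih]
      rfl
  refine ⟨d, ?_⟩
  rw [← h1, hd, Subgroup.map_bot]

/-- restriction of an automorphism -/
def rsA (τ : MulAut G) (A : Subgroup G) (hA : ∀ x, x ∈ A ↔ τ x ∈ A) : MulAut A where
  toFun x := ⟨τ x, (hA x).1 x.2⟩
  invFun x := ⟨τ⁻¹ x, by rw [hA, MulAut.apply_inv_self]; exact x.2⟩
  left_inv x := Subtype.ext (MulAut.inv_apply_self _ τ x)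
  right_inv x := Subtype.ext (MulAut.apply_inv_self _ τ x)
  map_mul' x y := Subtype.ext (map_mul τ _ _)

theorem rsA_pow (τ : MulAut G) (A : Subgroup G) (hA : ∀ x, x ∈ A ↔ τ x ∈ A) (n : ℕ) (x : A) :
    ((((rsA τ A hA) ^ n) x : A) : G) = (τ ^ n) x := by
  induction n generalizing x with
  | zero => rfl
  | succ n ih =>
    rw [pow_succ, MulAut.mul_apply, ih, pow_succ, MulAut.mul_apply]
    rfl

theorem Dg_rsA (τ : MulAut G) (A : Subgroup G) (hA : ∀ x, x ∈ A ↔ τ x ∈ A) (n k : ℕ) (x : A) :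
    (((Dg ((rsA τ A hA) ^ n))^[k] x : A) : G) = (Dg (τ ^ n))^[k] x := by
  induction k generalizing x with
  | zero => rfl
  | succ k ih =>
    rw [Function.iterate_succ_apply, ih, Function.iterate_succ_apply]
    congr 1
    show (x : G)⁻¹ * ((((rsA τ A hA) ^ n) x : A) : G) = _
    rw [rsA_pow]
    rfl

/-- no expanding eigenvectors among the homomorphisms from invariant normal subgroups to `ℂ` -/
def SpecC (τ : MulAut G) : Prop := ∀ N : Subgroup G, N.Normal → (∀ x, x ∈ N ↔ τ x ∈ N) →
  ∀ (χ : N →* Multiplicative ℂ) (l : ℂ), χ ≠ 1 →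
    (∀ x y : N, (y : G) = τ x → (χ y).toAdd = l * (χ x).toAdd) → ‖l‖ ≤ 1

/-- **A power of an automorphism of a virtually polycyclic group which has no expanding
eigenvectors acts unipotently.** -/
theorem vpc_unip (hN : ∀ K : Subgroup G, K.FG) {S : Subgroup G} (hS : S.FiniteIndex)
    (hSs : Group.IsSolvable S) (τ : MulAut G) (hs : SpecC τ) :
    ∃ m : ℕ, 0 < m ∧ ∃ k : ℕ, ∀ x, (Dg (τ ^ m))^[k] x = 1 := by
  obtain ⟨R, hRn, hRs, hRmax⟩ := exists_rad hN
  have hRle : ∀ τ : MulAut G, R.map τ.toMonoidHom ≤ R := by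
    intro τ
    refine hRmax _ (hRn.map _ τ.surjective) ?_
    exact Group.isSolvable_of_surjective (τ.toMonoidHom.subgroupMap_surjective R)
  have hRmap : R.map τ.toMonoidHom = R := by
    refine le_antisymm (hRle τ) ?_
    intro x hx
    refine ⟨τ⁻¹ x, hRle τ⁻¹ ⟨x, hx, rfl⟩, ?_⟩
    exact MulAut.apply_inv_self _ τ x
  have hRfin : R.FiniteIndex := by
    have h1 : S.normalCore ≤ R := by
      refine hRmax _ inferInstance ?_
      have h2 : Function.Injective (Subgroup.inclusion S.normalCore_le) :=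
        Subgroup.inclusion_injective _
      exact Group.isSolvable_of_isSolvable_injective h2
    haveI : S.normalCore.FiniteIndex := inferInstance
    exact Subgroup.finiteIndex_of_le h1
  -- the finite quotient
  have hmem := mem_iff_of_map hRmap
  obtain ⟨m0, hm0, hq⟩ : ∃ m0 : ℕ, 0 < m0 ∧ ∀ (n : ℕ) (x : G), Dg (τ ^ (m0 * n)) x ∈ R := by
    let e : Equiv.Perm (G ⧸ R) :=
      (QuotientGroup.congr R R τ hRmap).toEquiv
    have he : ∀ (n : ℕ) (x : G), (e ^ n) (QuotientGroup.mk x) = QuotientGroup.mk ((τ ^ n) x) := by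
      intro n
      induction n with
      | zero => intro x; rfl
      | succ n ih =>
        intro x
        rw [pow_succ, Equiv.Perm.mul_apply, pow_succ, MulAut.mul_apply, ← ih]
        rfl
    haveI : Finite (G ⧸ R) := inferInstance
    refine ⟨orderOf e, orderOf_pos e, fun n x => ?_⟩
    have h1 := he (orderOf e * n) x
    rw [pow_mul, pow_orderOf_eq_one, one_pow, Equiv.Perm.one_apply] at h1
    exact QuotientGroup.eq.1 h1
  obtain ⟨d, hd⟩ := RR_bot hRs
  -- the layers
  have hlay : ∀ i, ∃ m : ℕ, 0 < m ∧ ∃ k : ℕ, ∀ n : ℕ, ∀ x ∈ RR R i,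
      (Dg (τ ^ (m * n)))^[k] x ∈ RR R (i + 1) := by
    intro i
    have hA := mem_iff_of_map (RR_map hRmap i)
    haveI := RR_normal R i
    obtain ⟨m, hm, k, hk⟩ := kron_ab (A := RR R i) ((Group.fg_iff_subgroup_fg _).2 (hN _))
      (rsA τ _ hA) (by
        intro χ l hχ hl
        refine hs (RR R i) (RR_normal R i) hA χ l hχ fun x y hxy => ?_
        rw [← hl x]
        congr 2
        exact Subtype.ext hxy)
    refine ⟨m, hm, k, fun n x hx => ?_⟩
    have h1 := hk n ⟨x, hx⟩
    have h2 := mem_map_of_mem (RR R i).subtype h1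
    have h3 : (commutator (RR R i)).map (RR R i).subtype = RR R (i + 1) := by
      rw [_root_.commutator_def, Subgroup.map_commutator, ← MonoidHom.range_eq_map,
        Subgroup.range_subtype]
      rfl
    rw [h3] at h2
    have h4 : (RR R i).subtype ((Dg ((rsA τ _ hA) ^ (m * n)))^[k] ⟨x, hx⟩) =
        (Dg (τ ^ (m * n)))^[k] x := Dg_rsA τ _ hA (m * n) k ⟨x, hx⟩
    rwa [h4] at h2
  have hall : ∀ i, ∃ m : ℕ, 0 < m ∧ ∃ k : ℕ, ∀ (n : ℕ) (x : G),
      (Dg (τ ^ (m * n)))^[k] x ∈ RR R i := by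
    intro i
    induction i with
    | zero => exact ⟨m0, hm0, 1, fun n x => hq n x⟩
    | succ i ih =>
      obtain ⟨m, hm, k, hk⟩ := ih
      obtain ⟨m', hm', k', hk'⟩ := hlay i
      refine ⟨m * m', Nat.mul_pos hm hm', k' + k, fun n x => ?_⟩
      rw [Function.iterate_add_apply]
      have e1 : m * m' * n = m * (m' * n) := by ring
      have e2 : m * m' * n = m' * (m * n) := by ring
      have h1 := hk (m' * n) x
      rw [← e1] at h1
      have h2 := hk' (m * n) _ h1
      rwa [← e2] at h2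
  obtain ⟨m, hm, k, hk⟩ := hall d
  refine ⟨m, hm, k, fun x => ?_⟩
  have h1 := hk 1 x
  rw [hd, mem_bot, mul_one] at h1
  exact h1

end Pool.Agent.Helper29.NU
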