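import Pool.Agent.Helper29.NU.Cst
import Pool.Agent.Helper29.NU.VPC

/-! Projective representations of groups: from the group to the unitaries. -/

set_option autoImplicit false
set_option linter.style.haveILetI false
set_option linter.unusedSectionVars false
set_option linter.unusedVariables false

open Subgroup
open scoped commutatorElement

namespace Pool.Agent.Helper29.NU

section Abs

variable {U G : Type} [Group U] [Group G] {Z : Subgroup U} {w : G → U}

theorem w_one (hw : ∀ g h, ∃ z ∈ Z, w (g * h) = z * (w g * w h)) : w 1 ∈ Z := by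
  obtain ⟨z, hz, h⟩ := hw 1 1
  rw [mul_one] at h
  have h1 : w 1 = z⁻¹ := by
    have h2 : z * w 1 = 1 := by
      have h3 : (z * w 1) * w 1 = 1 * w 1 := by rw [mul_assoc, ← h, one_mul]
      exact mul_right_cancel h3
    exact eq_inv_of_mul_eq_one_right h2
  rw [h1]
  exact inv_mem hz

/-- the preimage in the central extension of a nilpotent group is nilpotent -/
theorem proj_nil (hZ : Z ≤ center U) (hw : ∀ g h, ∃ z ∈ Z, w (g * h) = z * (w g * w h))
    {V : Subgroup G} (hV : Group.IsNilpotent V) :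
    ∃ V' : Subgroup U, Group.IsNilpotent V' ∧ ∀ g ∈ V, ∀ z ∈ Z, z * w g ∈ V' := by
  have hcz : ∀ z ∈ Z, ∀ x : U, x * z = z * x := fun z hz x => mem_center_iff.1 (hZ hz) x
  let E : Subgroup (U × G) :=
    { carrier := {p | p.2 ∈ V ∧ ∃ z ∈ Z, p.1 = z * w p.2}
      mul_mem' := by
        rintro ⟨x, g⟩ ⟨y, h⟩ ⟨hg, z, hz, hx⟩ ⟨hh, z', hz', hy⟩
        refine ⟨mul_mem hg hh, ?_⟩
        obtain ⟨z'', hz'', h1⟩ := hw g h
        refine ⟨z * z' * z''⁻¹, mul_mem (mul_mem hz hz') (inv_mem hz''), ?_⟩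
        show x * y = z * z' * z''⁻¹ * w (g * h)
        have hx' : x = z * w g := hx
        have hy' : y = z' * w h := hy
        rw [h1, inv_mul_cancel_right_assoc' z'' hz'' (z * z') (w g * w h), hx', hy']
        calc z * w g * (z' * w h) = z * (w g * z') * w h := by group
          _ = z * (z' * w g) * w h := by rw [hcz z' hz']
          _ = z * z' * (w g * w h) := by group
      one_mem' := by
        refine ⟨one_mem _, (w 1)⁻¹, inv_mem (w_one hw), ?_⟩
        show (1 : U) = (w 1)⁻¹ * w 1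
        rw [inv_mul_cancel]
      inv_mem' := by
        rintro ⟨x, g⟩ ⟨hg, z, hz, hx⟩
        refine ⟨inv_mem hg, ?_⟩
        obtain ⟨z', hz', h1⟩ := hw g g⁻¹
        rw [mul_inv_cancel] at h1
        have hx' : x = z * w g := hx
        refine ⟨z⁻¹ * (w 1)⁻¹ * z', mul_mem (mul_mem (inv_mem hz) (inv_mem (w_one hw))) hz', ?_⟩
        show x⁻¹ = z⁻¹ * (w 1)⁻¹ * z' * w g⁻¹
        rw [hx', h1, inv_eq_iff_mul_eq_one]
        calc z * w g * (z⁻¹ * (z' * (w g * w g⁻¹))⁻¹ * z' * w g⁻¹) =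
            (z * w g) * z⁻¹ * (w g * w g⁻¹)⁻¹ * w g⁻¹ := by group
          _ = (w g * z) * z⁻¹ * (w g * w g⁻¹)⁻¹ * w g⁻¹ := by rw [hcz z hz]
          _ = w g * ((w g * w g⁻¹)⁻¹ * w g⁻¹) := by group
          _ = 1 := by
            rw [mul_inv_rev]
            have h2 : w g * w g⁻¹ ∈ Z := by
              have h3 : w g * w g⁻¹ = z'⁻¹ * w 1 := by rw [h1, inv_mul_cancel_left]
              rw [h3]
              exact mul_mem (inv_mem hz') (w_one hw)
            have h4 : w g⁻¹ * (w g * w g⁻¹) = (w g * w g⁻¹) * w g⁻¹ := hcz _ h2 _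
            have h5 : w g⁻¹ * w g = w g * w g⁻¹ := by
              have h6 : w g⁻¹ * w g * w g⁻¹ = w g * w g⁻¹ * w g⁻¹ := by rw [← h4, mul_assoc]
              exact mul_right_cancel h6
            calc w g * ((w g⁻¹)⁻¹ * (w g)⁻¹ * w g⁻¹) =
                w g * (w g * w g⁻¹)⁻¹ * w g⁻¹ := by group
              _ = w g * (w g⁻¹ * w g)⁻¹ * w g⁻¹ := by rw [h5]
              _ = 1 := by group }
  let f : E →* V :=
    { toFun := fun p => ⟨p.1.2, p.2.1⟩
      map_one' := rfl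
      map_mul' := fun _ _ => rfl }
  haveI hE : Group.IsNilpotent E := by
    haveI := hV
    refine Subgroup.isNilpotent_of_ker_le_center f ?_
    intro p hp
    rw [MonoidHom.mem_ker] at hp
    have h1 : p.1.2 = 1 := congrArg Subtype.val hp
    obtain ⟨z, hz, h2⟩ := p.2.2
    rw [h1] at h2
    have h3 : p.1.1 ∈ Z := by
      rw [h2]
      exact mul_mem hz (w_one hw)
    rw [mem_center_iff]
    intro q
    apply Subtype.ext
    refine Prod.ext ?_ ?_
    · exact hcz _ h3 _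
    · show q.1.2 * p.1.2 = p.1.2 * q.1.2
      rw [h1, mul_one, one_mul]
  refine ⟨E.map (MonoidHom.fst U G), ?_, ?_⟩
  · exact Group.nilpotent_of_surjective ((MonoidHom.fst U G).subgroupMap E)
      ((MonoidHom.fst U G).subgroupMap_surjective E)
  · intro g hg z hz
    exact ⟨(z * w g, g), ⟨hg, z, hz, rfl⟩, rfl⟩
where
  inv_mul_cancel_right_assoc' (z'' : U) (_ : z'' ∈ Z) (a b : U) :
      a * z''⁻¹ * (z'' * b) = a * b := by group

section Cov

variable {τ : U →* U} {σ : G →* G}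

theorem tau_iter (hτ : ∀ z ∈ Z, τ z = z) (hcov : ∀ g, ∃ z ∈ Z, τ (w g) = z * w (σ g)) (n : ℕ) :
    ∀ (x : U) (g : G), (∃ z ∈ Z, x = z * w g) → ∃ z ∈ Z, (τ^[n]) x = z * w ((σ^[n]) g) := by
  induction n with
  | zero => exact fun x g h => h
  | succ n ih =>
    rintro x g ⟨z, hz, rfl⟩
    obtain ⟨z', hz', h1⟩ := hcov g
    refine ih _ _ ⟨z * z', mul_mem hz hz', ?_⟩
    rw [map_mul, hτ z hz, h1, mul_assoc]

theorem DM_w (hZ : Z ≤ center U) (hw : ∀ g h, ∃ z ∈ Z, w (g * h) = z * (w g * w h))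
    (hτ : ∀ z ∈ Z, τ z = z) (hcov : ∀ g, ∃ z ∈ Z, τ (w g) = z * w (σ g)) {x : U} {g : G}
    (h : ∃ z ∈ Z, x = z * w g) : ∃ z ∈ Z, DM τ x = z * w (g⁻¹ * σ g) := by
  have hcz : ∀ z ∈ Z, ∀ x : U, x * z = z * x := fun z hz x => mem_center_iff.1 (hZ hz) x
  obtain ⟨z, hz, rfl⟩ := h
  obtain ⟨z1, hz1, h1⟩ := hcov g
  obtain ⟨z2, hz2, h2⟩ := hw g (g⁻¹ * σ g)
  rw [mul_inv_cancel_left] at h2
  refine ⟨z1 * z2, mul_mem hz1 hz2, ?_⟩
  rw [DM, map_mul, hτ z hz, h1, h2, mul_inv_rev]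
  calc (w g)⁻¹ * z⁻¹ * (z * (z1 * (z2 * (w g * w (g⁻¹ * σ g))))) =
      (w g)⁻¹ * (z1 * z2) * (w g * w (g⁻¹ * σ g)) := by group
    _ = (z1 * z2) * (w g)⁻¹ * (w g * w (g⁻¹ * σ g)) := by rw [hcz _ (mul_mem hz1 hz2)]
    _ = z1 * z2 * w (g⁻¹ * σ g) := by group

theorem DM_iter_w (hZ : Z ≤ center U) (hw : ∀ g h, ∃ z ∈ Z, w (g * h) = z * (w g * w h))
    (hτ : ∀ z ∈ Z, τ z = z) (hcov : ∀ g, ∃ z ∈ Z, τ (w g) = z * w (σ g)) (k : ℕ) :
    ∀ (x : U) (g : G), (∃ z ∈ Z, x = z * w g) →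
      ∃ z ∈ Z, (DM τ)^[k] x = z * w ((fun h => h⁻¹ * σ h)^[k] g) := by
  induction k with
  | zero => exact fun x g h => h
  | succ k ih =>
    intro x g h
    exact ih _ _ (DM_w hZ hw hτ hcov h)

theorem cov_main (hZ : Z ≤ center U) (hw : ∀ g h, ∃ z ∈ Z, w (g * h) = z * (w g * w h))
    (hτ : ∀ z ∈ Z, τ z = z) (hcov : ∀ g, ∃ z ∈ Z, τ (w g) = z * w (σ g)) {g : G} {k : ℕ}
    (hk : (fun h => h⁻¹ * σ h)^[k] g = 1) {V : Subgroup G} (hV : Group.IsNilpotent V)
    (hVm : ∀ n : ℕ, (σ^[n]) (g⁻¹ * σ g) ∈ V) :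
    (DM τ)^[k + 1] (w g) = 1 ∧
    ∃ V' : Subgroup U, Group.IsNilpotent V' ∧ ∀ n : ℕ, (τ^[n]) (DM τ (w g)) ∈ V' := by
  have h0 : ∃ z ∈ Z, w g = z * w g := ⟨1, one_mem _, by rw [one_mul]⟩
  refine ⟨?_, ?_⟩
  · obtain ⟨z, hz, h1⟩ := DM_iter_w hZ hw hτ hcov k _ _ h0
    rw [hk] at h1
    have h2 : (DM τ)^[k] (w g) ∈ Z := by
      rw [h1]
      exact mul_mem hz (w_one hw)
    rw [Function.iterate_succ_apply', DM, hτ _ h2, inv_mul_cancel]
  · obtain ⟨V', hV', h1⟩ := proj_nil hZ hw hV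
    refine ⟨V', hV', fun n => ?_⟩
    obtain ⟨z, hz, h2⟩ := tau_iter hτ hcov n _ _ (DM_w hZ hw hτ hcov h0)
    rw [h2]
    exact h1 _ (hVm n) z hz

end Cov

end Abs

section Cstar

variable {A G : Type} [CStarAlgebra A] [Group G]

/-- iterates of an endomorphism -/
def itG (σ : G →* G) : ℕ → (G →* G)
  | 0 => MonoidHom.id G
  | n + 1 => (itG σ n).comp σ

theorem itG_apply (σ : G →* G) (n : ℕ) (x : G) : itG σ n x = (σ^[n]) x := by
  induction n generalizing x with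
  | zero => rfl
  | succ n ih =>
    rw [Function.iterate_succ_apply, ← ih]
    rfl

/-- the central unitaries which are fixed by `α` -/
def ZU (α : A →⋆ₐ[ℂ] A) : Subgroup (unitary A) where
  carrier := {z | (∀ a : A, (z : A) * a = a * z) ∧ α z = z}
  mul_mem' := by
    rintro x y ⟨hx, hx'⟩ ⟨hy, hy'⟩
    refine ⟨fun a => ?_, ?_⟩
    · rw [Submonoid.coe_mul, mul_assoc, hy, ← mul_assoc, hx, mul_assoc]
    · rw [Submonoid.coe_mul, map_mul, hx', hy']
  one_mem' := ⟨fun a => by rw [Submonoid.coe_one, one_mul, mul_one], map_one α⟩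
  inv_mem' := by
    rintro x ⟨hx, hx'⟩
    refine ⟨fun a => ?_, ?_⟩
    · show star (x : A) * a = a * star (x : A)
      have := congrArg star (hx (star a))
      rw [star_mul, star_mul, star_star] at this
      exact this.symm
    · show α (star (x : A)) = star (x : A)
      rw [map_star, hx']

/-- tame elements give unitaries with polynomial orbits in nilpotent groups -/
theorem nilU_of_tame {u : G → A} {σ : G →* G} {α : A →⋆ₐ[ℂ] A} (hunit : ∀ g, u g ∈ unitary A)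
    (hmul : ∀ g h, ∃ z, (z ∈ unitary A ∧ ∀ a : A, z * a = a * z) ∧ α z = z ∧
      u (g * h) = z * (u g * u h))
    (hcov : ∀ g, ∃ z, (z ∈ unitary A ∧ ∀ a : A, z * a = a * z) ∧ α z = z ∧
      α (u g) = z * u (σ g)) {g : G} {m : ℕ} (hm : 0 < m)
    (hk : ∃ k : ℕ, (fun h : G => h⁻¹ * (σ^[m]) h)^[k] g = 1)
    (hV : ∃ V : Subgroup G, Group.IsNilpotent V ∧ ∀ n : ℕ, (σ^[m * n]) (g⁻¹ * (σ^[m]) g) ∈ V) :
    u g ∈ NilU α := by
  obtain ⟨k, hk⟩ := hk
  obtain ⟨V, hVn, hV⟩ := hV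
  set w : G → unitary A := fun g => ⟨u g, hunit g⟩ with hw
  have hZ : ZU α ≤ center (unitary A) := by
    intro z hz
    rw [mem_center_iff]
    intro x
    apply Subtype.ext
    exact (hz.1 x).symm
  have hmul' : ∀ g h, ∃ z ∈ ZU α, w (g * h) = z * (w g * w h) := by
    intro g h
    obtain ⟨z, ⟨hz, hz'⟩, hz'', h1⟩ := hmul g h
    exact ⟨⟨z, hz⟩, ⟨hz', hz''⟩, Subtype.ext h1⟩
  set τ : unitary A →* unitary A := un (itH α m) with hτ
  have hτZ : ∀ z ∈ ZU α, τ z = z := by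
    intro z hz
    apply Subtype.ext
    rw [hτ, un_coe, itH_apply]
    have h1 : ∀ n : ℕ, (α^[n]) (z : A) = z := by
      intro n
      induction n with
      | zero => rfl
      | succ n ih => rw [Function.iterate_succ_apply, hz.2, ih]
    exact h1 m
  have hun : ∀ g, ∃ z ∈ ZU α, un α (w g) = z * w (σ g) := by
    intro g
    obtain ⟨z, ⟨hz, hz'⟩, hz'', h1⟩ := hcov g
    exact ⟨⟨z, hz⟩, ⟨hz', hz''⟩, Subtype.ext h1⟩
  have hcov' : ∀ g, ∃ z ∈ ZU α, τ (w g) = z * w (itG σ m g) := by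
    intro g
    have h1 := tau_iter (Z := ZU α) (τ := un α) (fun z hz => Subtype.ext hz.2) hun m (w g) g
      ⟨1, one_mem _, by rw [one_mul]⟩
    obtain ⟨z, hz, h2⟩ := h1
    refine ⟨z, hz, ?_⟩
    rw [itG_apply, ← h2]
    have h3 : ∀ (n : ℕ) (x : unitary A), un (itH α n) x = ((un α)^[n]) x := by
      intro n
      induction n with
      | zero => intro x; rfl
      | succ n ih => intro x; rw [Function.iterate_succ_apply, ← ih]; rfl
    exact h3 m (w g)
  have hfun : (fun h : G => h⁻¹ * itG σ m h) = fun h : G => h⁻¹ * (σ^[m]) h := by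
    funext h
    rw [itG_apply]
  have hitn : ∀ (n : ℕ) (x : G), ((itG σ m)^[n]) x = (σ^[m * n]) x := by
    intro n
    induction n with
    | zero => intro x; rfl
    | succ n ih =>
      intro x
      rw [Function.iterate_succ_apply, ih, itG_apply, ← Function.iterate_add_apply]
      rfl
  obtain ⟨h1, V', hV'n, hV'⟩ := cov_main hZ hmul' hτZ hcov' (g := g) (k := k)
    (by rw [hfun]; exact hk) hVn (fun n => by rw [hitn, itG_apply]; exact hV n)
  refine ⟨hunit g, m, hm, ⟨k + 1, ?_⟩, V', hV'n, fun n => ⟨_, hV' n, ?_⟩⟩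
  · have h2 := iter_DM_un α m (k + 1) (w g)
    rw [← hτ, h1] at h2
    exact h2.symm
  · rw [hτ, iter_un, DM_un]

end Cstar

end Pool.Agent.Helper29.NU
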