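import Mathlib

/-! Extensions of nilpotent groups by an element which acts unipotently. -/

set_option autoImplicit false
set_option linter.style.haveILetI false
set_option linter.unusedSectionVars false
set_option linter.unusedVariables false

open Subgroup
open scoped commutatorElement

namespace Pool.Agent.Helper29.NU

variable {Q : Type*} [Group Q]

/-- the commutator map `y ↦ y⁻¹ s y s⁻¹` -/
def En (s y : Q) : Q := y⁻¹ * s * y * s⁻¹

theorem En_one (s : Q) : En s 1 = 1 := by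
  rw [En]
  group

theorem En_conj (s g x : Q) : En (g * s * g⁻¹) (g * x * g⁻¹) = g * En s x * g⁻¹ := by
  rw [En, En]
  group

theorem En_conj_iter (s g : Q) (k : ℕ) (x : Q) :
    (En (g * s * g⁻¹))^[k] (g * x * g⁻¹) = g * (En s)^[k] x * g⁻¹ := by
  induction k generalizing x with
  | zero => rfl
  | succ k ih => rw [Function.iterate_succ_apply, En_conj, ih, Function.iterate_succ_apply]

/-- the assumptions on a layer -/
structure Lay (s : Q) (V A B : Subgroup Q) : Prop where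
  hAV : A ≤ V
  hBA : B ≤ A
  comm : ∀ x ∈ A, ∀ y ∈ V, ⁅x, y⁆ ∈ B
  sA : ∀ x, x ∈ A ↔ s * x * s⁻¹ ∈ A
  sB : ∀ x, x ∈ B ↔ s * x * s⁻¹ ∈ B

theorem Lay.enA {s : Q} {V A B : Subgroup Q} (h : Lay s V A B) {x : Q} (hx : x ∈ A) :
    En s x ∈ A := by
  have e : En s x = x⁻¹ * (s * x * s⁻¹) := by
    rw [En]
    group
  rw [e]
  exact mul_mem (inv_mem hx) ((h.sA x).1 hx)

theorem Lay.enB {s : Q} {V A B : Subgroup Q} (h : Lay s V A B) {x : Q} (hx : x ∈ B) :
    En s x ∈ B := by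
  have e : En s x = x⁻¹ * (s * x * s⁻¹) := by
    rw [En]
    group
  rw [e]
  exact mul_mem (inv_mem hx) ((h.sB x).1 hx)

/-- the kernels of the powers of the commutator map on the layer -/
def NN {s : Q} {V A B : Subgroup Q} (h : Lay s V A B) : ℕ → {N : Subgroup Q // B ≤ N ∧ N ≤ A}
  | 0 => ⟨B, le_rfl, h.hBA⟩
  | a + 1 =>
    ⟨{ carrier := {x | x ∈ A ∧ En s x ∈ (NN h a).1}
       mul_mem' := by
        rintro x y ⟨hx, hx'⟩ ⟨hy, hy'⟩
        refine ⟨mul_mem hx hy, ?_⟩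
        have e : En s (x * y) = En s x * ⁅(En s x)⁻¹, y⁻¹⁆ * En s y := by
          rw [commutatorElement_def, En, En, En]
          group
        rw [e]
        have h1 : ⁅(En s x)⁻¹, y⁻¹⁆ ∈ B :=
          h.comm _ (inv_mem (h.enA hx)) _ (inv_mem (h.hAV hy))
        exact mul_mem (mul_mem hx' ((NN h a).2.1 h1)) hy'
       one_mem' := ⟨one_mem _, by
        rw [En_one]
        exact one_mem _⟩
       inv_mem' := by
        rintro x ⟨hx, hx'⟩
        refine ⟨inv_mem hx, ?_⟩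
        have e : En s x⁻¹ = ⁅x, (En s x)⁻¹⁆ * (En s x)⁻¹ := by
          rw [commutatorElement_def, En, En]
          group
        rw [e]
        have h1 : ⁅x, (En s x)⁻¹⁆ ∈ B := h.comm _ hx _ (inv_mem (h.hAV (h.enA hx)))
        exact mul_mem ((NN h a).2.1 h1) (inv_mem hx') },
      fun x hx => ⟨h.hBA hx, (NN h a).2.1 (h.enB hx)⟩, fun x hx => hx.1⟩

theorem mem_NN_succ {s : Q} {V A B : Subgroup Q} (h : Lay s V A B) {a : ℕ} {x : Q} :
    x ∈ (NN h (a + 1)).1 ↔ x ∈ A ∧ En s x ∈ (NN h a).1 := Iff.rfl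

theorem NN_mono {s : Q} {V A B : Subgroup Q} (h : Lay s V A B) :
    Monotone fun a => (NN h a).1 := by
  refine monotone_nat_of_le_succ fun a => ?_
  induction a with
  | zero => exact (NN h 1).2.1
  | succ a ih =>
    rintro x ⟨hx, hx'⟩
    exact ⟨hx, ih hx'⟩

theorem NN_s {s : Q} {V A B : Subgroup Q} (h : Lay s V A B) (a : ℕ) (x : Q) :
    x ∈ (NN h a).1 ↔ s * x * s⁻¹ ∈ (NN h a).1 := by
  induction a generalizing x with
  | zero => exact h.sB x
  | succ a ih =>
    rw [mem_NN_succ, mem_NN_succ, ← h.sA x]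
    have e : En s (s * x * s⁻¹) = s * En s x * s⁻¹ := by
      rw [En, En]
      group
    rw [e, ← ih]

theorem NN_iter {s : Q} {V A B : Subgroup Q} (h : Lay s V A B) {a : ℕ} {x : Q} (hx : x ∈ A)
    (h1 : (En s)^[a] x ∈ B) : x ∈ (NN h a).1 := by
  induction a generalizing x with
  | zero => exact h1
  | succ a ih => exact ⟨hx, ih (h.enA hx) h1⟩

/-- the group which is generated normalizes the kernels -/
theorem NN_norm {s : Q} {V A B : Subgroup Q} (h : Lay s V A B) (a : ℕ) {g : Q}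
    (hg : g ∈ closure ((V : Set Q) ∪ {s})) (x : Q) :
    x ∈ (NN h a).1 ↔ g * x * g⁻¹ ∈ (NN h a).1 := by
  have key : ∀ g ∈ V, ∀ x ∈ (NN h a).1, g * x * g⁻¹ ∈ (NN h a).1 := by
    intro g hg x hx
    have e : g * x * g⁻¹ = ⁅x, g⁆⁻¹ * x := by
      rw [commutatorElement_def]
      group
    rw [e]
    exact mul_mem (inv_mem ((NN h a).2.1 (h.comm x ((NN h a).2.2 hx) g hg))) hx
  induction hg using closure_induction generalizing x with
  | mem g hg =>
    rcases hg with hg | rfl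
    · refine ⟨key g hg x, fun hx => ?_⟩
      have h1 := key g⁻¹ (inv_mem hg) _ hx
      have e : g⁻¹ * (g * x * g⁻¹) * g⁻¹⁻¹ = x := by group
      rwa [e] at h1
    · exact NN_s h a x
  | one => simp
  | mul g k _ _ hg hk =>
    have e : g * (k * x * k⁻¹) * g⁻¹ = g * k * x * (g * k)⁻¹ := by group
    rw [← e]
    exact (hk x).trans (hg (k * x * k⁻¹))
  | inv g _ hg =>
    have e : g * (g⁻¹ * x * g⁻¹⁻¹) * g⁻¹ = x := by group
    have h1 := hg (g⁻¹ * x * g⁻¹⁻¹)
    rw [e] at h1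
    exact h1.symm

theorem NN_comm {s : Q} {V A B : Subgroup Q} (h : Lay s V A B) (a : ℕ) :
    ⁅(NN h (a + 1)).1, closure ((V : Set Q) ∪ {s})⁆ ≤ (NN h a).1 := by
  rw [commutator_le]
  intro x hx g hg
  induction hg using closure_induction with
  | mem g hg =>
    rcases hg with hg | rfl
    · exact (NN h a).2.1 (h.comm x ((NN h (a + 1)).2.2 hx) g hg)
    · have h1 := (mem_NN_succ h).1 (inv_mem hx)
      have e : En g x⁻¹ = ⁅x, g⁆ := by
        rw [commutatorElement_def, En]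
        group
      rw [e] at h1
      exact h1.2
  | one =>
    rw [commutatorElement_one_right]
    exact one_mem _
  | mul g k hg _ h1 h2 =>
    have e : ⁅x, g * k⁆ = ⁅x, g⁆ * (g * ⁅x, k⁆ * g⁻¹) := by
      simp only [commutatorElement_def]
      group
    rw [e]
    exact mul_mem h1 ((NN_norm h a hg _).1 h2)
  | inv g hg h1 =>
    have e : ⁅x, g⁻¹⁆ = g⁻¹ * ⁅x, g⁆⁻¹ * g⁻¹⁻¹ := by
      simp only [commutatorElement_def]
      group
    rw [e]
    exact (NN_norm h a (inv_mem hg) _).1 (inv_mem h1)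

/-- iterated commutators with `P` -/
def cc (A P : Subgroup Q) : ℕ → Subgroup Q
  | 0 => A
  | j + 1 => ⁅cc A P j, P⁆

theorem cc_le {s : Q} {V A B : Subgroup Q} (h : Lay s V A B) (k : ℕ) (hk : A ≤ (NN h k).1) :
    cc A (closure ((V : Set Q) ∪ {s})) k ≤ B := by
  have h1 : ∀ j a : ℕ, a + j = k → cc A (closure ((V : Set Q) ∪ {s})) j ≤ (NN h a).1 := by
    intro j
    induction j with
    | zero =>
      intro a ha
      rw [show a = k by omega]
      exact hk
    | succ j ih =>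
      intro a ha
      exact (commutator_mono (ih (a + 1) (by omega)) le_rfl).trans (NN_comm h a)
  exact h1 k 0 (by omega)

theorem lay_k {s : Q} {V A B : Subgroup Q} (h : Lay s V A B) (hA : A.FG)
    (he : ∀ x ∈ A, ∃ k : ℕ, (En s)^[k] x ∈ B) : ∃ k, A ≤ (NN h k).1 := by
  classical
  obtain ⟨T, hT⟩ := hA
  have hTA : ∀ t ∈ T, t ∈ A := by
    intro t ht
    rw [← hT]
    exact subset_closure ht
  choose! k hk using he
  refine ⟨T.sup k, ?_⟩
  conv_lhs => rw [← hT]
  rw [closure_le]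
  intro t ht
  exact NN_mono h (Finset.le_sup ht) (NN_iter h (hTA t ht) (hk t (hTA t ht)))

theorem zpow_norm {s : Q} {V : Subgroup Q} (hs : ∀ x, x ∈ V ↔ s * x * s⁻¹ ∈ V) (n : ℤ) (x : Q) :
    x ∈ V ↔ s ^ n * x * (s ^ n)⁻¹ ∈ V := by
  have h1 : s ∈ normalizer (V : Set Q) := by
    rw [Subgroup.mem_normalizer_iff]
    exact hs
  exact Subgroup.mem_normalizer_iff.1 (zpow_mem h1 n) x

theorem form_V {s : Q} {V : Subgroup Q} (hs : ∀ x, x ∈ V ↔ s * x * s⁻¹ ∈ V) {g : Q}
    (hg : g ∈ closure ((V : Set Q) ∪ {s})) : ∃ v ∈ V, ∃ n : ℤ, g = v * s ^ n := by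
  induction hg using closure_induction with
  | mem g hg =>
    rcases hg with hg | rfl
    · exact ⟨g, hg, 0, by simp⟩
    · exact ⟨1, one_mem _, 1, by simp⟩
  | one => exact ⟨1, one_mem _, 0, by simp⟩
  | mul a b _ _ ha hb =>
    obtain ⟨v, hv, n, rfl⟩ := ha
    obtain ⟨w, hw, m, rfl⟩ := hb
    refine ⟨v * (s ^ n * w * (s ^ n)⁻¹), mul_mem hv ((zpow_norm hs n w).1 hw), n + m, ?_⟩
    group
  | inv a _ ha =>
    obtain ⟨v, hv, n, rfl⟩ := ha
    refine ⟨s ^ (-n) * v⁻¹ * (s ^ (-n))⁻¹, (zpow_norm hs (-n) _).1 (inv_mem hv), -n, ?_⟩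
    group

theorem comm_le_V {s : Q} {V : Subgroup Q} (hs : ∀ x, x ∈ V ↔ s * x * s⁻¹ ∈ V) :
    (closure ((V : Set Q) ∪ {s})).lowerCentralSeries 1 ≤ V := by
  rw [Subgroup.lowerCentralSeries_succ, Subgroup.lowerCentralSeries_zero, commutator_le]
  intro a ha b hb
  obtain ⟨v, hv, n, rfl⟩ := form_V hs ha
  obtain ⟨w, hw, m, rfl⟩ := form_V hs hb
  have e : ⁅v * s ^ n, w * s ^ m⁆ =
      v * (s ^ n * w * (s ^ n)⁻¹) * (s ^ m * v⁻¹ * (s ^ m)⁻¹) * w⁻¹ := by
    rw [commutatorElement_def]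
    group
  rw [e]
  exact mul_mem (mul_mem (mul_mem hv ((zpow_norm hs n w).1 hw))
    ((zpow_norm hs m _).1 (inv_mem hv))) (inv_mem hw)

theorem lcs_s {s : Q} {V : Subgroup Q} (hs : ∀ x, x ∈ V ↔ s * x * s⁻¹ ∈ V) (i : ℕ) (x : Q) :
    x ∈ V.lowerCentralSeries i ↔ s * x * s⁻¹ ∈ V.lowerCentralSeries i := by
  have h1 : V.map (MulAut.conj s).toMonoidHom = V := by
    ext y
    constructor
    · rintro ⟨z, hz, rfl⟩
      exact (hs z).1 hz
    · intro hy
      refine ⟨s⁻¹ * y * s, ?_, ?_⟩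
      · show s⁻¹ * y * s ∈ V
        rw [hs]
        have e : s * (s⁻¹ * y * s) * s⁻¹ = y := by group
        rwa [e]
      · show s * (s⁻¹ * y * s) * s⁻¹ = y
        group
  have h2 : (V.lowerCentralSeries i).map (MulAut.conj s).toMonoidHom = V.lowerCentralSeries i := by
    rw [Subgroup.map_lowerCentralSeries, h1]
  constructor
  · intro hx
    rw [← h2]
    exact ⟨x, hx, rfl⟩
  · intro hx
    rw [← h2] at hx
    obtain ⟨y, hy, e⟩ := hx
    have e' : s * y * s⁻¹ = s * x * s⁻¹ := e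
    have e2 : y = x := by
      have := congrArg (fun z => s⁻¹ * z * s) e'
      simpa [mul_assoc] using this
    rwa [← e2]

/-- the layers of the lower central series -/
theorem lay_lcs {s : Q} {V : Subgroup Q} (hs : ∀ x, x ∈ V ↔ s * x * s⁻¹ ∈ V) (i : ℕ) :
    Lay s V (V.lowerCentralSeries i) (V.lowerCentralSeries (i + 1)) where
  hAV := V.lowerCentralSeries_le_self i
  hBA := V.lowerCentralSeries_antitone (Nat.le_succ i)
  comm := fun x hx y hy => commutator_mem_commutator hx hy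
  sA := lcs_s hs i
  sB := lcs_s hs (i + 1)

/-- **Unipotent extensions of nilpotent groups are nilpotent.** -/
theorem nil_of_layers {s : Q} {V : Subgroup Q} (hs : ∀ x, x ∈ V ↔ s * x * s⁻¹ ∈ V) {c : ℕ}
    (hc : V.lowerCentralSeries c = ⊥)
    (hl : ∀ i, ∃ k, V.lowerCentralSeries i ≤ (NN (lay_lcs hs i) k).1) :
    ∃ n, (closure ((V : Set Q) ∪ {s})).lowerCentralSeries n = ⊥ := by
  set P := closure ((V : Set Q) ∪ {s}) with hP
  have h1 : ∀ i, ∃ n, P.lowerCentralSeries n ≤ V.lowerCentralSeries i := by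
    intro i
    induction i with
    | zero => exact ⟨1, comm_le_V hs⟩
    | succ i ih =>
      obtain ⟨n, hn⟩ := ih
      obtain ⟨k, hk⟩ := hl i
      refine ⟨n + k, ?_⟩
      have h2 : ∀ j, P.lowerCentralSeries (n + j) ≤ cc (V.lowerCentralSeries i) P j := by
        intro j
        induction j with
        | zero => exact hn
        | succ j ihj => exact commutator_mono ihj le_rfl
      exact (h2 k).trans (cc_le _ k hk)
  obtain ⟨n, hn⟩ := h1 c
  refine ⟨n, ?_⟩
  rw [hc] at hn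
  exact le_bot_iff.1 hn

theorem nil_ext {s : Q} {V : Subgroup Q} (hV : Group.IsNilpotent V) (hfg : ∀ A ≤ V, A.FG)
    (hs : ∀ x, x ∈ V ↔ s * x * s⁻¹ ∈ V) (he : ∀ x ∈ V, ∃ k : ℕ, (En s)^[k] x = 1) :
    Group.IsNilpotent (closure ((V : Set Q) ∪ {s}) : Subgroup Q) := by
  obtain ⟨c, hc⟩ := (Subgroup.isNilpotent_iff_lowerCentralSeries V).1 hV
  refine (Subgroup.isNilpotent_iff_lowerCentralSeries _).2 (nil_of_layers hs hc fun i => ?_)
  refine lay_k _ (hfg _ (V.lowerCentralSeries_le_self i)) fun x hx => ?_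
  obtain ⟨k, hk⟩ := he x (V.lowerCentralSeries_le_self i hx)
  refine ⟨k, ?_⟩
  rw [hk]
  exact one_mem _

end Pool.Agent.Helper29.NU
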