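import Mathlib

/-! Vectors which are fixed by powers of a unitary operator. -/

set_option autoImplicit false
set_option linter.unusedSectionVars false
set_option linter.unusedVariables false

open Submodule

namespace Pool.Agent.Helper29.NU

variable {E : Type*} [NormedAddCommGroup E] [InnerProductSpace ℂ E]

theorem mul_ap (f g : E ≃ₗᵢ[ℂ] E) (v : E) : (f * g) v = f (g v) := rfl

section Proj

variable [CompleteSpace E]

/-- the orthogonal projection on the closure of `K` -/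
noncomputable def Pj (K : Submodule ℂ E) : E →L[ℂ] E := K.topologicalClosure.starProjection

theorem pj_mem (K : Submodule ℂ E) (v : E) : Pj K v ∈ K.topologicalClosure :=
  starProjection_apply_mem _ _

theorem pj_self {K : Submodule ℂ E} {v : E} : Pj K v = v ↔ v ∈ K.topologicalClosure :=
  starProjection_eq_self_iff

theorem pj_inner (K : Submodule ℂ E) (v : E) {w : E} (hw : w ∈ K.topologicalClosure) :
    inner ℂ (v - Pj K v) w = 0 :=
  starProjection_inner_eq_zero v w hw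

theorem pj_symm (K : Submodule ℂ E) (u v : E) : inner ℂ (Pj K u) v = inner ℂ u (Pj K v) :=
  inner_starProjection_left_eq_right _ u v

theorem pj_norm (K : Submodule ℂ E) (v : E) : ‖Pj K v‖ ≤ ‖v‖ := norm_starProjection_apply_le _ v

theorem inner_closure {K : Submodule ℂ E} {v : E} (h : ∀ x ∈ K, inner ℂ v x = 0) {x : E}
    (hx : x ∈ K.topologicalClosure) : inner ℂ v x = 0 := by
  have h1 : IsClosed {x : E | inner ℂ v x = 0} :=
    isClosed_eq (continuous_const.inner continuous_id) continuous_const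
  exact closure_minimal (s := (K : Set E)) (fun x hx => h x hx) h1 hx

theorem pj_unique {K : Submodule ℂ E} {v w : E} (hw : w ∈ K.topologicalClosure)
    (h : ∀ x ∈ K, inner ℂ (v - w) x = 0) : Pj K v = w :=
  (eq_starProjection_of_mem_of_inner_eq_zero hw fun x hx => inner_closure h hx)

theorem pj_min {K : Submodule ℂ E} (v : E) {w : E} (hw : w ∈ K.topologicalClosure) :
    ‖v - Pj K v‖ ≤ ‖v - w‖ := by
  have h1 : v - w = (v - Pj K v) + (Pj K v - w) := by abel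
  have h2 : inner ℂ (v - Pj K v) (Pj K v - w) = 0 :=
    pj_inner K v (sub_mem (pj_mem K v) hw)
  have h3 := norm_add_sq_eq_norm_sq_add_norm_sq_of_inner_eq_zero _ _ h2
  rw [← h1] at h3
  nlinarith [norm_nonneg (v - w), norm_nonneg (v - Pj K v), norm_nonneg (Pj K v - w)]

theorem map_closure_mem {K L : Submodule ℂ E} (T : E →L[ℂ] E) (h : ∀ v ∈ K, T v ∈ L) {v : E}
    (hv : v ∈ K.topologicalClosure) : T v ∈ L.topologicalClosure := by
  have h1 : Set.MapsTo T (closure (K : Set E)) (closure (L : Set E)) :=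
    Set.MapsTo.closure (fun v hv => h v hv) T.continuous
  exact h1 hv

theorem map_closure_mem' {K L : Submodule ℂ E} (T : E ≃ₗᵢ[ℂ] E) (h : ∀ v ∈ K, T v ∈ L) {v : E}
    (hv : v ∈ K.topologicalClosure) : T v ∈ L.topologicalClosure :=
  map_closure_mem (T.toContinuousLinearEquiv : E →L[ℂ] E) h hv

theorem pj_comm {K : Submodule ℂ E} (T : E ≃ₗᵢ[ℂ] E) (h1 : ∀ v ∈ K, T v ∈ K)
    (h2 : ∀ v ∈ K, T.symm v ∈ K) (v : E) : Pj K (T v) = T (Pj K v) := by
  refine pj_unique (map_closure_mem' T h1 (pj_mem K v)) fun x hx => ?_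
  rw [← map_sub]
  have h3 : inner ℂ (T (v - Pj K v)) x = inner ℂ (v - Pj K v) (T.symm x) := by
    conv_lhs => rw [← T.apply_symm_apply x]
    exact T.inner_map_map _ _
  rw [h3]
  exact pj_inner K v (subset_closure (h2 x hx))

/-- projections commute if one leaves the range of the other invariant -/
theorem pj_commute {K L : Submodule ℂ E} (h : ∀ v ∈ K, Pj L v ∈ K.topologicalClosure) :
    Commute (Pj K) (Pj L) := by
  have h0 : ∀ v ∈ K.topologicalClosure, Pj L v ∈ K.topologicalClosure := by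
    intro v hv
    have h1 := map_closure_mem (L := K.topologicalClosure) (Pj L) h hv
    rwa [(isClosed_topologicalClosure K).submodule_topologicalClosure_eq] at h1
  have h1 : ∀ v, Pj K (Pj L (Pj K v)) = Pj L (Pj K v) := fun v => pj_self.2 (h0 _ (pj_mem K v))
  have h2 : ∀ u v : E, inner ℂ (Pj K (Pj L u)) v = inner ℂ (Pj L (Pj K u)) v := by
    intro u v
    have e1 : inner ℂ (Pj K (Pj L u)) v = inner ℂ u (Pj L (Pj K v)) := by
      rw [pj_symm, pj_symm]
    have e2 : inner ℂ u (Pj L (Pj K v)) = inner ℂ u (Pj K (Pj L (Pj K v))) := by rw [h1]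
    have e3 : inner ℂ u (Pj K (Pj L (Pj K v))) = inner ℂ (Pj K (Pj L (Pj K u))) v := by
      rw [← pj_symm, ← pj_symm, ← pj_symm]
    rw [e1, e2, e3, h1]
  ext u
  exact ext_inner_right ℂ (h2 u)

theorem Commute.pj_apply {K L : Submodule ℂ E} (h : Commute (Pj K) (Pj L)) (v : E) :
    Pj K (Pj L v) = Pj L (Pj K v) := DFunLike.congr_fun h.eq v

end Proj

/-- the vectors which are fixed by a power of `g` -/
def Rt (g : E ≃ₗᵢ[ℂ] E) : Submodule ℂ E where
  carrier := {v | ∃ m : ℕ, 0 < m ∧ (g ^ m) v = v}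
  zero_mem' := ⟨1, one_pos, map_zero _⟩
  add_mem' := by
    rintro a b ⟨m, hm, ha⟩ ⟨n, hn, hb⟩
    refine ⟨m * n, Nat.mul_pos hm hn, ?_⟩
    have h1 : ∀ (f : E ≃ₗᵢ[ℂ] E) (x : E), f x = x → ∀ k : ℕ, (f ^ k) x = x := by
      intro f x hf k
      induction k with
      | zero => simp
      | succ k ih =>
        rw [pow_succ, mul_ap, hf, ih]
    have h2 : (g ^ (m * n)) a = a := by rw [pow_mul, h1 _ _ ha]
    have h3 : (g ^ (m * n)) b = b := by rw [mul_comm m n, pow_mul, h1 _ _ hb]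
    rw [map_add, h2, h3]
  smul_mem' := by
    rintro c a ⟨m, hm, ha⟩
    exact ⟨m, hm, by rw [map_smul, ha]⟩

theorem pow_fix {f : E ≃ₗᵢ[ℂ] E} {x : E} (hf : f x = x) (k : ℕ) : (f ^ k) x = x := by
  induction k with
  | zero => simp
  | succ k ih => rw [pow_succ, mul_ap, hf, ih]

/-- the rational vectors of `g` -/
def V (g : E ≃ₗᵢ[ℂ] E) : Submodule ℂ E := (Rt g).topologicalClosure

theorem mem_Rt {g : E ≃ₗᵢ[ℂ] E} {v : E} : v ∈ Rt g ↔ ∃ m : ℕ, 0 < m ∧ (g ^ m) v = v := Iff.rfl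

theorem Rt_pow (g : E ≃ₗᵢ[ℂ] E) {n : ℕ} (hn : 0 < n) : Rt (g ^ n) = Rt g := by
  ext v
  rw [mem_Rt, mem_Rt]
  constructor
  · rintro ⟨m, hm, h⟩
    rw [← pow_mul] at h
    exact ⟨n * m, Nat.mul_pos hn hm, h⟩
  · rintro ⟨m, hm, h⟩
    refine ⟨m, hm, ?_⟩
    rw [← pow_mul, mul_comm, pow_mul]
    exact pow_fix h n

theorem V_pow (g : E ≃ₗᵢ[ℂ] E) {n : ℕ} (hn : 0 < n) : V (g ^ n) = V g := by
  rw [V, V, Rt_pow g hn]

theorem inv_fix {f : E ≃ₗᵢ[ℂ] E} {x : E} (hf : f x = x) : f⁻¹ x = x := by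
  conv_lhs => rw [← hf]
  rw [← mul_ap, inv_mul_cancel, LinearIsometryEquiv.coe_one, id_eq]

theorem V_inv (g : E ≃ₗᵢ[ℂ] E) : V g⁻¹ = V g := by
  have h : ∀ f : E ≃ₗᵢ[ℂ] E, Rt f ≤ Rt f⁻¹ := by
    rintro f v ⟨m, hm, h⟩
    exact ⟨m, hm, by rw [inv_pow]; exact inv_fix h⟩
  rw [V, V]
  congr 1
  refine le_antisymm ?_ (h g)
  have := h g⁻¹
  rwa [inv_inv] at this

theorem V_one : V (1 : E ≃ₗᵢ[ℂ] E) = ⊤ := by
  rw [eq_top_iff]
  intro v _
  exact subset_closure ⟨1, one_pos, by simp⟩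

theorem V_closed (g : E ≃ₗᵢ[ℂ] E) : IsClosed (V g : Set E) := isClosed_topologicalClosure _

theorem V_closure (g : E ≃ₗᵢ[ℂ] E) : (V g).topologicalClosure = V g :=
  (V_closed g).submodule_topologicalClosure_eq

/-- approximation of rational vectors by fixed vectors of powers -/
theorem V_approx {g : E ≃ₗᵢ[ℂ] E} {v : E} (hv : v ∈ V g) {ε : ℝ} (hε : 0 < ε) :
    ∃ m : ℕ, 0 < m ∧ ∃ w : E, (g ^ m) w = w ∧ ‖v - w‖ < ε := by
  have h1 : v ∈ closure ((Rt g : Submodule ℂ E) : Set E) := hv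
  rw [Metric.mem_closure_iff] at h1
  obtain ⟨w, ⟨m, hm, hw⟩, h2⟩ := h1 ε hε
  exact ⟨m, hm, w, hw, by rwa [dist_eq_norm] at h2⟩

section R

variable [CompleteSpace E]

/-- the projection on the rational vectors of `g` -/
noncomputable def R (g : E ≃ₗᵢ[ℂ] E) : E →L[ℂ] E := Pj (Rt g)

theorem R_mem (g : E ≃ₗᵢ[ℂ] E) (v : E) : R g v ∈ V g := pj_mem _ v

theorem R_self {g : E ≃ₗᵢ[ℂ] E} {v : E} : R g v = v ↔ v ∈ V g := pj_self

theorem R_pow (g : E ≃ₗᵢ[ℂ] E) {n : ℕ} (hn : 0 < n) : R (g ^ n) = R g := by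
  rw [R, R, Rt_pow g hn]

theorem Rt_comm {g T : E ≃ₗᵢ[ℂ] E} (h : Commute g T) {v : E} (hv : v ∈ Rt g) : T v ∈ Rt g := by
  obtain ⟨m, hm, h1⟩ := hv
  refine ⟨m, hm, ?_⟩
  rw [← mul_ap, (h.pow_left m).eq, mul_ap, h1]

theorem R_comm_apply {g T : E ≃ₗᵢ[ℂ] E} (h : Commute g T) (v : E) : R g (T v) = T (R g v) := by
  refine pj_comm T (fun v hv => Rt_comm h hv) (fun v hv => ?_) v
  exact Rt_comm h.inv_right hv

/-- a projection which commutes with `g` preserves the vectors fixed by powers of `g` -/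
theorem Rt_of_pj_comm {K : Submodule ℂ E} {g : E ≃ₗᵢ[ℂ] E} (h : ∀ v, Pj K (g v) = g (Pj K v))
    {m : ℕ} {v : E} (hv : (g ^ m) v = v) : (g ^ m) (Pj K v) = Pj K v := by
  have h1 : ∀ (k : ℕ) (v : E), Pj K ((g ^ k) v) = (g ^ k) (Pj K v) := by
    intro k
    induction k with
    | zero => intro v; simp
    | succ k ih =>
      intro v
      rw [pow_succ, mul_ap, mul_ap, ih, h]
  rw [← h1, hv]

theorem V_of_pj_comm {K : Submodule ℂ E} {g : E ≃ₗᵢ[ℂ] E} (h : ∀ v, Pj K (g v) = g (Pj K v))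
    {v : E} (hv : v ∈ V g) : Pj K v ∈ V g :=
  by
  refine map_closure_mem (K := Rt g) (L := Rt g) (Pj K) ?_ hv
  rintro w ⟨m, hm, h1⟩
  exact ⟨m, hm, Rt_of_pj_comm h h1⟩

theorem commute_pj_R {K : Submodule ℂ E} {g : E ≃ₗᵢ[ℂ] E} (h : ∀ v, Pj K (g v) = g (Pj K v)) :
    Commute (R g) (Pj K) :=
  pj_commute fun v ⟨m, hm, h1⟩ => subset_closure ⟨m, hm, Rt_of_pj_comm h h1⟩

theorem commute_R {g h : E ≃ₗᵢ[ℂ] E} (hc : Commute g h) : Commute (R g) (R h) :=
  commute_pj_R fun v => R_comm_apply hc.symm v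

end R

end Pool.Agent.Helper29.NU
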