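import Pool.Agent.Helper29.NU.Rat

/-! Möbius orthogonality of polynomial sequences in nilpotent groups of unitaries. -/

set_option autoImplicit false
set_option linter.style.haveILetI false
set_option linter.unusedSectionVars false
set_option linter.unusedVariables false

open Submodule Filter Topology Finset
open scoped commutatorElement

namespace Pool.Agent.Helper29.NU

open Pool.Agent.TH261.AB (vav vav_le vav_of_residues kataiAP)
open Pool.Agent.Helper188.NCM
open Pool.Agent.H767R2 (cav)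

universe u

theorem wt_mob : Wt mob := by
  refine ⟨⟨1, zero_le_one, norm_mob_le⟩, fun m hm r hr => ?_⟩
  have h1 := Pool.Agent.TH261.AB.mob_poly 0 0 (by simp) m r hm hr
  refine h1.congr fun N => ?_
  rw [cav, vav, one_div, smul_eq_mul]
  congr 1
  refine Finset.sum_congr rfl fun n _ => ?_
  rw [Polynomial.eval_zero, ee_zero, mul_one]

variable {H : Type u} [NormedAddCommGroup H] [InnerProductSpace ℂ H] [CompleteSpace H]

theorem NQ_closed (q : ℤ → (H ≃ₗᵢ[ℂ] H)) : IsClosed (NQ q : Set H) := by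
  have h1 : (NQ q : Set H) = ⋂ n : ℤ, ⋂ l : ℤ, (V (q n * (q l)⁻¹) : Set H) := by
    ext v
    simp only [Set.mem_iInter, SetLike.mem_coe]
    exact mem_NQ
  rw [h1]
  exact isClosed_iInter fun n => isClosed_iInter fun l => V_closed _

/-- the statement for sequences with `p 0 = 1` -/
theorem mob_seq' {Γ : Type*} [Group Γ] {c : ℕ} (hc : (⊤ : Subgroup Γ).lowerCentralSeries c = ⊥)
    (φ : Γ →* (H ≃ₗᵢ[ℂ] H)) {C : ℕ} (hC : 0 < C) {p : ℤ → Γ} (hp : p ∈ PP (slow Γ C hC) 1)
    (hp0 : p 0 = 1) {m r : ℕ} (hm : 0 < m) (hr : r < m) (ξ : H) :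
    Tendsto (vav fun j => mob (m * j + r) • φ (p j) ξ) atTop (𝓝 0) := by
  set Q : ℤ → (H ≃ₗᵢ[ℂ] H) := fun n => φ (p n) with hQ
  have hQ0 : Q 0 = 1 := by
    show φ (p 0) = 1
    rw [hp0, map_one]
  have hcQ : (Lam Q).lowerCentralSeries (C * c + 1) = ⊥ := Lam_nilp_map φ hc hC hp
  set P := Pj (NQ Q) ξ with hP
  have hPN : P ∈ NQ Q := pj_mem' (NQ_closed Q) ξ
  have hort : ξ - P ∈ (NQ Q)ᗮ := by
    rw [mem_orthogonal']
    intro v hv
    exact pj_inner (NQ Q) ξ (subset_closure hv)
  have h1 : Tendsto (vav fun j => mob (m * j + r) • Q j P) atTop (𝓝 0) :=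
    nprop _ H Q hcQ hQ0 P hPN _ (wt_mob.res hm hr)
  have h2 : Tendsto (vav fun j => mob (m * j + r) • Q j (ξ - P)) atTop (𝓝 0) := by
    set η := ξ - P with hη
    set s : ℂ := ((‖η‖ + 1 : ℝ) : ℂ)⁻¹ with hs
    have hpos : (0 : ℝ) < ‖η‖ + 1 := by positivity
    have hs0 : ((‖η‖ + 1 : ℝ) : ℂ) ≠ 0 := by
      rw [Ne, Complex.ofReal_eq_zero]
      exact hpos.ne'
    have h3 : Tendsto (fun N : ℕ => (N : ℂ)⁻¹ • ∑ j ∈ range N, mob (m * j + r) •
        (s • Q ((j : ℕ) : ℤ) η)) atTop (𝓝 0) := by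
      refine kataiAP (Y := fun j : ℕ => s • Q (j : ℤ) η) (fun n => ?_) hm hr ?_
      · rw [norm_smul, LinearIsometryEquiv.norm_map, hs, norm_inv, Complex.norm_real,
          Real.norm_eq_abs, abs_of_pos hpos, inv_mul_le_iff₀ hpos]
        linarith
      · intro a b ha hb hab t t'
        have h4 : (fun n : ℤ => (p (a * n + t))⁻¹ * p (b * n + t')) ∈ PP (slow Γ C hC) 1 :=
          mul_mem (inv_mem (PP_dil (PP_sh hp t) a)) (PP_dil (PP_sh hp t') b)
        have h5 := Lam_nilp_map φ hc hC h4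
        have h6 : η ∈ (NQ fun n : ℤ => φ ((p (a * n + t))⁻¹ * p (b * n + t')))ᗮ := by
          rw [mem_orthogonal]
          intro v hv
          refine (mem_orthogonal _ _).1 hort v ?_
          refine NQ_dil hQ0 hcQ hab t t' ?_
          have e : (fun n : ℤ => (Q (a * n + t))⁻¹ * Q (b * n + t')) =
              fun n : ℤ => φ ((p (a * n + t))⁻¹ * p (b * n + t')) := by
            funext n
            rw [map_mul, map_inv]
          rw [e]
          exact hv
        have h7 := eprop _ H _ h5 η η h6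
        have h8 := h7.const_mul ((starRingEnd ℂ) s * s)
        rw [mul_zero] at h8
        refine h8.congr fun N => ?_
        rw [pa, cav, one_div, mul_left_comm]
        congr 1
        rw [Finset.mul_sum]
        refine Finset.sum_congr rfl fun n _ => ?_
        rw [inner_smul_left, inner_smul_right, ← mul_assoc]
        congr 1
        have e1 : φ ((p (a * n + t))⁻¹ * p (b * n + t')) = (Q (a * n + t))⁻¹ * Q (b * n + t') := by
          rw [map_mul, map_inv]
        rw [e1, mul_ap]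
        have e2 : ∀ (T : H ≃ₗᵢ[ℂ] H) (x y : H), inner ℂ (T⁻¹ x) y = inner ℂ x (T y) := by
          intro T x y
          rw [← T.inner_map_map (T⁻¹ x) y]
          congr 1
          rw [← mul_ap, mul_inv_cancel]
          rfl
        rw [e2]
        push_cast
        rfl
    have h4 := h3.const_smul ((‖η‖ + 1 : ℝ) : ℂ)
    rw [smul_zero] at h4
    refine h4.congr fun N => ?_
    rw [vav, smul_comm, Finset.smul_sum]
    congr 1
    refine Finset.sum_congr rfl fun n _ => ?_
    rw [smul_comm]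
    congr 1
    rw [smul_smul, hs, mul_inv_cancel₀ hs0, one_smul]
  have h3 := h1.add h2
  rw [add_zero] at h3
  refine h3.congr fun N => ?_
  rw [vav, vav, vav, ← smul_add, ← Finset.sum_add_distrib]
  congr 1
  refine Finset.sum_congr rfl fun n _ => ?_
  rw [← smul_add, ← map_add, add_sub_cancel]

/-- **Möbius orthogonality of polynomial sequences in nilpotent groups of unitaries.** -/
theorem mob_seq {Γ : Type*} [Group Γ] {c : ℕ} (hc : (⊤ : Subgroup Γ).lowerCentralSeries c = ⊥)
    (φ : Γ →* (H ≃ₗᵢ[ℂ] H)) {C : ℕ} (hC : 0 < C) {p : ℤ → Γ} (hp : p ∈ PP (slow Γ C hC) 1)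
    {m r : ℕ} (hm : 0 < m) (hr : r < m) (ξ : H) :
    Tendsto (vav fun j => mob (m * j + r) • φ (p j) ξ) atTop (𝓝 0) := by
  have h1 : (fun _ : ℤ => (p 0)⁻¹) ∈ PP (slow Γ C hC) 1 := by
    refine PP_of_isPoly hC (d := 1) (by omega) ?_
    intro h n
    show ((p 0)⁻¹)⁻¹ * (p 0)⁻¹ = 1
    rw [inv_inv, mul_inv_cancel]
  have h2 : (fun n : ℤ => p n * (p 0)⁻¹) ∈ PP (slow Γ C hC) 1 := mul_mem hp h1
  have h3 := mob_seq' hc φ hC h2 (by rw [mul_inv_cancel]) hm hr (φ (p 0) ξ)
  refine h3.congr fun N => ?_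
  rw [vav, vav]
  congr 1
  refine Finset.sum_congr rfl fun n _ => ?_
  congr 1
  rw [← mul_ap, ← map_mul, inv_mul_cancel_right]

end Pool.Agent.Helper29.NU
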