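import Pool.Agent.Helper29.NU.Eng
import Pool.Graph.R_pool_sql_team_seeded_ab47071d.TH261.AB.Kron

/-! Automorphisms of finitely generated abelian groups without expanding eigenvectors. -/

set_option autoImplicit false
set_option linter.style.haveILetI false
set_option linter.unusedSectionVars false
set_option linter.unusedVariables false

open Matrix Module

namespace Pool.Agent.Helper29.NU

section Lin

variable {M : Type} [AddCommGroup M] [Module.Finite ℤ M]

/-- the free part -/
theorem free_part (T T' : M →ₗ[ℤ] M) (h1 : T ∘ₗ T' = LinearMap.id) (h2 : T' ∘ₗ T = LinearMap.id)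
    (hspec : ∀ (g : M →+ ℂ) (l : ℂ), g ≠ 0 → (∀ x, g (T x) = l * g x) → ‖l‖ ≤ 1) :
    ∃ m : ℕ, 0 < m ∧ ∃ k : ℕ, ∀ x, ((T ^ m - 1) ^ k) x ∈ Submodule.torsion ℤ M := by
  set t := Submodule.torsion ℤ M with ht
  have hT : ∀ S : M →ₗ[ℤ] M, t ≤ t.comap S := by
    intro S x hx
    rw [ht, Submodule.mem_torsion_iff] at hx
    obtain ⟨a, ha⟩ := hx
    rw [Submodule.mem_comap, ht, Submodule.mem_torsion_iff]
    refine ⟨a, ?_⟩
    have h3 : (a : ℤ) • x = 0 := ha
    have h4 : (a : ℤ) • S x = 0 := by rw [← map_smul, h3, map_zero]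
    exact h4
  let q : (M →ₗ[ℤ] M) → ((M ⧸ t) →ₗ[ℤ] (M ⧸ t)) := fun S => t.mapQ t S (hT S)
  have hq : ∀ S x, q S (t.mkQ x) = t.mkQ (S x) := fun S x => rfl
  let b := Module.finBasis ℤ (M ⧸ t)
  set d := Module.finrank ℤ (M ⧸ t) with hd
  set Mat : Matrix (Fin d) (Fin d) ℤ := LinearMap.toMatrixAlgEquiv b (q T) with hMat
  set Mat' : Matrix (Fin d) (Fin d) ℤ := LinearMap.toMatrixAlgEquiv b (q T') with hMat'
  have hqmul : ∀ S S' : M →ₗ[ℤ] M, q (S * S') = q S * q S' := by
    intro S S'
    refine LinearMap.ext fun y => ?_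
    obtain ⟨x, rfl⟩ := t.mkQ_surjective y
    rfl
  have hqone : q 1 = 1 := by
    refine LinearMap.ext fun y => ?_
    obtain ⟨x, rfl⟩ := t.mkQ_surjective y
    rfl
  have hunit : IsUnit Mat := by
    have h3 : q T * q T' = 1 := by
      rw [← hqmul, ← hqone]
      congr 1
    have h4 : q T' * q T = 1 := by
      rw [← hqmul, ← hqone]
      congr 1
    refine ⟨⟨Mat, Mat', ?_, ?_⟩, rfl⟩
    · rw [hMat, hMat', ← map_mul, h3, map_one]
    · rw [hMat, hMat', ← map_mul, h4, map_one]
  have hsp : ∀ z ∈ spectrum ℂ (Mat.map (Int.castRingHom ℂ)), ‖z‖ ≤ 1 := by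
    intro z hz
    rw [spectrum.mem_iff, Matrix.isUnit_iff_isUnit_det, isUnit_iff_ne_zero, not_not,
      ← Matrix.exists_vecMul_eq_zero_iff] at hz
    obtain ⟨c, hc0, hc⟩ := hz
    have hc1 : c ᵥ* (Mat.map (Int.castRingHom ℂ)) = z • c := by
      rw [Matrix.vecMul_sub, sub_eq_zero, Algebra.algebraMap_eq_smul_one, Matrix.vecMul_smul,
        Matrix.vecMul_one] at hc
      exact hc.symm
    let g : M →+ ℂ :=
      { toFun := fun x => c ⬝ᵥ (fun i => ((b.repr (t.mkQ x) i : ℤ) : ℂ))
        map_zero' := by simp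
        map_add' := fun x y => by
          rw [map_add, map_add, ← dotProduct_add]
          congr 1
          funext i
          simp }
    refine hspec g z ?_ fun x => ?_
    · intro hg
      apply hc0
      funext i
      obtain ⟨x, hx⟩ := t.mkQ_surjective (b i)
      have h3 : g x = 0 := by rw [hg]; rfl
      have h4 : g x = c i := by
        show c ⬝ᵥ (fun j => ((b.repr (t.mkQ x) j : ℤ) : ℂ)) = c i
        rw [hx]
        have h5 : (fun j => ((b.repr (b i) j : ℤ) : ℂ)) = Pi.single i 1 := by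
          funext j
          rw [Module.Basis.repr_self, Finsupp.single_apply, Pi.single_apply]
          by_cases hij : i = j
          · rw [if_pos hij, if_pos hij.symm]
            simp
          · rw [if_neg hij, if_neg (Ne.symm hij)]
            simp
        rw [h5, dotProduct_single, mul_one]
      rw [← h4, h3]
      rfl
    · show c ⬝ᵥ (fun i => ((b.repr (t.mkQ (T x)) i : ℤ) : ℂ)) =
        z * (c ⬝ᵥ (fun i => ((b.repr (t.mkQ x) i : ℤ) : ℂ)))
      have h3 : (fun i => ((b.repr (t.mkQ (T x)) i : ℤ) : ℂ)) =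
          (Mat.map (Int.castRingHom ℂ)) *ᵥ (fun i => ((b.repr (t.mkQ x) i : ℤ) : ℂ)) := by
        have h4 := LinearMap.toMatrix_mulVec_repr b b (q T) (t.mkQ x)
        funext i
        have h5 := congrFun h4 i
        rw [hq] at h5
        rw [← h5]
        simp only [Matrix.mulVec, dotProduct, Matrix.map_apply]
        push_cast
        rfl
      rw [h3, Matrix.dotProduct_mulVec, hc1, smul_dotProduct, smul_eq_mul]
  obtain ⟨m, hm, k, hk⟩ := Pool.Agent.TH261.AB.quasi_unipotent Mat hunit hsp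
  refine ⟨m, hm, k, fun x => ?_⟩
  have hqpow : ∀ (n : ℕ) (S : M →ₗ[ℤ] M), q (S ^ n) = q S ^ n := by
    intro n S
    induction n with
    | zero => exact hqone
    | succ n ih => rw [pow_succ, hqmul, ih, pow_succ]
  have hqsub : ∀ S : M →ₗ[ℤ] M, q (S - 1) = q S - 1 := by
    intro S
    refine LinearMap.ext fun y => ?_
    obtain ⟨x, rfl⟩ := t.mkQ_surjective y
    exact map_sub t.mkQ (S x) x
  have h3 : q ((T ^ m - 1) ^ k) = 0 := by
    rw [hqpow, hqsub, hqpow]
    apply (LinearMap.toMatrixAlgEquiv b).injective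
    rw [map_pow, map_sub, map_pow, map_one, map_zero]
    exact hk
  have h4 : t.mkQ (((T ^ m - 1) ^ k) x) = 0 := by
    rw [← hq, h3]
    rfl
  rwa [Submodule.mkQ_apply, Submodule.Quotient.mk_eq_zero] at h4

/-- the torsion part -/
theorem all_part (T T' : M →ₗ[ℤ] M) (h1 : T ∘ₗ T' = LinearMap.id) (h2 : T' ∘ₗ T = LinearMap.id)
    (hspec : ∀ (g : M →+ ℂ) (l : ℂ), g ≠ 0 → (∀ x, g (T x) = l * g x) → ‖l‖ ≤ 1) :
    ∃ m : ℕ, 0 < m ∧ ∃ k : ℕ, ∀ n : ℕ, ((T ^ (m * n) - 1) ^ k) = 0 := by
  obtain ⟨m, hm, k, hk⟩ := free_part T T' h1 h2 hspec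
  set t := Submodule.torsion ℤ M with ht
  have hT : ∀ S : M →ₗ[ℤ] M, ∀ x ∈ t, S x ∈ t := by
    intro S x hx
    rw [ht, Submodule.mem_torsion_iff] at hx ⊢
    obtain ⟨a, ha⟩ := hx
    refine ⟨a, ?_⟩
    have h3 : (a : ℤ) • x = 0 := ha
    have h4 : (a : ℤ) • S x = 0 := by rw [← map_smul, h3, map_zero]
    exact h4
  haveI : Module.Finite ℤ t := inferInstance
  have hfin : Finite t := by
    refine Module.finite_of_fg_torsion t ?_
    exact Submodule.torsion_isTorsion
  let e : Equiv.Perm t :=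
    { toFun := fun x => ⟨T x, hT T x x.2⟩
      invFun := fun x => ⟨T' x, hT T' x x.2⟩
      left_inv := fun x => Subtype.ext (LinearMap.congr_fun h2 (x : M))
      right_inv := fun x => Subtype.ext (LinearMap.congr_fun h1 (x : M)) }
  have he : ∀ (n : ℕ) (x : t), (((e ^ n) x : t) : M) = (T ^ n) x := by
    intro n
    induction n with
    | zero => intro x; rfl
    | succ n ih =>
      intro x
      rw [pow_succ, Equiv.Perm.mul_apply, ih, pow_succ]
      rfl
  have hord : 0 < orderOf e := orderOf_pos e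
  have hfix : ∀ x ∈ t, (T ^ (orderOf e)) x = x := by
    intro x hx
    have h3 := he (orderOf e) ⟨x, hx⟩
    rw [pow_orderOf_eq_one] at h3
    exact h3.symm
  refine ⟨m * orderOf e, Nat.mul_pos hm hord, k + 1, fun n => ?_⟩
  have hfix' : ∀ j : ℕ, ∀ x ∈ t, (T ^ (orderOf e * j)) x = x := by
    intro j
    induction j with
    | zero => intro x _; rfl
    | succ j ih =>
      intro x hx
      rw [Nat.mul_succ, pow_add, Module.End.mul_apply, hfix x hx, ih x hx]
  refine LinearMap.ext fun x => ?_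
  have e1 : m * orderOf e * n = m * (orderOf e * n) := by ring
  have e2 : T ^ (m * orderOf e * n) - 1 = (∑ i ∈ Finset.range (orderOf e * n), (T ^ m) ^ i) *
      (T ^ m - 1) := by
    rw [geom_sum_mul, ← pow_mul, e1]
  have hcomm : Commute (∑ i ∈ Finset.range (orderOf e * n), (T ^ m) ^ i) (T ^ m - 1) := by
    have h3 : ∀ i : ℕ, Commute ((T ^ m) ^ i) (T ^ m - 1) := fun i =>
      ((Commute.refl (T ^ m)).pow_left i).sub_right (Commute.one_right _)
    exact Commute.sum_left _ _ _ fun i _ => h3 i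
  have h3 : ((T ^ (m * orderOf e * n) - 1) ^ k) x ∈ t := by
    rw [e2, hcomm.mul_pow, Module.End.mul_apply]
    exact hT _ _ (hk x)
  have e3 : m * orderOf e * n = orderOf e * (m * n) := by ring
  rw [e3] at h3 ⊢
  rw [pow_succ', Module.End.mul_apply]
  set y := ((T ^ (orderOf e * (m * n)) - 1) ^ k) x with hy
  show (T ^ (orderOf e * (m * n))) y - y = 0
  rw [hfix' _ _ h3, sub_self]

end Lin

section Grp

variable {A : Type} [Group A]

/-- **Kronecker's theorem for automorphisms of finitely generated groups modulo commutators.** -/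
theorem kron_ab (hfg : Group.FG A) (τ : MulAut A)
    (hspec : ∀ (χ : A →* Multiplicative ℂ) (l : ℂ), χ ≠ 1 →
      (∀ x, (χ (τ x)).toAdd = l * (χ x).toAdd) → ‖l‖ ≤ 1) :
    ∃ m : ℕ, 0 < m ∧ ∃ k : ℕ, ∀ (n : ℕ) (x : A), (Dg (τ ^ (m * n)))^[k] x ∈ commutator A := by
  let M := Additive (Abelianization A)
  haveI : Group.FG (Abelianization A) :=
    Group.fg_of_surjective (f := Abelianization.of) (QuotientGroup.mk_surjective)
  haveI : Module.Finite ℤ M := Module.Finite.iff_addGroup_fg.2 (AddGroup.fg_iff_mul_fg.2 (by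
    change Group.FG (Abelianization A)
    infer_instance))
  let L : MulAut A → (M →ₗ[ℤ] M) := fun τ =>
    (MonoidHom.toAdditive (Abelianization.map τ.toMonoidHom)).toIntLinearMap
  let o : A → M := fun x => Additive.ofMul (Abelianization.of x)
  have ho : ∀ y : M, ∃ x, o x = y := by
    intro y
    obtain ⟨x, hx⟩ := QuotientGroup.mk_surjective (Additive.toMul y)
    exact ⟨x, congrArg Additive.ofMul hx⟩
  have hL : ∀ (τ : MulAut A) (x : A), L τ (o x) = o (τ x) := fun τ x => rfl
  have h1 : L τ ∘ₗ L τ⁻¹ = LinearMap.id := by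
    refine LinearMap.ext fun y => ?_
    obtain ⟨x, rfl⟩ := ho y
    show L τ (L τ⁻¹ (o x)) = o x
    rw [hL, hL, MulAut.apply_inv_self]
  have h2 : L τ⁻¹ ∘ₗ L τ = LinearMap.id := by
    refine LinearMap.ext fun y => ?_
    obtain ⟨x, rfl⟩ := ho y
    show L τ⁻¹ (L τ (o x)) = o x
    rw [hL, hL, MulAut.inv_apply_self]
  obtain ⟨m, hm, k, hk⟩ := all_part (L τ) (L τ⁻¹) h1 h2 (by
    intro g l hg hgl
    let χ : A →* Multiplicative ℂ :=
      { toFun := fun x => Multiplicative.ofAdd (g (o x))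
        map_one' := by
          show Multiplicative.ofAdd (g (o 1)) = 1
          have : o (1 : A) = 0 := rfl
          rw [this, map_zero]
          rfl
        map_mul' := fun x y => by
          have : o (x * y) = o x + o y := rfl
          rw [this, map_add]
          rfl }
    refine hspec χ l ?_ fun x => ?_
    · intro h
      apply hg
      refine AddMonoidHom.ext fun y => ?_
      obtain ⟨x, rfl⟩ := ho y
      have h3 := DFunLike.congr_fun h x
      exact congrArg Multiplicative.toAdd h3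
    · show g (o (τ x)) = l * g (o x)
      rw [← hgl, hL])
  refine ⟨m, hm, k, fun n x => ?_⟩
  have hLpow : ∀ (n : ℕ) (x : A), (L τ ^ n) (o x) = o ((τ ^ n) x) := by
    intro n
    induction n with
    | zero => intro x; rfl
    | succ n ih =>
      intro x
      rw [pow_succ, Module.End.mul_apply, hL, ih, pow_succ, MulAut.mul_apply]
  have hD : ∀ (k : ℕ) (x : A), o ((Dg (τ ^ (m * n)))^[k] x) =
      ((L τ ^ (m * n) - 1) ^ k) (o x) := by
    intro k
    induction k with
    | zero => intro x; rfl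
    | succ k ih =>
      intro x
      rw [Function.iterate_succ_apply, ih, pow_succ, Module.End.mul_apply]
      congr 1
      show o (x⁻¹ * (τ ^ (m * n)) x) = (L τ ^ (m * n)) (o x) - o x
      rw [hLpow]
      have : o (x⁻¹ * (τ ^ (m * n)) x) = - o x + o ((τ ^ (m * n)) x) := rfl
      rw [this, neg_add_eq_sub]
  have h3 := hD k x
  rw [hk n] at h3
  have h4 : Abelianization.of ((Dg (τ ^ (m * n)))^[k] x) = 1 :=
    congrArg Additive.toMul h3
  rwa [← MonoidHom.mem_ker, Abelianization.ker_of] at h4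

end Grp

end Pool.Agent.Helper29.NU
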