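import Pool.Agent.Helper29.NU.SqG

/-! Polynomial sequences in nilpotent groups form a group (Lazard, Leibman), and together with the
shift they generate a nilpotent group. -/

set_option autoImplicit false
set_option linter.style.haveILetI false
set_option linter.unusedSectionVars false

open Subgroup
open scoped commutatorElement

namespace Pool.Agent.Helper29.NU

section Three

variable {G : Type*} [Group G]

theorem three_le (H₁ H₂ H₃ N : Subgroup G) [N.Normal] (h1 : ⁅⁅H₂, H₃⁆, H₁⁆ ≤ N)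
    (h2 : ⁅⁅H₃, H₁⁆, H₂⁆ ≤ N) : ⁅⁅H₁, H₂⁆, H₃⁆ ≤ N := by
  have key : ∀ H : Subgroup G, H.map (QuotientGroup.mk' N) = ⊥ ↔ H ≤ N := by
    intro H
    rw [Subgroup.map_eq_bot_iff, QuotientGroup.ker_mk']
  rw [← key] at h1 h2 ⊢
  simp only [Subgroup.map_commutator] at h1 h2 ⊢
  exact commutator_commutator_eq_bot_of_rotate h1 h2

theorem lcs_comm (a b : ℕ) : ⁅(⊤ : Subgroup G).lowerCentralSeries a,
    (⊤ : Subgroup G).lowerCentralSeries b⁆ ≤ (⊤ : Subgroup G).lowerCentralSeries (a + b + 1) := by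
  induction b generalizing a with
  | zero => exact le_rfl
  | succ b ih =>
    have h1 : ⁅⁅(⊤ : Subgroup G), (⊤ : Subgroup G).lowerCentralSeries a⁆,
        (⊤ : Subgroup G).lowerCentralSeries b⁆ ≤
        (⊤ : Subgroup G).lowerCentralSeries (a + (b + 1) + 1) := by
      have h2 := ih (a + 1)
      have e : a + 1 + b + 1 = a + (b + 1) + 1 := by ring
      rw [e] at h2
      refine le_trans (commutator_mono ?_ le_rfl) h2
      exact commutator_comm_le _ _
    have h2 : ⁅⁅(⊤ : Subgroup G).lowerCentralSeries a, (⊤ : Subgroup G).lowerCentralSeries b⁆,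
        (⊤ : Subgroup G)⁆ ≤ (⊤ : Subgroup G).lowerCentralSeries (a + (b + 1) + 1) := by
      refine le_trans (commutator_mono (ih a) le_rfl) ?_
      exact le_rfl
    refine (commutator_comm_le _ _).trans ?_
    exact three_le _ _ _ _ h1 h2

end Three

/-- an N-series -/
structure NS (G : Type*) [Group G] where
  /-- the groups -/
  A : ℕ → Subgroup G
  anti : Antitone A
  comm : ∀ i j, ⁅A i, A j⁆ ≤ A (i + j)

variable {K : Type*} [Group K]

/-- the shift of sequences -/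
def sh (h : ℤ) : (ℤ → K) →* (ℤ → K) where
  toFun p := fun n => p (n + h)
  map_one' := rfl
  map_mul' _ _ := rfl

theorem sh_apply (h : ℤ) (p : ℤ → K) (n : ℤ) : sh h p n = p (n + h) := rfl

theorem NS.conj {G : Type*} [Group G] (S : NS G) {w : ℕ} {x y : G} (hx : x ∈ S.A w)
    (hy : y ∈ S.A 0) : y * x * y⁻¹ ∈ S.A w := by
  have e : y * x * y⁻¹ = ⁅y, x⁆ * x := by
    rw [commutatorElement_def]
    group
  rw [e]
  have h1 : ⁅y, x⁆ ∈ S.A (0 + w) := S.comm 0 w (commutator_mem_commutator hy hx)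
  rw [zero_add] at h1
  exact mul_mem h1 hx

theorem NS.mem0 {G : Type*} [Group G] (S : NS G) {w : ℕ} {x : G} (hx : x ∈ S.A w) : x ∈ S.A 0 :=
  S.anti (Nat.zero_le w) hx

/-- one step of the construction -/
def NS.step (S : NS (ℤ → K)) : NS (ℤ → K) where
  A w :=
    { carrier := {p | p ∈ S.A w ∧ ∀ h, p⁻¹ * sh h p ∈ S.A (w + 1)}
      mul_mem' := by
        rintro p q ⟨hp, hp'⟩ ⟨hq, hq'⟩
        refine ⟨mul_mem hp hq, fun h => ?_⟩
        have e : (p * q)⁻¹ * sh h (p * q) =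
            q⁻¹ * (p⁻¹ * sh h p) * (q⁻¹)⁻¹ * (q⁻¹ * sh h q) := by
          rw [map_mul]
          group
        rw [e]
        exact mul_mem (S.conj (hp' h) (inv_mem (S.mem0 hq))) (hq' h)
      one_mem' := ⟨one_mem _, fun h => by rw [map_one, inv_one, mul_one]; exact one_mem _⟩
      inv_mem' := by
        rintro p ⟨hp, hp'⟩
        refine ⟨inv_mem hp, fun h => ?_⟩
        have e : (p⁻¹)⁻¹ * sh h p⁻¹ = p * (p⁻¹ * sh h p)⁻¹ * p⁻¹ := by
          rw [map_inv]
          group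
        rw [e]
        exact S.conj (inv_mem (hp' h)) (S.mem0 hp) }
  anti := by
    intro v w hvw p hp
    exact ⟨S.anti hvw hp.1, fun h => S.anti (Nat.succ_le_succ hvw) (hp.2 h)⟩
  comm := by
    intro i j
    rw [commutator_le]
    rintro p ⟨hp, hp'⟩ q ⟨hq, hq'⟩
    refine ⟨S.comm i j (commutator_mem_commutator hp hq), fun h => ?_⟩
    set α := p⁻¹ * sh h p with hα
    set β := q⁻¹ * sh h q with hβ
    have e1 : sh h p = p * α := by rw [hα, mul_inv_cancel_left]
    have e2 : sh h q = q * β := by rw [hβ, mul_inv_cancel_left]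
    have hαm : α ∈ S.A (i + 1) := hp' h
    have hβm : β ∈ S.A (j + 1) := hq' h
    have e3 : ⁅p, q⁆⁻¹ * sh h ⁅p, q⁆ =
        ⁅p, q⁆⁻¹ * (p * ⁅α, q * β⁆ * p⁻¹) * (⁅p, q⁆⁻¹)⁻¹ * (q * ⁅p, β⁆ * q⁻¹) := by
      rw [map_commutatorElement, e1, e2]
      simp only [commutatorElement_def]
      group
    rw [e3]
    have hqβ : q * β ∈ S.A j := mul_mem hq (S.anti (Nat.le_succ j) hβm)
    have m1 : ⁅α, q * β⁆ ∈ S.A (i + j + 1) := by
      have h1 := S.comm (i + 1) j (commutator_mem_commutator hαm hqβ)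
      have e : i + 1 + j = i + j + 1 := by ring
      rwa [e] at h1
    have m2 : ⁅p, β⁆ ∈ S.A (i + j + 1) := S.comm i (j + 1) (commutator_mem_commutator hp hβm)
    have m3 : ⁅p, q⁆ ∈ S.A 0 := S.mem0 (S.comm i j (commutator_mem_commutator hp hq))
    exact mul_mem (S.conj (S.conj m1 (S.mem0 hp)) (inv_mem m3)) (S.conj m2 (S.mem0 hq))

theorem NS.mem_step {S : NS (ℤ → K)} {w : ℕ} {p : ℤ → K} :
    p ∈ S.step.A w ↔ p ∈ S.A w ∧ ∀ h, p⁻¹ * sh h p ∈ S.A (w + 1) := Iff.rfl

/-- the sequences with values in the groups of an N-series -/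
def NS.pi (F : NS K) : NS (ℤ → K) where
  A w :=
    { carrier := {p | ∀ n, p n ∈ F.A w}
      mul_mem' := fun hp hq n => mul_mem (hp n) (hq n)
      one_mem' := fun n => one_mem _
      inv_mem' := fun hp n => inv_mem (hp n) }
  anti := fun v w hvw p hp n => F.anti hvw (hp n)
  comm := by
    intro i j
    rw [commutator_le]
    intro p hp q hq n
    exact F.comm i j (commutator_mem_commutator (hp n) (hq n))

/-- the groups of polynomial sequences -/
def PP (F : NS K) (w : ℕ) : Subgroup (ℤ → K) := ⨅ i : ℕ, (NS.step^[i] F.pi).A w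

theorem mem_PP {F : NS K} {w : ℕ} {p : ℤ → K} :
    p ∈ PP F w ↔ ∀ i : ℕ, p ∈ (NS.step^[i] F.pi).A w := by
  rw [PP, Subgroup.mem_iInf]

theorem PP_anti (F : NS K) : Antitone (PP F) := by
  intro v w hvw p hp
  rw [mem_PP] at hp ⊢
  exact fun i => (NS.step^[i] F.pi).anti hvw (hp i)

theorem PP_comm (F : NS K) (i j : ℕ) {p q : ℤ → K} (hp : p ∈ PP F i) (hq : q ∈ PP F j) :
    ⁅p, q⁆ ∈ PP F (i + j) := by
  rw [mem_PP] at hp hq ⊢
  exact fun l => (NS.step^[l] F.pi).comm i j (commutator_mem_commutator (hp l) (hq l))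

theorem PP_val {F : NS K} {w : ℕ} {p : ℤ → K} (hp : p ∈ PP F w) (n : ℤ) : p n ∈ F.A w :=
  mem_PP.1 hp 0 n

theorem PP_diff {F : NS K} {w : ℕ} {p : ℤ → K} (hp : p ∈ PP F w) (h : ℤ) :
    p⁻¹ * sh h p ∈ PP F (w + 1) := by
  rw [mem_PP] at hp ⊢
  intro i
  have h1 := hp (i + 1)
  rw [Function.iterate_succ_apply', NS.mem_step] at h1
  exact h1.2 h

theorem PP_sh {F : NS K} {w : ℕ} {p : ℤ → K} (hp : p ∈ PP F w) (h : ℤ) : sh h p ∈ PP F w := by
  have e : sh h p = p * (p⁻¹ * sh h p) := by rw [mul_inv_cancel_left]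
  rw [e]
  exact mul_mem hp (PP_anti F (Nat.le_succ w) (PP_diff hp h))

/-- the coinduction principle -/
theorem PP_intro {F : NS K} (Q : ℕ → (ℤ → K) → Prop)
    (h1 : ∀ w p, Q w p → ∀ n, p n ∈ F.A w) (h2 : ∀ w p, Q w p → ∀ h, Q (w + 1) (p⁻¹ * sh h p))
    {w : ℕ} {p : ℤ → K} (hp : Q w p) : p ∈ PP F w := by
  rw [mem_PP]
  intro i
  induction i generalizing w p with
  | zero => exact h1 w p hp
  | succ i ih =>
    rw [Function.iterate_succ_apply', NS.mem_step]
    exact ⟨ih hp, fun h => ih (h2 w p hp h)⟩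

/-- dilations -/
theorem PP_dil {F : NS K} {w : ℕ} {p : ℤ → K} (hp : p ∈ PP F w) (a : ℤ) :
    (fun n => p (a * n)) ∈ PP F w := by
  refine PP_intro (fun w q => ∃ p ∈ PP F w, q = fun n => p (a * n)) ?_ ?_ ⟨p, hp, rfl⟩
  · rintro w _ ⟨p, hp, rfl⟩ n
    exact PP_val hp _
  · rintro w _ ⟨p, hp, rfl⟩ h
    refine ⟨_, PP_diff hp (a * h), ?_⟩
    funext n
    show (p (a * n))⁻¹ * p (a * (n + h)) = (p (a * n))⁻¹ * p (a * n + a * h)
    rw [mul_add]

/-- the N-series of a nilpotent group in which the lower central series is slowed down -/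
def slow (K : Type*) [Group K] (C : ℕ) (hC : 0 < C) : NS K where
  A i := (⊤ : Subgroup K).lowerCentralSeries ((i - 1) / C)
  anti := by
    intro i j hij
    exact (⊤ : Subgroup K).lowerCentralSeries_antitone (Nat.div_le_div_right (by omega))
  comm := by
    intro i j
    refine (lcs_comm _ _).trans ((⊤ : Subgroup K).lowerCentralSeries_antitone ?_)
    have h1 := Nat.lt_mul_div_succ (i - 1) hC
    have h2 := Nat.lt_mul_div_succ (j - 1) hC
    rw [← Nat.lt_succ_iff]
    refine Nat.div_lt_of_lt_mul ?_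
    have h3 : C * ((i - 1) / C + (j - 1) / C + 1).succ =
        C * ((i - 1) / C + 1) + C * ((j - 1) / C + 1) := by
      rw [← Nat.mul_add]
      congr 1
      omega
    rw [h3]
    omega

theorem slow_top {C : ℕ} (hC : 0 < C) {w : ℕ} (hw : w ≤ C) (x : K) :
    x ∈ (slow K C hC).A w := by
  show x ∈ (⊤ : Subgroup K).lowerCentralSeries ((w - 1) / C)
  rw [Nat.div_eq_of_lt (by omega)]
  exact mem_top x

/-- the differences of order `d` of the sequence are trivial -/
def IsPoly : ℕ → (ℤ → K) → Prop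
  | 0, p => ∀ n, p n = 1
  | d + 1, p => ∀ h : ℤ, IsPoly d fun n => (p n)⁻¹ * p (n + h)

theorem PP_of_isPoly {C : ℕ} (hC : 0 < C) {w d : ℕ} (hd : w + d ≤ C + 1) {p : ℤ → K}
    (hp : IsPoly d p) : p ∈ PP (slow K C hC) w := by
  refine PP_intro (fun w p => (∀ n, p n = 1) ∨ ∃ d, w + d ≤ C + 1 ∧ IsPoly d p) ?_ ?_
    (Or.inr ⟨d, hd, hp⟩)
  · rintro w p (h | ⟨d, hd, hp⟩) n
    · rw [h n]
      exact one_mem _
    · rcases d with _ | d
      · rw [hp n]
        exact one_mem _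
      · exact slow_top hC (by omega) _
  · rintro w p (h | ⟨d, hd, hp⟩) l
    · left
      intro n
      show (p n)⁻¹ * p (n + l) = 1
      rw [h, h, inv_one, mul_one]
    · rcases d with _ | d
      · left
        intro n
        show (p n)⁻¹ * p (n + l) = 1
        rw [hp n, hp (n + l), inv_one, mul_one]
      · exact Or.inr ⟨d, by omega, hp l⟩

/-- the powers of an element -/
theorem isPoly_zpow (g : K) : IsPoly 2 fun n : ℤ => g ^ n := by
  intro h l n
  show ((g ^ n)⁻¹ * g ^ (n + h))⁻¹ * ((g ^ (n + l))⁻¹ * g ^ (n + l + h)) = 1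
  group

/-- the groups which contain the shift -/
def GH (F : NS K) (w : ℕ) : Subgroup (Sq K) where
  carrier := {a | a.f ∈ PP F w ∧ (2 ≤ w → a.k = 0)}
  mul_mem' := by
    rintro a b ⟨ha, ha'⟩ ⟨hb, hb'⟩
    refine ⟨mul_mem ha (PP_sh hb a.k), fun hw => ?_⟩
    rw [Sq.mul_k, ha' hw, hb' hw, add_zero]
  one_mem' := ⟨one_mem _, fun _ => rfl⟩
  inv_mem' := by
    rintro a ⟨ha, ha'⟩
    refine ⟨inv_mem (PP_sh ha (-a.k)), fun hw => ?_⟩
    rw [Sq.inv_k, ha' hw, neg_zero]

theorem GH_comm (F : NS K) {w : ℕ} (hw : 1 ≤ w) : ⁅GH F w, GH F 1⁆ ≤ GH F (w + 1) := by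
  rw [commutator_le]
  rintro a ⟨ha, ha'⟩ b ⟨hb, -⟩
  have hk : ⁅a, b⁆.k = 0 := by
    rw [commutatorElement_def, Sq.mul_k, Sq.mul_k, Sq.mul_k, Sq.inv_k, Sq.inv_k]
    ring
  refine ⟨?_, fun _ => hk⟩
  set p := a.f with hp
  set q := b.f with hq
  set α := p⁻¹ * sh b.k p with hα
  set β := q⁻¹ * sh a.k q with hβ
  have e1 : sh b.k p = p * α := by rw [hα, mul_inv_cancel_left]
  have e2 : sh a.k q = q * β := by rw [hβ, mul_inv_cancel_left]
  have h1 : ⁅a, b⁆ * (b * a) = a * b := by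
    rw [commutatorElement_def]
    group
  have h2 : ⁅a, b⁆.f * (q * sh b.k p) = p * sh a.k q := by
    have h3 := congrArg Sq.f h1
    funext n
    have h4 := congrFun h3 n
    rw [Sq.mul_f, hk, add_zero, Sq.mul_f, Sq.mul_f] at h4
    exact h4
  have h3 : ⁅a, b⁆.f = ⁅p, q⁆ * (q * (p * (β * α⁻¹) * p⁻¹) * q⁻¹) := by
    rw [e1, e2] at h2
    have h4 : ⁅a, b⁆.f = p * (q * β) * (q * (p * α))⁻¹ := by
      rw [← h2, mul_inv_cancel_right]
    rw [h4, commutatorElement_def]
    group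
  rw [h3]
  have hαm : α ∈ PP F (w + 1) := PP_diff ha _
  have hβm : β ∈ PP F (w + 1) := by
    rcases Nat.lt_or_ge w 2 with h | h
    · have hw1 : w = 1 := by omega
      rw [hw1]
      exact PP_diff hb _
    · have h5 : β = 1 := by
        rw [hβ, ha' h]
        funext n
        show (q n)⁻¹ * q (n + 0) = 1
        rw [add_zero, inv_mul_cancel]
      rw [h5]
      exact one_mem _
  have hconj : ∀ {v : ℕ} {x y : ℤ → K}, x ∈ PP F v → y ∈ PP F 1 → y * x * y⁻¹ ∈ PP F v := by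
    intro v x y hx hy
    have e : y * x * y⁻¹ = ⁅y, x⁆ * x := by
      rw [commutatorElement_def]
      group
    rw [e]
    exact mul_mem (PP_anti F (by omega) (PP_comm F 1 v hy hx)) hx
  have hp1 : p ∈ PP F 1 := PP_anti F hw ha
  exact mul_mem (PP_comm F w 1 ha hb)
    (hconj (hconj (mul_mem hβm (inv_mem hαm)) hp1) hb)

theorem Lam_le_GH {F : NS K} {q : ℤ → K} (hq : q ∈ PP F 1) (n : ℕ) :
    (Lam q).lowerCentralSeries n ≤ GH F (n + 1) := by
  induction n with
  | zero =>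
    rw [Subgroup.lowerCentralSeries_zero, Lam, closure_le]
    rintro _ (rfl | rfl)
    · exact ⟨one_mem _, fun h => absurd h (by omega)⟩
    · refine ⟨?_, fun h => absurd h (by omega)⟩
      have e : (Sq.W' q).f = q * (sh 1 q)⁻¹ := rfl
      rw [e]
      exact mul_mem hq (inv_mem (PP_sh hq 1))
  | succ n ih =>
    rw [Subgroup.lowerCentralSeries_succ]
    refine le_trans (commutator_mono ih ?_) (GH_comm F (by omega))
    have h0 : Lam q ≤ GH F 1 := by
      rw [Lam, closure_le]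
      rintro _ (rfl | rfl)
      · exact ⟨one_mem _, fun h => absurd h (by omega)⟩
      · refine ⟨?_, fun h => absurd h (by omega)⟩
        have e : (Sq.W' q).f = q * (sh 1 q)⁻¹ := rfl
        rw [e]
        exact mul_mem hq (inv_mem (PP_sh hq 1))
    exact h0

/-- **Lazard–Leibman.** The group generated by the shift and its conjugate by a polynomial sequence
in a nilpotent group is nilpotent. -/
theorem Lam_nilp {c : ℕ} (hc : (⊤ : Subgroup K).lowerCentralSeries c = ⊥) {C : ℕ} (hC : 0 < C)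
    {q : ℤ → K} (hq : q ∈ PP (slow K C hC) 1) :
    (Lam q).lowerCentralSeries (C * c + 1) = ⊥ := by
  rw [eq_bot_iff]
  refine (Lam_le_GH hq _).trans ?_
  rintro a ⟨ha, ha'⟩
  rw [mem_bot]
  refine Sq.ext (funext fun n => ?_) (ha' (by omega))
  have h1 := PP_val ha n
  have h2 : a.f n ∈ (⊤ : Subgroup K).lowerCentralSeries ((C * c + 1 + 1 - 1) / C) := h1
  have h3 : c ≤ (C * c + 1 + 1 - 1) / C := by
    rw [Nat.le_div_iff_mul_le hC, mul_comm]
    omega
  have h4 := (⊤ : Subgroup K).lowerCentralSeries_antitone h3 h2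
  rw [hc, mem_bot] at h4
  exact h4

theorem Lam_map {L : Type*} [Group L] (φ : K →* L) (q : ℤ → K) :
    Lam (fun n => φ (q n)) = (Lam q).map (Sq.map φ) := by
  rw [Lam, Lam, MonoidHom.map_closure, Set.image_pair]
  congr 2
  · refine Sq.ext (funext fun n => ?_) rfl
    exact (map_one φ).symm
  · congr 1
    refine Sq.ext (funext fun n => ?_) rfl
    show φ (q n) * (φ (q (n + 1)))⁻¹ = φ (q n * (q (n + 1))⁻¹)
    rw [map_mul, map_inv]

theorem Lam_nilp_map {L : Type*} [Group L] (φ : K →* L) {c : ℕ}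
    (hc : (⊤ : Subgroup K).lowerCentralSeries c = ⊥) {C : ℕ} (hC : 0 < C)
    {q : ℤ → K} (hq : q ∈ PP (slow K C hC) 1) :
    (Lam fun n => φ (q n)).lowerCentralSeries (C * c + 1) = ⊥ := by
  rw [Lam_map, ← Subgroup.map_lowerCentralSeries, Lam_nilp hc hC hq, Subgroup.map_bot]

end Pool.Agent.Helper29.NU
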