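import Pool.Agent.Helper29.NU.Dil
import Pool.Graph.R_seed8.TH261.AB.Final

/-! Weighted averages of polynomial sequences of unitaries at rational vectors. -/

set_option autoImplicit false
set_option linter.style.haveILetI false
set_option linter.unusedSectionVars false
set_option linter.unusedVariables false

open Submodule Filter Topology Finset
open scoped commutatorElement

namespace Pool.Agent.Helper29.NU

open Pool.Agent.TH261.AB (vav vav_le vav_of_residues)

universe u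

/-- the weights: bounded, with mean value zero along each residue class -/
def Wt (a : ℕ → ℂ) : Prop := (∃ C : ℝ, 0 ≤ C ∧ ∀ n, ‖a n‖ ≤ C) ∧ ∀ m : ℕ, 0 < m → ∀ r < m,
  Tendsto (vav fun n => a (m * n + r)) atTop (𝓝 0)

theorem Wt.res {a : ℕ → ℂ} (h : Wt a) {m : ℕ} (hm : 0 < m) {r : ℕ} (hr : r < m) :
    Wt fun n => a (m * n + r) := by
  obtain ⟨⟨C, hC0, hC⟩, h2⟩ := h
  refine ⟨⟨C, hC0, fun n => hC _⟩, fun m' hm' r' hr' => ?_⟩
  have h4 : m * r' + r < m * m' := by
    calc m * r' + r < m * r' + m := by omega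
      _ = m * (r' + 1) := by ring
      _ ≤ m * m' := Nat.mul_le_mul_left m hr'
  have h3 := h2 (m * m') (Nat.mul_pos hm hm') (m * r' + r) h4
  refine h3.congr fun N => ?_
  rw [vav, vav]
  congr 1
  refine Finset.sum_congr rfl fun n _ => ?_
  congr 1
  ring

/-- the statement on the weighted averages at rational vectors -/
def NProp (c : ℕ) : Prop := ∀ (H : Type u) [NormedAddCommGroup H] [InnerProductSpace ℂ H]
  [CompleteSpace H] (q : ℤ → (H ≃ₗᵢ[ℂ] H)), (Lam q).lowerCentralSeries c = ⊥ → q 0 = 1 →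
  ∀ v ∈ NQ q, ∀ a : ℕ → ℂ, Wt a → Tendsto (vav fun n => a n • q n v) atTop (𝓝 0)

section

variable {H : Type u} [NormedAddCommGroup H] [InnerProductSpace ℂ H]

theorem rat_closed {q : ℤ → (H ≃ₗᵢ[ℂ] H)} {a : ℕ → ℂ} {C : ℝ} (hC : 0 ≤ C)
    (ha : ∀ n, ‖a n‖ ≤ C) {v : H}
    (h : ∀ ε : ℝ, 0 < ε → ∃ w : H, ‖v - w‖ < ε ∧
      Tendsto (vav fun n => a n • q n w) atTop (𝓝 0)) :
    Tendsto (vav fun n => a n • q n v) atTop (𝓝 0) := by
  rw [Metric.tendsto_atTop]
  intro ε hε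
  obtain ⟨w, hw, h1⟩ := h (ε / 2 / (C + 1)) (by positivity)
  rw [Metric.tendsto_atTop] at h1
  obtain ⟨N0, hN0⟩ := h1 (ε / 2) (by positivity)
  refine ⟨N0, fun N hN => ?_⟩
  have h2 := hN0 N hN
  rw [dist_zero_right] at h2 ⊢
  have h3 : vav (fun n => a n • q n v) N =
      vav (fun n => a n • q n w) N + vav (fun n => a n • q n (v - w)) N := by
    rw [vav, vav, vav, ← smul_add, ← Finset.sum_add_distrib]
    congr 1
    refine Finset.sum_congr rfl fun n _ => ?_
    rw [← smul_add, ← map_add, add_sub_cancel]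
  have h4 : ‖vav (fun n => a n • q n (v - w)) N‖ ≤ C * ‖v - w‖ := by
    refine vav_le (by positivity) (fun n => ?_) N
    rw [norm_smul, LinearIsometryEquiv.norm_map]
    have := ha n
    gcongr
  have h5 : C * ‖v - w‖ ≤ ε / 2 := by
    have h6 : C * ‖v - w‖ ≤ (C + 1) * (ε / 2 / (C + 1)) :=
      mul_le_mul (by linarith) hw.le (norm_nonneg _) (by positivity)
    have h7 : (C + 1) * (ε / 2 / (C + 1)) = ε / 2 := by
      have : C + 1 ≠ 0 := by positivity
      field_simp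
    linarith
  rw [h3]
  refine (norm_add_le _ _).trans_lt ?_
  linarith

/-- if the group of the sequence is abelian then the sequence is a geometric progression -/
theorem lam_one {K : Type*} [Group K] {q : ℤ → K} (hc : (Lam q).lowerCentralSeries 1 = ⊥) (n : ℕ) :
    q n = (q 1 * (q 0)⁻¹) ^ n * q 0 := by
  have h1 : Commute (Sq.W : Sq K) (Sq.W' q) := by
    exact central_rel (k := 0) (Γ := Lam q) hc (W_mem q) (W'_mem q)
  have h2 : ∀ n : ℤ, q n * (q (n + 1))⁻¹ = q (n + 1) * (q (n + 1 + 1))⁻¹ := by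
    intro n
    have h3 := congrFun (congrArg Sq.f h1.eq) n
    rw [Sq.mul_f, Sq.mul_f] at h3
    have h4 : 1 * (q (n + 1) * (q (n + 1 + 1))⁻¹) = q n * (q (n + 1))⁻¹ * 1 := h3
    rw [one_mul, mul_one] at h4
    exact h4.symm
  set g : K := q 1 * (q 0)⁻¹ with hg
  have h3 : ∀ n : ℕ, q n * (q (n + 1))⁻¹ = g⁻¹ := by
    intro n
    induction n with
    | zero =>
      rw [Nat.cast_zero, zero_add, hg, mul_inv_rev, inv_inv]
    | succ i ih =>
      push_cast
      rw [← h2, ih]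
  have h4 : ∀ n : ℕ, q (n + 1) = g * q n := by
    intro n
    have h5 := h3 n
    have h6 : q (n + 1) = (q n * (q (n + 1))⁻¹)⁻¹ * q n := by group
    rw [h6, h5, inv_inv]
  induction n with
  | zero => simp
  | succ n ih =>
    push_cast
    rw [h4, ih, ← mul_assoc, ← pow_succ']

/-- the values of the elements of the group are in the group of the quotients -/
theorem Lam_f_mem {K : Type*} [Group K] {q : ℤ → K} {a : Sq K} (ha : a ∈ Lam q) (n : ℤ) :
    a.f n ∈ KQ q := by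
  have h1 : Lam q ≤ { carrier := {a : Sq K | ∀ n, a.f n ∈ KQ q}
                      mul_mem' := fun ha hb n => mul_mem (ha n) (hb _)
                      one_mem' := fun n => one_mem _
                      inv_mem' := fun ha n => inv_mem (ha _) : Subgroup (Sq K) } := by
    rw [Lam, Subgroup.closure_le]
    rintro _ (rfl | rfl)
    · intro n
      exact one_mem _
    · intro n
      exact quot_mem_KQ q n (n + 1)
  exact h1 ha n

end

section

variable {H : Type u} [NormedAddCommGroup H] [InnerProductSpace ℂ H] [CompleteSpace H]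

theorem V_conj {g a : H ≃ₗᵢ[ℂ] H} {v : H} (hv : v ∈ V (a⁻¹ * g * a)) : a v ∈ V g := by
  refine map_closure_mem' (K := Rt (a⁻¹ * g * a)) (L := Rt g) a ?_ hv
  rintro w ⟨m, hm, h1⟩
  refine ⟨m, hm, ?_⟩
  have h2 : (a⁻¹ * g * a) ^ m = a⁻¹ * g ^ m * a := by
    have := conj_pow (a := a⁻¹) (b := g) (i := m)
    rwa [inv_inv] at this
  rw [h2, mul_ap, mul_ap] at h1
  have h3 := congrArg a h1
  rw [← mul_ap, mul_inv_cancel] at h3
  exact h3

theorem NQ_inv {q : ℤ → (H ≃ₗᵢ[ℂ] H)} {c : ℕ} (hc : (Lam q).lowerCentralSeries c = ⊥) {v : H}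
    (hv : v ∈ NQ q) {a : H ≃ₗᵢ[ℂ] H} (ha : a ∈ KQ q) : a v ∈ NQ q := by
  refine mem_NQ_of_KQ fun g hg => V_conj ?_
  exact V_of_NQ hc hv (mul_mem (mul_mem (inv_mem ha) hg) ha)

/-- vectors fixed by the powers of generators of the last commutators -/
theorem mem_Em_of_gen {q : ℤ → (H ≃ₗᵢ[ℂ] H)} {k : ℕ} (hc : (Lam q).lowerCentralSeries (k + 2) = ⊥)
    {T : Finset (Sq (H ≃ₗᵢ[ℂ] H))}
    (hTZ : (Lam q).lowerCentralSeries (k + 1) = Subgroup.closure (T : Set (Sq (H ≃ₗᵢ[ℂ] H))))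
    {m : ℕ} {w0 : H} (hw0 : ∀ z ∈ T, (z.f 0 ^ m) w0 = w0) : w0 ∈ Em (Zc q k) m := by
  have hTmem : ∀ z ∈ T, z ∈ (Lam q).lowerCentralSeries (k + 1) := by
    intro z hz
    rw [hTZ]
    exact Subgroup.subset_closure hz
  intro c hcZ
  obtain ⟨z, hz, rfl⟩ := mem_Zc.1 hcZ
  have hz' : z ∈ Subgroup.closure (T : Set (Sq (H ≃ₗᵢ[ℂ] H))) := by rwa [hTZ] at hz
  have h5 : z ∈ (Lam q).lowerCentralSeries (k + 1) ∧ (z.f 0 ^ m) w0 = w0 := by
    clear hz hcZ
    induction hz' using Subgroup.closure_induction with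
    | mem z hz => exact ⟨hTmem z hz, hw0 _ hz⟩
    | one => exact ⟨one_mem _, by rw [Sq.one_f, one_pow]; rfl⟩
    | mul a b _ _ ha hb =>
      refine ⟨mul_mem ha.1 hb.1, ?_⟩
      have hak := (last_const hc ha.1).1
      have hbk := (last_const hc hb.1).1
      have hab : Commute (a.f 0) (b.f 0) := by
        have h4 := (central_rel hc ha.1 ((Lam q).lowerCentralSeries_le_self _ hb.1)).eq
        have h5 := congrFun (congrArg Sq.f h4) 0
        rw [Sq.mul_f, Sq.mul_f, hak, hbk] at h5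
        exact h5
      have h6 : (a * b).f 0 = a.f 0 * b.f 0 := by
        rw [Sq.mul_f, hak]
        rfl
      rw [h6, hab.mul_pow, mul_ap, hb.2, ha.2]
    | inv a _ ha =>
      refine ⟨inv_mem ha.1, ?_⟩
      have h6 : (a⁻¹).f 0 = (a.f 0)⁻¹ := by
        rw [Sq.inv_f, (last_const hc ha.1).1]
        rfl
      rw [h6, inv_pow]
      exact inv_fix ha.2
  exact h5.2

theorem nprop_one : NProp.{u} 1 := by
  intro H _ _ _ q hc hq0 v hv a ha
  obtain ⟨⟨C, hC0, hC⟩, h2⟩ := ha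
  have hq : ∀ n : ℕ, q n = (q 1) ^ n := by
    intro n
    have h1 := lam_one hc n
    rwa [hq0, inv_one, mul_one, mul_one] at h1
  have hv1 : v ∈ V (q 1) := by
    have h1 := mem_NQ.1 hv 1 0
    rwa [hq0, inv_one, mul_one] at h1
  refine rat_closed hC0 hC fun ε hε => ?_
  obtain ⟨m, hm, w, hw, hvw⟩ := V_approx hv1 hε
  refine ⟨w, hvw, vav_of_residues (C := C * ‖w‖) (by positivity) (fun n => ?_) hm fun r hr => ?_⟩
  · rw [norm_smul, LinearIsometryEquiv.norm_map]
    have := hC n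
    gcongr
  · have h3 := (h2 m hm r hr).smul_const ((q 1 ^ r) w)
    rw [zero_smul] at h3
    refine h3.congr fun N => ?_
    rw [vav, vav, smul_assoc, Finset.sum_smul]
    congr 1
    refine Finset.sum_congr rfl fun n _ => ?_
    congr 1
    rw [hq, add_comm, pow_add, mul_ap, pow_mul]
    congr 1
    exact (pow_fix hw n).symm

theorem nprop_zero : NProp.{u} 0 := by
  intro H _ _ _ q hc
  refine nprop_one H q ?_
  rw [eq_bot_iff, ← hc]
  exact (Lam q).lowerCentralSeries_antitone (Nat.zero_le 1)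

theorem nprop_step {k : ℕ} (ih : NProp.{u} (k + 1)) : NProp.{u} (k + 2) := by
  classical
  intro H _ _ _ q hc hq0 v hv a ha
  have ha' := ha
  obtain ⟨⟨C, hC0, hC⟩, -⟩ := ha
  obtain ⟨T, hT, hTZ⟩ := last_gen_rel (Sq.W : Sq (H ≃ₗᵢ[ℂ] H)) (Sq.W' q) k hc
  have hTZ' : (Lam q).lowerCentralSeries (k + 1) =
    Subgroup.closure (T : Set (Sq (H ≃ₗᵢ[ℂ] H))) := hTZ
  have hTmem : ∀ z ∈ T, z ∈ (Lam q).lowerCentralSeries (k + 1) := by
    intro z hz
    rw [hTZ']
    exact Subgroup.subset_closure hz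
  refine rat_closed hC0 hC fun ε hε => ?_
  obtain ⟨m, hm, w, hw0, hvw, hwV⟩ := approx (T.image fun z => z.f 0)
    (KQ q : Set (H ≃ₗᵢ[ℂ] H)) (by
      intro c hcT
      obtain ⟨z, hz, rfl⟩ := Finset.mem_image.1 hcT
      exact ⟨Lam_f_mem ((Lam q).lowerCentralSeries_le_self _ (hTmem z hz)) 0,
        fun w hw => (last_const hc (hTmem z hz)).2.2 w hw⟩) v (by
      intro c hcT
      obtain ⟨z, hz, rfl⟩ := Finset.mem_image.1 hcT
      exact V_of_NQ hc hv (Lam_f_mem ((Lam q).lowerCentralSeries_le_self _ (hTmem z hz)) 0)) hε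
  refine ⟨w, hvw, ?_⟩
  have hwN : w ∈ NQ q := mem_NQ_of_KQ fun g hg => hwV g hg (V_of_NQ hc hv hg)
  have hw : w ∈ Em (Zc q k) m :=
    mem_Em_of_gen hc hTZ' fun z hz => hw0 _ (Finset.mem_image_of_mem _ hz)
  -- restriction
  set K := Em (Zc q k) m with hK
  have hKc : IsClosed (K : Set H) := Em_closed _ _
  haveI : CompleteSpace K := hKc.completeSpace_coe
  have hqKQ : ∀ n, q n ∈ KQ q := mem_KQ hq0
  have hst : ∀ a ∈ KQ q, a ∈ St K := fun a ha => Em_st fun z hz => Zc_comm hc hz ha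
  have hqst : ∀ n, q n ∈ St K := fun n => hst _ (hqKQ n)
  let q' : ℤ → (K ≃ₗᵢ[ℂ] K) := fun n => rs K ⟨q n, hqst n⟩
  have hΛ : Lam q ≤ SK K := by
    rw [Lam, Subgroup.closure_le]
    rintro _ (rfl | rfl)
    · intro n
      exact one_mem _
    · intro n
      exact mul_mem (hqst n) (inv_mem (hqst _))
  set Λ' := ((Lam q).subgroupOf (SK K)).map (psi K) with hΛ'
  have hΛ'c : Λ'.lowerCentralSeries (k + 2) = ⊥ := map_subgroupOf_bot _ _ _ hc
  have hΛ'm : ∀ z ∈ Λ'.lowerCentralSeries (k + 1), z ^ m = 1 := by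
    intro z hz
    obtain ⟨a, rfl, ha⟩ := map_subgroupOf_lcs (SK K) (psi K) (Lam q) (k + 1) hz
    obtain ⟨hk, hconst, -⟩ := last_const hc ha
    have h1 : ∀ j : ℕ, (psi K a) ^ j = ⟨fun n => rs K ⟨(a : Sq (H ≃ₗᵢ[ℂ] H)).f 0, a.2 0⟩ ^ j, 0⟩ := by
      intro j
      induction j with
      | zero => rfl
      | succ j ihj =>
        rw [pow_succ, ihj]
        refine Sq.ext (funext fun n => ?_) ?_
        · rw [Sq.mul_f, pow_succ]
          congr 1
          show rs K ⟨(a : Sq (H ≃ₗᵢ[ℂ] H)).f (n + 0), _⟩ = _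
          congr 1
          exact Subtype.ext (hconst _)
        · rw [Sq.mul_k]
          show 0 + (a : Sq (H ≃ₗᵢ[ℂ] H)).k = 0
          rw [hk, add_zero]
    rw [h1]
    refine Sq.ext (funext fun n => ?_) rfl
    show rs K ⟨(a : Sq (H ≃ₗᵢ[ℂ] H)).f 0, a.2 0⟩ ^ m = 1
    ext v
    rw [rs_pow_apply]
    exact v.2 _ (mem_Zc.2 ⟨a, ha, rfl⟩)
  have hWΛ' : (Sq.W : Sq (K ≃ₗᵢ[ℂ] K)) ∈ Λ' := by
    refine ⟨⟨Sq.W, hΛ (W_mem q)⟩, W_mem q, ?_⟩
    refine Sq.ext (funext fun n => ?_) rfl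
    exact map_one (rs K)
  have hW'Λ' : Sq.W' q' ∈ Λ' := by
    refine ⟨⟨Sq.W' q, hΛ (W'_mem q)⟩, W'_mem q, ?_⟩
    refine Sq.ext (funext fun n => ?_) rfl
    show rs K (⟨q n, hqst n⟩ * ⟨q (n + 1), hqst (n + 1)⟩⁻¹) = _
    rw [map_mul, map_inv]
    rfl
  have hP : (Subgroup.closure {(Sq.W : Sq (K ≃ₗᵢ[ℂ] K)) ^ m, Sq.W' q' ^ m}).lowerCentralSeries
      (k + 1) = ⊥ := by
    refine lcs_pow_rel k hΛ'c m hΛ'm _ ?_
    rw [Subgroup.closure_le]
    rintro _ (rfl | rfl)
    · exact Subgroup.subset_closure ⟨_, hWΛ', rfl⟩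
    · exact Subgroup.subset_closure ⟨_, hW'Λ', rfl⟩
  refine vav_of_residues (C := C * ‖w‖) (by positivity) (fun n => ?_) hm fun r hr => ?_
  · rw [norm_smul, LinearIsometryEquiv.norm_map]
    have := hC n
    gcongr
  · -- the averages along the residue classes
    set q'' : ℤ → (K ≃ₗᵢ[ℂ] K) := fun i => q' (m * i + r) * (q' r)⁻¹ with hq''
    have h0 : q'' 0 = 1 := by
      show q' (m * 0 + r) * (q' r)⁻¹ = 1
      rw [mul_zero, zero_add, mul_inv_cancel]
    have h1 : Sq.W' q'' = Sq.W' fun i => q' (m * i + r) := by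
      refine Sq.ext (funext fun n => ?_) rfl
      show q' (m * n + r) * (q' r)⁻¹ * (q' (m * (n + 1) + r) * (q' r)⁻¹)⁻¹ =
        q' (m * n + r) * (q' (m * (n + 1) + r))⁻¹
      group
    have h2 : (Lam q'').lowerCentralSeries (k + 1) = ⊥ := by
      have h3 := Lam_res hm r hP
      rw [Lam] at h3 ⊢
      rwa [h1]
    have h3 : q' r ⟨w, hw⟩ ∈ NQ q'' := by
      rw [mem_NQ]
      intro n l
      have h4 : q'' n * (q'' l)⁻¹ =
          rs K (⟨q (m * n + r), hqst _⟩ * ⟨q (m * l + r), hqst _⟩⁻¹) := by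
        rw [map_mul, map_inv]
        show q' (m * n + r) * (q' r)⁻¹ * (q' (m * l + r) * (q' r)⁻¹)⁻¹ =
          q' (m * n + r) * (q' (m * l + r))⁻¹
        group
      rw [h4, V_rs hKc]
      exact (mem_NQ.1 (NQ_inv hc hwN (hqKQ r))) (m * n + r) (m * l + r)
    have h4 := ih K q'' h2 h0 _ h3 _ (ha'.res hm hr)
    have h5 := (K.subtypeL.continuous.tendsto 0).comp h4
    rw [map_zero] at h5
    refine h5.congr fun N => ?_
    rw [Function.comp_apply, vav, vav, map_smul, map_sum]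
    congr 1
    refine Finset.sum_congr rfl fun n _ => ?_
    rw [map_smul]
    congr 1
    show (((q' (m * n + r) * (q' r)⁻¹) (q' r ⟨w, hw⟩) : K) : H) = _
    rw [← mul_ap, inv_mul_cancel_right]
    show q (m * n + r) w = _
    push_cast
    rfl

theorem nprop (c : ℕ) : NProp.{u} c := by
  induction c with
  | zero => exact nprop_zero
  | succ c ih =>
    rcases c with _ | k
    · exact nprop_one
    · exact nprop_step ih

end

end Pool.Agent.Helper29.NU
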