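import Pool.Agent.Helper29.NU.Conj

/-! The group theoretic lemmas for subgroups of an ambient group. -/

set_option autoImplicit false
set_option linter.style.haveILetI false

open Subgroup
open scoped commutatorElement

namespace Pool.Agent.Helper29.NU

variable {U : Type*} [Group U]

theorem top_lcs_bot {Γ : Subgroup U} {c : ℕ} (hc : Γ.lowerCentralSeries c = ⊥) :
    (⊤ : Subgroup Γ).lowerCentralSeries c = ⊥ := by
  rw [← map_subtype_inj, Subgroup.map_bot, top_subtype_lowerCentralSeries, hc]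

theorem subgroupOf_lcs {P Γ : Subgroup U} (hP : P ≤ Γ) (n : ℕ) :
    ((P.subgroupOf Γ).lowerCentralSeries n).map Γ.subtype = P.lowerCentralSeries n := by
  rw [map_lowerCentralSeries, subgroupOf_map_subtype, inf_eq_left.2 hP]

theorem lcs_bot_of_subgroupOf {P Γ : Subgroup U} (hP : P ≤ Γ) {n : ℕ}
    (h : (P.subgroupOf Γ).lowerCentralSeries n = ⊥) : P.lowerCentralSeries n = ⊥ := by
  rw [← subgroupOf_lcs hP, h, Subgroup.map_bot]

theorem mem_top_lcs {Γ : Subgroup U} {n : ℕ} {x : Γ} :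
    x ∈ (⊤ : Subgroup Γ).lowerCentralSeries n ↔ (x : U) ∈ Γ.lowerCentralSeries n := by
  rw [← top_subtype_lowerCentralSeries Γ n]
  exact (mem_map_iff_mem Γ.subtype_injective).symm

theorem hasPow_gen_rel {S : Set U} {c : ℕ} (hc : (closure S).lowerCentralSeries c = ⊥)
    (J : Subgroup U) (h : ∀ s ∈ S, HasPow J s) {γ : U} (hγ : γ ∈ closure S) : HasPow J γ := by
  have h1 := hasPow_of_gen (top_lcs_bot hc) (J.subgroupOf (closure S))
    ((closure S).subtype ⁻¹' S) ?_ ?_ ⟨γ, hγ⟩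
  · obtain ⟨n, hn, h2⟩ := h1
    rw [mem_subgroupOf] at h2
    exact ⟨n, hn, h2⟩
  · exact closure_closure_coe_preimage
  · intro s hs
    obtain ⟨n, hn, h2⟩ := h s hs
    refine ⟨n, hn, ?_⟩
    rw [mem_subgroupOf]
    exact h2

theorem central_rel {Γ : Subgroup U} {k : ℕ} (hc : Γ.lowerCentralSeries (k + 1) = ⊥) {z w : U}
    (hz : z ∈ Γ.lowerCentralSeries k) (hw : w ∈ Γ) : Commute z w := by
  have h1 : ⁅z, w⁆ ∈ (⊥ : Subgroup U) := by
    rw [← hc]
    exact commutator_mem_commutator hz hw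
  rw [mem_bot, commutatorElement_eq_one_iff_commute] at h1
  exact h1

theorem last_gen_rel (g h : U) (k : ℕ) (hc : (closure {g, h}).lowerCentralSeries (k + 2) = ⊥) :
    ∃ T : Finset U, (∀ z ∈ T, ∃ x ∈ (closure {g, h}).lowerCentralSeries k,
      ∃ y ∈ closure {g, h}, z = ⁅x, y⁆) ∧
      (closure {g, h}).lowerCentralSeries (k + 1) = closure (T : Set U) := by
  classical
  set Γ := closure {g, h} with hΓ
  have hg : g ∈ Γ := subset_closure (Or.inl rfl)
  have hh : h ∈ Γ := subset_closure (Or.inr rfl)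
  have h1 : closure ((({⟨g, hg⟩, ⟨h, hh⟩} : Finset Γ)) : Set Γ) = ⊤ := by
    have h2 : closure (Γ.subtype ⁻¹' {g, h}) = ⊤ := closure_closure_coe_preimage
    rw [← h2]
    congr 1
    ext x
    simp [Subtype.ext_iff]
  obtain ⟨T, hT, h2⟩ := last_gen _ h1 k (top_lcs_bot hc)
  refine ⟨T.image Γ.subtype, ?_, ?_⟩
  · intro z hz
    obtain ⟨z', hz', rfl⟩ := Finset.mem_image.1 hz
    obtain ⟨x, hx, y, e⟩ := hT z' hz'
    refine ⟨x, mem_top_lcs.1 hx, y, y.2, ?_⟩
    rw [e]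
    rfl
  · have h3 := congrArg (Subgroup.map Γ.subtype) h2
    rw [top_subtype_lowerCentralSeries, MonoidHom.map_closure] at h3
    rw [h3, Finset.coe_image]

theorem lcs_cyc_rel {Γ : Subgroup U} {g : U} (hg : g ∈ Γ) (n : ℕ) :
    (closure {g} ⊔ Γ.lowerCentralSeries 1).lowerCentralSeries (n + 1) ≤
      Γ.lowerCentralSeries (n + 2) := by
  have h1 := lcs_cyc (⟨g, hg⟩ : Γ) n
  have h2 := map_mono (f := Γ.subtype) h1
  rw [map_lowerCentralSeries, top_subtype_lowerCentralSeries, Subgroup.map_sup,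
    MonoidHom.map_closure, top_subtype_lowerCentralSeries, Set.image_singleton] at h2
  exact h2

theorem lcs_pow_rel {Γ : Subgroup U} (k : ℕ) (hc : Γ.lowerCentralSeries (k + 2) = ⊥) (m : ℕ)
    (hz : ∀ z ∈ Γ.lowerCentralSeries (k + 1), z ^ m = 1) (P : Subgroup U)
    (hP : P ≤ closure {x | ∃ y ∈ Γ, x = y ^ m}) : P.lowerCentralSeries (k + 1) = ⊥ := by
  have hle : closure {x | ∃ y ∈ Γ, x = y ^ m} ≤ Γ := by
    rw [closure_le]
    rintro _ ⟨y, hy, rfl⟩
    exact pow_mem hy m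
  have hPΓ : P ≤ Γ := hP.trans hle
  refine lcs_bot_of_subgroupOf hPΓ ?_
  refine lcs_pow k (top_lcs_bot hc) m ?_ _ ?_
  · intro z hz1
    apply Subtype.ext
    exact hz _ (mem_top_lcs.1 hz1)
  · intro p hp
    rw [mem_subgroupOf] at hp
    have h1 := hP hp
    have h2 : (closure {x : Γ | ∃ y : Γ, x = y ^ m}).map Γ.subtype =
        closure {x | ∃ y ∈ Γ, x = y ^ m} := by
      rw [MonoidHom.map_closure]
      congr 1
      ext x
      constructor
      · rintro ⟨_, ⟨y, rfl⟩, rfl⟩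
        exact ⟨y, y.2, rfl⟩
      · rintro ⟨y, hy, rfl⟩
        exact ⟨(⟨y, hy⟩ : Γ) ^ m, ⟨⟨y, hy⟩, rfl⟩, rfl⟩
    rw [← h2] at h1
    exact (mem_map_iff_mem Γ.subtype_injective).1 h1

/-- the last commutators of the group generated by `g` and `h` have powers in each group which
contains enough of the conjugates of `gᵐ` by the powers of `hᵐ` -/
theorem hasPow_last {g h : U} {k : ℕ} (hc : (closure {g, h}).lowerCentralSeries (k + 2) = ⊥)
    {x y : U} (hx : x ∈ (closure {g, h}).lowerCentralSeries k) (hy : y ∈ closure {g, h})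
    {m : ℕ} (hm : 0 < m) (J : Subgroup U) (S : Finset ℤ) (hS : k + 2 ≤ S.card)
    (hJ : ∀ j ∈ S, cj (g ^ m) (h ^ m) j ∈ J) : HasPow J ⁅x, y⁆ := by
  have hg : g ∈ closure {g, h} := subset_closure (Or.inl rfl)
  have hh : h ∈ closure {g, h} := subset_closure (Or.inr rfl)
  have hle : closure {g ^ m, h ^ m} ≤ closure {g, h} := by
    rw [closure_le]
    rintro z (rfl | rfl)
    · exact pow_mem hg m
    · exact pow_mem hh m
  have hc' : (closure {g ^ m, h ^ m}).lowerCentralSeries (k + 2) = ⊥ := by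
    rw [eq_bot_iff, ← hc]
    exact Subgroup.lowerCentralSeries_mono _ hle
  have h1 : ∀ γ ∈ closure {g, h}, HasPow (closure {g ^ m, h ^ m}) γ := by
    intro γ hγ
    refine hasPow_gen_rel hc _ ?_ hγ
    rintro s (rfl | rfl)
    · exact ⟨m, hm, subset_closure (Or.inl rfl)⟩
    · exact ⟨m, hm, subset_closure (Or.inr rfl)⟩
  obtain ⟨a, ha, hxa⟩ := h1 x (Subgroup.lowerCentralSeries_le_self _ _ hx)
  obtain ⟨b, hb, hyb⟩ := h1 y hy
  have hz : ⁅x, y⁆ ∈ (closure {g, h}).lowerCentralSeries (k + 1) :=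
    commutator_mem_commutator hx hy
  have hxΓ : x ∈ closure {g, h} := Subgroup.lowerCentralSeries_le_self _ _ hx
  have e : ⁅x ^ a, y ^ b⁆ = ⁅x, y⁆ ^ (a * b) := by
    have h2 := comm_pow_pow (G := closure {g, h}) (x := ⟨x, hxΓ⟩) (y := ⟨y, hy⟩) (by
      intro w
      have h3 := central_rel hc hz w.2
      exact Subtype.ext h3.eq) a b
    exact congrArg Subtype.val h2
  have h2 : ⁅x ^ a, y ^ b⁆ ∈ CJ (g ^ m) (h ^ m) :=
    comm_le_CJ _ _ (commutator_mem_commutator hxa hyb)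
  obtain ⟨n, hn, h3⟩ := hasPow_CJ (g ^ m) (h ^ m) (k + 2) hc' J S hS hJ h2
  rw [e, ← pow_mul] at h3
  exact ⟨a * b * n, by positivity, h3⟩

end Pool.Agent.Helper29.NU
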