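import Pool.Agent.Helper29.NU.StepB

/-! Restriction to invariant subspaces, and approximation by vectors fixed by powers of central
elements. -/

set_option autoImplicit false
set_option linter.style.haveILetI false
set_option linter.unusedSectionVars false

open Submodule
open scoped commutatorElement

namespace Pool.Agent.Helper29.NU

universe u

variable {E : Type u} [NormedAddCommGroup E] [InnerProductSpace ℂ E]

/-- the unitaries which leave `K` invariant -/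
def St (K : Submodule ℂ E) : Subgroup (E ≃ₗᵢ[ℂ] E) where
  carrier := {T | (∀ v ∈ K, T v ∈ K) ∧ ∀ v ∈ K, T⁻¹ v ∈ K}
  mul_mem' := by
    rintro a b ⟨h1, h2⟩ ⟨h3, h4⟩
    refine ⟨fun v hv => h1 _ (h3 v hv), fun v hv => ?_⟩
    rw [mul_inv_rev]
    exact h4 _ (h2 v hv)
  one_mem' := ⟨fun v hv => hv, fun v hv => by rw [inv_one]; exact hv⟩
  inv_mem' := by
    rintro a ⟨h1, h2⟩
    exact ⟨h2, by rw [inv_inv]; exact h1⟩

/-- the restriction to `K` -/
def rsE (K : Submodule ℂ E) (T : St K) : K ≃ₗᵢ[ℂ] K where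
  toFun v := ⟨(T : E ≃ₗᵢ[ℂ] E) v, T.2.1 v v.2⟩
  invFun v := ⟨(T : E ≃ₗᵢ[ℂ] E)⁻¹ v, T.2.2 v v.2⟩
  left_inv v := by
    apply Subtype.ext
    show (T : E ≃ₗᵢ[ℂ] E)⁻¹ ((T : E ≃ₗᵢ[ℂ] E) v) = v
    rw [← mul_ap, inv_mul_cancel]
    rfl
  right_inv v := by
    apply Subtype.ext
    show (T : E ≃ₗᵢ[ℂ] E) ((T : E ≃ₗᵢ[ℂ] E)⁻¹ v) = v
    rw [← mul_ap, mul_inv_cancel]
    rfl
  map_add' v w := by
    apply Subtype.ext
    show (T : E ≃ₗᵢ[ℂ] E) ((v : E) + w) = _
    rw [map_add]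
    rfl
  map_smul' c v := by
    apply Subtype.ext
    show (T : E ≃ₗᵢ[ℂ] E) (c • (v : E)) = _
    rw [map_smul]
    rfl
  norm_map' v := (T : E ≃ₗᵢ[ℂ] E).norm_map v

/-- the restriction to `K` as a homomorphism -/
def rs (K : Submodule ℂ E) : St K →* (K ≃ₗᵢ[ℂ] K) where
  toFun := rsE K
  map_one' := by
    ext v
    rfl
  map_mul' a b := by
    ext v
    rfl

theorem rs_apply (K : Submodule ℂ E) (T : St K) (v : K) : ((rs K T v : K) : E) = (T : E ≃ₗᵢ[ℂ] E) v :=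
  rfl

theorem rs_pow_apply (K : Submodule ℂ E) (T : St K) (n : ℕ) (v : K) :
    (((rs K T ^ n) v : K) : E) = ((T : E ≃ₗᵢ[ℂ] E) ^ n) v := by
  rw [← map_pow, rs_apply]
  rfl

variable [CompleteSpace E]

theorem pj_st (K : Submodule ℂ E) {T : E ≃ₗᵢ[ℂ] E} (hT : T ∈ St K) (v : E) :
    Pj K (T v) = T (Pj K v) := pj_comm T hT.1 hT.2 v

theorem pj_mem' {K : Submodule ℂ E} (hK : IsClosed (K : Set E)) (v : E) : Pj K v ∈ K := by
  have h1 := pj_mem K v
  rwa [hK.submodule_topologicalClosure_eq] at h1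

/-- the rational projection of the restriction -/
theorem R_rs {K : Submodule ℂ E} (hK : IsClosed (K : Set E)) [CompleteSpace K] (T : St K) (v : K) :
    ((R (rs K T) v : K) : E) = R (T : E ≃ₗᵢ[ℂ] E) v := by
  symm
  refine pj_unique ?_ ?_
  · have h1 : Set.MapsTo (K.subtypeL) (closure ((Rt (rs K T) : Submodule ℂ K) : Set K))
        (closure ((Rt (T : E ≃ₗᵢ[ℂ] E) : Submodule ℂ E) : Set E)) := by
      refine Set.MapsTo.closure ?_ K.subtypeL.continuous
      rintro w ⟨m, hm, hw⟩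
      refine ⟨m, hm, ?_⟩
      have h2 := congrArg (Subtype.val) hw
      rw [rs_pow_apply] at h2
      exact h2
    exact h1 (R_mem (rs K T) v)
  · rintro x ⟨n, hn, hx⟩
    have hd : (v : E) - (R (rs K T) v : K) ∈ K := sub_mem v.2 (R (rs K T) v).2
    have h1 : inner ℂ ((v : E) - (R (rs K T) v : K)) x =
        inner ℂ ((v : E) - (R (rs K T) v : K)) (Pj K x) := by
      rw [← pj_symm]
      congr 1
      exact (pj_self.2 (subset_closure hd)).symm
    rw [h1]
    have h2 : (⟨Pj K x, pj_mem' hK x⟩ : K) ∈ V (rs K T) := by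
      refine subset_closure ⟨n, hn, ?_⟩
      apply Subtype.ext
      rw [rs_pow_apply]
      exact Rt_of_pj_comm (pj_st K T.2) hx
    exact pj_inner (Rt (rs K T)) v h2

theorem V_rs {K : Submodule ℂ E} (hK : IsClosed (K : Set E)) [CompleteSpace K] (T : St K) (v : K) :
    v ∈ V (rs K T) ↔ (v : E) ∈ V (T : E ≃ₗᵢ[ℂ] E) := by
  rw [← R_self, ← R_self, ← R_rs hK]
  exact Subtype.ext_iff

/-- the vectors fixed by `f` -/
def Fx (f : E ≃ₗᵢ[ℂ] E) : Submodule ℂ E where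
  carrier := {v | f v = v}
  zero_mem' := map_zero _
  add_mem' := by
    intro a b ha hb
    show f (a + b) = a + b
    rw [map_add, ha, hb]
  smul_mem' := by
    intro c a ha
    show f (c • a) = c • a
    rw [map_smul, ha]

theorem Fx_closed (f : E ≃ₗᵢ[ℂ] E) : IsClosed (Fx f : Set E) :=
  isClosed_eq f.continuous continuous_id

theorem Fx_comm {f T : E ≃ₗᵢ[ℂ] E} (h : Commute f T) (v : E) : Pj (Fx f) (T v) = T (Pj (Fx f) v) := by
  refine pj_comm T ?_ ?_ v
  · intro v hv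
    show f (T v) = T v
    rw [← mul_ap, h.eq, mul_ap, hv]
  · intro v hv
    show f (T⁻¹ v) = T⁻¹ v
    rw [← mul_ap, h.inv_right.eq, mul_ap, hv]

/-- simultaneous approximation by vectors fixed by powers of commuting elements -/
theorem approx (T : Finset (E ≃ₗᵢ[ℂ] E)) (Γ : Set (E ≃ₗᵢ[ℂ] E))
    (hT : ∀ z ∈ T, z ∈ Γ ∧ ∀ w ∈ Γ, Commute z w) (v : E) (hv : ∀ z ∈ T, v ∈ V z) :
    ∀ {ε : ℝ}, 0 < ε → ∃ m : ℕ, 0 < m ∧ ∃ w : E, (∀ z ∈ T, (z ^ m) w = w) ∧ ‖v - w‖ < ε ∧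
      ∀ g ∈ Γ, v ∈ V g → w ∈ V g := by
  classical
  induction T using Finset.induction_on with
  | empty =>
    intro ε hε
    exact ⟨1, one_pos, v, fun z hz => absurd hz (Finset.notMem_empty z), by simpa using hε,
      fun g _ h => h⟩
  | insert z T hzT ih =>
    intro ε hε
    obtain ⟨m, hm, w, hw, hvw, hwΓ⟩ := ih (fun z' hz' => hT z' (Finset.mem_insert_of_mem hz'))
      (fun z' hz' => hv z' (Finset.mem_insert_of_mem hz')) (half_pos hε)
    obtain ⟨hzΓ, hzc⟩ := hT z (Finset.mem_insert_self z T)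
    have hwz : w ∈ V z := hwΓ z hzΓ (hv z (Finset.mem_insert_self z T))
    obtain ⟨n, hn, w1, hw1, hww1⟩ := V_approx hwz (half_pos hε)
    have h1 : ‖w - Pj (Fx (z ^ n)) w‖ ≤ ‖w - w1‖ := pj_min w (subset_closure hw1)
    have hfix : (z ^ n) (Pj (Fx (z ^ n)) w) = Pj (Fx (z ^ n)) w :=
      pj_mem' (Fx_closed (z ^ n)) w
    refine ⟨m * n, Nat.mul_pos hm hn, Pj (Fx (z ^ n)) w, ?_, ?_, ?_⟩
    · intro z' hz'
      rcases Finset.mem_insert.1 hz' with rfl | hz'
      · rw [mul_comm, pow_mul]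
        exact pow_fix hfix m
      · rw [pow_mul]
        refine pow_fix ?_ n
        have hcz' : Commute (z ^ n) z' :=
          (hzc z' (hT z' (Finset.mem_insert_of_mem hz')).1).pow_left n
        rw [← Fx_comm (hcz'.pow_right m), hw z' hz']
    · calc ‖v - Pj (Fx (z ^ n)) w‖ = ‖(v - w) + (w - Pj (Fx (z ^ n)) w)‖ := by
            congr 1
            abel
        _ ≤ ‖v - w‖ + ‖w - Pj (Fx (z ^ n)) w‖ := norm_add_le _ _
        _ < ε := by linarith
    · intro g hg hvg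
      exact V_of_pj_comm (fun v => Fx_comm ((hzc g hg).pow_left n) v) (hwΓ g hg hvg)

end Pool.Agent.Helper29.NU
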