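import Pool.Agent.Helper29.NU.Bes
import Pool.Agent.Helper29.NU.Hilb

/-! Sequences in a group, with the shift, and their action on bounded sequences. -/

set_option autoImplicit false
set_option linter.style.haveILetI false
set_option linter.unusedSectionVars false

open Filter Topology Finset UniformSpace

namespace Pool.Agent.Helper29.NU

universe u

/-- pairs of a sequence and a shift: `(f, k)` acts on sequences by `u ↦ (n ↦ f n u (n + k))` -/
@[ext] structure Sq (K : Type*) where
  /-- the sequence -/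
  f : ℤ → K
  /-- the shift -/
  k : ℤ

namespace Sq

variable {K : Type*} [Group K]

instance : Mul (Sq K) := ⟨fun a b => ⟨fun n => a.f n * b.f (n + a.k), a.k + b.k⟩⟩

instance : One (Sq K) := ⟨⟨fun _ => 1, 0⟩⟩

instance : Inv (Sq K) := ⟨fun a => ⟨fun n => (a.f (n - a.k))⁻¹, -a.k⟩⟩

theorem mul_f (a b : Sq K) (n : ℤ) : (a * b).f n = a.f n * b.f (n + a.k) := rfl

theorem mul_k (a b : Sq K) : (a * b).k = a.k + b.k := rfl

theorem one_f (n : ℤ) : (1 : Sq K).f n = 1 := rfl

theorem one_k : (1 : Sq K).k = 0 := rfl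

theorem inv_f (a : Sq K) (n : ℤ) : (a⁻¹).f n = (a.f (n - a.k))⁻¹ := rfl

theorem inv_k (a : Sq K) : (a⁻¹).k = -a.k := rfl

instance : Group (Sq K) where
  mul_assoc a b c := by
    refine Sq.ext (funext fun n => ?_) ?_
    · rw [mul_f, mul_f, mul_f, mul_f, mul_k, mul_assoc, add_assoc]
    · rw [mul_k, mul_k, mul_k, mul_k, add_assoc]
  one_mul a := by
    refine Sq.ext (funext fun n => ?_) ?_
    · rw [mul_f, one_f, one_k, one_mul, add_zero]
    · rw [mul_k, one_k, zero_add]
  mul_one a := by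
    refine Sq.ext (funext fun n => ?_) ?_
    · rw [mul_f, one_f, mul_one]
    · rw [mul_k, one_k, add_zero]
  inv_mul_cancel a := by
    refine Sq.ext (funext fun n => ?_) ?_
    · rw [mul_f, inv_f, inv_k, one_f, ← sub_eq_add_neg, inv_mul_cancel]
    · rw [mul_k, inv_k, one_k, neg_add_cancel]

/-- the shift -/
def W : Sq K := ⟨fun _ => 1, 1⟩

/-- multiplication by a sequence -/
def M (r : ℤ → K) : Sq K := ⟨r, 0⟩

/-- the projection to the shifts -/
def kHom : Sq K →* Multiplicative ℤ where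
  toFun a := Multiplicative.ofAdd a.k
  map_one' := rfl
  map_mul' _ _ := rfl

/-- the conjugate of the shift by a sequence -/
def W' (q : ℤ → K) : Sq K := ⟨fun n => q n * (q (n + 1))⁻¹, 1⟩

theorem W'_eq (q : ℤ → K) : W' q = M q * W * (M q)⁻¹ := by
  refine Sq.ext (funext fun n => ?_) ?_
  · rw [mul_f, mul_f, inv_f, mul_k]
    show q n * (q (n + 1))⁻¹ = q n * 1 * (q (n + (0 + 1) - 0))⁻¹
    rw [mul_one, zero_add, sub_zero]
  · rw [mul_k, mul_k, inv_k]
    show (1 : ℤ) = 0 + 1 + -0
    norm_num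

/-- functoriality -/
def map {L : Type*} [Group L] (φ : K →* L) : Sq K →* Sq L where
  toFun a := ⟨fun n => φ (a.f n), a.k⟩
  map_one' := Sq.ext (funext fun _ => map_one φ) rfl
  map_mul' _ _ := Sq.ext (funext fun _ => map_mul φ _ _) rfl

end Sq

variable {H : Type u} [NormedAddCommGroup H] [InnerProductSpace ℂ H]

/-- the action on bounded sequences -/
noncomputable def act (U : Ultrafilter ℕ) (hU : (U : Filter ℕ) ≤ atTop) (s : Sq (H ≃ₗᵢ[ℂ] H)) :
    Pre U H →ₗᵢ[ℂ] Pre U H :=
  LinearMap.isometryOfInner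
    { toFun := fun x => Pre.mk (fun n => s.f n (x.seq (n + s.k))) (by
        obtain ⟨C, hC⟩ := x.bdd
        exact ⟨C, fun n => by rw [LinearIsometryEquiv.norm_map]; exact hC _⟩)
      map_add' := fun x y => Pre.ext fun n => (s.f n).map_add _ _
      map_smul' := fun c x => Pre.ext fun n => (s.f n).map_smul c _ }
    (by
      intro x y
      obtain ⟨C, hC⟩ := x.bdd
      obtain ⟨D, hD⟩ := y.bdd
      rw [pre_inner, pre_inner]
      have h1 := ul_shift hU (fun n => inner ℂ (x.seq n) (y.seq n)) (C := C * D) (by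
        intro n
        exact (norm_inner_le_norm _ _).trans
          (mul_le_mul (hC n) (hD n) (norm_nonneg _) ((norm_nonneg _).trans (hC 0)))) s.k
      refine Eq.trans ?_ h1
      refine congrArg (ul U) (funext fun N => ?_)
      refine congrArg ((N : ℂ)⁻¹ * ·) (Finset.sum_congr rfl fun n _ => ?_)
      exact (s.f n).inner_map_map _ _)

theorem act_seq (U : Ultrafilter ℕ) (hU : (U : Filter ℕ) ≤ atTop) (s : Sq (H ≃ₗᵢ[ℂ] H))
    (x : Pre U H) (n : ℤ) : (act U hU s x).seq n = s.f n (x.seq (n + s.k)) := rfl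

theorem act_mul (U : Ultrafilter ℕ) (hU : (U : Filter ℕ) ≤ atTop) (s t : Sq (H ≃ₗᵢ[ℂ] H))
    (x : Pre U H) : act U hU (s * t) x = act U hU s (act U hU t x) := by
  refine Pre.ext fun n => ?_
  rw [act_seq, act_seq, act_seq, Sq.mul_f, Sq.mul_k, mul_ap, add_assoc]

theorem act_one (U : Ultrafilter ℕ) (hU : (U : Filter ℕ) ≤ atTop) (x : Pre U H) :
    act U hU 1 x = x := by
  refine Pre.ext fun n => ?_
  rw [act_seq, Sq.one_f, Sq.one_k, add_zero]
  rfl

/-- the Hilbert space of sequences -/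
abbrev Bes (U : Ultrafilter ℕ) (H : Type u) [NormedAddCommGroup H] [InnerProductSpace ℂ H] :
    Type u := Completion (Pre U H)

/-- extension of the action to the completion -/
noncomputable def actC (U : Ultrafilter ℕ) (hU : (U : Filter ℕ) ≤ atTop)
    (s : Sq (H ≃ₗᵢ[ℂ] H)) : Bes U H →L[ℂ] Bes U H :=
  (act U hU s).toContinuousLinearMap.completion

theorem actC_coe (U : Ultrafilter ℕ) (hU : (U : Filter ℕ) ≤ atTop) (s : Sq (H ≃ₗᵢ[ℂ] H))
    (x : Pre U H) : actC U hU s (x : Bes U H) = ((act U hU s x : Pre U H) : Bes U H) :=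
  ContinuousLinearMap.completion_apply_coe _ _

theorem actC_mul (U : Ultrafilter ℕ) (hU : (U : Filter ℕ) ≤ atTop) (s t : Sq (H ≃ₗᵢ[ℂ] H))
    (x : Bes U H) : actC U hU (s * t) x = actC U hU s (actC U hU t x) := by
  induction x using Completion.induction_on with
  | hp =>
    exact isClosed_eq (actC U hU (s * t)).continuous
      ((actC U hU s).continuous.comp (actC U hU t).continuous)
  | ih x => rw [actC_coe, actC_coe, actC_coe, act_mul]

theorem actC_one (U : Ultrafilter ℕ) (hU : (U : Filter ℕ) ≤ atTop) (x : Bes U H) :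
    actC U hU 1 x = x := by
  induction x using Completion.induction_on with
  | hp => exact isClosed_eq (actC U hU 1).continuous continuous_id
  | ih x => rw [actC_coe, act_one]

/-- the action on the completion -/
noncomputable def actE (U : Ultrafilter ℕ) (hU : (U : Filter ℕ) ≤ atTop) :
    Sq (H ≃ₗᵢ[ℂ] H) →* (Bes U H ≃ₗᵢ[ℂ] Bes U H) where
  toFun s :=
    { toFun := actC U hU s
      invFun := actC U hU s⁻¹
      left_inv := fun x => by rw [← actC_mul, inv_mul_cancel, actC_one]
      right_inv := fun x => by rw [← actC_mul, mul_inv_cancel, actC_one]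
      map_add' := fun x y => map_add _ x y
      map_smul' := fun c x => map_smul _ c x
      norm_map' := fun x => by
        show ‖actC U hU s x‖ = ‖x‖
        induction x using Completion.induction_on with
        | hp => exact isClosed_eq (actC U hU s).continuous.norm continuous_norm
        | ih x => rw [actC_coe, Completion.norm_coe, Completion.norm_coe,
            LinearIsometry.norm_map] }
  map_one' := by
    ext x
    exact actC_one U hU x
  map_mul' s t := by
    ext x
    exact actC_mul U hU s t x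

theorem actE_coe (U : Ultrafilter ℕ) (hU : (U : Filter ℕ) ≤ atTop) (s : Sq (H ≃ₗᵢ[ℂ] H))
    (x : Pre U H) : actE U hU s (x : Bes U H) = ((act U hU s x : Pre U H) : Bes U H) :=
  actC_coe U hU s x

/-- bounded sequences as elements of the Hilbert space -/
noncomputable def bs (U : Ultrafilter ℕ) (f : ℤ → H) (hf : ∃ C : ℝ, ∀ n, ‖f n‖ ≤ C) : Bes U H :=
  ((Pre.mk f hf : Pre U H) : Bes U H)

/-- constant sequences -/
noncomputable def cst (U : Ultrafilter ℕ) (v : H) : Bes U H := bs U (fun _ => v) ⟨‖v‖, fun _ => le_rfl⟩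

theorem inner_bs (U : Ultrafilter ℕ) (f g : ℤ → H) (hf : ∃ C : ℝ, ∀ n, ‖f n‖ ≤ C)
    (hg : ∃ C : ℝ, ∀ n, ‖g n‖ ≤ C) : inner ℂ (bs U f hf) (bs U g hg) = ul U (pa f g) := by
  rw [bs, bs, Completion.inner_coe, pre_inner]
  rfl

theorem ul_const {U : Ultrafilter ℕ} (hU : (U : Filter ℕ) ≤ atTop) (c : ℂ) :
    ul U (fun N => (N : ℂ)⁻¹ * ∑ _n ∈ range N, c) = c := by
  apply ul_eq
  refine Tendsto.mono_left ?_ hU
  refine tendsto_const_nhds.congr' ?_
  filter_upwards [eventually_ge_atTop 1] with N hN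
  have hN' : (N : ℂ) ≠ 0 := by
    have : N ≠ 0 := by omega
    exact_mod_cast this
  rw [Finset.sum_const, card_range, nsmul_eq_mul, inv_mul_cancel_left₀ hN']

theorem inner_cst {U : Ultrafilter ℕ} (hU : (U : Filter ℕ) ≤ atTop) (v w : H) :
    inner ℂ (cst U v) (cst U w) = inner ℂ v w := by
  rw [cst, cst, inner_bs]
  exact ul_const hU _

theorem cst_add (U : Ultrafilter ℕ) (v w : H) : cst U (v + w) = cst U v + cst U w := by
  rw [cst, cst, cst, bs, bs, bs, ← Completion.coe_add]
  rfl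

theorem cst_smul (U : Ultrafilter ℕ) (c : ℂ) (v : H) : cst U (c • v) = c • cst U v := by
  rw [cst, cst, bs, bs, ← Completion.coe_smul]
  rfl

/-- constant sequences, as a linear isometry -/
noncomputable def cstL {U : Ultrafilter ℕ} (hU : (U : Filter ℕ) ≤ atTop) : H →ₗᵢ[ℂ] Bes U H :=
  LinearMap.isometryOfInner
    { toFun := cst U
      map_add' := cst_add U
      map_smul' := cst_smul U }
    (inner_cst hU)

theorem cstL_apply {U : Ultrafilter ℕ} (hU : (U : Filter ℕ) ≤ atTop) (v : H) :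
    cstL hU v = cst U v := rfl

theorem actE_bs (U : Ultrafilter ℕ) (hU : (U : Filter ℕ) ≤ atTop) (s : Sq (H ≃ₗᵢ[ℂ] H))
    (f : ℤ → H) (hf : ∃ C : ℝ, ∀ n, ‖f n‖ ≤ C) (hf' : ∃ C : ℝ, ∀ n, ‖s.f n (f (n + s.k))‖ ≤ C) :
    actE U hU s (bs U f hf) = bs U (fun n => s.f n (f (n + s.k))) hf' := by
  rw [bs, actE_coe]
  rfl

theorem actE_W_cst (U : Ultrafilter ℕ) (hU : (U : Filter ℕ) ≤ atTop) (v : H) :
    actE U hU Sq.W (cst U v) = cst U v := by
  rw [cst, actE_bs U hU Sq.W _ _ ⟨‖v‖, fun n => le_rfl⟩]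
  rfl

end Pool.Agent.Helper29.NU
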