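import Pool.Agent.Helper29.NU.Sq
import Pool.Agent.Helper29.NU.Rel

/-! The group generated by the shift and a conjugate of the shift by a sequence. -/

set_option autoImplicit false
set_option linter.style.haveILetI false
set_option linter.unusedSectionVars false

open Subgroup
open scoped commutatorElement

namespace Pool.Agent.Helper29.NU

variable {K : Type*} [Group K]

/-- the group generated by the shift and its conjugate by the sequence `q` -/
def Lam (q : ℤ → K) : Subgroup (Sq K) := closure {Sq.W, Sq.W' q}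

/-- the group generated by the quotients of the values of `q` -/
def KQ (q : ℤ → K) : Subgroup K := closure (Set.range fun n => q n * (q (n + 1))⁻¹)

theorem W_mem (q : ℤ → K) : Sq.W ∈ Lam q := subset_closure (Or.inl rfl)

theorem W'_mem (q : ℤ → K) : Sq.W' q ∈ Lam q := subset_closure (Or.inr rfl)

theorem W_zpow (j : ℤ) : (Sq.W : Sq K) ^ j = ⟨fun _ => 1, j⟩ := by
  have h1 : ∀ n : ℕ, (Sq.W : Sq K) ^ n = ⟨fun _ => 1, n⟩ := by
    intro n
    induction n with
    | zero => rfl
    | succ n ih =>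
      rw [pow_succ, ih]
      refine Sq.ext (funext fun i => ?_) ?_
      · rw [Sq.mul_f]
        exact one_mul _
      · rw [Sq.mul_k]
        push_cast
        rfl
  rcases j with n | n
  · rw [Int.ofNat_eq_natCast, zpow_natCast, h1]
  · rw [zpow_negSucc, h1]
    refine Sq.ext (funext fun i => ?_) ?_
    · rw [Sq.inv_f]
      exact inv_one
    · rw [Sq.inv_k, Int.negSucc_eq]
      push_cast
      rfl

theorem W'_pow (q : ℤ → K) (j : ℕ) :
    (Sq.W' q) ^ j = ⟨fun n => q n * (q (n + j))⁻¹, j⟩ := by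
  induction j with
  | zero =>
    refine Sq.ext (funext fun i => ?_) rfl
    show (1 : K) = q i * (q (i + ((0 : ℕ) : ℤ)))⁻¹
    rw [Nat.cast_zero, add_zero, mul_inv_cancel]
  | succ j ih =>
    rw [pow_succ, ih]
    refine Sq.ext (funext fun i => ?_) ?_
    · rw [Sq.mul_f]
      show q i * (q (i + j))⁻¹ * (q (i + j) * (q (i + j + 1))⁻¹) = q i * (q (i + (j + 1 : ℕ)))⁻¹
      rw [mul_assoc, inv_mul_cancel_left]
      congr 3
      push_cast
      ring
    · rw [Sq.mul_k]
      push_cast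
      rfl

theorem lcs_one_k (q : ℤ → K) {a : Sq K} (ha : a ∈ (Lam q).lowerCentralSeries 1) : a.k = 0 := by
  have h1 : (Lam q).lowerCentralSeries 1 ≤ (Sq.kHom : Sq K →* Multiplicative ℤ).ker := by
    rw [Subgroup.lowerCentralSeries_succ, Subgroup.lowerCentralSeries_zero, commutator_le]
    intro x _ y _
    rw [MonoidHom.mem_ker, map_commutatorElement, commutatorElement_eq_one_iff_mul_comm]
    exact mul_comm _ _
  exact congrArg Multiplicative.toAdd (h1 ha)

/-- a sequence without shift which commutes with the shift is constant -/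
theorem const_of_commute {a : Sq K} (_ : a.k = 0) (h : Commute a Sq.W) (n : ℤ) :
    a.f n = a.f 0 := by
  have h1 : ∀ n, a.f (n + 1) = a.f n := by
    intro n
    have h2 := congrFun (congrArg Sq.f h.eq) n
    rw [Sq.mul_f, Sq.mul_f] at h2
    have h3 : a.f n * 1 = 1 * a.f (n + 1) := h2
    rw [one_mul, mul_one] at h3
    exact h3.symm
  induction n using Int.induction_on with
  | zero => rfl
  | succ i ih => rw [h1, ih]
  | pred i ih =>
    have h2 := h1 (-(i : ℤ) - 1)
    rw [sub_add_cancel] at h2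
    rw [← h2, ih]

/-- the difference sequence -/
def Df (q : ℤ → K) : Sq K := ⟨fun n => q n * (q (n + 1))⁻¹, 0⟩

theorem Df_mem (q : ℤ → K) : Df q ∈ Lam q := by
  have h1 : Df q = Sq.W' q * Sq.W⁻¹ := by
    refine Sq.ext (funext fun i => ?_) ?_
    · rw [Sq.mul_f, Sq.inv_f]
      show q i * (q (i + 1))⁻¹ = q i * (q (i + 1))⁻¹ * (1)⁻¹
      rw [inv_one, mul_one]
    · rw [Sq.mul_k, Sq.inv_k]
      show (0 : ℤ) = 1 + -1
      norm_num
  rw [h1]
  exact mul_mem (W'_mem q) (inv_mem (W_mem q))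

/-- the central elements of the last term of the lower central series -/
theorem last_const {q : ℤ → K} {k : ℕ} (hc : (Lam q).lowerCentralSeries (k + 2) = ⊥) {z : Sq K}
    (hz : z ∈ (Lam q).lowerCentralSeries (k + 1)) :
    z.k = 0 ∧ (∀ n, z.f n = z.f 0) ∧ ∀ a ∈ KQ q, Commute (z.f 0) a := by
  have h1 : z ∈ (Lam q).lowerCentralSeries 1 :=
    (Lam q).lowerCentralSeries_antitone (by omega) hz
  have hk := lcs_one_k q h1
  have h2 := const_of_commute hk (central_rel hc hz (W_mem q))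
  refine ⟨hk, h2, ?_⟩
  have h3 : KQ q ≤ centralizer {z.f 0} := by
    rw [KQ, closure_le]
    rintro _ ⟨n, rfl⟩
    rw [SetLike.mem_coe, mem_centralizer_singleton_iff]
    have h4 := congrFun (congrArg Sq.f (central_rel hc hz (Df_mem q)).eq) n
    rw [Sq.mul_f, Sq.mul_f, hk] at h4
    have h5 : z.f n * (q (n + 0) * (q (n + 0 + 1))⁻¹) =
      q n * (q (n + 1))⁻¹ * z.f (n + 0) := h4
    rw [add_zero, h2 n] at h5
    exact h5.symm
  intro a ha
  have h4 := h3 ha
  rw [mem_centralizer_singleton_iff] at h4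
  exact h4.symm

theorem quot_mem_KQ (q : ℤ → K) (n l : ℤ) : q n * (q l)⁻¹ ∈ KQ q := by
  have h1 : ∀ (j : ℕ) (n : ℤ), q n * (q (n + j))⁻¹ ∈ KQ q := by
    intro j
    induction j with
    | zero =>
      intro n
      simp
    | succ j ih =>
      intro n
      have e : q n * (q (n + (j + 1 : ℕ)))⁻¹ =
          (q n * (q (n + j))⁻¹) * (q (n + j) * (q (n + j + 1))⁻¹) := by
        rw [mul_assoc, inv_mul_cancel_left]
        congr 3
        push_cast
        ring
      rw [e]
      exact mul_mem (ih n) (subset_closure ⟨n + j, rfl⟩)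
  rcases le_total n l with h | h
  · obtain ⟨j, hj⟩ := Int.eq_ofNat_of_zero_le (sub_nonneg.2 h)
    have e : l = n + j := by omega
    rw [e]
    exact h1 j n
  · obtain ⟨j, hj⟩ := Int.eq_ofNat_of_zero_le (sub_nonneg.2 h)
    have e : n = l + j := by omega
    have h2 := inv_mem (h1 j l)
    rw [mul_inv_rev, inv_inv] at h2
    rw [e]
    exact h2

/-- the sequences without shift -/
def S0 (K : Type*) [Group K] : Subgroup (Sq K) := (Sq.kHom : Sq K →* Multiplicative ℤ).ker

theorem mem_S0 {a : Sq K} : a ∈ S0 K ↔ a.k = 0 := by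
  constructor
  · intro h
    exact congrArg Multiplicative.toAdd h
  · intro h
    exact congrArg Multiplicative.ofAdd h

/-- evaluation at `0` -/
def ev0 : S0 K →* K where
  toFun a := (a : Sq K).f 0
  map_one' := rfl
  map_mul' a b := by
    show (a : Sq K).f 0 * (b : Sq K).f (0 + (a : Sq K).k) = _
    rw [mem_S0.1 a.2, add_zero]

theorem map_subgroupOf_lcs {U L : Type*} [Group U] [Group L] (S : Subgroup U) (φ : S →* L)
    (G : Subgroup U) (n : ℕ) {z : L}
    (hz : z ∈ ((G.subgroupOf S).map φ).lowerCentralSeries n) :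
    ∃ a : S, φ a = z ∧ (a : U) ∈ G.lowerCentralSeries n := by
  rw [← Subgroup.map_lowerCentralSeries] at hz
  obtain ⟨a, ha, rfl⟩ := hz
  refine ⟨a, rfl, ?_⟩
  have h1 := mem_map_of_mem S.subtype ha
  rw [Subgroup.map_lowerCentralSeries, subgroupOf_map_subtype] at h1
  exact Subgroup.lowerCentralSeries_mono n inf_le_left h1

theorem map_subgroupOf_bot {U L : Type*} [Group U] [Group L] (S : Subgroup U) (φ : S →* L)
    (G : Subgroup U) {n : ℕ} (hG : G.lowerCentralSeries n = ⊥) :
    ((G.subgroupOf S).map φ).lowerCentralSeries n = ⊥ := by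
  rw [eq_bot_iff]
  intro z hz
  obtain ⟨a, rfl, ha⟩ := map_subgroupOf_lcs S φ G n hz
  rw [hG, mem_bot] at ha
  have h2 : a = 1 := Subtype.ext ha
  rw [h2, map_one]
  exact one_mem _

theorem conj_W (a : Sq K) (_ : a.k = 0) (i : ℤ) :
    (Sq.W ^ i * a * (Sq.W ^ i)⁻¹).f = fun n => a.f (n + i) := by
  rw [W_zpow]
  funext n
  rw [Sq.mul_f, Sq.mul_f, Sq.inv_f]
  show 1 * a.f (n + i) * (1)⁻¹ = _
  rw [one_mul, inv_one, mul_one]

theorem conj_W_k (a : Sq K) (hk : a.k = 0) (i : ℤ) :
    (Sq.W ^ i * a * (Sq.W ^ i)⁻¹).k = 0 := by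
  rw [W_zpow, Sq.mul_k, Sq.mul_k, Sq.inv_k, hk]
  show i + 0 + -i = 0
  ring

theorem KQ_lcs {q : ℤ → K} {c : ℕ} (hc : (Lam q).lowerCentralSeries c = ⊥) :
    (KQ q).lowerCentralSeries c = ⊥ := by
  have h1 : KQ q ≤ ((Lam q).subgroupOf (S0 K)).map ev0 := by
    rw [KQ, closure_le]
    rintro _ ⟨n, rfl⟩
    refine ⟨⟨Sq.W ^ n * Df q * (Sq.W ^ n)⁻¹, mem_S0.2 (conj_W_k _ rfl n)⟩, ?_, ?_⟩
    · show _ ∈ (Lam q).subgroupOf (S0 K)
      rw [mem_subgroupOf]
      exact mul_mem (mul_mem (zpow_mem (W_mem q) n) (Df_mem q)) (inv_mem (zpow_mem (W_mem q) n))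
    · show (Sq.W ^ n * Df q * (Sq.W ^ n)⁻¹).f 0 = _
      rw [conj_W _ rfl]
      show q (0 + n) * (q (0 + n + 1))⁻¹ = _
      rw [zero_add]
  rw [eq_bot_iff, ← map_subgroupOf_bot (S0 K) ev0 (Lam q) hc]
  exact Subgroup.lowerCentralSeries_mono c h1

/-- iterated commutators with the shift -/
def itc (q : ℤ → K) : ℕ → Sq K
  | 0 => (Df q)⁻¹
  | j + 1 => ⁅(Sq.W : Sq K), itc q j⁆

theorem itc_k (q : ℤ → K) (j : ℕ) : (itc q j).k = 0 := by
  induction j with
  | zero =>
    show -(0 : ℤ) = 0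
    norm_num
  | succ j ih =>
    show (⁅(Sq.W : Sq K), itc q j⁆).k = 0
    rw [commutatorElement_def, Sq.mul_k, Sq.mul_k, Sq.mul_k, Sq.inv_k, Sq.inv_k, ih]
    show (1 : ℤ) + 0 + -1 + -0 = 0
    norm_num

theorem itc_mem (q : ℤ → K) (j : ℕ) : itc q j ∈ (Lam q).lowerCentralSeries j := by
  induction j with
  | zero => exact inv_mem (Df_mem q)
  | succ j ih =>
    show ⁅(Sq.W : Sq K), itc q j⁆ ∈ _
    rw [← commutatorElement_inv]
    exact inv_mem (commutator_mem_commutator ih (W_mem q))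

theorem itc_f (q : ℤ → K) (j : ℕ) (n : ℤ) :
    (itc q (j + 1)).f n = (itc q j).f (n + 1) * ((itc q j).f n)⁻¹ := by
  show (⁅(Sq.W : Sq K), itc q j⁆).f n = _
  have h1 := conj_W (itc q j) (itc_k q j) 1
  rw [zpow_one] at h1
  have h2 := conj_W_k (itc q j) (itc_k q j) 1
  rw [zpow_one] at h2
  rw [commutatorElement_def, Sq.mul_f, h1, h2, Sq.inv_f, itc_k, add_zero, sub_zero]

theorem itc_mem_KQ (q : ℤ → K) (j : ℕ) (n : ℤ) : (itc q j).f n ∈ KQ q := by
  induction j generalizing n with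
  | zero =>
    show ((Df q)⁻¹).f n ∈ KQ q
    rw [Sq.inv_f]
    exact inv_mem (quot_mem_KQ q _ _)
  | succ j ih =>
    rw [itc_f]
    exact mul_mem (ih _) (inv_mem (ih _))

/-- if a subgroup contains the quotients of the values of `q` along a residue class, then it
contains powers of all elements of the group generated by the quotients of the values of `q` -/
theorem hasPow_AP {q : ℤ → K} {c : ℕ} (hc : (Lam q).lowerCentralSeries c = ⊥) {m : ℕ}
    (hm : 0 < m) (r : ℤ) (J : Subgroup K) (h : ∀ n : ℤ, q (m * n + r) * (q r)⁻¹ ∈ J) {a : K}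
    (ha : a ∈ KQ q) : HasPow J a := by
  set J' := J.subgroupOf (KQ q) with hJ'
  have hc' : (⊤ : Subgroup (KQ q)).lowerCentralSeries c = ⊥ := top_lcs_bot (KQ_lcs hc)
  let b : ℤ → Additive (TF J') := fun n => Additive.ofMul (tf J' ⟨q n * (q r)⁻¹, quot_mem_KQ q n r⟩)
  have hΔ : ∀ j : ℕ, (fwdDiff 1)^[j + 1] b =
      fun n => Additive.ofMul (tf J' ⟨(itc q j).f n, itc_mem_KQ q j n⟩) := by
    intro j
    induction j with
    | zero =>
      funext n
      show Additive.ofMul (tf J' ⟨q (n + 1) * (q r)⁻¹, quot_mem_KQ q (n + 1) r⟩) -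
        Additive.ofMul (tf J' ⟨q n * (q r)⁻¹, quot_mem_KQ q n r⟩) = _
      rw [← ofMul_div, ← map_div]
      congr 2
      apply Subtype.ext
      show q (n + 1) * (q r)⁻¹ / (q n * (q r)⁻¹) = ((Df q)⁻¹).f n
      rw [Sq.inv_f]
      show q (n + 1) * (q r)⁻¹ / (q n * (q r)⁻¹) = (q (n - 0) * (q (n - 0 + 1))⁻¹)⁻¹
      rw [sub_zero, div_eq_mul_inv]
      group
    | succ j ih =>
      rw [Function.iterate_succ_apply', ih]
      funext n
      show Additive.ofMul (tf J' ⟨(itc q j).f (n + 1), itc_mem_KQ q j (n + 1)⟩) -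
        Additive.ofMul (tf J' ⟨(itc q j).f n, itc_mem_KQ q j n⟩) = _
      rw [← ofMul_div, ← map_div]
      congr 2
      apply Subtype.ext
      show (itc q j).f (n + 1) / (itc q j).f n = (itc q (j + 1)).f n
      rw [itc_f, div_eq_mul_inv]
  have hΔc : (fwdDiff 1)^[c + 1] b = 0 := by
    rw [hΔ]
    funext n
    have h1 := itc_mem q c
    rw [hc, mem_bot] at h1
    have h2 : (⟨(itc q c).f n, itc_mem_KQ q c n⟩ : KQ q) = 1 := by
      apply Subtype.ext
      show (itc q c).f n = 1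
      rw [h1]
      rfl
    rw [h2, map_one]
    rfl
  have hb : ∀ t : ℤ, b t = 0 := by
    intro t
    have hinj : Function.Injective fun i : ℕ => (m : ℤ) * i + r := by
      intro i j e
      have e' : (m : ℤ) * i + r = m * j + r := e
      have h1 : (m : ℤ) * i = m * j := by omega
      have h2 : (m : ℤ) ≠ 0 := by omega
      exact_mod_cast mul_left_cancel₀ h2 h1
    refine poly_eq_zero (tf_torsion_free J') (c + 1) b hΔc
      ((Finset.range (c + 1)).map ⟨_, hinj⟩) (by rw [Finset.card_map, Finset.card_range]) ?_ t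
    intro s hs
    obtain ⟨i, -, rfl⟩ := Finset.mem_map.1 hs
    have h1 : tf J' ⟨q ((m : ℤ) * i + r) * (q r)⁻¹, quot_mem_KQ q _ r⟩ = 1 := by
      apply tf_of_mem
      rw [hJ', mem_subgroupOf]
      exact h i
    show Additive.ofMul (tf J' ⟨q ((m : ℤ) * i + r) * (q r)⁻¹, quot_mem_KQ q _ r⟩) = 0
    rw [h1]
    rfl
  have hb' : ∀ t : ℤ, tf J' ⟨q t * (q r)⁻¹, quot_mem_KQ q t r⟩ = 1 := fun t =>
    Additive.ofMul.injective (hb t)
  have h2 : ∀ z : KQ q, tf J' z = 1 := by
    rintro ⟨z, hz⟩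
    induction hz using closure_induction with
    | mem z hz =>
      obtain ⟨n, rfl⟩ := hz
      have e : (⟨q n * (q (n + 1))⁻¹, subset_closure ⟨n, rfl⟩⟩ : KQ q) =
          ⟨q n * (q r)⁻¹, quot_mem_KQ q n r⟩ * ⟨q (n + 1) * (q r)⁻¹, quot_mem_KQ q (n + 1) r⟩⁻¹ := by
        apply Subtype.ext
        show q n * (q (n + 1))⁻¹ = q n * (q r)⁻¹ * (q (n + 1) * (q r)⁻¹)⁻¹
        group
      have h3 := congrArg (tf J') e
      rw [map_mul, map_inv, hb', hb', inv_one, mul_one] at h3
      exact h3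
    | one => exact map_one _
    | mul a b ha hb h3 h4 =>
      have h5 := congrArg₂ (· * ·) h3 h4
      simp only [mul_one] at h5
      rw [← map_mul] at h5
      exact h5
    | inv a ha h3 =>
      have h5 := congrArg (·⁻¹) h3
      simp only [inv_one] at h5
      rw [← map_inv] at h5
      exact h5
  obtain ⟨n, hn, h3⟩ := hasPow_of_tf hc' J' h2 ⟨a, ha⟩
  rw [hJ', mem_subgroupOf] at h3
  exact ⟨n, hn, h3⟩

/-- the elements whose shift is divisible by `m` -/
def Sm (K : Type*) [Group K] (m : ℕ) : Subgroup (Sq K) where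
  carrier := {a | (m : ℤ) ∣ a.k}
  mul_mem' := fun ha hb => dvd_add ha hb
  one_mem' := dvd_zero _
  inv_mem' := fun ha => (dvd_neg).2 ha

/-- restriction to a residue class -/
def resHom (K : Type*) [Group K] {m : ℕ} (hm : 0 < m) (r : ℤ) : Sm K m →* Sq K where
  toFun a := ⟨fun n => (a : Sq K).f (m * n + r), (a : Sq K).k / m⟩
  map_one' := by
    refine Sq.ext (funext fun _ => rfl) ?_
    show (0 : ℤ) / m = 0
    exact Int.zero_ediv _
  map_mul' a b := by
    obtain ⟨j, hj⟩ := a.2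
    have hm' : (m : ℤ) ≠ 0 := by omega
    refine Sq.ext (funext fun n => ?_) ?_
    · show (a : Sq K).f (m * n + r) * (b : Sq K).f (m * n + r + (a : Sq K).k) =
        (a : Sq K).f (m * n + r) * (b : Sq K).f (m * (n + (a : Sq K).k / m) + r)
      rw [hj, Int.mul_ediv_cancel_left _ hm']
      congr 2
      ring
    · show ((a : Sq K).k + (b : Sq K).k) / m = (a : Sq K).k / m + (b : Sq K).k / m
      exact Int.add_ediv_of_dvd_left a.2

/-- the class of the group of a sequence along a residue class -/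
theorem Lam_res {q : ℤ → K} {m : ℕ} (hm : 0 < m) (r : ℤ) {n : ℕ}
    (h : (closure {(Sq.W : Sq K) ^ m, Sq.W' q ^ m}).lowerCentralSeries n = ⊥) :
    (Lam fun i => q (m * i + r)).lowerCentralSeries n = ⊥ := by
  have hm' : (m : ℤ) ≠ 0 := by omega
  have h1 : (Sq.W : Sq K) ^ m = ⟨fun _ => 1, m⟩ := by
    have := W_zpow (K := K) m
    rwa [zpow_natCast] at this
  have h2 := W'_pow q m
  have hle : (Lam fun i => q (m * i + r)) ≤
      ((closure {(Sq.W : Sq K) ^ m, Sq.W' q ^ m}).subgroupOf (Sm K m)).map (resHom K hm r) := by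
    rw [Lam, closure_le]
    rintro _ (rfl | rfl)
    · have h3 : (Sq.W : Sq K) ^ m ∈ Sm K m := by
        rw [h1]
        exact dvd_refl _
      refine ⟨⟨_, h3⟩, ?_, ?_⟩
      · show _ ∈ (closure {(Sq.W : Sq K) ^ m, Sq.W' q ^ m}).subgroupOf (Sm K m)
        rw [mem_subgroupOf]
        exact subset_closure (Or.inl rfl)
      · refine Sq.ext (funext fun n => ?_) ?_
        · show ((Sq.W : Sq K) ^ m).f (m * n + r) = 1
          rw [h1]
        · show ((Sq.W : Sq K) ^ m).k / m = 1
          rw [h1]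
          exact Int.ediv_self hm'
    · have h3 : (Sq.W' q) ^ m ∈ Sm K m := by
        rw [h2]
        exact dvd_refl _
      refine ⟨⟨_, h3⟩, ?_, ?_⟩
      · show _ ∈ (closure {(Sq.W : Sq K) ^ m, Sq.W' q ^ m}).subgroupOf (Sm K m)
        rw [mem_subgroupOf]
        exact subset_closure (Or.inr rfl)
      · refine Sq.ext (funext fun n => ?_) ?_
        · show ((Sq.W' q) ^ m).f (m * n + r) = q (m * n + r) * (q (m * (n + 1) + r))⁻¹
          rw [h2]
          show q (m * n + r) * (q (m * n + r + m))⁻¹ = _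
          congr 3
          ring
        · show ((Sq.W' q) ^ m).k / m = 1
          rw [h2]
          exact Int.ediv_self hm'
  rw [eq_bot_iff, ← map_subgroupOf_bot (Sm K m) (resHom K hm r) _ h]
  exact Subgroup.lowerCentralSeries_mono n hle

end Pool.Agent.Helper29.NU
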