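import Pool.Agent.Helper29.NU.Rel
import Pool.Agent.Helper29.NU.Cnt

/-! The main orthogonality step. -/

set_option autoImplicit false
set_option linter.style.haveILetI false
set_option linter.unusedSectionVars false

open Submodule
open scoped commutatorElement

namespace Pool.Agent.Helper29.NU

universe u

/-- the projections on the rational vectors of the elements of a nilpotent group of unitaries
commute, and vectors which are rational for two elements are rational for their product -/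
def FProp (c : ℕ) : Prop := ∀ (E : Type u) [NormedAddCommGroup E] [InnerProductSpace ℂ E]
  [CompleteSpace E] (G : Subgroup (E ≃ₗᵢ[ℂ] E)), G.lowerCentralSeries c = ⊥ →
  ∀ g ∈ G, ∀ h ∈ G, Commute (R g) (R h) ∧ V g ⊓ V h ≤ V (g * h)

variable {E : Type u} [NormedAddCommGroup E] [InnerProductSpace ℂ E] [CompleteSpace E]

/-- the elements of `G` for which `v` is rational -/
def ratl {c : ℕ} (ih : FProp.{u} c) (G : Subgroup (E ≃ₗᵢ[ℂ] E))
    (hG : G.lowerCentralSeries c = ⊥) (v : E) : Subgroup (E ≃ₗᵢ[ℂ] E) where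
  carrier := {a | a ∈ G ∧ v ∈ V a}
  mul_mem' := by
    rintro a b ⟨ha, hva⟩ ⟨hb, hvb⟩
    exact ⟨mul_mem ha hb, (ih E G hG a ha b hb).2 ⟨hva, hvb⟩⟩
  one_mem' := ⟨one_mem G, by rw [V_one]; exact mem_top⟩
  inv_mem' := by
    rintro a ⟨ha, hva⟩
    exact ⟨inv_mem ha, by rw [V_inv]; exact hva⟩

theorem cj_mem_cyc (g h : E ≃ₗᵢ[ℂ] E) (j : ℤ) : cj g h j ∈
    Subgroup.closure {g} ⊔ (Subgroup.closure {g, h}).lowerCentralSeries 1 := by
  have hg : g ∈ Subgroup.closure {g, h} := Subgroup.subset_closure (Or.inl rfl)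
  have hh : h ∈ Subgroup.closure {g, h} := Subgroup.subset_closure (Or.inr rfl)
  have e : cj g h j = ⁅g, h ^ (-j)⁆⁻¹ * g := by
    rw [cj, commutatorElement_def]
    group
  rw [e]
  refine mul_mem (Subgroup.mem_sup_right (inv_mem ?_))
    (Subgroup.mem_sup_left (Subgroup.subset_closure rfl))
  exact Subgroup.commutator_mem_commutator hg (zpow_mem hh _)

theorem zpow_fix {f : E ≃ₗᵢ[ℂ] E} {x : E} (hf : f x = x) (k : ℤ) : (f ^ k) x = x := by
  rcases k with n | n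
  · rw [Int.ofNat_eq_natCast, zpow_natCast]
    exact pow_fix hf n
  · rw [zpow_negSucc]
    exact inv_fix (pow_fix hf _)

theorem stepB {k : ℕ} (ih : FProp.{u} (k + 1)) {g h : E ≃ₗᵢ[ℂ] E}
    (hc : (Subgroup.closure {g, h}).lowerCentralSeries (k + 2) = ⊥) {x y : E ≃ₗᵢ[ℂ] E}
    (hx : x ∈ (Subgroup.closure {g, h}).lowerCentralSeries k)
    (hy : y ∈ Subgroup.closure {g, h}) {m : ℕ} (hm : 0 < m) {u η : E} (hu : (h ^ m) u = u)
    (hη : (g ^ m) η = η) (huz : u ∈ (V ⁅x, y⁆)ᗮ) : inner ℂ u η = 0 := by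
  set z := ⁅x, y⁆ with hz
  have hg : g ∈ Subgroup.closure {g, h} := Subgroup.subset_closure (Or.inl rfl)
  have hh : h ∈ Subgroup.closure {g, h} := Subgroup.subset_closure (Or.inr rfl)
  have hle : Subgroup.closure {g ^ m, h ^ m} ≤ Subgroup.closure {g, h} := by
    rw [Subgroup.closure_le]
    rintro z (rfl | rfl)
    · exact pow_mem hg m
    · exact pow_mem hh m
  have hc' : (Subgroup.closure {g ^ m, h ^ m}).lowerCentralSeries (k + 2) = ⊥ := by
    rw [eq_bot_iff, ← hc]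
    exact Subgroup.lowerCentralSeries_mono _ hle
  set G1 := Subgroup.closure {g ^ m} ⊔ (Subgroup.closure {g ^ m, h ^ m}).lowerCentralSeries 1
    with hG1
  have hG1c : G1.lowerCentralSeries (k + 1) = ⊥ := by
    have hgm : g ^ m ∈ Subgroup.closure {g ^ m, h ^ m} := Subgroup.subset_closure (Or.inl rfl)
    rw [eq_bot_iff, ← hc']
    exact lcs_cyc_rel hgm k
  have hzmem : z ∈ (Subgroup.closure {g, h}).lowerCentralSeries (k + 1) :=
    Subgroup.commutator_mem_commutator hx hy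
  have hcj : ∀ j : ℤ, cj (g ^ m) (h ^ m) j ∈ G1 := fun j => cj_mem_cyc _ _ j
  have hcjΓ : ∀ j : ℤ, cj (g ^ m) (h ^ m) j ∈ Subgroup.closure {g, h} := fun j =>
    hle (CJ_le _ _ (cj_mem _ _ j))
  have hcz : ∀ j : ℤ, Commute (cj (g ^ m) (h ^ m) j) z := fun j =>
    (central_rel hc hzmem (hcjΓ j)).symm
  have hcount := count (K := fun j => Rt (cj (g ^ m) (h ^ m) j))
    (fun i j => (ih E G1 hG1c _ (hcj i) _ (hcj j)).1) (k + 1)
  have hbound : ∀ I : Finset ℤ,
      ∑ j ∈ I, ‖Pj (Rt (cj (g ^ m) (h ^ m) j)) u‖ ^ 2 ≤ ((k + 1 : ℕ) : ℝ) * ‖u‖ ^ 2 := by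
    intro I
    refine hcount I (V z)ᗮ ?_ ?_ u huz
    · intro j v hv
      rw [mem_orthogonal'] at hv ⊢
      intro w hw
      rw [pj_symm]
      exact hv _ (V_of_pj_comm (fun v => R_comm_apply (hcz j) v) hw)
    · intro S _ hS v hv hvS
      obtain ⟨n, hn, hzn⟩ := hasPow_last hc hx hy hm (ratl ih G1 hG1c v) S (le_of_eq hS.symm)
        (fun j hj => ⟨hcj j, hvS j hj⟩)
      have h1 : v ∈ V z := by
        rw [← V_pow z hn]
        exact hzn.2
      exact inner_self_eq_zero.1 ((mem_orthogonal _ _).1 hv v h1)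
  have hle2 : ∀ j : ℤ, ‖inner ℂ u η‖ ≤ ‖Pj (Rt (cj (g ^ m) (h ^ m) j)) u‖ * ‖η‖ := by
    intro j
    have h1 : ((h ^ m) ^ (-j)) u = u := zpow_fix hu _
    have h2 : inner ℂ u η = inner ℂ u (((h ^ m) ^ (-j)) η) := by
      conv_rhs => rw [← h1]
      exact (LinearIsometryEquiv.inner_map_map _ _ _).symm
    have h3 : ((h ^ m) ^ (-j)) η ∈ V (cj (g ^ m) (h ^ m) j) := by
      refine subset_closure ⟨1, one_pos, ?_⟩
      rw [pow_one]
      show (((h ^ m) ^ (-j)) * (g ^ m) * (h ^ m) ^ j) (((h ^ m) ^ (-j)) η) = _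
      rw [← mul_ap]
      have e : ((h ^ m) ^ (-j)) * (g ^ m) * (h ^ m) ^ j * (h ^ m) ^ (-j) =
          ((h ^ m) ^ (-j)) * (g ^ m) := by group
      rw [e, mul_ap, hη]
    have h4 : inner ℂ u η = inner ℂ (Pj (Rt (cj (g ^ m) (h ^ m) j)) u)
        (((h ^ m) ^ (-j)) η) := by
      rw [h2, pj_symm]
      congr 1
      exact (R_self.2 h3).symm
    rw [h4]
    refine (norm_inner_le_norm _ _).trans ?_
    rw [LinearIsometryEquiv.norm_map]
  by_contra hne
  have hpos : 0 < ‖inner ℂ u η‖ := norm_pos_iff.2 hne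
  obtain ⟨N, hN⟩ := exists_nat_gt (((k + 1 : ℕ) : ℝ) * ‖u‖ ^ 2 * ‖η‖ ^ 2 / ‖inner ℂ u η‖ ^ 2)
  rw [div_lt_iff₀ (by positivity)] at hN
  have h1 := hbound ((Finset.range N).map Nat.castEmbedding)
  have h2 : (N : ℝ) * ‖inner ℂ u η‖ ^ 2 ≤
      ∑ j ∈ (Finset.range N).map Nat.castEmbedding,
        ‖Pj (Rt (cj (g ^ m) (h ^ m) j)) u‖ ^ 2 * ‖η‖ ^ 2 := by
    have h3 : (N : ℝ) * ‖inner ℂ u η‖ ^ 2 =
        ∑ j ∈ (Finset.range N).map (Nat.castEmbedding : ℕ ↪ ℤ), ‖inner ℂ u η‖ ^ 2 := by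
      rw [Finset.sum_const, Finset.card_map, Finset.card_range, nsmul_eq_mul]
    rw [h3]
    refine Finset.sum_le_sum fun j _ => ?_
    rw [← mul_pow]
    exact pow_le_pow_left₀ (norm_nonneg _) (hle2 j) 2
  rw [← Finset.sum_mul] at h2
  have h3 := mul_le_mul_of_nonneg_right h1 (sq_nonneg ‖η‖)
  linarith

theorem stepB' {k : ℕ} (ih : FProp.{u} (k + 1)) {g h : E ≃ₗᵢ[ℂ] E}
    (hc : (Subgroup.closure {g, h}).lowerCentralSeries (k + 2) = ⊥) {x y : E ≃ₗᵢ[ℂ] E}
    (hx : x ∈ (Subgroup.closure {g, h}).lowerCentralSeries k)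
    (hy : y ∈ Subgroup.closure {g, h}) {u η : E} (hu : u ∈ V h) (hη : η ∈ V g) :
    inner ℂ (u - R ⁅x, y⁆ u) η = 0 := by
  have hh : h ∈ Subgroup.closure {g, h} := Subgroup.subset_closure (Or.inr rfl)
  have hzmem : ⁅x, y⁆ ∈ (Subgroup.closure {g, h}).lowerCentralSeries (k + 1) :=
    Subgroup.commutator_mem_commutator hx hy
  have hcz : Commute ⁅x, y⁆ h := central_rel hc hzmem hh
  have h1 : ∀ u ∈ Rt h, ∀ η ∈ V g, inner ℂ (u - R ⁅x, y⁆ u) η = 0 := by
    rintro u ⟨m, hm, hu⟩ η hη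
    refine inner_closure ?_ hη
    rintro η ⟨n, hn, hη⟩
    refine stepB ih hc hx hy (Nat.mul_pos hm hn) ?_ ?_ ?_
    · rw [pow_mul]
      refine pow_fix ?_ n
      rw [map_sub, hu]
      congr 1
      rw [← R_comm_apply (hcz.pow_right m), hu]
    · rw [mul_comm, pow_mul]
      exact pow_fix hη m
    · rw [mem_orthogonal']
      intro w hw
      exact pj_inner _ u hw
  have h2 : IsClosed {u : E | inner ℂ (u - R ⁅x, y⁆ u) η = 0} :=
    isClosed_eq ((continuous_id.sub (R ⁅x, y⁆).continuous).inner continuous_const)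
      continuous_const
  exact closure_minimal (s := ((Rt h : Submodule ℂ E) : Set E)) (fun u hu => h1 u hu η hη) h2 hu

end Pool.Agent.Helper29.NU
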